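import Pool.Agent.MP_b814b1_ag.Defs2

/-!
# MP_b814b1_ag, module P: adapted bases over the projective line
-/

open Polynomial Module
open scoped Topology

noncomputable section

namespace Pool.Agent.MP_b814b1_ag

namespace P1

section Deg

variable {k : Type} [Field k]

theorem degLE_zero (m : ℤ) : DegLE m (0 : RatFunc k) := Or.inl rfl

theorem degLE_mono {m m' : ℤ} {f : RatFunc k} (h : DegLE m f) (hm : m ≤ m') : DegLE m' f :=
  h.imp id fun h => h.trans hm

theorem degLE_add {m : ℤ} {f g : RatFunc k} (hf : DegLE m f) (hg : DegLE m g) :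
    DegLE m (f + g) := by
  rcases hf with rfl | hf
  · simpa using hg
  rcases eq_or_ne g 0 with rfl | hg0
  · rw [add_zero]; exact Or.inr hf
  rcases hg with hg | hg
  · exact absurd hg hg0
  rcases eq_or_ne (f + g) 0 with h | h
  · exact Or.inl h
  · exact Or.inr ((RatFunc.intDegree_add_le hg0 h).trans (max_le hf hg))

theorem degLE_neg {m : ℤ} {f : RatFunc k} (hf : DegLE m f) : DegLE m (-f) := by
  rcases hf with rfl | hf
  · simpa using degLE_zero m
  · exact Or.inr (by rwa [RatFunc.intDegree_neg])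

theorem degLE_sub {m : ℤ} {f g : RatFunc k} (hf : DegLE m f) (hg : DegLE m g) :
    DegLE m (f - g) := by
  rw [sub_eq_add_neg]; exact degLE_add hf (degLE_neg hg)

theorem degLE_mul {m m' : ℤ} {f g : RatFunc k} (hf : DegLE m f) (hg : DegLE m' g) :
    DegLE (m + m') (f * g) := by
  rcases eq_or_ne f 0 with rfl | hf0
  · simpa using degLE_zero _
  rcases eq_or_ne g 0 with rfl | hg0
  · simpa using degLE_zero _
  rcases hf with hf | hf
  · exact absurd hf hf0
  rcases hg with hg | hg
  · exact absurd hg hg0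
  refine Or.inr ?_
  rw [RatFunc.intDegree_mul hf0 hg0]
  exact add_le_add hf hg

theorem degLE_sum {ι : Type*} {m : ℤ} {s : Finset ι} {f : ι → RatFunc k}
    (h : ∀ i ∈ s, DegLE m (f i)) : DegLE m (∑ i ∈ s, f i) := by
  classical
  induction s using Finset.induction_on with
  | empty => simpa using degLE_zero m
  | insert a s ha ih =>
    rw [Finset.sum_insert ha]
    exact degLE_add (h a (Finset.mem_insert_self _ _))
      (ih fun i hi => h i (Finset.mem_insert_of_mem hi))

theorem degLE_C (c : k) : DegLE 0 (RatFunc.C c) := Or.inr (by rw [RatFunc.intDegree_C])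

theorem degLE_prod {ι : Type*} {m : ι → ℤ} {s : Finset ι} {f : ι → RatFunc k}
    (h : ∀ i ∈ s, DegLE (m i) (f i)) : DegLE (∑ i ∈ s, m i) (∏ i ∈ s, f i) := by
  classical
  induction s using Finset.induction_on with
  | empty => simpa using degLE_C (1 : k)
  | insert a s ha ih =>
    rw [Finset.sum_insert ha, Finset.prod_insert ha]
    exact degLE_mul (h a (Finset.mem_insert_self _ _))
      (ih fun i hi => h i (Finset.mem_insert_of_mem hi))

theorem intDegree_X_zpow (m : ℤ) : (RatFunc.X ^ m : RatFunc k).intDegree = m := by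
  have hX : (RatFunc.X : RatFunc k) ≠ 0 := RatFunc.X_ne_zero
  have hnat : ∀ n : ℕ, (RatFunc.X ^ n : RatFunc k).intDegree = n := by
    intro n
    induction n with
    | zero => simp
    | succ n ih =>
      rw [pow_succ, RatFunc.intDegree_mul (pow_ne_zero _ hX) hX, ih, RatFunc.intDegree_X]
      push_cast; rfl
  obtain ⟨n, rfl | rfl⟩ := m.eq_nat_or_neg
  · rw [zpow_natCast]; exact hnat n
  · rw [zpow_neg, RatFunc.intDegree_inv, zpow_natCast, hnat]

theorem degLE_zpow (m : ℤ) : DegLE m (RatFunc.X ^ m : RatFunc k) :=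
  Or.inr (intDegree_X_zpow m).le

/-- Leading coefficients. -/
theorem exists_lead {m : ℤ} {f : RatFunc k} (h : DegLE m f) :
    ∃ c : k, DegLE (m - 1) (f - RatFunc.C c * RatFunc.X ^ m) := by
  have hX : (RatFunc.X : RatFunc k) ≠ 0 := RatFunc.X_ne_zero
  -- reduction to `m = 0`
  suffices H : ∀ g : RatFunc k, DegLE 0 g → ∃ c : k, DegLE (-1) (g - RatFunc.C c) by
    have hg : DegLE 0 (f * RatFunc.X ^ (-m)) := by
      have := degLE_mul h (degLE_zpow (k := k) (-m))
      rwa [add_neg_cancel] at this
    obtain ⟨c, hc⟩ := H _ hg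
    refine ⟨c, ?_⟩
    have h2 := degLE_mul hc (degLE_zpow (k := k) m)
    have e : (f * RatFunc.X ^ (-m) - RatFunc.C c) * RatFunc.X ^ m
        = f - RatFunc.C c * RatFunc.X ^ m := by
      rw [sub_mul, mul_assoc, ← zpow_add₀ hX]; simp
    rw [e] at h2
    exact degLE_mono h2 (by omega)
  intro g hg
  rcases eq_or_ne g 0 with rfl | hg0
  · exact ⟨0, by simpa using degLE_zero (k := k) (-1)⟩
  rcases hg with hg | hg
  · exact absurd hg hg0
  have hden : g.denom ≠ 0 := RatFunc.denom_ne_zero g
  have hdeg : g.num.natDegree ≤ g.denom.natDegree := by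
    unfold RatFunc.intDegree at hg; omega
  set p := g.num with hp
  set q := g.denom with hq
  have hgpq : g = algebraMap k[X] (RatFunc k) p / algebraMap k[X] (RatFunc k) q :=
    (RatFunc.num_div_denom g).symm
  have hq' : (algebraMap k[X] (RatFunc k) q) ≠ 0 := RatFunc.algebraMap_ne_zero hden
  have hmon : q.Monic := RatFunc.monic_denom g
  set c := p.coeff q.natDegree with hc
  refine ⟨c, ?_⟩
  set r := p - Polynomial.C c * q with hr
  have hgr : g - RatFunc.C c = algebraMap k[X] (RatFunc k) r / algebraMap k[X] (RatFunc k) q := by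
    rw [eq_div_iff hq', sub_mul, hr, map_sub, map_mul]
    congr 1
    rw [hgpq, div_mul_cancel₀ _ hq']
  rcases eq_or_ne r 0 with hr0 | hr0
  · left; rw [hgr, hr0]; simp
  right
  rw [hgr, RatFunc.intDegree_div (RatFunc.algebraMap_ne_zero hr0) hq',
    RatFunc.intDegree_polynomial, RatFunc.intDegree_polynomial]
  have hrle : r.natDegree ≤ q.natDegree := by
    refine (natDegree_sub_le _ _).trans (max_le hdeg ?_)
    exact (natDegree_C_mul_le _ _)
  have hrne : r.natDegree ≠ q.natDegree := by
    intro h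
    have h1 : r.coeff q.natDegree = 0 := by
      rw [hr, coeff_sub, coeff_C_mul, hmon.coeff_natDegree, mul_one, hc, sub_self]
    have h2 : r.leadingCoeff ≠ 0 := leadingCoeff_ne_zero.2 hr0
    rw [leadingCoeff, h] at h2
    exact h2 h1
  omega

theorem lead_unique {m : ℤ} {c : k} (h : DegLE (m - 1) (RatFunc.C c * RatFunc.X ^ m)) :
    c = 0 := by
  by_contra hc
  have hX : (RatFunc.X : RatFunc k) ≠ 0 := RatFunc.X_ne_zero
  have hC : RatFunc.C c ≠ 0 := by
    intro h0
    exact hc (by simpa using h0)
  rcases h with h | h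
  · exact (mul_ne_zero hC (zpow_ne_zero _ hX)) h
  · rw [RatFunc.intDegree_mul hC (zpow_ne_zero _ hX), RatFunc.intDegree_C, intDegree_X_zpow] at h
    omega

theorem isPoly_add {f g : RatFunc k} (hf : IsPoly f) (hg : IsPoly g) : IsPoly (f + g) := by
  obtain ⟨p, rfl⟩ := hf
  obtain ⟨q, rfl⟩ := hg
  exact ⟨p + q, map_add _ _ _⟩

theorem isPoly_sub {f g : RatFunc k} (hf : IsPoly f) (hg : IsPoly g) : IsPoly (f - g) := by
  obtain ⟨p, rfl⟩ := hf
  obtain ⟨q, rfl⟩ := hg
  exact ⟨p - q, map_sub _ _ _⟩

theorem isPoly_mul {f g : RatFunc k} (hf : IsPoly f) (hg : IsPoly g) : IsPoly (f * g) := by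
  obtain ⟨p, rfl⟩ := hf
  obtain ⟨q, rfl⟩ := hg
  exact ⟨p * q, map_mul _ _ _⟩

theorem isPoly_zero : IsPoly (0 : RatFunc k) := ⟨0, map_zero _⟩

theorem isPoly_one : IsPoly (1 : RatFunc k) := ⟨1, map_one _⟩

theorem isPoly_C (c : k) : IsPoly (RatFunc.C c) := ⟨Polynomial.C c, rfl⟩

theorem isPoly_zpow {m : ℤ} (hm : 0 ≤ m) : IsPoly (RatFunc.X ^ m : RatFunc k) := by
  obtain ⟨n, rfl⟩ := Int.eq_ofNat_of_zero_le hm
  refine ⟨Polynomial.X ^ n, ?_⟩
  rw [map_pow, RatFunc.algebraMap_X]
  exact (zpow_natCast _ _).symm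

theorem intDegree_nonneg_of_isPoly {f : RatFunc k} (hf : IsPoly f) : 0 ≤ f.intDegree := by
  obtain ⟨p, rfl⟩ := hf
  rw [RatFunc.intDegree_polynomial]
  exact Int.natCast_nonneg _

theorem isPoly_det {n : ℕ} (M : Matrix (Fin n) (Fin n) (RatFunc k)) (h : ∀ i j, IsPoly (M i j)) :
    IsPoly M.det := by
  choose P hP using h
  refine ⟨(Matrix.of P).det, ?_⟩
  rw [RingHom.map_det]
  congr 1
  ext i j
  exact hP i j

theorem degLE_det {n : ℕ} (M : Matrix (Fin n) (Fin n) (RatFunc k)) (D : Fin n → ℤ)
    (h : ∀ i j, DegLE (D j) (M i j)) : DegLE (∑ j, D j) M.det := by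
  rw [Matrix.det_apply]
  refine degLE_sum fun σ _ => ?_
  have h1 : DegLE (∑ j, D j) (∏ j, M (σ j) j) := degLE_prod fun j _ => h _ _
  rcases Int.units_eq_one_or (Equiv.Perm.sign σ) with hs | hs
  · rw [hs, one_smul]; exact h1
  · rw [hs, Units.neg_smul, one_smul]; exact degLE_neg h1

end Deg

section Bases

variable {k : Type} [Field k] {n : ℕ} {V : Type} [AddCommGroup V] [Module (RatFunc k) V]

/-- The two bases generate the same `k[X]`-lattice. -/
def SameLat (b e : Basis (Fin n) (RatFunc k) V) : Prop :=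
  ∀ v, (∀ i, IsPoly (b.repr v i)) ↔ ∀ i, IsPoly (e.repr v i)

theorem le_sum {b c e : Basis (Fin n) (RatFunc k) V} (h : SameLat b e) {D : Fin n → ℤ}
    (hD : ∀ i j, DegLE (D i) (c.repr (e i) j)) : (c.toMatrix b).det.intDegree ≤ ∑ i, D i := by
  have hP : IsPoly (b.toMatrix e).det := by
    refine isPoly_det _ fun i j => ?_
    refine (h (e j)).2 (fun l => ?_) i
    rw [Basis.repr_self]
    rcases eq_or_ne j l with rfl | hjl
    · rw [Finsupp.single_eq_same]; exact isPoly_one
    · rw [Finsupp.single_eq_of_ne' hjl]; exact isPoly_zero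
  have hmul : (c.toMatrix e).det = (c.toMatrix b).det * (b.toMatrix e).det := by
    rw [← Matrix.det_mul, Basis.toMatrix_mul_toMatrix]
  have h1 : (c.toMatrix b).det ≠ 0 := by
    have : (c.toMatrix b).det * (b.toMatrix c).det = 1 := by
      rw [← Matrix.det_mul, Basis.toMatrix_mul_toMatrix, Basis.toMatrix_self, Matrix.det_one]
    exact left_ne_zero_of_mul_eq_one this
  have h2 : (b.toMatrix e).det ≠ 0 := by
    have : (b.toMatrix e).det * (e.toMatrix b).det = 1 := by
      rw [← Matrix.det_mul, Basis.toMatrix_mul_toMatrix, Basis.toMatrix_self, Matrix.det_one]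
    exact left_ne_zero_of_mul_eq_one this
  have hd : DegLE (∑ j, D j) (c.toMatrix e).det := degLE_det _ _ fun i j => hD j i
  rcases hd with hd | hd
  · exact absurd hd (by rw [hmul]; exact mul_ne_zero h1 h2)
  · rw [hmul, RatFunc.intDegree_mul h1 h2] at hd
    have := intDegree_nonneg_of_isPoly hP
    omega

/-- Replacing one vector of a basis. -/
theorem exists_replace (e : Basis (Fin n) (RatFunc k) V) (i0 : Fin n) (p : Fin n → RatFunc k)
    (hp : ∀ i, IsPoly (p i)) (hp0 : p i0 = 1) :
    ∃ e' : Basis (Fin n) (RatFunc k) V, SameLat e e' ∧ (e' i0 = ∑ i, p i • e i) ∧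
      ∀ i, i ≠ i0 → e' i = e i := by
  classical
  set w : V := ∑ i, (if i = i0 then 0 else p i) • e i with hw
  have hwr : ∀ i, e.repr w i = if i = i0 then 0 else p i := by
    intro i
    rw [hw, Basis.repr_sum_self]
  have hf : e.coord i0 w = 0 := by
    rw [Basis.coord_apply, hwr, if_pos rfl]
  set T := LinearEquiv.transvection hf with hT
  have hTa : ∀ v, T v = v + e.coord i0 v • w := fun v => by
    rw [hT]; rfl
  have hsum : ∑ i, p i • e i = e i0 + w := by
    rw [hw, ← Finset.add_sum_erase _ _ (Finset.mem_univ i0),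
      ← Finset.add_sum_erase (a := i0) (f := fun i => (if i = i0 then 0 else p i) • e i) _
        (Finset.mem_univ i0)]
    rw [if_pos rfl, zero_smul, zero_add, hp0, one_smul]
    congr 1
    refine Finset.sum_congr rfl fun i hi => ?_
    rw [if_neg (Finset.ne_of_mem_erase hi)]
  refine ⟨e.map T, ?_, ?_, ?_⟩
  · intro v
    have key : ∀ v, e.repr (T v) = e.repr v + e.coord i0 v • e.repr w := by
      intro v; rw [hTa, map_add, map_smul]
    obtain ⟨u, rfl⟩ := T.surjective v
    have h1 : ∀ i, (e.map T).repr (T u) i = e.repr u i := by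
      intro i; simp [Basis.map_repr]
    have h2 : ∀ i, e.repr (T u) i = e.repr u i + e.repr u i0 * (if i = i0 then 0 else p i) := by
      intro i
      rw [key, Finsupp.add_apply, Finsupp.smul_apply, hwr, Basis.coord_apply, smul_eq_mul]
    simp only [h1, h2]
    constructor
    · intro h i
      have h0 : IsPoly (e.repr u i0) := by simpa using h i0
      have h3 := isPoly_sub (h i) (isPoly_mul h0 (g := if i = i0 then 0 else p i)
        (by split_ifs; exacts [isPoly_zero, hp i]))
      simpa using h3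
    · intro h i
      exact isPoly_add (h i) (isPoly_mul (h i0) (by split_ifs; exacts [isPoly_zero, hp i]))
  · rw [Basis.map_apply, hTa, hsum]
    simp
  · intro i hi
    rw [Basis.map_apply, hTa, Basis.coord_apply, Basis.repr_self,
      Finsupp.single_eq_of_ne' hi, zero_smul, add_zero]

/-- The conclusion when the leading vectors are independent. -/
theorem of_independent {c e : Basis (Fin n) (RatFunc k) V} {D : Fin n → ℤ}
    (lam : Fin n → Fin n → k)
    (hlam : ∀ i j, DegLE (D i - 1) (c.repr (e i) j - RatFunc.C (lam i j) * RatFunc.X ^ (D i)))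
    (hind : ∀ γ : Fin n → k, (∀ j, ∑ i, γ i * lam i j = 0) → γ = 0) (v : V) :
    (∀ i, DegLE 0 (c.repr v i)) ↔ ∀ i, DegLE (-D i) (e.repr v i) := by
  have hX : (RatFunc.X : RatFunc k) ≠ 0 := RatFunc.X_ne_zero
  have hD : ∀ i j, DegLE (D i) (c.repr (e i) j) := by
    intro i j
    have h1 := degLE_add (degLE_mono (hlam i j) (by omega : D i - 1 ≤ D i))
      (degLE_mul (degLE_C (lam i j)) (degLE_zpow (D i)) |> fun h => (zero_add (D i)) ▸ h)
    simpa using h1
  have hrep : ∀ j, c.repr v j = ∑ i, e.repr v i * c.repr (e i) j := by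
    intro j
    conv_lhs => rw [← e.sum_repr v]
    rw [map_sum, Finsupp.finsetSum_apply]
    refine Finset.sum_congr rfl fun i _ => ?_
    rw [map_smul, Finsupp.smul_apply, smul_eq_mul]
  constructor
  · intro hv
    -- descending induction
    have hstep : ∀ m : ℕ, (∀ i, DegLE ((m : ℤ) - D i) (e.repr v i)) →
        ∀ i, DegLE (-D i) (e.repr v i) := by
      intro m
      induction m with
      | zero => intro h i; simpa using h i
      | succ m ih =>
        intro h
        apply ih
        choose γ hγ using fun i => exists_lead (h i)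
        have hγ0 : γ = 0 := by
          apply hind
          intro j
          apply lead_unique (m := (m : ℤ) + 1)
          have h2 : RatFunc.C (∑ i, γ i * lam i j) * RatFunc.X ^ ((m : ℤ) + 1)
              = c.repr v j - ∑ i, (e.repr v i * c.repr (e i) j
                - RatFunc.C (γ i * lam i j) * RatFunc.X ^ ((m : ℤ) + 1)) := by
            rw [hrep j, Finset.sum_sub_distrib, sub_sub_cancel, map_sum, Finset.sum_mul]
          rw [h2]
          refine degLE_sub (degLE_mono (hv j) (by omega)) (degLE_sum fun i _ => ?_)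
          have e1 : e.repr v i * c.repr (e i) j
                - RatFunc.C (γ i * lam i j) * RatFunc.X ^ ((m : ℤ) + 1)
              = (e.repr v i - RatFunc.C (γ i) * RatFunc.X ^ (((m + 1 : ℕ) : ℤ) - D i))
                  * c.repr (e i) j
                + RatFunc.C (γ i) * RatFunc.X ^ (((m + 1 : ℕ) : ℤ) - D i)
                  * (c.repr (e i) j - RatFunc.C (lam i j) * RatFunc.X ^ (D i)) := by
            have e2 : (RatFunc.X : RatFunc k) ^ ((m : ℤ) + 1)
                = RatFunc.X ^ (((m + 1 : ℕ) : ℤ) - D i) * RatFunc.X ^ (D i) := by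
              rw [← zpow_add₀ hX]; congr 1; push_cast; ring
            rw [e2, map_mul]; ring
          rw [e1]
          refine degLE_add ?_ ?_
          · refine degLE_mono (degLE_mul (hγ i) (hD i j)) ?_
            push_cast; omega
          · refine degLE_mono (degLE_mul (degLE_mul (degLE_C (γ i)) (degLE_zpow _)) (hlam i j)) ?_
            push_cast; omega
        intro i
        have h3 := hγ i
        rw [hγ0] at h3
        refine degLE_mono (f := e.repr v i) ?_ (le_refl _)
        have h4 : DegLE (((m + 1 : ℕ) : ℤ) - D i - 1) (e.repr v i) := by simpa using h3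
        refine degLE_mono h4 ?_
        push_cast; omega
    -- existence of a bound
    obtain ⟨m, hm⟩ : ∃ m : ℕ, ∀ i, (e.repr v i).intDegree + D i ≤ m := by
      refine ⟨∑ i, ((e.repr v i).intDegree + D i).toNat, fun i => ?_⟩
      refine (Int.self_le_toNat _).trans ?_
      exact_mod_cast Finset.single_le_sum (f := fun i => ((e.repr v i).intDegree + D i).toNat)
        (fun _ _ => Nat.zero_le _) (Finset.mem_univ i)
    exact hstep m fun i => Or.inr (by have := hm i; omega)
  · intro hv j
    rw [hrep j]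
    refine degLE_sum fun i _ => ?_
    have := degLE_mul (hv i) (hD i j)
    rwa [neg_add_cancel] at this

end Bases

end P1

open P1

theorem exists_adapted {k : Type} [Field k] {n : ℕ} {V : Type} [AddCommGroup V]
    [Module (RatFunc k) V] (b c : Basis (Fin n) (RatFunc k) V) :
    ∃ (e : Basis (Fin n) (RatFunc k) V) (a : Fin n → ℤ),
      (∀ v, (∀ i, IsPoly (b.repr v i)) ↔ ∀ i, IsPoly (e.repr v i)) ∧
      (∀ v, (∀ i, DegLE 0 (c.repr v i)) ↔ ∀ i, DegLE (a i) (e.repr v i)) := by
  classical
  have hX : (RatFunc.X : RatFunc k) ≠ 0 := RatFunc.X_ne_zero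
  -- one step
  have step : ∀ (e : Basis (Fin n) (RatFunc k) V) (D : Fin n → ℤ), SameLat b e →
      (∀ i j, DegLE (D i) (c.repr (e i) j)) →
      (∃ (e : Basis (Fin n) (RatFunc k) V) (a : Fin n → ℤ),
      (∀ v, (∀ i, IsPoly (b.repr v i)) ↔ ∀ i, IsPoly (e.repr v i)) ∧
      (∀ v, (∀ i, DegLE 0 (c.repr v i)) ↔ ∀ i, DegLE (a i) (e.repr v i))) ∨
      ∃ (e' : Basis (Fin n) (RatFunc k) V) (D' : Fin n → ℤ), SameLat b e' ∧
        (∀ i j, DegLE (D' i) (c.repr (e' i) j)) ∧ ∑ i, D' i = ∑ i, D i - 1 := by
    intro e D hbe hD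
    choose lam hlam using fun i j => exists_lead (hD i j)
    by_cases hind : ∀ γ : Fin n → k, (∀ j, ∑ i, γ i * lam i j = 0) → γ = 0
    · exact Or.inl ⟨e, fun i => -D i, hbe, of_independent lam hlam hind⟩
    right
    push Not at hind
    obtain ⟨γ, hγ, hγ0⟩ := hind
    obtain ⟨i1, hi1⟩ : ∃ i, γ i ≠ 0 := by
      by_contra h; push Not at h; exact hγ0 (funext h)
    obtain ⟨i0, hi0, hmax⟩ := Finset.exists_max_image (Finset.univ.filter fun i => γ i ≠ 0) D
      ⟨i1, by simpa using hi1⟩
    have hi0' : γ i0 ≠ 0 := by simpa using hi0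
    have hmax' : ∀ i, γ i ≠ 0 → D i ≤ D i0 := fun i hi => hmax i (by simpa using hi)
    set p : Fin n → RatFunc k := fun i => RatFunc.C (γ i / γ i0) * RatFunc.X ^ (D i0 - D i)
      with hp
    have hpoly : ∀ i, IsPoly (p i) := by
      intro i
      by_cases h0 : γ i = 0
      · simp only [hp, h0, zero_div, map_zero, zero_mul]; exact isPoly_zero
      · exact isPoly_mul (isPoly_C _) (isPoly_zpow (sub_nonneg.2 (hmax' i h0)))
    have hp0 : p i0 = 1 := by simp [hp, hi0']
    obtain ⟨e', he', he'0, he'i⟩ := exists_replace e i0 p hpoly hp0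
    refine ⟨e', Function.update D i0 (D i0 - 1), fun v => (hbe v).trans (he' v), ?_, ?_⟩
    · intro i j
      rcases eq_or_ne i i0 with rfl | hi
      · rw [Function.update_self, he'0, map_sum, Finsupp.finsetSum_apply]
        have hz : ∑ l, RatFunc.C (γ l / γ i * lam l j) * RatFunc.X ^ (D i)
            = (0 : RatFunc k) := by
          rw [← Finset.sum_mul, ← map_sum]
          have : ∑ l, γ l / γ i * lam l j = (∑ l, γ l * lam l j) / γ i := by
            rw [Finset.sum_div]
            exact Finset.sum_congr rfl fun l _ => by ring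
          rw [this, hγ j, zero_div, map_zero, zero_mul]
        have hs : ∑ l, (c.repr (p l • e l)) j
            = ∑ l, ((c.repr (p l • e l)) j
                - RatFunc.C (γ l / γ i * lam l j) * RatFunc.X ^ (D i)) := by
          rw [Finset.sum_sub_distrib, hz, sub_zero]
        rw [hs]
        refine degLE_sum fun l _ => ?_
        have e1 : (c.repr (p l • e l)) j - RatFunc.C (γ l / γ i * lam l j) * RatFunc.X ^ (D i)
            = RatFunc.C (γ l / γ i) * RatFunc.X ^ (D i - D l)
              * (c.repr (e l) j - RatFunc.C (lam l j) * RatFunc.X ^ (D l)) := by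
          have e2 : (RatFunc.X : RatFunc k) ^ (D i)
              = RatFunc.X ^ (D i - D l) * RatFunc.X ^ (D l) := by
            rw [← zpow_add₀ hX]; congr 1; ring
          rw [map_smul, Finsupp.smul_apply, smul_eq_mul, hp, map_mul, e2]
          simp only
          ring
        rw [e1]
        refine degLE_mono (degLE_mul (degLE_mul (degLE_C _) (degLE_zpow _)) (hlam l j)) ?_
        omega
      · rw [Function.update_of_ne hi, he'i i hi]
        exact hD i j
    · rw [Finset.sum_update_of_mem (Finset.mem_univ i0),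
        ← Finset.add_sum_erase _ _ (Finset.mem_univ i0), Finset.sdiff_singleton_eq_erase]
      ring
  -- the induction
  have main : ∀ (m : ℕ) (e : Basis (Fin n) (RatFunc k) V) (D : Fin n → ℤ), SameLat b e →
      (∀ i j, DegLE (D i) (c.repr (e i) j)) →
      ∑ i, D i ≤ (c.toMatrix b).det.intDegree + m →
      ∃ (e : Basis (Fin n) (RatFunc k) V) (a : Fin n → ℤ),
      (∀ v, (∀ i, IsPoly (b.repr v i)) ↔ ∀ i, IsPoly (e.repr v i)) ∧
      (∀ v, (∀ i, DegLE 0 (c.repr v i)) ↔ ∀ i, DegLE (a i) (e.repr v i)) := by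
    intro m
    induction m with
    | zero =>
      intro e D hbe hD hle
      rcases step e D hbe hD with h | ⟨e', D', h1, h2, h3⟩
      · exact h
      · exfalso
        have := le_sum h1 h2
        push_cast at hle
        omega
    | succ m ih =>
      intro e D hbe hD hle
      rcases step e D hbe hD with h | ⟨e', D', h1, h2, h3⟩
      · exact h
      · refine ih e' D' h1 h2 ?_
        push_cast at hle
        omega
  -- the start
  obtain ⟨d, hd⟩ : ∃ d : ℤ, ∀ i j, DegLE d (c.repr (b i) j) := by
    refine ⟨∑ i, ∑ j, ((c.repr (b i) j).intDegree.toNat : ℤ), fun i j => Or.inr ?_⟩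
    refine (Int.self_le_toNat _).trans ?_
    refine (Finset.single_le_sum (f := fun j => ((c.repr (b i) j).intDegree.toNat : ℤ))
      (fun _ _ => Int.natCast_nonneg _) (Finset.mem_univ j)).trans ?_
    exact Finset.single_le_sum (f := fun i => ∑ j, ((c.repr (b i) j).intDegree.toNat : ℤ))
      (fun _ _ => Finset.sum_nonneg fun _ _ => Int.natCast_nonneg _) (Finset.mem_univ i)
  refine main ((∑ _i : Fin n, d) - (c.toMatrix b).det.intDegree).toNat b (fun _ => d)
    (fun v => Iff.rfl) (fun i j => hd i j) ?_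
  have := Int.self_le_toNat ((∑ _i : Fin n, d) - (c.toMatrix b).det.intDegree)
  omega

end Pool.Agent.MP_b814b1_ag
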