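import Pool.Agent.MP_b814b1_ag.RatBase

/-!
# MP_b814b1_ag: module Ra, the ring `R0`
-/

open Polynomial Module
open scoped Topology

noncomputable section

namespace Pool.Agent.MP_b814b1_ag

namespace Rings0

variable (k : Type) {K : Type} [Field k] [IsAlgClosed k] [CharZero k] [Field K] [Algebra k K]
  (x : K) [IsCurve k x]

omit [IsAlgClosed k] [CharZero k] [IsCurve k x] in
theorem x_mem : x ∈ R0 k x := by
  show IsIntegral (Algebra.adjoin k {x}) x
  exact isIntegral_algebraMap (R := Algebra.adjoin k {x})
    (x := (⟨x, Algebra.self_mem_adjoin_singleton k x⟩ : Algebra.adjoin k {x}))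

/-- `K` as a `k[X]`-algebra. -/
abbrev algP : Algebra k[X] K := (aeval x : k[X] →ₐ[k] K).toRingHom.toAlgebra

/-- `R0` as a `k[X]`-algebra. -/
abbrev algR : Algebra k[X] (R0 k x) :=
  (aeval (⟨x, x_mem k x⟩ : R0 k x) : k[X] →ₐ[k] R0 k x).toRingHom.toAlgebra

omit [IsAlgClosed k] [CharZero k] [IsCurve k x] in
theorem coe_aeval (p : k[X]) : ((aeval (⟨x, x_mem k x⟩ : R0 k x) p : R0 k x) : K) = aeval x p := by
  have := aeval_algebraMap_apply K (⟨x, x_mem k x⟩ : R0 k x) p
  exact this.symm

omit [IsAlgClosed k] [CharZero k] [IsCurve k x] in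
theorem tower_PRK : letI := algP k x; letI := algR k x; IsScalarTower k[X] (R0 k x) K := by
  letI := algP k x
  letI := algR k x
  refine IsScalarTower.of_algebraMap_eq fun p => ?_
  exact (coe_aeval k x p).symm

theorem tower_PFK : letI := algP k x; letI := RatBase.alg k x;
    IsScalarTower k[X] (RatFunc k) K := by
  letI := algP k x
  letI := RatBase.alg k x
  refine IsScalarTower.of_algebraMap_eq fun p => ?_
  exact (RatBase.ratHom_algebraMap k x p).symm

omit [IsAlgClosed k] [CharZero k] [IsCurve k x] in
theorem mem_R0_iff (a : K) : letI := algP k x; (a ∈ R0 k x ↔ IsIntegral k[X] a) := by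
  letI := algP k x
  letI algA : Algebra k[X] (Algebra.adjoin k {x}) :=
    (aeval (⟨x, Algebra.self_mem_adjoin_singleton k x⟩ : Algebra.adjoin k {x}) :
      k[X] →ₐ[k] Algebra.adjoin k {x}).toRingHom.toAlgebra
  have tow : IsScalarTower k[X] (Algebra.adjoin k {x}) K := by
    refine IsScalarTower.of_algebraMap_eq fun p => ?_
    have := aeval_algebraMap_apply K
      (⟨x, Algebra.self_mem_adjoin_singleton k x⟩ : Algebra.adjoin k {x}) p
    exact this
  have surj : Function.Surjective (algebraMap k[X] (Algebra.adjoin k {x})) := by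
    rintro ⟨y, hy⟩
    rw [Algebra.adjoin_singleton_eq_range_aeval] at hy
    obtain ⟨p, hp⟩ := hy
    refine ⟨p, Subtype.ext ?_⟩
    have := aeval_algebraMap_apply K
      (⟨x, Algebra.self_mem_adjoin_singleton k x⟩ : Algebra.adjoin k {x}) p
    exact this.symm.trans hp
  have hint : Algebra.IsIntegral k[X] (Algebra.adjoin k {x}) :=
    Algebra.isIntegral_of_surjective surj
  constructor
  · intro h
    exact isIntegral_trans a (show IsIntegral (Algebra.adjoin k {x}) a from h)
  · intro h
    exact (IsIntegral.tower_top h : IsIntegral (Algebra.adjoin k {x}) a)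

omit [IsAlgClosed k] [CharZero k] [IsCurve k x] in
theorem isIntegralClosure : letI := algP k x; letI := algR k x;
    IsIntegralClosure (R0 k x) k[X] K := by
  letI := algP k x
  letI := algR k x
  refine ⟨Subtype.val_injective, fun {a} => ?_⟩
  rw [← mem_R0_iff]
  exact ⟨fun h => ⟨⟨a, h⟩, rfl⟩, fun ⟨y, hy⟩ => hy ▸ y.2⟩

theorem isSeparable : letI := RatBase.alg k x; Algebra.IsSeparable (RatFunc k) K := by
  letI := RatBase.alg k x
  have := RatBase.finiteDimensional k x
  infer_instance

end Rings0

open Rings0

variable (k : Type) {K : Type} [Field k] [IsAlgClosed k] [CharZero k] [Field K] [Algebra k K]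
  (x : K) [IsCurve k x]

theorem R0_dedekind : IsDedekindDomain (R0 k x) := by
  letI := algP k x
  letI := algR k x
  letI := RatBase.alg k x
  have h1 := tower_PRK k x
  have h2 := tower_PFK k x
  have h3 := isIntegralClosure k x
  have h4 := RatBase.finiteDimensional k x
  have h5 := isSeparable k x
  exact IsIntegralClosure.isDedekindDomain k[X] (RatFunc k) K (R0 k x)

theorem R0_fraction : IsFractionRing (R0 k x) K := by
  letI := algP k x
  letI := algR k x
  letI := RatBase.alg k x
  have h1 := tower_PRK k x
  have h2 := tower_PFK k x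
  have h3 := isIntegralClosure k x
  have h4 := RatBase.finiteDimensional k x
  exact IsIntegralClosure.isFractionRing_of_finite_extension k[X] (RatFunc k) K (R0 k x)

namespace Rings0

theorem finite_PR : letI := algR k x; Module.Finite k[X] (R0 k x) := by
  letI := algP k x
  letI := algR k x
  letI := RatBase.alg k x
  have h1 := tower_PRK k x
  have h2 := tower_PFK k x
  have h3 := isIntegralClosure k x
  have h4 := RatBase.finiteDimensional k x
  have h5 := isSeparable k x
  exact IsIntegralClosure.finite k[X] (RatFunc k) K (R0 k x)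

theorem finiteType : Algebra.FiniteType k (R0 k x) := by
  letI := algR k x
  have h := finite_PR k x
  have tow : IsScalarTower k k[X] (R0 k x) := by
    refine IsScalarTower.of_algebraMap_eq fun c => ?_
    show _ = aeval (⟨x, x_mem k x⟩ : R0 k x) (C c)
    rw [aeval_C]
  exact Algebra.FiniteType.trans (S := k[X]) inferInstance inferInstance

theorem quot_finrank (I : Ideal (R0 k x)) (hI : I.IsMaximal) : finrank k (R0 k x ⧸ I) = 1 := by
  have h1 := finiteType k x
  letI : Field (R0 k x ⧸ I) := Ideal.Quotient.field I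
  have h2 : Algebra.FiniteType k (R0 k x ⧸ I) :=
    Algebra.FiniteType.of_surjective (Ideal.Quotient.mkₐ k I) (Ideal.Quotient.mkₐ_surjective k I)
  have h3 : Module.Finite k (R0 k x ⧸ I) := finite_of_finite_type_of_isJacobsonRing k _
  have h4 : Algebra.IsIntegral k (R0 k x ⧸ I) := inferInstance
  have h5 : Function.Bijective (algebraMap k (R0 k x ⧸ I)) :=
    IsAlgClosed.algebraMap_bijective_of_isIntegral
  have e : k ≃ₗ[k] (R0 k x ⧸ I) := LinearEquiv.ofBijective (Algebra.linearMap k _) h5
  rw [← e.finrank_eq, finrank_self]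

end Rings0

theorem R0_simple (M : Type) [AddCommGroup M] [Module (R0 k x) M] [Module k M]
    [IsScalarTower k (R0 k x) M] [IsSimpleModule (R0 k x) M] : finrank k M = 1 := by
  have hs : IsSimpleModule (R0 k x) M := inferInstance
  obtain ⟨I, hI, ⟨e⟩⟩ := (isSimpleModule_iff_quot_maximal (R := R0 k x) (M := M)).1 hs
  rw [(e.restrictScalars k).finrank_eq]
  exact quot_finrank k x I hI

theorem R0_avoid (a : R0 k x) (ha : a ≠ 0) :
    ∃ m : Ideal (R0 k x), m.IsMaximal ∧ a ∉ m := by
  have h1 := finiteType k x
  have h2 : IsJacobsonRing (R0 k x) := isJacobsonRing_of_finiteType (A := k)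
  have h3 : (⊥ : Ideal (R0 k x)).jacobson = ⊥ :=
    IsJacobsonRing.out h2 (Ideal.isRadical_bot)
  by_contra hcon
  have hcon : ∀ m : Ideal (R0 k x), m.IsMaximal → a ∈ m := fun m hm => by
    by_contra h
    exact hcon ⟨m, hm, h⟩
  apply ha
  have : a ∈ (⊥ : Ideal (R0 k x)).jacobson := by
    rw [Ideal.jacobson, Submodule.mem_sInf]
    rintro J ⟨_, hJ⟩
    exact hcon J hJ
  rw [h3] at this
  exact this

/-- `R0` is a finite free module over `k[x]` (basis of `K` over `k(X)`). -/
theorem R0_basis : letI := (ratHom k x).toRingHom.toAlgebra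
    ∃ (n : ℕ) (b : Basis (Fin n) (RatFunc k) K), 0 < n ∧
      ∀ a : K, a ∈ R0 k x ↔ ∀ i, IsPoly (b.repr a i) := by
  letI := algP k x
  letI := algR k x
  letI := RatBase.alg k x
  have h1 := tower_PRK k x
  have h2 := tower_PFK k x
  have h3 := isIntegralClosure k x
  have h4 := RatBase.finiteDimensional k x
  have h5 := isSeparable k x
  have h6 : Module.Finite k[X] (R0 k x) := finite_PR k x
  have h7 : Module.IsTorsionFree k[X] K := by
    rw [Module.isTorsionFree_iff_algebraMap_injective]
    intro p q hpq
    have hpq' : aeval x p = aeval x q := hpq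
    rw [← RatBase.ratHom_algebraMap, ← RatBase.ratHom_algebraMap] at hpq'
    exact RatFunc.algebraMap_injective k (RatBase.ratHom_injective k x hpq')
  have h8 : Module.Free k[X] (R0 k x) := IsIntegralClosure.module_free k[X] (RatFunc k) K (R0 k x)
  have h9 : IsLocalization (Algebra.algebraMapSubmonoid (R0 k x) (nonZeroDivisors k[X])) K :=
    IsIntegralClosure.isLocalization_of_isSeparable k[X] (RatFunc k) K (R0 k x)
  let b0 := Module.finBasis k[X] (R0 k x)
  let b := Basis.localizationLocalization (RatFunc k) (nonZeroDivisors k[X]) K b0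
  refine ⟨_, b, ?_, fun a => ?_⟩
  · rw [IsIntegralClosure.rank k[X] (RatFunc k) K (R0 k x)]
    exact finrank_pos
  · constructor
    · intro ha i
      have := Basis.localizationLocalization_repr_algebraMap (RatFunc k) (nonZeroDivisors k[X]) K
        b0 (⟨a, ha⟩ : R0 k x) i
      exact ⟨_, this.symm⟩
    · intro h
      choose p hp using h
      have hb : ∀ i, b i ∈ R0 k x := fun i => by
        rw [show b i = algebraMap (R0 k x) K (b0 i) from
          Basis.localizationLocalization_apply _ _ _ _ _]
        exact (b0 i).2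
      rw [← b.sum_repr a]
      refine sum_mem fun i _ => ?_
      rw [← hp i, RatBase.smul_def, RatBase.ratHom_algebraMap, ← coe_aeval]
      exact mul_mem (SetLike.coe_mem _) (hb i)

end Pool.Agent.MP_b814b1_ag
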