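import Pool.Agent.MP_b814b1_ag.Defs2

open Polynomial Module
open scoped Topology

noncomputable section

namespace Pool.Agent.MP_b814b1_ag

namespace RB

section A
variable (k : Type) [Field k]

/-- The local ring at infinity of the projective line. -/
def Ainf : Subalgebra k (RatFunc k) where
  carrier := {f | DegLE 0 f}
  mul_mem' := by
    rintro a b ha hb
    by_cases ha0 : a = 0
    · left; rw [ha0, zero_mul]
    by_cases hb0 : b = 0
    · left; rw [hb0, mul_zero]
    right
    rw [RatFunc.intDegree_mul ha0 hb0]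
    have h1 := ha.resolve_left ha0
    have h2 := hb.resolve_left hb0
    omega
  add_mem' := by
    rintro a b ha hb
    by_cases ha0 : a = 0
    · rw [ha0, zero_add]; exact hb
    by_cases hb0 : b = 0
    · rw [hb0, add_zero]; exact ha
    by_cases hab : a + b = 0
    · left; exact hab
    right
    have h1 := ha.resolve_left ha0
    have h2 := hb.resolve_left hb0
    have h3 : (a + b).intDegree ≤ max a.intDegree b.intDegree :=
      RatFunc.intDegree_add_le hb0 hab
    exact h3.trans (max_le h1 h2)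
  algebraMap_mem' := by
    intro c
    right
    have : algebraMap k (RatFunc k) c = RatFunc.C c := by
      rw [RatFunc.algebraMap_eq_C]
    rw [this, RatFunc.intDegree_C]

theorem mem_Ainf {f : RatFunc k} : f ∈ Ainf k ↔ DegLE 0 f := Iff.rfl

theorem intDegree_pow' {f : RatFunc k} (hf : f ≠ 0) (n : ℕ) :
    (f ^ n).intDegree = n * f.intDegree := by
  induction n with
  | zero => simp
  | succ n ih =>
    rw [pow_succ, RatFunc.intDegree_mul (pow_ne_zero n hf) hf, ih]; push_cast; ring

theorem invX_mem : (RatFunc.X : RatFunc k)⁻¹ ∈ Ainf k := by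
  right
  rw [RatFunc.intDegree_inv, RatFunc.intDegree_X]
  norm_num

/-- the uniformiser -/
def tau : Ainf k := ⟨(RatFunc.X)⁻¹, invX_mem k⟩

theorem isUnit_iff (f : Ainf k) : IsUnit f ↔ (f : RatFunc k) ≠ 0 ∧ (f : RatFunc k).intDegree = 0 := by
  constructor
  · rintro ⟨u, rfl⟩
    have h1 : ((u : Ainf k) : RatFunc k) * ((u⁻¹ : (Ainf k)ˣ) : Ainf k) = 1 := by
      rw [← MulMemClass.coe_mul, Units.mul_inv]; rfl
    have hu0 : ((u : Ainf k) : RatFunc k) ≠ 0 := left_ne_zero_of_mul_eq_one h1
    have hv0 : (((u⁻¹ : (Ainf k)ˣ) : Ainf k) : RatFunc k) ≠ 0 := right_ne_zero_of_mul_eq_one h1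
    refine ⟨hu0, ?_⟩
    have h2 := congrArg RatFunc.intDegree h1
    rw [RatFunc.intDegree_mul hu0 hv0, RatFunc.intDegree_one] at h2
    have h3 := ((u : Ainf k).2 : DegLE 0 _).resolve_left hu0
    have h4 := (((u⁻¹ : (Ainf k)ˣ) : Ainf k).2 : DegLE 0 _).resolve_left hv0
    omega
  · rintro ⟨h0, h1⟩
    refine IsUnit.of_mul_eq_one (⟨(f : RatFunc k)⁻¹, Or.inr ?_⟩ : Ainf k) ?_
    · rw [RatFunc.intDegree_inv, h1, neg_zero]
    · ext
      exact mul_inv_cancel₀ h0

theorem tau_irr : Irreducible (tau k) := by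
  constructor
  · rw [isUnit_iff]
    rintro ⟨_, h⟩
    rw [tau, RatFunc.intDegree_inv, RatFunc.intDegree_X] at h
    norm_num at h
  · intro a b hab
    have h1 : (RatFunc.X : RatFunc k)⁻¹ = (a : RatFunc k) * b := congrArg Subtype.val hab
    have hX : (RatFunc.X : RatFunc k)⁻¹ ≠ 0 := inv_ne_zero RatFunc.X_ne_zero
    have ha : (a : RatFunc k) ≠ 0 := by
      intro h; rw [h, zero_mul] at h1; exact hX h1
    have hb : (b : RatFunc k) ≠ 0 := by
      intro h; rw [h, mul_zero] at h1; exact hX h1
    have h2 := congrArg RatFunc.intDegree h1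
    rw [RatFunc.intDegree_mul ha hb, RatFunc.intDegree_inv, RatFunc.intDegree_X] at h2
    have h3 := (a.2 : DegLE 0 _).resolve_left ha
    have h4 := (b.2 : DegLE 0 _).resolve_left hb
    rw [isUnit_iff, isUnit_iff]
    rcases eq_or_ne (a : RatFunc k).intDegree 0 with h | h
    · exact Or.inl ⟨ha, h⟩
    · refine Or.inr ⟨hb, ?_⟩
      omega

theorem assoc (f : Ainf k) (hf : f ≠ 0) : ∃ n : ℕ, Associated (tau k ^ n) f := by
  have hf0 : (f : RatFunc k) ≠ 0 := fun h => hf (Subtype.ext h)
  have h1 := (f.2 : DegLE 0 _).resolve_left hf0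
  obtain ⟨n, hn⟩ : ∃ n : ℕ, (f : RatFunc k).intDegree = -(n : ℤ) :=
    ⟨((f : RatFunc k).intDegree).natAbs, by omega⟩
  refine ⟨n, ?_⟩
  have hg0 : (f : RatFunc k) * RatFunc.X ^ n ≠ 0 := mul_ne_zero hf0 (pow_ne_zero _ RatFunc.X_ne_zero)
  have hgd : ((f : RatFunc k) * RatFunc.X ^ n).intDegree = 0 := by
    rw [RatFunc.intDegree_mul hf0 (pow_ne_zero _ RatFunc.X_ne_zero),
      intDegree_pow' k RatFunc.X_ne_zero, RatFunc.intDegree_X, hn]
    ring
  let g : Ainf k := ⟨(f : RatFunc k) * RatFunc.X ^ n, Or.inr hgd.le⟩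
  have hg : IsUnit g := (isUnit_iff k g).2 ⟨hg0, hgd⟩
  obtain ⟨u, hu⟩ := hg
  refine ⟨u, ?_⟩
  rw [hu]
  apply Subtype.ext
  have h5 : ((tau k ^ n * g : Ainf k) : RatFunc k) =
      ((RatFunc.X : RatFunc k)⁻¹) ^ n * ((f : RatFunc k) * RatFunc.X ^ n) := rfl
  rw [h5, inv_pow]
  have hX : (RatFunc.X : RatFunc k) ^ n ≠ 0 := pow_ne_zero _ RatFunc.X_ne_zero
  field_simp

instance dvr : IsDiscreteValuationRing (Ainf k) :=
  IsDiscreteValuationRing.ofHasUnitMulPowIrreducibleFactorization
    ⟨tau k, tau_irr k, fun {x} hx => assoc k x hx⟩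

instance fracA : IsFractionRing (Ainf k) (RatFunc k) := by
  refine IsFractionRing.of_field (Ainf k) (RatFunc k) fun z => ?_
  by_cases hz : DegLE 0 z
  · exact ⟨⟨z, hz⟩, 1, by simp⟩
  · have hz0 : z ≠ 0 := fun h => hz (Or.inl h)
    have hz1 : ¬ z.intDegree ≤ 0 := fun h => hz (Or.inr h)
    refine ⟨1, ⟨z⁻¹, Or.inr ?_⟩, ?_⟩
    · rw [RatFunc.intDegree_inv]; omega
    · show z = 1 / z⁻¹
      simp

theorem charZero_F [CharZero k] : CharZero (RatFunc k) :=
  charZero_of_injective_algebraMap (algebraMap k (RatFunc k)).injective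

/-- the value at infinity -/
theorem residue (f : Ainf k) : ∃ c : k, f - algebraMap k (Ainf k) c ∈
    IsLocalRing.maximalIdeal (Ainf k) := by
  by_cases hu : IsUnit f
  · obtain ⟨h0, h1⟩ := (isUnit_iff k f).1 hu
    refine ⟨(f : RatFunc k).num.leadingCoeff, ?_⟩
    rw [IsLocalRing.mem_maximalIdeal, mem_nonunits_iff, isUnit_iff]
    rintro ⟨h2, h3⟩
    have hc0 : (f : RatFunc k).num.leadingCoeff ≠ 0 := by
      rw [Ne, leadingCoeff_eq_zero]
      exact RatFunc.num_ne_zero h0
    have hm := RatFunc.monic_denom (f : RatFunc k)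
    have hdeg : (f : RatFunc k).num.natDegree = (f : RatFunc k).denom.natDegree := by
      rw [RatFunc.intDegree] at h1
      omega
    set p := (f : RatFunc k).num with hp
    set q := (f : RatFunc k).denom with hq
    have hq0 : algebraMap k[X] (RatFunc k) q ≠ 0 :=
      RatFunc.algebraMap_ne_zero (RatFunc.denom_ne_zero _)
    have h4 : ((f - algebraMap k (Ainf k) p.leadingCoeff : Ainf k) : RatFunc k) =
        algebraMap k[X] (RatFunc k) (p - C p.leadingCoeff * q) *
          (algebraMap k[X] (RatFunc k) q)⁻¹ := by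
      have h5 : ((f - algebraMap k (Ainf k) p.leadingCoeff : Ainf k) : RatFunc k) =
        (f : RatFunc k) - algebraMap k (RatFunc k) p.leadingCoeff := rfl
      rw [h5, ← RatFunc.num_div_denom (f : RatFunc k), ← hp, ← hq, map_sub, map_mul,
        RatFunc.algebraMap_C, RatFunc.algebraMap_eq_C]
      field_simp
    have h6 : p - C p.leadingCoeff * q ≠ 0 := by
      intro h7
      rw [h4, h7, map_zero, zero_mul] at h2
      exact h2 rfl
    rw [h4, RatFunc.intDegree_mul (RatFunc.algebraMap_ne_zero h6) (inv_ne_zero hq0),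
      RatFunc.intDegree_inv, RatFunc.intDegree_polynomial, RatFunc.intDegree_polynomial] at h3
    have h8 : (C p.leadingCoeff * q).degree = p.degree := by
      rw [degree_C_mul hc0]
      rw [degree_eq_natDegree (RatFunc.denom_ne_zero _), degree_eq_natDegree (RatFunc.num_ne_zero h0),
        ← hdeg]
    have h9 := degree_sub_lt_left h8.symm (RatFunc.num_ne_zero h0) (by
      rw [leadingCoeff_mul, leadingCoeff_C, hm.leadingCoeff, mul_one])
    have h10 := natDegree_lt_natDegree h6 h9
    omega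
  · refine ⟨0, ?_⟩
    rw [map_zero, sub_zero, IsLocalRing.mem_maximalIdeal, mem_nonunits_iff]
    exact hu

end A

section B
variable (k : Type) {K : Type} [Field k] [Field K] [Algebra k K] (x : K) [IsCurve k x]

theorem ratHom_poly (p : k[X]) : ratHom k x (algebraMap k[X] (RatFunc k) p) = aeval x p := by
  unfold ratHom
  rw [RatFunc.liftAlgHom_apply]
  simp

theorem ratHom_X : ratHom k x RatFunc.X = x := by
  rw [← RatFunc.algebraMap_X, ratHom_poly, aeval_X]

theorem mem_Oinf_iff (a : K) : a ∈ Oinf k x ↔ ∃ f ∈ Ainf k, ratHom k x f = a := by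
  constructor
  · rintro ⟨f, g, hg, hd, h⟩
    have hg1 : aeval x g ≠ 0 := by
      intro h0
      have hT : Transcendental k x := IsCurve.trans
      exact hg (by
        by_contra hne
        exact hT ⟨g, hne, h0⟩)
    have hg2 : algebraMap k[X] (RatFunc k) g ≠ 0 := RatFunc.algebraMap_ne_zero hg
    refine ⟨algebraMap k[X] (RatFunc k) f / algebraMap k[X] (RatFunc k) g, ?_, ?_⟩
    · by_cases hf : f = 0
      · left; rw [hf, map_zero, zero_div]
      · right
        have hf2 : algebraMap k[X] (RatFunc k) f ≠ 0 := RatFunc.algebraMap_ne_zero hf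
        rw [div_eq_mul_inv, RatFunc.intDegree_mul hf2 (inv_ne_zero hg2), RatFunc.intDegree_inv,
          RatFunc.intDegree_polynomial, RatFunc.intDegree_polynomial]
        omega
    · rw [map_div₀, ratHom_poly, ratHom_poly, ← h]
      field_simp
  · rintro ⟨f, hf, rfl⟩
    refine ⟨f.num, f.denom, f.denom_ne_zero, ?_, ?_⟩
    · rcases hf with rfl | hf
      · simp
      · rw [RatFunc.intDegree] at hf
        omega
    · rw [← ratHom_poly, ← ratHom_poly, ← map_mul]
      congr 1
      have h1 := RatFunc.num_div_denom f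
      have h2 : algebraMap k[X] (RatFunc k) f.denom ≠ 0 :=
        RatFunc.algebraMap_ne_zero f.denom_ne_zero
      rw [div_eq_iff h2] at h1
      exact h1.symm

theorem fieldRange_eq : IntermediateField.adjoin k {x} ≤ (ratHom k x).fieldRange := by
  rw [IntermediateField.adjoin_le_iff]
  rintro y hy
  rw [Set.mem_singleton_iff.1 hy]
  exact ⟨RatFunc.X, ratHom_X k x⟩

end B

section C
variable (k : Type) {K : Type} [Field k] [Field K] [Algebra k K] (x : K) [IsCurve k x]
  [Algebra (RatFunc k) K] (hx : ∀ f, algebraMap (RatFunc k) K f = ratHom k x f)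

include hx

theorem finite_K : Module.Finite (RatFunc k) K := by
  have h1 : FiniteDimensional (IntermediateField.adjoin k {x}) K := IsCurve.fin
  obtain ⟨s, hs⟩ := h1
  refine ⟨s, ?_⟩
  rw [eq_top_iff]
  rintro y -
  have hy : y ∈ Submodule.span (IntermediateField.adjoin k {x}) (s : Set K) := by
    rw [hs]; trivial
  induction hy using Submodule.span_induction with
  | mem y hy => exact Submodule.subset_span hy
  | zero => exact zero_mem _
  | add y z _ _ hy hz => exact add_mem hy hz
  | smul c y _ hy =>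
    obtain ⟨f, hf⟩ := fieldRange_eq k x c.2
    have : c • y = f • y := by
      rw [Algebra.smul_def f y, hx]
      rw [IntermediateField.smul_def, smul_eq_mul]
      congr 1
      exact hf.symm
    rw [this]
    exact Submodule.smul_mem _ _ hy

theorem tower_k : IsScalarTower k (RatFunc k) K := by
  refine IsScalarTower.of_algebraMap_eq fun c => ?_
  rw [hx, AlgHom.commutes]

/-- integrality over `Oinf` is integrality over `Ainf` -/
theorem mem_R1_iff (a : K) : a ∈ R1 k x ↔ IsIntegral (Ainf k) a := by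
  have h0 : a ∈ R1 k x ↔ IsIntegral (Oinf k x) a := Iff.rfl
  rw [h0]
  let φ : Ainf k →+* Oinf k x := ((ratHom k x : RatFunc k →+* K).comp
    (Ainf k).val.toRingHom).codRestrict (Oinf k x) (fun f => (mem_Oinf_iff k x _).2 ⟨f, f.2, rfl⟩)
  have hA : algebraMap (Ainf k) K = (algebraMap (Oinf k x) K).comp φ :=
    RingHom.ext fun f => hx (f : RatFunc k)
  constructor
  · rintro ⟨p, hp, hpa⟩
    have hl : p ∈ Polynomial.lifts φ := by
      rw [Polynomial.lifts_iff_coeff_lifts]
      intro n
      obtain ⟨f, hf, hf'⟩ := (mem_Oinf_iff k x _).1 (p.coeff n).2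
      exact ⟨⟨f, hf⟩, Subtype.ext hf'⟩
    obtain ⟨q, hq, -, hqm⟩ := Polynomial.lifts_and_natDegree_eq_and_monic hl hp
    refine ⟨q, hqm, ?_⟩
    rw [hA, ← eval₂_map, hq]
    exact hpa
  · rintro ⟨p, hp, hpa⟩
    refine ⟨p.map φ, hp.map φ, ?_⟩
    rw [eval₂_map, ← hA]
    exact hpa

/-- `R1` is an algebra over `Ainf` -/
@[reducible] def algR1 : Algebra (Ainf k) (R1 k x) :=
  ((algebraMap (Ainf k) K).codRestrict (R1 k x) (fun _ =>
    (mem_R1_iff k x hx _).2 isIntegral_algebraMap)).toAlgebra

theorem tower_A : letI := algR1 k x hx; IsScalarTower (Ainf k) (R1 k x) K := by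
  let _ := algR1 k x hx
  exact IsScalarTower.of_algebraMap_eq fun c => rfl

theorem closure_R1 : IsIntegralClosure (R1 k x) (Ainf k) K where
  algebraMap_injective := Subtype.val_injective
  isIntegral_iff := by
    intro y
    constructor
    · intro hy
      exact ⟨⟨y, (mem_R1_iff k x hx y).2 hy⟩, rfl⟩
    · rintro ⟨z, rfl⟩
      exact (mem_R1_iff k x hx _).1 z.2


theorem sep_K [CharZero k] : Algebra.IsSeparable (RatFunc k) K := by
  have := charZero_F k
  have := finite_K k x hx
  infer_instance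

theorem dedekind [CharZero k] : IsDedekindDomain (R1 k x) := by
  let _ := algR1 k x hx
  have h1 := tower_A k x hx
  have h2 := closure_R1 k x hx
  have h3 := sep_K k x hx
  have h4 := finite_K k x hx
  exact IsIntegralClosure.isDedekindDomain (Ainf k) (RatFunc k) K (R1 k x)

theorem fraction : IsFractionRing (R1 k x) K := by
  let _ := algR1 k x hx
  have h1 := tower_A k x hx
  have h2 := closure_R1 k x hx
  have h4 := finite_K k x hx
  exact IsIntegralClosure.isFractionRing_of_finite_extension (Ainf k) (RatFunc k) K (R1 k x)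

theorem basis [CharZero k] : ∃ (n : ℕ) (b : Basis (Fin n) (RatFunc k) K),
      ∀ a : K, a ∈ R1 k x ↔ ∀ i, DegLE 0 (b.repr a i) := by
  let _ := algR1 k x hx
  have h1 := tower_A k x hx
  have h2 := closure_R1 k x hx
  have h3 := sep_K k x hx
  have h4 := finite_K k x hx
  have h5' : Module.IsTorsionFree (Ainf k) K := .trans_faithfulSMul (Ainf k) (RatFunc k) K
  have h5 : Module.Free (Ainf k) (R1 k x) :=
    IsIntegralClosure.module_free (Ainf k) (RatFunc k) K (R1 k x)
  have h6 : Module.Finite (Ainf k) (R1 k x) :=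
    IsIntegralClosure.finite (Ainf k) (RatFunc k) K (R1 k x)
  have h7 : IsLocalization (Algebra.algebraMapSubmonoid (R1 k x) (nonZeroDivisors (Ainf k))) K :=
    IsIntegralClosure.isLocalization (Ainf k) (RatFunc k) K (R1 k x)
  let c := Module.finBasis (Ainf k) (R1 k x)
  let b := Basis.localizationLocalization (RatFunc k) (nonZeroDivisors (Ainf k)) K c
  refine ⟨_, b, fun a => ?_⟩
  constructor
  · intro ha i
    have := Basis.localizationLocalization_repr_algebraMap (RatFunc k) (nonZeroDivisors (Ainf k)) K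
      c ⟨a, ha⟩ i
    have h8 : b.repr a i = algebraMap (Ainf k) (RatFunc k) (c.repr ⟨a, ha⟩ i) := this
    rw [h8]
    exact (c.repr ⟨a, ha⟩ i).2
  · intro ha
    rw [← b.sum_repr a]
    refine Subalgebra.sum_mem _ fun i _ => ?_
    have h9 : b i = (c i : K) := Basis.localizationLocalization_apply _ _ _ c i
    rw [Algebra.smul_def, h9]
    refine mul_mem ?_ (c i).2
    rw [mem_R1_iff k x hx]
    exact (isIntegral_algebraMap : IsIntegral (Ainf k)
      (algebraMap (Ainf k) K ⟨b.repr a i, ha i⟩))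

theorem residue_R1 [IsAlgClosed k] (m : Ideal (R1 k x)) [hm : m.IsMaximal] (r : R1 k x) :
    ∃ c : k, r - algebraMap k (R1 k x) c ∈ m := by
  let _ := algR1 k x hx
  have h1 := tower_A k x hx
  have h2 := closure_R1 k x hx
  have hint : Algebra.IsIntegral (Ainf k) (R1 k x) := IsIntegralClosure.isIntegral_algebra (Ainf k) K
  let _ : Field (R1 k x ⧸ m) := Ideal.Quotient.field m
  let f : Ainf k →+* (R1 k x ⧸ m) := (Ideal.Quotient.mk m).comp (algebraMap (Ainf k) (R1 k x))
  let g : k →+* (R1 k x ⧸ m) := (Ideal.Quotient.mk m).comp (algebraMap k (R1 k x))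
  have hcm : m.comap (algebraMap (Ainf k) (R1 k x)) = IsLocalRing.maximalIdeal (Ainf k) := by
    have := Ideal.isMaximal_comap_of_isIntegral_of_isMaximal (R := Ainf k) m
    exact IsLocalRing.eq_maximalIdeal this
  have hfg : ∀ a, ∃ c, g c = f a := by
    intro a
    obtain ⟨c, hc⟩ := residue k a
    refine ⟨c, ?_⟩
    rw [← hcm, Ideal.mem_comap, map_sub, ← Ideal.Quotient.eq] at hc
    have hcc : algebraMap (Ainf k) (R1 k x) (algebraMap k (Ainf k) c) =
        algebraMap k (R1 k x) c := Subtype.ext (by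
      show algebraMap (RatFunc k) K (algebraMap k (RatFunc k) c) = algebraMap k K c
      rw [hx, AlgHom.commutes])
    rw [hcc] at hc
    exact hc.symm
  have hi : Algebra.IsIntegral k (R1 k x ⧸ m) := by
    refine ⟨fun y => ?_⟩
    obtain ⟨r, rfl⟩ := Ideal.Quotient.mk_surjective y
    obtain ⟨p, hp, hpr⟩ := hint.isIntegral r
    have hl : p.map f ∈ Polynomial.lifts g := by
      rw [Polynomial.lifts_iff_coeff_lifts]
      intro n
      rw [coeff_map]
      exact hfg _
    obtain ⟨q, hq, -, hqm⟩ := Polynomial.lifts_and_natDegree_eq_and_monic hl (hp.map f)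
    refine ⟨q, hqm, ?_⟩
    have h3 : eval₂ g (Ideal.Quotient.mk m r) q = eval (Ideal.Quotient.mk m r) (q.map g) :=
      (eval_map _ _).symm
    have h4 : eval (Ideal.Quotient.mk m r) (p.map f) = 0 := by
      rw [eval_map, ← hom_eval₂, hpr, map_zero]
    rw [hq, h4] at h3
    exact h3
  obtain ⟨c, hc⟩ := (IsAlgClosed.algebraMap_bijective_of_isIntegral
    (k := k) (K := R1 k x ⧸ m)).2 (Ideal.Quotient.mk m r)
  refine ⟨c, ?_⟩
  rw [← Ideal.Quotient.eq]
  exact hc.symm

theorem simple [IsAlgClosed k] (M : Type) [AddCommGroup M] [Module (R1 k x) M] [Module k M]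
    [IsScalarTower k (R1 k x) M] [IsSimpleModule (R1 k x) M] : finrank k M = 1 := by
  have : Nontrivial M := IsSimpleModule.nontrivial (R1 k x) M
  obtain ⟨v, hv⟩ := exists_ne (0 : M)
  have hm := IsSimpleModule.ker_toSpanSingleton_isMaximal (R1 k x) hv
  refine finrank_eq_one v hv fun w => ?_
  obtain ⟨r, hr⟩ := IsSimpleModule.toSpanSingleton_surjective (R1 k x) hv w
  obtain ⟨c, hc⟩ := residue_R1 k x hx
    (LinearMap.ker (LinearMap.toSpanSingleton (R1 k x) M v)) r
  refine ⟨c, ?_⟩
  rw [LinearMap.mem_ker, LinearMap.toSpanSingleton_apply, sub_smul, sub_eq_zero] at hc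
  rw [← hr, LinearMap.toSpanSingleton_apply, hc, algebraMap_smul]

theorem integral_R0 (a : K) (ha : a ∈ R0 k x) :
    ((algebraMap (RatFunc k) K).comp (algebraMap k[X] (RatFunc k))).IsIntegralElem a := by
  obtain ⟨p, hp, hpa⟩ := (ha : IsIntegral (Algebra.adjoin k {x}) a)
  let φ : k[X] →+* Algebra.adjoin k {x} := (aeval x : k[X] →ₐ[k] K).toRingHom.codRestrict
    (Algebra.adjoin k {x}) (fun f => aeval_mem_adjoin_singleton k x)
  have hA : (algebraMap (RatFunc k) K).comp (algebraMap k[X] (RatFunc k)) =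
      (algebraMap (Algebra.adjoin k {x}) K).comp φ := RingHom.ext fun f => by
    rw [RingHom.comp_apply, hx, ratHom_poly]
    rfl
  have hl : p ∈ Polynomial.lifts φ := by
    rw [Polynomial.lifts_iff_coeff_lifts]
    intro n
    obtain ⟨f, hf⟩ := (Algebra.adjoin_singleton_eq_range_aeval k x).le (p.coeff n).2
    exact ⟨f, Subtype.ext hf⟩
  obtain ⟨q, hq, -, hqm⟩ := Polynomial.lifts_and_natDegree_eq_and_monic hl hp
  refine ⟨q, hqm, ?_⟩
  rw [hA, ← eval₂_map, hq]
  exact hpa

theorem inf [IsAlgClosed k] (a : K) (h0 : a ∈ R0 k x) (h1 : a ∈ R1 k x) :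
    ∃ c : k, a = algebraMap k K c := by
  let _ : Algebra k[X] K := ((algebraMap (RatFunc k) K).comp (algebraMap k[X] (RatFunc k))).toAlgebra
  have ht : IsScalarTower k[X] (RatFunc k) K := IsScalarTower.of_algebraMap_eq fun _ => rfl
  have hi0 : IsIntegral k[X] a := integral_R0 k x hx a h0
  have hi1 : IsIntegral (Ainf k) a := (mem_R1_iff k x hx a).1 h1
  have hm0 := minpoly.isIntegrallyClosed_eq_field_fractions' (RatFunc k) hi0
  have hm1 := minpoly.isIntegrallyClosed_eq_field_fractions' (RatFunc k) hi1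
  have hl : minpoly (RatFunc k) a ∈ Polynomial.lifts (algebraMap k (RatFunc k)) := by
    rw [Polynomial.lifts_iff_coeff_lifts]
    intro n
    have e0 : (minpoly (RatFunc k) a).coeff n =
        algebraMap k[X] (RatFunc k) ((minpoly k[X] a).coeff n) := by
      rw [hm0, coeff_map]
    have e1 : DegLE 0 ((minpoly (RatFunc k) a).coeff n) := by
      rw [hm1, coeff_map]
      exact ((minpoly (Ainf k) a).coeff n).2
    rw [e0] at e1 ⊢
    set p := (minpoly k[X] a).coeff n
    rcases e1 with e1 | e1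
    · exact ⟨0, by rw [map_zero, e1]⟩
    · rw [RatFunc.intDegree_polynomial] at e1
      have hp : p.natDegree = 0 := by omega
      refine ⟨p.coeff 0, ?_⟩
      rw [RatFunc.algebraMap_eq_C, ← RatFunc.algebraMap_C, ← eq_C_of_natDegree_eq_zero hp]
  have hF : IsIntegral (RatFunc k) a := hi1.tower_top
  obtain ⟨q, hq, -, hqm⟩ := Polynomial.lifts_and_natDegree_eq_and_monic hl (minpoly.monic hF)
  have htk := tower_k k x hx
  have hk : IsIntegral k a := by
    refine ⟨q, hqm, ?_⟩
    rw [IsScalarTower.algebraMap_eq k (RatFunc k) K, ← eval₂_map, hq]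
    exact minpoly.aeval (RatFunc k) a
  have hd := IsAlgClosed.degree_eq_one_of_irreducible k (minpoly.irreducible hk)
  obtain ⟨c, hc⟩ := minpoly.mem_range_of_degree_eq_one k a hd
  exact ⟨c, hc.symm⟩

end C
end RB

section R
variable (k : Type) {K : Type} [Field k] [IsAlgClosed k] [CharZero k] [Field K] [Algebra k K]
  (x : K) [IsCurve k x]

theorem R1_dedekind : IsDedekindDomain (R1 k x) := by
  let _ := (ratHom k x).toRingHom.toAlgebra
  exact RB.dedekind k x fun f => rfl

theorem R1_fraction : IsFractionRing (R1 k x) K := by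
  let _ := (ratHom k x).toRingHom.toAlgebra
  exact RB.fraction k x fun f => rfl

theorem R1_simple (M : Type) [AddCommGroup M] [Module (R1 k x) M] [Module k M]
    [IsScalarTower k (R1 k x) M] [IsSimpleModule (R1 k x) M] : finrank k M = 1 := by
  let _ := (ratHom k x).toRingHom.toAlgebra
  exact RB.simple k x (fun f => rfl) M

theorem R0_inf_R1 (a : K) (h0 : a ∈ R0 k x) (h1 : a ∈ R1 k x) :
    ∃ c : k, a = algebraMap k K c := by
  let _ := (ratHom k x).toRingHom.toAlgebra
  exact RB.inf k x (fun f => rfl) a h0 h1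

/-- `R1` is a finite free module over the local ring of the projective line at infinity. -/
theorem R1_basis : letI := (ratHom k x).toRingHom.toAlgebra
    ∃ (n : ℕ) (b : Basis (Fin n) (RatFunc k) K),
      ∀ a : K, a ∈ R1 k x ↔ ∀ i, DegLE 0 (b.repr a i) := by
  let _ := (ratHom k x).toRingHom.toAlgebra
  exact RB.basis k x fun f => rfl

end R

end Pool.Agent.MP_b814b1_ag
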