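import Pool.Agent.MP_b814b1_ag.Defs2
import Pool.Agent.MP_b814b1_ag.P1Basis
import Pool.Agent.MP_b814b1_ag.Rings0
import Pool.Agent.MP_b814b1_ag.Rings1

/-!
# MP_b814b1_ag, module S: bundles as lattices over `k(X)`
-/

open Polynomial Module
open scoped Topology

noncomputable section

set_option linter.style.haveILetI false
set_option linter.unusedSectionVars false

namespace Pool.Agent.MP_b814b1_ag

namespace Coh1

/-- A finitely generated submodule over a principal ideal domain `A` of a vector space over the
fraction field is free. -/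
theorem lattice_basis {A F V : Type} [CommRing A] [IsDomain A] [IsPrincipalIdealRing A] [Field F]
    [Algebra A F] [IsFractionRing A F] [AddCommGroup V] [Module F V] [Module A V]
    [IsScalarTower A F V] (L : Submodule A V) (hfg : L.FG)
    (hspan : Submodule.span F (L : Set V) = ⊤) :
    FiniteDimensional F V ∧
    ∃ b : Basis (Fin (finrank F V)) F V, ∀ v, v ∈ L ↔ ∀ i, ∃ a : A, algebraMap A F a = b.repr v i := by
  classical
  haveI : Module.Finite A L := Module.Finite.iff_fg.2 hfg
  haveI : IsTorsionFree A V := IsTorsionFree.trans F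
  haveI : Module.Free A L := Module.free_of_finite_type_torsion_free'
  set c := Module.Free.chooseBasis A L with hc
  set ι := Module.Free.ChooseBasisIndex A L
  have hli : LinearIndependent A (fun i => (c i : V)) :=
    c.linearIndependent.map' L.subtype (by rw [Submodule.ker_subtype])
  have hliF : LinearIndependent F (fun i => (c i : V)) :=
    (LinearIndependent.iff_fractionRing A F).1 hli
  have hmem : ∀ v (hv : v ∈ L), v = ∑ i, algebraMap A F (c.repr ⟨v, hv⟩ i) • (c i : V) := by
    intro v hv
    have h1 := congrArg (fun u : L => (u : V)) (c.sum_repr ⟨v, hv⟩)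
    simp only [Submodule.coe_sum, Submodule.coe_smul] at h1
    conv_lhs => rw [← h1]
    exact Finset.sum_congr rfl fun i _ => (algebraMap_smul F _ _).symm
  have hsp : ⊤ ≤ Submodule.span F (Set.range (fun i => (c i : V))) := by
    rw [← hspan, Submodule.span_le]
    intro v hv
    rw [SetLike.mem_coe, hmem v hv]
    exact sum_mem fun i _ => Submodule.smul_mem _ _ (Submodule.subset_span ⟨i, rfl⟩)
  set b0 : Basis ι F V := Basis.mk hliF hsp with hb0
  haveI : FiniteDimensional F V := Module.Finite.of_basis b0
  refine ⟨inferInstance, ?_⟩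
  have hcard : Fintype.card ι = finrank F V := (Module.finrank_eq_card_basis b0).symm
  set eqv : ι ≃ Fin (finrank F V) := Fintype.equivFinOfCardEq hcard with heqv
  refine ⟨b0.reindex eqv, fun v => ?_⟩
  have hb0c : ∀ i, b0 i = (c i : V) := fun i => by rw [hb0, Basis.mk_apply]
  constructor
  · intro hv i
    refine ⟨c.repr ⟨v, hv⟩ (eqv.symm i), ?_⟩
    rw [Basis.repr_reindex_apply]
    have h2 : v = ∑ i, algebraMap A F (c.repr ⟨v, hv⟩ i) • b0 i := by
      simp only [hb0c]; exact hmem v hv
    conv_rhs => rw [h2]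
    rw [Basis.repr_sum_self]
  · intro h
    have h1 : ∀ i, ∃ a : A, algebraMap A F a = b0.repr v i := by
      intro i
      obtain ⟨a, ha⟩ := h (eqv i)
      refine ⟨a, ha.trans ?_⟩
      rw [Basis.repr_reindex_apply, Equiv.symm_apply_apply]
    choose a ha using h1
    rw [← b0.sum_repr v]
    refine sum_mem fun i _ => ?_
    rw [← ha i, hb0c, algebraMap_smul]
    exact L.smul_mem _ (c i).2

/-- Lattices over a ring `S` that is finite and free over `A`. -/
theorem lattice_basis' {k A F K V : Type} [Field k] [CommRing A] [IsDomain A]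
    [IsPrincipalIdealRing A] [Field F]
    [Algebra A F] [IsFractionRing A F] [Field K] [Algebra k K] [Algebra F K] [AddCommGroup V]
    [Module K V] [Module F V] [IsScalarTower F K V] {n : ℕ} (b : Basis (Fin n) F K)
    (S : Subalgebra k K) (hS : ∀ a, a ∈ S ↔ ∀ i, ∃ a' : A, algebraMap A F a' = b.repr a i)
    (L : Submodule S V) (hfg : L.FG) (hspan : Submodule.span K (L : Set V) = ⊤) :
    FiniteDimensional F V ∧
    ∃ c : Basis (Fin (finrank F V)) F V, ∀ v, v ∈ L ↔ ∀ i, ∃ a : A, algebraMap A F a = c.repr v i := by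
  classical
  letI : Module A V := Module.compHom V (algebraMap A F)
  haveI : IsScalarTower A F V := ⟨fun a f v => by
    change (a • f) • v = algebraMap A F a • f • v
    rw [Algebra.smul_def, mul_smul]⟩
  have hAsmul : ∀ (a : A) (v : V), a • v = algebraMap F K (algebraMap A F a) • v := by
    intro a v
    rw [algebraMap_smul]; rfl
  have hbS : ∀ j, b j ∈ S := by
    intro j
    rw [hS]
    intro i
    rw [Basis.repr_self]
    rcases eq_or_ne j i with rfl | hji
    · rw [Finsupp.single_eq_same]; exact ⟨1, map_one _⟩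
    · rw [Finsupp.single_eq_of_ne' hji]; exact ⟨0, map_zero _⟩
  have hAS : ∀ a : A, algebraMap F K (algebraMap A F a) ∈ S := by
    intro a
    rw [hS]
    intro i
    obtain ⟨u, hu⟩ := (hS 1).1 (one_mem S) i
    refine ⟨a * u, ?_⟩
    rw [Algebra.algebraMap_eq_smul_one (R := F) (A := K), map_smul, Finsupp.smul_apply,
      smul_eq_mul, map_mul, hu]
  have hSsmul : ∀ (s : K) (hs : s ∈ S) (v : V), v ∈ L → s • v ∈ L := fun s hs v hv =>
    L.smul_mem ⟨s, hs⟩ hv
  let L' : Submodule A V :=
    { carrier := L
      add_mem' := fun ha hb => L.add_mem ha hb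
      zero_mem' := L.zero_mem
      smul_mem' := fun a v hv => by
        rw [hAsmul]
        exact hSsmul _ (hAS a) v hv }
  have hL' : ∀ v, v ∈ L' ↔ v ∈ L := fun v => Iff.rfl
  obtain ⟨T, hT⟩ := hfg
  have hTL : ∀ t ∈ T, t ∈ L := fun t ht => hT ▸ Submodule.subset_span ht
  have hfg' : L'.FG := by
    refine ⟨(Finset.univ ×ˢ T).image (fun p : Fin n × V => b p.1 • p.2), ?_⟩
    apply le_antisymm
    · rw [Submodule.span_le]
      intro v hv
      rw [Finset.coe_image] at hv
      obtain ⟨⟨j, t⟩, hp, rfl⟩ := hv
      have ht : t ∈ T := by simpa using hp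
      exact hSsmul _ (hbS j) _ (hTL t ht)
    · intro v hv
      rw [hL', ← hT, Submodule.mem_span_finset] at hv
      obtain ⟨f, -, rfl⟩ := hv
      refine sum_mem fun t ht => ?_
      obtain ⟨s, hs⟩ := f t
      change s • t ∈ _
      choose a ha using (hS s).1 hs
      have h1 : s • t = ∑ j, a j • (b j • t) := by
        conv_lhs => rw [← b.sum_repr s]
        rw [Finset.sum_smul]
        refine Finset.sum_congr rfl fun j _ => ?_
        rw [smul_assoc, ← ha j]; rfl
      rw [h1]
      refine sum_mem fun j _ => Submodule.smul_mem _ _ (Submodule.subset_span ?_)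
      rw [Finset.coe_image]
      exact ⟨(j, t), by simpa using ht, rfl⟩
  have hspan' : Submodule.span F (L' : Set V) = ⊤ := by
    rw [eq_top_iff]
    intro w _
    have hw : w ∈ Submodule.span K (L : Set V) := by rw [hspan]; trivial
    have hmul : ∀ (κ : K) (m : V), m ∈ Submodule.span F (L' : Set V) →
        κ • m ∈ Submodule.span F (L' : Set V) := by
      intro κ m hm
      induction hm using Submodule.span_induction with
      | mem l hl =>
        have h1 : κ • l = ∑ j, (b.repr κ j) • (b j • l) := by
          conv_lhs => rw [← b.sum_repr κ]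
          rw [Finset.sum_smul]
          exact Finset.sum_congr rfl fun j _ => by rw [smul_assoc]
        rw [h1]
        exact sum_mem fun j _ => Submodule.smul_mem _ _ (Submodule.subset_span
          (hSsmul _ (hbS j) _ hl))
      | zero => rw [smul_zero]; exact zero_mem _
      | add u v _ _ hu hv => rw [smul_add]; exact add_mem hu hv
      | smul f v _ hv =>
        have h1 : κ • f • v = f • κ • v := by
          rw [← algebraMap_smul K f v, ← algebraMap_smul K f (κ • v), smul_smul, smul_smul,
            mul_comm]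
        rw [h1]
        exact Submodule.smul_mem _ _ hv
    induction hw using Submodule.span_induction with
    | mem l hl => exact Submodule.subset_span hl
    | zero => exact zero_mem _
    | add u v _ _ hu hv => exact add_mem (hu trivial) (hv trivial)
    | smul κ v _ hv => exact hmul κ v (hv trivial)
  exact lattice_basis L' hfg' hspan'

/-- The local ring at infinity of the projective line. -/
def O1 (k : Type) [Field k] : ValuationSubring (RatFunc k) where
  carrier := {f | DegLE 0 f}
  mul_mem' := fun {a b} ha hb => by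
    have := P1.degLE_mul ha hb
    simpa using this
  one_mem' := by
    have := P1.degLE_C (1 : k)
    rwa [map_one] at this
  add_mem' := fun ha hb => P1.degLE_add ha hb
  zero_mem' := P1.degLE_zero 0
  neg_mem' := fun ha => P1.degLE_neg ha
  mem_or_inv_mem' := fun f => by
    rcases le_total f.intDegree 0 with h | h
    · exact Or.inl (Or.inr h)
    · exact Or.inr (Or.inr (by rw [RatFunc.intDegree_inv]; omega))

theorem mem_O1 {k : Type} [Field k] (f : RatFunc k) : f ∈ O1 k ↔ DegLE 0 f := Iff.rfl

instance {k : Type} [Field k] : IsPrincipalIdealRing (O1 k) := by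
  classical
  refine ⟨fun I => ?_⟩
  by_cases hI : I = ⊥
  · rw [hI]; exact bot_isPrincipal
  obtain ⟨a0, ha0, ha00⟩ := Submodule.exists_mem_ne_zero_of_ne_bot hI
  -- an element of maximal degree
  have hex : ∃ m : ℕ, ∃ a ∈ I, a ≠ 0 ∧ (a : RatFunc k).intDegree = -(m : ℤ) := by
    refine ⟨(-(a0 : RatFunc k).intDegree).toNat, a0, ha0, ha00, ?_⟩
    have h1 : (a0 : RatFunc k).intDegree ≤ 0 := by
      rcases (mem_O1 _).1 a0.2 with h | h
      · exact absurd (Subtype.ext h) ha00
      · exact h
    omega
  obtain ⟨a, haI, ha, hdeg⟩ := Nat.find_spec hex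
  refine ⟨a, le_antisymm ?_ ?_⟩
  · intro b hb
    have ha' : (a : RatFunc k) ≠ 0 := fun h => ha (Subtype.ext h)
    rcases eq_or_ne b 0 with rfl | hb0
    · exact zero_mem _
    have hb' : (b : RatFunc k) ≠ 0 := fun h => hb0 (Subtype.ext h)
    have h1 : (b : RatFunc k).intDegree ≤ 0 := by
      rcases (mem_O1 _).1 b.2 with h | h
      · exact absurd h hb'
      · exact h
    have h4 : (b : RatFunc k).intDegree = -(((-(b : RatFunc k).intDegree).toNat : ℕ) : ℤ) := by
      omega
    have h2 := Nat.find_min' hex ⟨b, hb, hb0, h4⟩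
    have h3 : (b : RatFunc k) / a ∈ O1 k := by
      rw [mem_O1]
      right
      rw [RatFunc.intDegree_div hb' ha', hdeg]
      omega
    rw [Submodule.mem_span_singleton]
    refine ⟨⟨_, h3⟩, Subtype.ext ?_⟩
    change (b : RatFunc k) / a * a = b
    exact div_mul_cancel₀ _ ha'
  · rw [Submodule.span_le, Set.singleton_subset_iff]
    exact haI

end Coh1

variable {k K : Type} [Field k] [IsAlgClosed k] [CharZero k] [Field K] [Algebra k K] {x : K}
  [IsCurve k x]
variable {V : Type} [AddCommGroup V] [Module K V] [Module k V] [IsScalarTower k K V]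
  [FiniteDimensional K V]

namespace Pair

theorem exists_bases (E : Pair k x V) (hE : E.IsBundle) :
    letI : Module (RatFunc k) V := Module.compHom V (ratHom k x).toRingHom
    ∃ b c : Basis (Fin (finrank (RatFunc k) V)) (RatFunc k) V,
      (∀ v, v ∈ E.L0 ↔ ∀ i, IsPoly (b.repr v i)) ∧
      (∀ v, v ∈ E.L1 ↔ ∀ i, DegLE 0 (c.repr v i)) := by
  letI := (ratHom k x).toRingHom.toAlgebra
  letI : Module (RatFunc k) V := Module.compHom V (ratHom k x).toRingHom
  haveI : IsScalarTower (RatFunc k) K V := ⟨fun f a v => by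
    change (f • a) • v = (ratHom k x f) • a • v
    rw [Algebra.smul_def, mul_smul]; rfl⟩
  obtain ⟨n, b, -, hb⟩ := R0_basis k x
  obtain ⟨n', b', hb'⟩ := R1_basis k x
  obtain ⟨-, c, hc⟩ := Coh1.lattice_basis' (A := k[X]) b (R0 k x) hb E.L0 hE.fg0 hE.span0
  have hO1 : ∀ f : RatFunc k, (∃ a : Coh1.O1 k, algebraMap (Coh1.O1 k) (RatFunc k) a = f) ↔
      DegLE 0 f := fun f => ⟨fun ⟨a, ha⟩ => ha ▸ a.2, fun h => ⟨⟨f, h⟩, rfl⟩⟩
  obtain ⟨-, c', hc'⟩ := Coh1.lattice_basis' (A := Coh1.O1 k) b' (R1 k x)
    (fun a => (hb' a).trans (forall_congr' fun i => (hO1 _).symm)) E.L1 hE.fg1 hE.span1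
  exact ⟨c, c', hc, fun v => (hc' v).trans (forall_congr' fun i => hO1 _)⟩

end Pair

end Pool.Agent.MP_b814b1_ag
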