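import Pool.Agent.MP_b814b1_ag.P1Basis

/-!
# MP_b814b1_ag, module Q: cohomology on the projective line
-/

open Polynomial Module
open scoped Topology

noncomputable section

namespace Pool.Agent.MP_b814b1_ag

namespace P1Coh

open P1

section One

variable (k : Type) [Field k]

/-- Polynomials inside the rational functions, as a `k`-submodule. -/
def PP : Submodule k (RatFunc k) where
  carrier := {f | IsPoly f}
  add_mem' := fun ha hb => isPoly_add ha hb
  zero_mem' := isPoly_zero
  smul_mem' := fun c f hf => by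
    change IsPoly (c • f)
    rw [RatFunc.smul_eq_C_mul]
    exact isPoly_mul (isPoly_C c) hf

/-- Rational functions of degree at most `a`, as a `k`-submodule. -/
def DD (a : ℤ) : Submodule k (RatFunc k) where
  carrier := {f | DegLE a f}
  add_mem' := fun ha hb => degLE_add ha hb
  zero_mem' := degLE_zero a
  smul_mem' := fun c f hf => by
    change DegLE a (c • f)
    rw [RatFunc.smul_eq_C_mul]
    have := degLE_mul (degLE_C c) hf
    rwa [zero_add] at this

variable {k}

theorem mem_PP {f : RatFunc k} : f ∈ PP k ↔ IsPoly f := Iff.rfl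

theorem mem_DD {a : ℤ} {f : RatFunc k} : f ∈ DD k a ↔ DegLE a f := Iff.rfl

/-- `p ↦ X^m p` from polynomials to rational functions. -/
def mulX (m : ℤ) : k[X] →ₗ[k] RatFunc k where
  toFun p := RatFunc.X ^ m * algebraMap k[X] (RatFunc k) p
  map_add' p q := by rw [map_add, mul_add]
  map_smul' c p := by
    rw [RingHom.id_apply, RatFunc.smul_eq_C_mul, Polynomial.smul_eq_C_mul, map_mul,
      RatFunc.algebraMap_C]
    ring

theorem mulX_apply (m : ℤ) (p : k[X]) :
    mulX m p = RatFunc.X ^ m * algebraMap k[X] (RatFunc k) p := rfl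

theorem mulX_injective (m : ℤ) : Function.Injective (mulX (k := k) m) := by
  intro p q h
  rw [mulX_apply, mulX_apply] at h
  have hX : (RatFunc.X : RatFunc k) ^ m ≠ 0 := zpow_ne_zero _ RatFunc.X_ne_zero
  exact RatFunc.algebraMap_injective k (mul_left_cancel₀ hX h)

theorem finrank_degreeLT (m : ℕ) : finrank k (degreeLT k m) = m := by
  rw [(degreeLTEquiv k m).finrank_eq]
  simp

theorem finite_degreeLT (m : ℕ) : FiniteDimensional k (degreeLT k m) :=
  (degreeLTEquiv k m).symm.finiteDimensional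

theorem degLE_poly {a : ℤ} {p : k[X]} (hp : DegLE a (algebraMap k[X] (RatFunc k) p)) :
    p = 0 ∨ (p.natDegree : ℤ) ≤ a := by
  rcases hp with h | h
  · left
    exact (map_eq_zero_iff _ (RatFunc.algebraMap_injective k)).mp h
  · right
    rwa [RatFunc.intDegree_polynomial] at h

theorem poly_degLE {a : ℤ} {p : k[X]} (hp : p = 0 ∨ (p.natDegree : ℤ) ≤ a) :
    DegLE a (algebraMap k[X] (RatFunc k) p) := by
  rcases hp with rfl | h
  · rw [map_zero]; exact degLE_zero a
  · right
    rwa [RatFunc.intDegree_polynomial]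

theorem inf_eq (a : ℤ) : PP k ⊓ DD k a = (degreeLT k (a + 1).toNat).map (mulX 0) := by
  ext f
  constructor
  · rintro ⟨⟨p, rfl⟩, h⟩
    refine ⟨p, ?_, by rw [mulX_apply, zpow_zero, one_mul]⟩
    rw [SetLike.mem_coe, mem_degreeLT]
    rcases degLE_poly h with rfl | h
    · rw [degree_zero]; exact WithBot.bot_lt_coe _
    · refine lt_of_le_of_lt degree_le_natDegree ?_
      have : p.natDegree < (a + 1).toNat := by omega
      exact_mod_cast this
  · rintro ⟨p, hp, rfl⟩
    rw [SetLike.mem_coe, mem_degreeLT] at hp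
    rw [mulX_apply, zpow_zero, one_mul]
    refine ⟨⟨p, rfl⟩, poly_degLE ?_⟩
    by_cases h0 : p = 0
    · exact Or.inl h0
    · right
      rw [degree_eq_natDegree h0] at hp
      have : p.natDegree < (a + 1).toNat := by exact_mod_cast hp
      omega

theorem fin_inf (a : ℤ) : FiniteDimensional k ↥(PP k ⊓ DD k a) := by
  rw [inf_eq]
  have := finite_degreeLT (k := k) (a + 1).toNat
  exact (Submodule.equivMapOfInjective _ (mulX_injective 0) _).finiteDimensional

theorem finrank_inf (a : ℤ) : finrank k ↥(PP k ⊓ DD k a) = (a + 1).toNat := by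
  rw [inf_eq, ← (Submodule.equivMapOfInjective _ (mulX_injective 0) _).finrank_eq,
    finrank_degreeLT]

/-- The complement. -/
def CC (a : ℤ) : Submodule k (RatFunc k) :=
  (degreeLT k (-a - 1).toNat).map (mulX (-((-a - 1).toNat : ℤ)))

/-- Every rational function is a polynomial plus something of negative degree. -/
theorem exists_poly_add (f : RatFunc k) : ∃ p : k[X],
    DegLE (-1) (f - algebraMap k[X] (RatFunc k) p) := by
  set q := f.denom with hq
  have hq0 : q ≠ 0 := RatFunc.denom_ne_zero f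
  have hmon : q.Monic := RatFunc.monic_denom f
  refine ⟨f.num /ₘ q, ?_⟩
  have hq' : (algebraMap k[X] (RatFunc k) q) ≠ 0 := RatFunc.algebraMap_ne_zero hq0
  have h1 : f - algebraMap k[X] (RatFunc k) (f.num /ₘ q) =
      algebraMap k[X] (RatFunc k) (f.num %ₘ q) / algebraMap k[X] (RatFunc k) q := by
    rw [eq_div_iff hq', sub_mul]
    nth_rewrite 1 [← RatFunc.num_div_denom f]
    rw [div_mul_cancel₀ _ hq', ← map_mul, ← map_sub]
    congr 1
    have := modByMonic_add_div f.num q
    rw [mul_comm]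
    exact (eq_sub_of_add_eq this).symm
  rw [h1]
  by_cases hr : f.num %ₘ q = 0
  · rw [hr, map_zero, zero_div]; exact degLE_zero _
  · right
    rw [RatFunc.intDegree_div (RatFunc.algebraMap_ne_zero hr) hq',
      RatFunc.intDegree_polynomial, RatFunc.intDegree_polynomial]
    have h2 : (f.num %ₘ q).degree < q.degree := degree_modByMonic_lt _ hmon
    have h3 := natDegree_lt_natDegree hr h2
    omega

theorem poly_eq_zero {f : RatFunc k} (h : IsPoly f) (h' : DegLE (-1) f) : f = 0 := by
  rcases h' with h' | h'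
  · exact h'
  · have := intDegree_nonneg_of_isPoly h
    omega

theorem isCompl_CC (a : ℤ) : IsCompl (PP k ⊔ DD k a) (CC a) := by
  set m : ℕ := (-a - 1).toNat with hm
  have hX : (RatFunc.X : RatFunc k) ≠ 0 := RatFunc.X_ne_zero
  have hXm : (RatFunc.X : RatFunc k) ^ (-(m : ℤ)) * RatFunc.X ^ (m : ℤ) = 1 := by
    rw [← zpow_add₀ hX]; simp
  constructor
  · rw [disjoint_iff, eq_bot_iff]
    rintro f ⟨hf1, hf2⟩
    obtain ⟨p, hp, rfl⟩ := hf2
    rw [SetLike.mem_coe, mem_degreeLT] at hp
    rw [Submodule.mem_bot, mulX_apply]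
    by_cases hp0 : p = 0
    · rw [hp0, map_zero, mul_zero]
    exfalso
    rw [degree_eq_natDegree hp0] at hp
    have hpm : p.natDegree < m := by exact_mod_cast hp
    have hm' : (m : ℤ) = -a - 1 := by omega
    obtain ⟨q, hq, r, hr, hqr⟩ := Submodule.mem_sup.mp hf1
    have hd : DegLE (-1) (mulX (-(m : ℤ)) p) := by
      rw [mulX_apply]
      have h1 := degLE_mul (degLE_zpow (k := k) (-(m : ℤ)))
        (poly_degLE (k := k) (p := p) (Or.inr le_rfl))
      exact degLE_mono h1 (by omega)
    have hq0 : q = 0 := by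
      refine poly_eq_zero hq ?_
      have : q = mulX (-(m : ℤ)) p - r := by rw [← hqr]; ring
      rw [this]
      exact degLE_sub hd (degLE_mono hr (by omega))
    rw [hq0, zero_add] at hqr
    have h2 : DegLE (-1) (algebraMap k[X] (RatFunc k) p) := by
      have h3 : algebraMap k[X] (RatFunc k) p = RatFunc.X ^ (m : ℤ) * r := by
        rw [hqr, mulX_apply, ← mul_assoc, mul_comm (RatFunc.X ^ (m : ℤ)), hXm, one_mul]
      rw [h3]
      exact degLE_mono (degLE_mul (degLE_zpow (k := k) (m : ℤ)) hr) (by omega)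
    rcases degLE_poly h2 with h | h
    · exact hp0 h
    · omega
  · rw [codisjoint_iff, eq_top_iff]
    rintro f -
    obtain ⟨P1, hP1⟩ := exists_poly_add (f * RatFunc.X ^ (m : ℤ))
    set r := f * RatFunc.X ^ (m : ℤ) - algebraMap k[X] (RatFunc k) P1 with hr
    have hmon : (Polynomial.X ^ m : k[X]).Monic := monic_X_pow m
    have hdiv := modByMonic_add_div P1 (Polynomial.X ^ m)
    have hf : f = algebraMap k[X] (RatFunc k) (P1 /ₘ Polynomial.X ^ m) +
        RatFunc.X ^ (-(m : ℤ)) * r +
        RatFunc.X ^ (-(m : ℤ)) * algebraMap k[X] (RatFunc k) (P1 %ₘ Polynomial.X ^ m) := by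
      have h1 : algebraMap k[X] (RatFunc k) P1 =
          algebraMap k[X] (RatFunc k) (P1 %ₘ Polynomial.X ^ m) +
          RatFunc.X ^ (m : ℤ) * algebraMap k[X] (RatFunc k) (P1 /ₘ Polynomial.X ^ m) := by
        conv_lhs => rw [← hdiv]
        rw [map_add, map_mul, map_pow, RatFunc.algebraMap_X, zpow_natCast]
      rw [hr, h1]
      have h2 : RatFunc.X ^ (-(m : ℤ)) * (f * RatFunc.X ^ (m : ℤ)) = f := by
        rw [mul_comm f, ← mul_assoc, hXm, one_mul]
      have h3 : ∀ g : RatFunc k, RatFunc.X ^ (-(m : ℤ)) * (RatFunc.X ^ (m : ℤ) * g) = g := by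
        intro g
        rw [← mul_assoc, hXm, one_mul]
      rw [mul_sub, mul_add, h2, h3]
      ring
    rw [hf]
    refine Submodule.add_mem_sup (Submodule.add_mem_sup ⟨_, rfl⟩ ?_) ?_
    · exact degLE_mono (degLE_mul (degLE_zpow (k := k) (-(m : ℤ))) hP1) (by omega)
    · refine ⟨P1 %ₘ Polynomial.X ^ m, ?_, rfl⟩
      rw [SetLike.mem_coe, mem_degreeLT]
      have := degree_modByMonic_lt P1 hmon
      rwa [degree_X_pow] at this

theorem fin_quot (a : ℤ) : FiniteDimensional k (RatFunc k ⧸ (PP k ⊔ DD k a)) := by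
  have := finite_degreeLT (k := k) (-a - 1).toNat
  have h : FiniteDimensional k (CC (k := k) a) :=
    (Submodule.equivMapOfInjective _ (mulX_injective _) _).finiteDimensional
  exact (Submodule.quotientEquivOfIsCompl _ _ (isCompl_CC a)).symm.finiteDimensional

theorem finrank_quot (a : ℤ) : finrank k (RatFunc k ⧸ (PP k ⊔ DD k a)) = (-a - 1).toNat := by
  rw [(Submodule.quotientEquivOfIsCompl _ _ (isCompl_CC a)).finrank_eq, CC,
    ← (Submodule.equivMapOfInjective _ (mulX_injective _) _).finrank_eq, finrank_degreeLT]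

end One

section Pi

variable {k : Type} [Field k] {n : ℕ} {M : Type} [AddCommGroup M] [Module k M]

/-- Product of submodules. -/
def piEquiv (p : Fin n → Submodule k M) :
    Submodule.pi Set.univ p ≃ₗ[k] ∀ i, p i where
  toFun x i := ⟨x.1 i, x.2 i trivial⟩
  invFun y := ⟨fun i => (y i).1, fun i _ => (y i).2⟩
  map_add' _ _ := rfl
  map_smul' _ _ := rfl
  left_inv _ := rfl
  right_inv _ := rfl

theorem fin_pi (p : Fin n → Submodule k M) (h : ∀ i, FiniteDimensional k (p i)) :
    FiniteDimensional k (Submodule.pi Set.univ p) :=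
  (piEquiv p).symm.finiteDimensional

theorem finrank_pi_sub (p : Fin n → Submodule k M) (h : ∀ i, FiniteDimensional k (p i)) :
    finrank k (Submodule.pi Set.univ p) = ∑ i, finrank k (p i) := by
  rw [(piEquiv p).finrank_eq, Module.finrank_pi_fintype]

theorem fin_pi_quot (p : Fin n → Submodule k M) (h : ∀ i, FiniteDimensional k (M ⧸ p i)) :
    FiniteDimensional k ((Fin n → M) ⧸ Submodule.pi Set.univ p) :=
  (Submodule.quotientPi p).symm.finiteDimensional

theorem finrank_pi_quot (p : Fin n → Submodule k M) (h : ∀ i, FiniteDimensional k (M ⧸ p i)) :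
    finrank k ((Fin n → M) ⧸ Submodule.pi Set.univ p) = ∑ i, finrank k (M ⧸ p i) := by
  rw [(Submodule.quotientPi p).finrank_eq, Module.finrank_pi_fintype]

theorem pi_inf (p q : Fin n → Submodule k M) :
    Submodule.pi Set.univ p ⊓ Submodule.pi Set.univ q =
      Submodule.pi Set.univ fun i => p i ⊓ q i := by
  ext x
  constructor
  · rintro ⟨h1, h2⟩ i hi
    exact ⟨h1 i hi, h2 i hi⟩
  · intro h
    exact ⟨fun i hi => (h i hi).1, fun i hi => (h i hi).2⟩

theorem pi_sup (p q : Fin n → Submodule k M) :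
    Submodule.pi Set.univ p ⊔ Submodule.pi Set.univ q =
      Submodule.pi Set.univ fun i => p i ⊔ q i := by
  apply le_antisymm
  · refine sup_le ?_ ?_
    · exact fun x hx i hi => Submodule.mem_sup_left (hx i hi)
    · exact fun x hx i hi => Submodule.mem_sup_right (hx i hi)
  · intro x hx
    have h : ∀ i, ∃ y ∈ p i, ∃ z ∈ q i, y + z = x i := fun i => Submodule.mem_sup.mp (hx i trivial)
    choose y hy z hz hyz using h
    exact Submodule.mem_sup.mpr ⟨y, fun i _ => hy i, z, fun i _ => hz i, funext hyz⟩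

end Pi

end P1Coh

open P1 P1Coh

theorem adapted_coh {k : Type} [Field k] {n : ℕ} {V : Type} [AddCommGroup V]
    [Module (RatFunc k) V] [Module k V] [IsScalarTower k (RatFunc k) V]
    (e : Basis (Fin n) (RatFunc k) V) (a : Fin n → ℤ) (L0 L1 : Submodule k V)
    (h0 : ∀ v, v ∈ L0 ↔ ∀ i, IsPoly (e.repr v i))
    (h1 : ∀ v, v ∈ L1 ↔ ∀ i, DegLE (a i) (e.repr v i)) :
    FiniteDimensional k ↥(L0 ⊓ L1) ∧ finrank k ↥(L0 ⊓ L1) = ∑ i, (a i + 1).toNat ∧
    FiniteDimensional k (V ⧸ (L0 ⊔ L1)) ∧ finrank k (V ⧸ (L0 ⊔ L1)) = ∑ i, (-a i - 1).toNat := by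
  let E : V ≃ₗ[k] (Fin n → RatFunc k) := e.equivFun.restrictScalars k
  have hE : ∀ v i, E v i = e.repr v i := fun v i => rfl
  have hL0 : L0.map (E : V →ₗ[k] (Fin n → RatFunc k)) =
      Submodule.pi Set.univ fun _ => PP k := by
    ext w
    constructor
    · rintro ⟨v, hv, rfl⟩ i _
      exact (h0 v).1 hv i
    · intro hw
      refine ⟨E.symm w, (h0 _).2 fun i => ?_, E.apply_symm_apply w⟩
      rw [← hE, E.apply_symm_apply]
      exact hw i trivial
  have hL1 : L1.map (E : V →ₗ[k] (Fin n → RatFunc k)) =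
      Submodule.pi Set.univ fun i => DD k (a i) := by
    ext w
    constructor
    · rintro ⟨v, hv, rfl⟩ i _
      exact (h1 v).1 hv i
    · intro hw
      refine ⟨E.symm w, (h1 _).2 fun i => ?_, E.apply_symm_apply w⟩
      rw [← hE, E.apply_symm_apply]
      exact hw i trivial
  have hinf : (L0 ⊓ L1).map (E : V →ₗ[k] (Fin n → RatFunc k)) =
      Submodule.pi Set.univ fun i => PP k ⊓ DD k (a i) := by
    rw [Submodule.map_inf _ E.injective, hL0, hL1, pi_inf]
  have hsup : (L0 ⊔ L1).map (E : V →ₗ[k] (Fin n → RatFunc k)) =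
      Submodule.pi Set.univ fun i => PP k ⊔ DD k (a i) := by
    rw [Submodule.map_sup, hL0, hL1, pi_sup]
  have e1 : ↥(L0 ⊓ L1) ≃ₗ[k] ↥(Submodule.pi Set.univ fun i => PP k ⊓ DD k (a i)) :=
    (E.submoduleMap (L0 ⊓ L1)).trans (LinearEquiv.ofEq _ _ hinf)
  have e2 : (V ⧸ (L0 ⊔ L1)) ≃ₗ[k]
      ((Fin n → RatFunc k) ⧸ Submodule.pi Set.univ fun i => PP k ⊔ DD k (a i)) :=
    Submodule.Quotient.equiv _ _ E hsup
  have f1 := fin_pi (fun i => PP k ⊓ DD k (a i)) fun i => fin_inf (a i)
  have f2 := fin_pi_quot (fun i => PP k ⊔ DD k (a i)) fun i => fin_quot (a i)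
  refine ⟨e1.symm.finiteDimensional, ?_, e2.symm.finiteDimensional, ?_⟩
  · rw [e1.finrank_eq, finrank_pi_sub _ fun i => fin_inf (a i)]
    exact Finset.sum_congr rfl fun i _ => finrank_inf (a i)
  · rw [e2.finrank_eq, finrank_pi_quot _ fun i => fin_quot (a i)]
    exact Finset.sum_congr rfl fun i _ => finrank_quot (a i)

theorem adapted_dual {k : Type} [Field k] {n : ℕ} {V : Type} [AddCommGroup V]
    [Module (RatFunc k) V] [Module k V] [IsScalarTower k (RatFunc k) V]
    (e : Basis (Fin n) (RatFunc k) V) (a : Fin n → ℤ)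
    (D : Submodule k (V →ₗ[RatFunc k] RatFunc k))
    (hD : ∀ φ, φ ∈ D ↔ (∀ v, (∀ i, IsPoly (e.repr v i)) → IsPoly (φ v)) ∧
      (∀ v, (∀ i, DegLE (a i) (e.repr v i)) → DegLE (-2) (φ v))) :
    FiniteDimensional k D ∧ finrank k D = ∑ i, (-a i - 1).toNat := by
  classical
  have hX : (RatFunc.X : RatFunc k) ≠ 0 := RatFunc.X_ne_zero
  let E : (V →ₗ[RatFunc k] RatFunc k) ≃ₗ[k] (Fin n → RatFunc k) := (e.constr k).symm
  have hE : ∀ φ i, E φ i = φ (e i) := fun φ i => rfl
  have hmap : D.map (E : (V →ₗ[RatFunc k] RatFunc k) →ₗ[k] (Fin n → RatFunc k)) =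
      Submodule.pi Set.univ fun i => PP k ⊓ DD k (-a i - 2) := by
    ext w
    constructor
    · rintro ⟨φ, hφ, rfl⟩ i _
      obtain ⟨hφ0, hφ1⟩ := (hD φ).1 hφ
      change E φ i ∈ _
      rw [hE]
      refine ⟨hφ0 (e i) fun j => ?_, ?_⟩
      · rw [Basis.repr_self]
        by_cases h : i = j
        · subst h; rw [Finsupp.single_eq_same]; exact isPoly_one
        · rw [Finsupp.single_eq_of_ne (by tauto)]; exact isPoly_zero
      · have h1 : DegLE (-2) (φ ((RatFunc.X : RatFunc k) ^ (a i) • e i)) := by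
          refine hφ1 _ fun j => ?_
          rw [map_smul, Basis.repr_self, Finsupp.smul_apply, smul_eq_mul]
          by_cases h : i = j
          · subst h; rw [Finsupp.single_eq_same, mul_one]; exact degLE_zpow _
          · rw [Finsupp.single_eq_of_ne (by tauto), mul_zero]; exact degLE_zero _
        rw [map_smul, smul_eq_mul] at h1
        have h2 : φ (e i) = RatFunc.X ^ (-a i) * (RatFunc.X ^ (a i) * φ (e i)) := by
          rw [← mul_assoc, ← zpow_add₀ hX]; simp
        change DegLE _ _
        rw [h2]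
        exact degLE_mono (degLE_mul (degLE_zpow (k := k) (-a i)) h1) (by omega)
    · intro hw
      refine ⟨E.symm w, (hD _).2 ⟨fun v hv => ?_, fun v hv => ?_⟩, E.apply_symm_apply w⟩
      · have h1 : (E.symm w) v = ∑ i, e.repr v i * w i := by
          have h2 : ∀ i, (E.symm w) (e i) = w i := fun i => by
            rw [← hE, E.apply_symm_apply]
          conv_lhs => rw [← e.sum_repr v]
          rw [map_sum]
          refine Finset.sum_congr rfl fun i _ => ?_
          rw [map_smul, smul_eq_mul, h2]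
        rw [h1]
        refine Submodule.sum_mem (PP k) fun i _ => ?_
        exact isPoly_mul (hv i) (hw i trivial).1
      · have h1 : (E.symm w) v = ∑ i, e.repr v i * w i := by
          have h2 : ∀ i, (E.symm w) (e i) = w i := fun i => by
            rw [← hE, E.apply_symm_apply]
          conv_lhs => rw [← e.sum_repr v]
          rw [map_sum]
          refine Finset.sum_congr rfl fun i _ => ?_
          rw [map_smul, smul_eq_mul, h2]
        rw [h1]
        refine degLE_sum fun i _ => ?_
        exact degLE_mono (degLE_mul (hv i) (hw i trivial).2) (by omega)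
  have e1 : D ≃ₗ[k] ↥(Submodule.pi Set.univ fun i => PP k ⊓ DD k (-a i - 2)) :=
    (E.submoduleMap D).trans (LinearEquiv.ofEq _ _ hmap)
  have f1 := fin_pi (fun i => PP k ⊓ DD k (-a i - 2)) fun i => fin_inf _
  refine ⟨e1.symm.finiteDimensional, ?_⟩
  rw [e1.finrank_eq, finrank_pi_sub _ fun i => fin_inf _]
  refine Finset.sum_congr rfl fun i _ => ?_
  rw [finrank_inf]
  congr 1
  ring

end Pool.Agent.MP_b814b1_ag
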