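import Pool.Agent.MP_b814b1_ag.Defs2
import Pool.Agent.MP_b814b1_ag.P1Basis
import Pool.Agent.MP_b814b1_ag.P1Coh
import Pool.Agent.MP_b814b1_ag.Coh1

/-!
# MP_b814b1_ag, module T: finiteness of cohomology, twists
-/

open Polynomial Module
open scoped Topology

noncomputable section

set_option linter.style.haveILetI false
set_option linter.unusedSectionVars false

namespace Pool.Agent.MP_b814b1_ag

variable {k K : Type} [Field k] [IsAlgClosed k] [CharZero k] [Field K] [Algebra k K] {x : K}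
  [IsCurve k x]
variable {V : Type} [AddCommGroup V] [Module K V] [Module k V] [IsScalarTower k K V]
  [FiniteDimensional K V]

namespace Pair

namespace Coh2

theorem ratHom_X : ratHom k x RatFunc.X = x := by
  unfold ratHom
  rw [RatFunc.liftAlgHom_apply]
  simp

theorem ratHom_Xinv_pow (m : ℕ) : ratHom k x (RatFunc.X ^ (-(m : ℤ))) = (x⁻¹) ^ m := by
  rw [map_zpow₀, ratHom_X, zpow_neg, zpow_natCast, inv_pow]

/-- Cohomology of all twists in terms of one adapted basis. -/
theorem main (E : Pair k x V) (hE : E.IsBundle) :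
    letI : Module (RatFunc k) V := Module.compHom V (ratHom k x).toRingHom
    ∃ a : Fin (finrank (RatFunc k) V) → ℤ, ∀ m : ℕ,
      FiniteDimensional k (E.twist m).H0 ∧
      (E.twist m).h0 = ∑ i, (a i + m + 1).toNat ∧ FiniteDimensional k (V ⧸ (E.twist m).S) ∧
      (E.twist m).h1 = ∑ i, (-(a i + m) - 1).toNat := by
  letI : Module (RatFunc k) V := Module.compHom V (ratHom k x).toRingHom
  obtain ⟨b, c, hb, hc⟩ := exists_bases E hE
  obtain ⟨e, a, h0, h1⟩ := exists_adapted b c
  haveI : IsScalarTower k (RatFunc k) V := ⟨fun c f v => by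
    change (ratHom k x (c • f)) • v = c • (ratHom k x f) • v
    rw [map_smul, smul_assoc]⟩
  refine ⟨a, fun m => ?_⟩
  have hX : (RatFunc.X : RatFunc k) ≠ 0 := RatFunc.X_ne_zero
  have hL0 : ∀ v, v ∈ (E.twist m).L0.restrictScalars k ↔ ∀ i, IsPoly (e.repr v i) := fun v =>
    (hb v).trans (h0 v)
  have hL1 : ∀ v, v ∈ (E.twist m).L1.restrictScalars k ↔
      ∀ i, DegLE (a i + m) (e.repr v i) := by
    intro v
    have h2 : v ∈ (E.twist m).L1.restrictScalars k ↔
        ((RatFunc.X ^ (-(m : ℤ)) : RatFunc k) • v) ∈ E.L1 := by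
      change (x⁻¹) ^ m • v ∈ E.L1 ↔ (ratHom k x (RatFunc.X ^ (-(m : ℤ)))) • v ∈ E.L1
      rw [ratHom_Xinv_pow]
    rw [h2, hc, h1]
    refine forall_congr' fun i => ?_
    rw [map_smul, Finsupp.smul_apply, smul_eq_mul]
    constructor
    · intro h
      have h3 := P1.degLE_mul (P1.degLE_zpow (k := k) (m : ℤ)) h
      rw [← mul_assoc, ← zpow_add₀ hX, add_neg_cancel, zpow_zero, one_mul] at h3
      exact P1.degLE_mono h3 (by omega)
    · intro h
      exact P1.degLE_mono (P1.degLE_mul (P1.degLE_zpow (k := k) (-(m : ℤ))) h) (by omega)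
  obtain ⟨r1, r2, r3, r4⟩ := adapted_coh e (fun i => a i + m) _ _ hL0 hL1
  exact ⟨r1, r2, r3, r4⟩

theorem twist_zero (E : Pair k x V) : E.twist 0 = E := by
  ext v
  · rfl
  · change (x⁻¹) ^ 0 • v ∈ E.L1 ↔ _
    rw [pow_zero, one_smul]

end Coh2

theorem finite_H0 (E : Pair k x V) (hE : E.IsBundle) : FiniteDimensional k E.H0 := by
  obtain ⟨a, ha⟩ := Coh2.main E hE
  have := (ha 0).1
  rwa [Coh2.twist_zero] at this

theorem finite_H1 (E : Pair k x V) (hE : E.IsBundle) : FiniteDimensional k (V ⧸ E.S) := by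
  obtain ⟨a, ha⟩ := Coh2.main E hE
  have := (ha 0).2.2.1
  rwa [Coh2.twist_zero] at this

variable (k x) in
theorem exists_twist : ∃ n : ℕ, 0 < n ∧ ∀ (V : Type) [AddCommGroup V] [Module K V] [Module k V]
    [IsScalarTower k K V] [FiniteDimensional K V] (E : Pair k x V), E.IsBundle → ∀ m : ℕ,
      (E.twist m).chi = E.chi + m * n * finrank K V := by
  letI := (ratHom k x).toRingHom.toAlgebra
  obtain ⟨n, b, hn, -⟩ := R0_basis k x
  haveI : Module.Finite (RatFunc k) K := Module.Finite.of_basis b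
  refine ⟨n, hn, ?_⟩
  intro V _ _ _ _ _ E hE m
  letI : Module (RatFunc k) V := Module.compHom V (ratHom k x).toRingHom
  haveI : IsScalarTower (RatFunc k) K V := ⟨fun f a v => by
    change (f • a) • v = (ratHom k x f) • a • v
    rw [Algebra.smul_def, mul_smul]; rfl⟩
  obtain ⟨a, ha⟩ := Coh2.main E hE
  have hchi : ∀ m : ℕ, (E.twist m).chi = ∑ i, (a i + 1) + m * finrank (RatFunc k) V := by
    intro m
    unfold chi
    rw [(ha m).2.1, (ha m).2.2.2]
    push_cast
    rw [← Finset.sum_sub_distrib]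
    have h1 : ∀ i, ((a i + m + 1).toNat : ℤ) - ((-(a i + m) - 1).toNat : ℤ) = (a i + 1) + m := by
      intro i; omega
    simp only [h1]
    rw [Finset.sum_add_distrib, Finset.sum_const, Finset.card_univ, Fintype.card_fin,
      nsmul_eq_mul, mul_comm]
  have h0 := hchi 0
  rw [Coh2.twist_zero] at h0
  have hrank : finrank (RatFunc k) V = n * finrank K V := by
    rw [← Module.finrank_mul_finrank (RatFunc k) K V, Module.finrank_eq_card_basis b,
      Fintype.card_fin]
  rw [hchi m, h0]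
  have hrank' : (finrank (RatFunc k) V : ℤ) = n * finrank K V := by exact_mod_cast hrank
  linear_combination (m : ℤ) * hrank'

theorem twist_vanish (E : Pair k x V) (hE : E.IsBundle) :
    ∃ m0 : ℕ, ∀ m ≥ m0, (E.twist m).h1 = 0 := by
  obtain ⟨a, ha⟩ := Coh2.main E hE
  refine ⟨∑ i, (-a i).toNat, fun m hm => ?_⟩
  rw [(ha m).2.2.2]
  refine Finset.sum_eq_zero fun i _ => ?_
  have h1 : (-a i).toNat ≤ ∑ i, (-a i).toNat :=
    Finset.single_le_sum (f := fun i => (-a i).toNat) (fun _ _ => Nat.zero_le _)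
      (Finset.mem_univ i)
  omega

end Pair

end Pool.Agent.MP_b814b1_ag
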