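import Pool.Agent.MP_b814b1_ag.Defs2

/-!
# MP_b814b1_ag: module I, additivity of the index
-/

open Polynomial Module
open scoped Topology

noncomputable section

namespace Pool.Agent.MP_b814b1_ag

namespace IndexAux

variable {k : Type} [Field k]

theorem six {H0' H0 H0'' H1' H1 H1'' : Type} [AddCommGroup H0'] [Module k H0'] [AddCommGroup H0]
    [Module k H0] [AddCommGroup H0''] [Module k H0''] [AddCommGroup H1'] [Module k H1']
    [AddCommGroup H1] [Module k H1] [AddCommGroup H1''] [Module k H1'']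
    [FiniteDimensional k H0'] [FiniteDimensional k H0] [FiniteDimensional k H0'']
    [FiniteDimensional k H1'] [FiniteDimensional k H1] [FiniteDimensional k H1'']
    (u1 : H0' →ₗ[k] H0) (u2 : H0 →ₗ[k] H0'') (δ : H0'' →ₗ[k] H1') (u3 : H1' →ₗ[k] H1)
    (u4 : H1 →ₗ[k] H1'') (h1 : LinearMap.ker u1 = ⊥)
    (h2 : LinearMap.ker u2 = LinearMap.range u1) (h3 : LinearMap.ker δ = LinearMap.range u2)
    (h4 : LinearMap.ker u3 = LinearMap.range δ) (h5 : LinearMap.ker u4 = LinearMap.range u3)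
    (h6 : LinearMap.range u4 = ⊤) :
    (finrank k H0 : ℤ) - finrank k H1 =
      ((finrank k H0' : ℤ) - finrank k H1') + ((finrank k H0'' : ℤ) - finrank k H1'') := by
  have e1 := u1.finrank_range_add_finrank_ker
  have e2 := u2.finrank_range_add_finrank_ker
  have e3 := δ.finrank_range_add_finrank_ker
  have e4 := u3.finrank_range_add_finrank_ker
  have e5 := u4.finrank_range_add_finrank_ker
  rw [h1, finrank_bot] at e1
  rw [h2] at e2
  rw [h3] at e3
  rw [h4] at e4
  rw [h5, h6, finrank_top] at e5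
  omega

end IndexAux

open IndexAux

theorem index_exact {k : Type} [Field k] {V' V V'' : Type} [AddCommGroup V'] [Module k V']
    [AddCommGroup V] [Module k V] [AddCommGroup V''] [Module k V'']
    (f : V' →ₗ[k] V) (g : V →ₗ[k] V'') (hf : Function.Injective f) (hg : Function.Surjective g)
    (hfg : LinearMap.range f = LinearMap.ker g) (A B : Submodule k V)
    [FiniteDimensional k ↥(A ⊓ B)] [FiniteDimensional k (V ⧸ (A ⊔ B))]
    [FiniteDimensional k ↥(A.comap f ⊓ B.comap f)]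
    [FiniteDimensional k (V' ⧸ (A.comap f ⊔ B.comap f))]
    [FiniteDimensional k ↥(A.map g ⊓ B.map g)]
    [FiniteDimensional k (V'' ⧸ (A.map g ⊔ B.map g))] :
    (finrank k ↥(A ⊓ B) : ℤ) - finrank k (V ⧸ (A ⊔ B)) =
      ((finrank k ↥(A.comap f ⊓ B.comap f) : ℤ) - finrank k (V' ⧸ (A.comap f ⊔ B.comap f))) +
      ((finrank k ↥(A.map g ⊓ B.map g) : ℤ) - finrank k (V'' ⧸ (A.map g ⊔ B.map g))) := by
  have hgf : ∀ v, g (f v) = 0 := fun v => by
    have : f v ∈ LinearMap.ker g := hfg ▸ LinearMap.mem_range_self f v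
    exact this
  have hker : ∀ v, g v = 0 → ∃ w, f w = v := fun v hv => by
    have : v ∈ LinearMap.range f := by rw [hfg]; exact hv
    exact this
  -- a left inverse of `f`
  obtain ⟨p, hp⟩ := f.exists_leftInverse_of_injective (LinearMap.ker_eq_bot.2 hf)
  have hp' : ∀ w, p (f w) = w := fun w => LinearMap.congr_fun hp w
  -- linear sections
  have hsec : ∀ A : Submodule k V, ∃ s : ↥(A.map g) →ₗ[k] V, ∀ c, s c ∈ A ∧ g (s c) = c := by
    intro A
    have hsurj : LinearMap.range (g.restrict (p := A) (q := A.map g)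
        (fun v hv => Submodule.mem_map_of_mem hv)) = ⊤ := by
      rw [LinearMap.range_eq_top]
      rintro ⟨_, v, hv, rfl⟩
      exact ⟨⟨v, hv⟩, rfl⟩
    obtain ⟨s, hs⟩ := LinearMap.exists_rightInverse_of_surjective _ hsurj
    refine ⟨A.subtype.comp s, fun c => ⟨(s c).2, ?_⟩⟩
    have := congrArg Subtype.val (LinearMap.congr_fun hs c)
    exact this
  obtain ⟨sA, hsA⟩ := hsec A
  obtain ⟨sB, hsB⟩ := hsec B
  -- the maps
  let u1 : ↥(A.comap f ⊓ B.comap f) →ₗ[k] ↥(A ⊓ B) :=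
    f.restrict (fun v hv => ⟨hv.1, hv.2⟩)
  let u2 : ↥(A ⊓ B) →ₗ[k] ↥(A.map g ⊓ B.map g) :=
    g.restrict (fun v hv => ⟨Submodule.mem_map_of_mem hv.1, Submodule.mem_map_of_mem hv.2⟩)
  let δ : ↥(A.map g ⊓ B.map g) →ₗ[k] (V' ⧸ (A.comap f ⊔ B.comap f)) :=
    (Submodule.mkQ _).comp (p.comp (sA.comp (Submodule.inclusion inf_le_left) -
      sB.comp (Submodule.inclusion inf_le_right)))
  have hle3 : (A.comap f ⊔ B.comap f) ≤ (A ⊔ B).comap f := by
    rw [sup_le_iff]
    exact ⟨Submodule.comap_mono le_sup_left, Submodule.comap_mono le_sup_right⟩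
  let u3 : (V' ⧸ (A.comap f ⊔ B.comap f)) →ₗ[k] (V ⧸ (A ⊔ B)) :=
    Submodule.mapQ _ _ f hle3
  have hle4 : (A ⊔ B) ≤ (A.map g ⊔ B.map g).comap g := by
    rw [sup_le_iff]
    exact ⟨fun v hv => Submodule.mem_sup_left (Submodule.mem_map_of_mem hv),
      fun v hv => Submodule.mem_sup_right (Submodule.mem_map_of_mem hv)⟩
  let u4 : (V ⧸ (A ⊔ B)) →ₗ[k] (V'' ⧸ (A.map g ⊔ B.map g)) :=
    Submodule.mapQ _ _ g hle4
  refine six u1 u2 δ u3 u4 ?_ ?_ ?_ ?_ ?_ ?_
  · rw [LinearMap.ker_eq_bot]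
    intro a b hab
    have := congrArg Subtype.val hab
    exact Subtype.ext (hf this)
  · ext ⟨v, hv⟩
    rw [LinearMap.mem_ker, LinearMap.mem_range]
    constructor
    · intro h
      obtain ⟨w, hw⟩ := hker v (congrArg Subtype.val h)
      exact ⟨⟨w, by rw [Submodule.mem_inf, Submodule.mem_comap, Submodule.mem_comap, hw]; exact hv⟩,
        Subtype.ext hw⟩
    · rintro ⟨⟨w, hw⟩, h⟩
      have h' : f w = v := congrArg Subtype.val h
      apply Subtype.ext
      show g v = 0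
      rw [← h', hgf]
  · ext ⟨c, hc⟩
    rw [LinearMap.mem_ker, LinearMap.mem_range]
    have hval : δ ⟨c, hc⟩ = Submodule.Quotient.mk (p (sA ⟨c, hc.1⟩ - sB ⟨c, hc.2⟩)) := rfl
    have hg0 : g (sA ⟨c, hc.1⟩ - sB ⟨c, hc.2⟩) = 0 := by
      rw [map_sub, (hsA _).2, (hsB _).2, sub_self]
    obtain ⟨w, hw⟩ := hker _ hg0
    rw [hval, ← hw, hp', Submodule.Quotient.mk_eq_zero, Submodule.mem_sup]
    constructor
    · rintro ⟨a, ha, b, hb, hab⟩
      have h1 : sA ⟨c, hc.1⟩ - f a = sB ⟨c, hc.2⟩ + f b := by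
        rw [← hab, map_add] at hw
        rw [sub_eq_iff_eq_add, add_assoc, add_comm (f b), hw]; abel
      refine ⟨⟨sA ⟨c, hc.1⟩ - f a, Submodule.sub_mem _ (hsA _).1 ha, ?_⟩, ?_⟩
      · rw [h1]; exact Submodule.add_mem _ (hsB _).1 hb
      · apply Subtype.ext
        show g (sA ⟨c, hc.1⟩ - f a) = c
        rw [map_sub, (hsA _).2, hgf, sub_zero]
    · rintro ⟨⟨v, hv⟩, h⟩
      have h' : g v = c := congrArg Subtype.val h
      obtain ⟨a, ha⟩ := hker (sA ⟨c, hc.1⟩ - v) (by rw [map_sub, (hsA _).2, h', sub_self])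
      obtain ⟨b, hb⟩ := hker (v - sB ⟨c, hc.2⟩) (by rw [map_sub, (hsB _).2, h', sub_self])
      refine ⟨a, ?_, b, ?_, ?_⟩
      · rw [Submodule.mem_comap, ha]; exact Submodule.sub_mem _ (hsA _).1 hv.1
      · rw [Submodule.mem_comap, hb]; exact Submodule.sub_mem _ hv.2 (hsB _).1
      · apply hf
        rw [map_add, ha, hb, hw]; abel
  · ext q
    obtain ⟨v, rfl⟩ := Submodule.Quotient.mk_surjective _ q
    rw [LinearMap.mem_ker, LinearMap.mem_range]
    have hval : u3 (Submodule.Quotient.mk v) = Submodule.Quotient.mk (f v) := rfl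
    rw [hval, Submodule.Quotient.mk_eq_zero, Submodule.mem_sup]
    constructor
    · rintro ⟨a, ha, b, hb, hab⟩
      have hg0 : g a = g (-b) := by
        have := congrArg g hab
        rw [map_add, hgf] at this
        rw [map_neg]; exact eq_neg_of_add_eq_zero_left this
      have hc : g a ∈ A.map g ⊓ B.map g :=
        ⟨Submodule.mem_map_of_mem ha, hg0 ▸ Submodule.mem_map_of_mem (B.neg_mem hb)⟩
      refine ⟨⟨g a, hc⟩, ?_⟩
      show Submodule.Quotient.mk (p (sA ⟨g a, hc.1⟩ - sB ⟨g a, hc.2⟩)) = Submodule.Quotient.mk v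
      rw [Submodule.Quotient.eq, Submodule.mem_sup]
      obtain ⟨a', ha'⟩ := hker (sA ⟨g a, hc.1⟩ - a) (by rw [map_sub, (hsA _).2, sub_self])
      obtain ⟨b', hb'⟩ := hker (-b - sB ⟨g a, hc.2⟩) (by
        rw [map_sub, (hsB _).2]; exact sub_eq_zero.2 hg0.symm)
      refine ⟨a', ?_, b', ?_, ?_⟩
      · rw [Submodule.mem_comap, ha']; exact Submodule.sub_mem _ (hsA _).1 ha
      · rw [Submodule.mem_comap, hb']; exact Submodule.sub_mem _ (B.neg_mem hb) (hsB _).1
      · have hw : sA ⟨g a, hc.1⟩ - sB ⟨g a, hc.2⟩ = f (a' + b' + v) := by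
          rw [map_add, map_add, ha', hb', ← hab]; abel
        rw [hw, hp']; abel
    · rintro ⟨⟨c, hc⟩, h⟩
      have h' : (Submodule.Quotient.mk (p (sA ⟨c, hc.1⟩ - sB ⟨c, hc.2⟩)) :
        V' ⧸ (A.comap f ⊔ B.comap f)) = Submodule.Quotient.mk v := h
      rw [Submodule.Quotient.eq, Submodule.mem_sup] at h'
      obtain ⟨a, ha, b, hb, hab⟩ := h'
      obtain ⟨w, hw⟩ := hker (sA ⟨c, hc.1⟩ - sB ⟨c, hc.2⟩) (by
        rw [map_sub, (hsA _).2, (hsB _).2, sub_self])
      rw [← hw, hp'] at hab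
      refine ⟨sA ⟨c, hc.1⟩ - f a, Submodule.sub_mem _ (hsA _).1 ha,
        -(sB ⟨c, hc.2⟩ + f b), B.neg_mem (B.add_mem (hsB _).1 hb), ?_⟩
      have : f v = f w - (f a + f b) := by rw [← map_add, hab, map_sub]; abel
      rw [this, hw]; abel
  · ext q
    obtain ⟨v, rfl⟩ := Submodule.Quotient.mk_surjective _ q
    rw [LinearMap.mem_ker, LinearMap.mem_range]
    have hval : u4 (Submodule.Quotient.mk v) = Submodule.Quotient.mk (g v) := rfl
    rw [hval, Submodule.Quotient.mk_eq_zero, ← Submodule.map_sup]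
    constructor
    · rintro ⟨s, hs, hsv⟩
      obtain ⟨w, hw⟩ := hker (v - s) (by rw [map_sub, hsv, sub_self])
      refine ⟨Submodule.Quotient.mk w, ?_⟩
      show Submodule.Quotient.mk (f w) = Submodule.Quotient.mk v
      rw [Submodule.Quotient.eq, hw]
      have : v - s - v = -s := by abel
      rw [this]; exact Submodule.neg_mem _ hs
    · rintro ⟨q, hq⟩
      obtain ⟨w, rfl⟩ := Submodule.Quotient.mk_surjective _ q
      have hq' : (Submodule.Quotient.mk (f w) : V ⧸ (A ⊔ B)) = Submodule.Quotient.mk v := hq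
      rw [Submodule.Quotient.eq] at hq'
      refine ⟨-(f w - v), Submodule.neg_mem _ hq', ?_⟩
      rw [map_neg, map_sub, hgf]; abel
  · rw [LinearMap.range_eq_top]
    intro q
    obtain ⟨c, rfl⟩ := Submodule.Quotient.mk_surjective _ q
    obtain ⟨v, rfl⟩ := hg c
    exact ⟨Submodule.Quotient.mk v, rfl⟩

theorem index_le {k : Type} [Field k] {V : Type} [AddCommGroup V] [Module k V]
    (A B A' B' : Submodule k V) (hA : A' ≤ A) (hB : B' ≤ B)
    [FiniteDimensional k ↥(A ⊓ B)] [FiniteDimensional k (V ⧸ (A' ⊔ B'))] :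
    FiniteDimensional k (A ⧸ A'.submoduleOf A) ∧ FiniteDimensional k (B ⧸ B'.submoduleOf B) ∧
    (finrank k ↥(A ⊓ B) : ℤ) - finrank k (V ⧸ (A ⊔ B)) =
      ((finrank k ↥(A' ⊓ B') : ℤ) - finrank k (V ⧸ (A' ⊔ B'))) + len A' A + len B' B := by
  -- the maps
  let u1 : ↥(A' ⊓ B') →ₗ[k] ↥(A ⊓ B) := Submodule.inclusion (inf_le_inf hA hB)
  let u2 : ↥(A ⊓ B) →ₗ[k] (A ⧸ A'.submoduleOf A) × (B ⧸ B'.submoduleOf B) :=
    ((Submodule.mkQ _).comp (Submodule.inclusion inf_le_left)).prod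
      ((Submodule.mkQ _).comp (Submodule.inclusion inf_le_right))
  let dA : (A ⧸ A'.submoduleOf A) →ₗ[k] (V ⧸ (A' ⊔ B')) :=
    Submodule.mapQ _ _ A.subtype (fun a ha => Submodule.mem_sup_left ha)
  let dB : (B ⧸ B'.submoduleOf B) →ₗ[k] (V ⧸ (A' ⊔ B')) :=
    Submodule.mapQ _ _ B.subtype (fun b hb => Submodule.mem_sup_right hb)
  let δ : ((A ⧸ A'.submoduleOf A) × (B ⧸ B'.submoduleOf B)) →ₗ[k] (V ⧸ (A' ⊔ B')) :=
    dA.comp (LinearMap.fst k _ _) - dB.comp (LinearMap.snd k _ _)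
  let u4 : (V ⧸ (A' ⊔ B')) →ₗ[k] (V ⧸ (A ⊔ B)) :=
    Submodule.mapQ _ _ LinearMap.id (sup_le_sup hA hB)
  have hδ : LinearMap.ker δ = LinearMap.range u2 := by
    ext ⟨qa, qb⟩
    obtain ⟨⟨a, ha⟩, rfl⟩ := Submodule.Quotient.mk_surjective _ qa
    obtain ⟨⟨b, hb⟩, rfl⟩ := Submodule.Quotient.mk_surjective _ qb
    rw [LinearMap.mem_ker, LinearMap.mem_range]
    have hval : δ (Submodule.Quotient.mk ⟨a, ha⟩, Submodule.Quotient.mk ⟨b, hb⟩) =
      Submodule.Quotient.mk a - Submodule.Quotient.mk b := rfl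
    rw [hval, sub_eq_zero, Submodule.Quotient.eq, Submodule.mem_sup]
    constructor
    · rintro ⟨a', ha', b', hb', hab⟩
      have h1 : a - a' = b + b' := by
        rw [sub_eq_iff_eq_add, add_assoc, add_comm b' a', hab]; abel
      refine ⟨⟨a - a', A.sub_mem ha (hA ha'), by rw [h1]; exact B.add_mem hb (hB hb')⟩, ?_⟩
      apply Prod.ext
      · show Submodule.Quotient.mk _ = Submodule.Quotient.mk _
        rw [Submodule.Quotient.eq]
        show a - a' - a ∈ A'
        have : a - a' - a = -a' := by abel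
        rw [this]; exact A'.neg_mem ha'
      · show Submodule.Quotient.mk _ = Submodule.Quotient.mk _
        rw [Submodule.Quotient.eq]
        show a - a' - b ∈ B'
        rw [h1, add_sub_cancel_left]; exact hb'
    · rintro ⟨⟨v, hv⟩, h⟩
      have h1 : (Submodule.Quotient.mk (⟨v, hv.1⟩ : A) : A ⧸ A'.submoduleOf A) =
        Submodule.Quotient.mk ⟨a, ha⟩ := congrArg Prod.fst h
      have h2 : (Submodule.Quotient.mk (⟨v, hv.2⟩ : B) : B ⧸ B'.submoduleOf B) =
        Submodule.Quotient.mk ⟨b, hb⟩ := congrArg Prod.snd h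
      rw [Submodule.Quotient.eq] at h1 h2
      have h1' : v - a ∈ A' := h1
      have h2' : v - b ∈ B' := h2
      exact ⟨a - v, by rw [← neg_sub]; exact A'.neg_mem h1', v - b, h2', by abel⟩
  -- finiteness
  have hfin : FiniteDimensional k ((A ⧸ A'.submoduleOf A) × (B ⧸ B'.submoduleOf B)) := by
    have h1 : FiniteDimensional k (LinearMap.ker δ) := by rw [hδ]; infer_instance
    have h2 : FiniteDimensional k (LinearMap.range δ) := inferInstance
    have h3 : Module.Finite k (_ ⧸ LinearMap.ker δ) := Module.Finite.equiv δ.quotKerEquivRange.symm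
    exact Module.Finite.of_submodule_quotient (LinearMap.ker δ)
  have hfA : FiniteDimensional k (A ⧸ A'.submoduleOf A) :=
    Module.Finite.of_surjective (LinearMap.fst k (A ⧸ A'.submoduleOf A) (B ⧸ B'.submoduleOf B))
      LinearMap.fst_surjective
  have hfB : FiniteDimensional k (B ⧸ B'.submoduleOf B) :=
    Module.Finite.of_surjective (LinearMap.snd k (A ⧸ A'.submoduleOf A) (B ⧸ B'.submoduleOf B))
      LinearMap.snd_surjective
  refine ⟨hfA, hfB, ?_⟩
  have hf1 : FiniteDimensional k ↥(A' ⊓ B') :=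
    Module.Finite.of_injective u1 (Submodule.inclusion_injective _)
  have hf4 : FiniteDimensional k (V ⧸ (A ⊔ B)) := by
    refine Module.Finite.of_surjective u4 ?_
    intro q
    obtain ⟨v, rfl⟩ := Submodule.Quotient.mk_surjective _ q
    exact ⟨Submodule.Quotient.mk v, rfl⟩
  have e1 := u1.finrank_range_add_finrank_ker
  have e2 := u2.finrank_range_add_finrank_ker
  have e3 := δ.finrank_range_add_finrank_ker
  have e4 := u4.finrank_range_add_finrank_ker
  have k1 : LinearMap.ker u1 = ⊥ := LinearMap.ker_eq_bot.2 (Submodule.inclusion_injective _)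
  have k2 : LinearMap.ker u2 = LinearMap.range u1 := by
    ext ⟨v, hv⟩
    rw [LinearMap.mem_ker, LinearMap.mem_range]
    constructor
    · intro h
      have h1 : (Submodule.Quotient.mk (⟨v, hv.1⟩ : A) : A ⧸ A'.submoduleOf A) = 0 :=
        congrArg Prod.fst h
      have h2 : (Submodule.Quotient.mk (⟨v, hv.2⟩ : B) : B ⧸ B'.submoduleOf B) = 0 :=
        congrArg Prod.snd h
      rw [Submodule.Quotient.mk_eq_zero] at h1 h2
      exact ⟨⟨v, h1, h2⟩, rfl⟩
    · rintro ⟨⟨w, hw⟩, h⟩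
      have h' : w = v := congrArg Subtype.val h
      subst h'
      apply Prod.ext
      · show Submodule.Quotient.mk _ = 0
        rw [Submodule.Quotient.mk_eq_zero]; exact hw.1
      · show Submodule.Quotient.mk _ = 0
        rw [Submodule.Quotient.mk_eq_zero]; exact hw.2
  have k4 : LinearMap.ker u4 = LinearMap.range δ := by
    ext q
    obtain ⟨v, rfl⟩ := Submodule.Quotient.mk_surjective _ q
    rw [LinearMap.mem_ker, LinearMap.mem_range]
    have hval : u4 (Submodule.Quotient.mk v) = Submodule.Quotient.mk v := rfl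
    rw [hval, Submodule.Quotient.mk_eq_zero, Submodule.mem_sup]
    constructor
    · rintro ⟨a, ha, b, hb, rfl⟩
      refine ⟨(Submodule.Quotient.mk ⟨a, ha⟩, Submodule.Quotient.mk ⟨-b, B.neg_mem hb⟩), ?_⟩
      show (Submodule.Quotient.mk a : V ⧸ (A' ⊔ B')) - Submodule.Quotient.mk (-b) =
        Submodule.Quotient.mk (a + b)
      rw [← Submodule.Quotient.mk_sub, sub_neg_eq_add]
    · rintro ⟨⟨qa, qb⟩, h⟩
      obtain ⟨⟨a, ha⟩, rfl⟩ := Submodule.Quotient.mk_surjective _ qa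
      obtain ⟨⟨b, hb⟩, rfl⟩ := Submodule.Quotient.mk_surjective _ qb
      have h' : (Submodule.Quotient.mk a : V ⧸ (A' ⊔ B')) - Submodule.Quotient.mk b =
        Submodule.Quotient.mk v := h
      rw [← Submodule.Quotient.mk_sub, Submodule.Quotient.eq, Submodule.mem_sup] at h'
      obtain ⟨a', ha', b', hb', hab⟩ := h'
      refine ⟨a - a', A.sub_mem ha (hA ha'), -(b + b'), B.neg_mem (B.add_mem hb (hB hb')), ?_⟩
      have : v = a - b - (a' + b') := by rw [hab]; abel
      rw [this]; abel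
  have r4 : LinearMap.range u4 = ⊤ := by
    rw [LinearMap.range_eq_top]
    intro q
    obtain ⟨v, rfl⟩ := Submodule.Quotient.mk_surjective _ q
    exact ⟨Submodule.Quotient.mk v, rfl⟩
  rw [k1, finrank_bot] at e1
  rw [k2] at e2
  rw [hδ, Module.finrank_prod] at e3
  rw [k4, r4, finrank_top] at e4
  unfold len
  omega

end Pool.Agent.MP_b814b1_ag
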