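import Pool.Agent.MP_b814b1_ag.Rings0
import Pool.Agent.MP_b814b1_ag.Rings1
import Pool.Agent.MP_b814b1_ag.Coh2
import Pool.Agent.MP_b814b1_ag.Index

/-!
# MP_b814b1_ag, module J: formal properties of bundles
-/

open Polynomial Module
open scoped Topology

noncomputable section

set_option linter.unusedSectionVars false

namespace Pool.Agent.MP_b814b1_ag

variable {k K : Type} [Field k] [IsAlgClosed k] [CharZero k] [Field K] [Algebra k K] {x : K}
  [IsCurve k x]
variable {V : Type} [AddCommGroup V] [Module K V] [Module k V] [IsScalarTower k K V]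
  [FiniteDimensional K V]
variable {V' : Type} [AddCommGroup V'] [Module K V'] [Module k V'] [IsScalarTower k K V']
  [FiniteDimensional K V']
variable {V'' : Type} [AddCommGroup V''] [Module K V''] [Module k V''] [IsScalarTower k K V'']
  [FiniteDimensional K V'']

namespace BundleAux

/-- clearing denominators -/
theorem exists_smul_mem {A : Type} [CommRing A] [Algebra A K] [IsFractionRing A K]
    [IsDomain A]
    {W : Type} [AddCommGroup W] [Module K W] [Module A W] [IsScalarTower A K W]
    (L : Submodule A W) (h : Submodule.span K (L : Set W) = ⊤) (v : W) :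
    ∃ r : A, r ≠ 0 ∧ r • v ∈ L := by
  have hv : v ∈ Submodule.span K (L : Set W) := by rw [h]; trivial
  induction hv using Submodule.span_induction with
  | mem v hv => exact ⟨1, one_ne_zero, by rw [one_smul]; exact hv⟩
  | zero => exact ⟨1, one_ne_zero, by rw [smul_zero]; exact L.zero_mem⟩
  | add v w _ _ hv hw =>
    obtain ⟨r, hr, hv⟩ := hv
    obtain ⟨s, hs, hw⟩ := hw
    refine ⟨r * s, mul_ne_zero hr hs, ?_⟩
    rw [smul_add]
    refine L.add_mem ?_ ?_
    · rw [mul_comm, mul_smul]; exact L.smul_mem s hv
    · rw [mul_smul]; exact L.smul_mem r hw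
  | smul a v _ hv =>
    obtain ⟨r, hr, hv⟩ := hv
    obtain ⟨p, q, hq, rfl⟩ := IsFractionRing.div_surjective (A := A) a
    have hq' : q ≠ 0 := nonZeroDivisors.ne_zero hq
    have hqK : algebraMap A K q ≠ 0 := by
      rw [Ne, FaithfulSMul.algebraMap_eq_zero_iff]; exact hq'
    refine ⟨q * r, mul_ne_zero hq' hr, ?_⟩
    have : (q * r) • (algebraMap A K p / algebraMap A K q) • v = p • r • v := by
      rw [← algebraMap_smul K (q * r), smul_smul, ← algebraMap_smul K p, ← algebraMap_smul K r,
        smul_smul, map_mul]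
      congr 1
      field_simp
    rw [this]
    exact L.smul_mem p hv

theorem span_comap_eq_top {A : Type} [CommRing A] [Algebra A K] [IsFractionRing A K]
    [IsDomain A]
    {W W' : Type} [AddCommGroup W] [Module K W] [Module A W] [IsScalarTower A K W]
    [AddCommGroup W'] [Module K W'] [Module A W'] [IsScalarTower A K W']
    (L : Submodule A W) (h : Submodule.span K (L : Set W) = ⊤) (f : W' →ₗ[K] W) :
    Submodule.span K ((L.comap (f.restrictScalars A) : Submodule A W') : Set W') = ⊤ := by
  rw [eq_top_iff]
  intro v _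
  obtain ⟨r, hr, hv⟩ := exists_smul_mem (K := K) L h (f v)
  have hrK : algebraMap A K r ≠ 0 := by
    rw [Ne, FaithfulSMul.algebraMap_eq_zero_iff]; exact hr
  have h1 : r • v ∈ L.comap (f.restrictScalars A) := by
    rw [Submodule.mem_comap, LinearMap.restrictScalars_apply, ← algebraMap_smul K r v, map_smul,
      algebraMap_smul]
    exact hv
  have h2 : v = (algebraMap A K r)⁻¹ • (r • v) := by
    rw [← algebraMap_smul K r v, smul_smul, inv_mul_cancel₀ hrK, one_smul]
  rw [h2]
  exact Submodule.smul_mem _ _ (Submodule.subset_span h1)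

theorem fg_of_le {A : Type} [CommRing A] [IsNoetherianRing A] {W : Type} [AddCommGroup W]
    [Module A W] {L L' : Submodule A W} (h : L ≤ L') (hL : L'.FG) : L.FG := by
  have : IsNoetherian A L' := isNoetherian_of_fg_of_noetherian L' hL
  have h1 : (L.submoduleOf L').FG := IsNoetherian.noetherian _
  have h2 := h1.map L'.subtype
  rwa [Submodule.submoduleOf, Submodule.map_comap_subtype, inf_eq_right.2 h] at h2

theorem fg_comap {A : Type} [CommRing A] [IsNoetherianRing A] {W W' : Type} [AddCommGroup W]
    [Module A W] [AddCommGroup W'] [Module A W'] {L : Submodule A W} (hL : L.FG)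
    (f : W' →ₗ[A] W) (hf : Function.Injective f) : (L.comap f).FG := by
  refine Submodule.fg_of_fg_map_injective f hf ?_
  exact fg_of_le (Submodule.map_comap_le f L) hL

theorem span_map_eq_top {A : Type} [CommRing A] [Algebra A K]
    {W W' : Type} [AddCommGroup W] [Module K W] [Module A W] [IsScalarTower A K W]
    [AddCommGroup W'] [Module K W'] [Module A W'] [IsScalarTower A K W']
    (L : Submodule A W) (h : Submodule.span K (L : Set W) = ⊤) (f : W →ₗ[K] W')
    (hf : Function.Surjective f) :
    Submodule.span K ((L.map (f.restrictScalars A) : Submodule A W') : Set W') = ⊤ := by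
  rw [Submodule.map_coe]
  change Submodule.span K (f '' (L : Set W)) = ⊤
  rw [← Submodule.map_span, h, Submodule.map_top, LinearMap.range_eq_top]
  exact hf

end BundleAux

open BundleAux

namespace Pair

theorem isBundle_comap (E : Pair k x V) (hE : E.IsBundle) (f : V' →ₗ[K] V)
    (hf : Function.Injective f) : (E.comap f).IsBundle := by
  have := R0_dedekind k x
  have := R1_dedekind k x
  have := R0_fraction k x
  have := R1_fraction k x
  exact ⟨fg_comap hE.fg0 (f.restrictScalars (R0 k x)) hf,
    fg_comap hE.fg1 (f.restrictScalars (R1 k x)) hf,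
    span_comap_eq_top (A := R0 k x) E.L0 hE.span0 f,
    span_comap_eq_top (A := R1 k x) E.L1 hE.span1 f⟩

theorem isBundle_map (E : Pair k x V) (hE : E.IsBundle) (g : V →ₗ[K] V')
    (hg : Function.Surjective g) : (E.map g).IsBundle :=
  ⟨hE.fg0.map _, hE.fg1.map _, span_map_eq_top (A := R0 k x) E.L0 hE.span0 g hg,
    span_map_eq_top (A := R1 k x) E.L1 hE.span1 g hg⟩

theorem isBundle_triv (ι : Type) [Fintype ι] : (triv k x ι).IsBundle := by
  classical
  refine ⟨?_, ?_, ?_, ?_⟩
  · refine Submodule.fg_pi fun i => ?_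
    rw [Submodule.one_eq_span]
    exact Submodule.fg_span_singleton _
  · refine Submodule.fg_pi fun i => ?_
    rw [Submodule.one_eq_span]
    exact Submodule.fg_span_singleton _
  · rw [eq_top_iff, ← (Pi.basisFun K ι).span_eq]
    refine Submodule.span_mono ?_
    rintro _ ⟨i, rfl⟩
    rw [SetLike.mem_coe, triv, Submodule.mem_pi]
    intro j _
    rw [Pi.basisFun_apply, Pi.single_apply]
    split_ifs
    · exact Submodule.one_le.1 le_rfl
    · exact Submodule.zero_mem _
  · rw [eq_top_iff, ← (Pi.basisFun K ι).span_eq]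
    refine Submodule.span_mono ?_
    rintro _ ⟨i, rfl⟩
    rw [SetLike.mem_coe, triv, Submodule.mem_pi]
    intro j _
    rw [Pi.basisFun_apply, Pi.single_apply]
    split_ifs
    · exact Submodule.one_le.1 le_rfl
    · exact Submodule.zero_mem _

theorem isBundle_unit : (unit k x).IsBundle := by
  have h : ∀ (A : Subalgebra k K), Submodule.span K (((1 : Submodule A K) : Set K)) = ⊤ := by
    intro A
    rw [eq_top_iff]
    intro a _
    have : a = a • (1 : K) := by rw [smul_eq_mul, mul_one]
    rw [this]
    exact Submodule.smul_mem _ _ (Submodule.subset_span (Submodule.one_le.1 le_rfl))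
  refine ⟨?_, ?_, h _, h _⟩
  · change (1 : Submodule (R0 k x) K).FG
    rw [Submodule.one_eq_span]
    exact Submodule.fg_span_singleton _
  · change (1 : Submodule (R1 k x) K).FG
    rw [Submodule.one_eq_span]
    exact Submodule.fg_span_singleton _

variable (k) in
omit [IsAlgClosed k] [CharZero k] in
theorem x_ne_zero (x : K) [IsCurve k x] : x ≠ 0 := by
  have h := (inferInstance : IsCurve k x).trans
  rintro rfl
  exact h isAlgebraic_zero

theorem isBundle_twist (E : Pair k x V) (hE : E.IsBundle) (m : ℕ) : (E.twist m).IsBundle := by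
  have hf : Function.Injective ((x⁻¹) ^ m • (LinearMap.id : V →ₗ[K] V)) := by
    intro v w h
    simp only [LinearMap.smul_apply, LinearMap.id_apply] at h
    exact smul_right_injective V (pow_ne_zero m (inv_ne_zero (x_ne_zero k x))) h
  have h := isBundle_comap E hE _ hf
  exact ⟨hE.fg0, h.fg1, hE.span0, h.span1⟩

/-- additivity of the Euler characteristic -/
theorem chi_exact (E : Pair k x V) (hE : E.IsBundle) (f : V' →ₗ[K] V) (g : V →ₗ[K] V'')
    (hf : Function.Injective f) (hg : Function.Surjective g)
    (hfg : LinearMap.range f = LinearMap.ker g) :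
    E.chi = (E.comap f).chi + (E.map g).chi := by
  have : FiniteDimensional k ↥(E.L0.restrictScalars k ⊓ E.L1.restrictScalars k) :=
    finite_H0 E hE
  have : FiniteDimensional k (V ⧸ (E.L0.restrictScalars k ⊔ E.L1.restrictScalars k)) :=
    finite_H1 E hE
  have : FiniteDimensional k ↥((E.L0.restrictScalars k).comap (f.restrictScalars k) ⊓
      (E.L1.restrictScalars k).comap (f.restrictScalars k)) :=
    finite_H0 (E.comap f) (isBundle_comap E hE f hf)
  have : FiniteDimensional k (V' ⧸ ((E.L0.restrictScalars k).comap (f.restrictScalars k) ⊔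
      (E.L1.restrictScalars k).comap (f.restrictScalars k))) :=
    finite_H1 (E.comap f) (isBundle_comap E hE f hf)
  have : FiniteDimensional k ↥((E.L0.restrictScalars k).map (g.restrictScalars k) ⊓
      (E.L1.restrictScalars k).map (g.restrictScalars k)) :=
    finite_H0 (E.map g) (isBundle_map E hE g hg)
  have : FiniteDimensional k (V'' ⧸ ((E.L0.restrictScalars k).map (g.restrictScalars k) ⊔
      (E.L1.restrictScalars k).map (g.restrictScalars k))) :=
    finite_H1 (E.map g) (isBundle_map E hE g hg)
  refine index_exact (f.restrictScalars k) (g.restrictScalars k) hf hg ?_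
    (E.L0.restrictScalars k) (E.L1.restrictScalars k)
  ext v
  have := Submodule.ext_iff.1 hfg v
  exact this

theorem rank_exact (f : V' →ₗ[K] V) (g : V →ₗ[K] V'')
    (hf : Function.Injective f) (hg : Function.Surjective g)
    (hfg : LinearMap.range f = LinearMap.ker g) :
    finrank K V = finrank K V' + finrank K V'' := by
  have h1 := LinearMap.finrank_range_add_finrank_ker g
  rw [← hfg, LinearMap.range_eq_top.2 hg, finrank_top, LinearMap.finrank_range_of_inj hf] at h1
  omega

theorem deg_exact (E : Pair k x V) (hE : E.IsBundle) (f : V' →ₗ[K] V) (g : V →ₗ[K] V'')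
    (hf : Function.Injective f) (hg : Function.Surjective g)
    (hfg : LinearMap.range f = LinearMap.ker g) :
    E.deg = (E.comap f).deg + (E.map g).deg := by
  unfold deg
  rw [chi_exact E hE f g hf hg hfg, rank_exact f g hf hg hfg]
  push_cast
  ring

theorem h0_exact (E : Pair k x V) (hE : E.IsBundle) (f : V' →ₗ[K] V) (g : V →ₗ[K] V'')
    (hf : Function.Injective f) (hg : Function.Surjective g)
    (hfg : LinearMap.range f = LinearMap.ker g) :
    E.h0 ≤ (E.comap f).h0 + (E.map g).h0 := by
  have := finite_H0 E hE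
  have := finite_H0 (E.comap f) (isBundle_comap E hE f hf)
  have := finite_H0 (E.map g) (isBundle_map E hE g hg)
  let G : E.H0 →ₗ[k] (E.map g).H0 :=
    LinearMap.codRestrict _ ((g.restrictScalars k).comp E.H0.subtype) (by
      rintro ⟨v, hv0, hv1⟩
      exact ⟨⟨v, hv0, rfl⟩, ⟨v, hv1, rfl⟩⟩)
  have hG := LinearMap.finrank_range_add_finrank_ker G
  have h1 : finrank k (LinearMap.range G) ≤ (E.map g).h0 := Submodule.finrank_le _
  have h2 : finrank k (LinearMap.ker G) ≤ (E.comap f).h0 := by
    let F : (E.comap f).H0 →ₗ[k] E.H0 :=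
      LinearMap.codRestrict _ ((f.restrictScalars k).comp (E.comap f).H0.subtype) (by
        rintro ⟨v, hv0, hv1⟩
        exact ⟨hv0, hv1⟩)
    have hF : LinearMap.ker G ≤ LinearMap.range F := by
      rintro ⟨v, hv0, hv1⟩ hv
      have hv' : g v = 0 := by
        have := congrArg Subtype.val (LinearMap.mem_ker.1 hv)
        exact this
      have hv2 : v ∈ LinearMap.range f := by rw [hfg]; exact hv'
      obtain ⟨w, rfl⟩ := hv2
      exact ⟨⟨w, hv0, hv1⟩, rfl⟩
    calc finrank k (LinearMap.ker G) ≤ finrank k (LinearMap.range F) := Submodule.finrank_mono hF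
      _ ≤ finrank k (E.comap f).H0 := LinearMap.finrank_range_le F
  unfold h0 at *
  omega

theorem h0_unit : (unit k x).h0 = 1 := by
  have h : (unit k x).H0 = Submodule.span k {(1 : K)} := by
    ext a
    constructor
    · rintro ⟨h0, h1⟩
      have h0' : a ∈ R0 k x := by
        obtain ⟨r, rfl⟩ := Submodule.mem_one.1 h0
        exact r.2
      have h1' : a ∈ R1 k x := by
        obtain ⟨r, rfl⟩ := Submodule.mem_one.1 h1
        exact r.2
      obtain ⟨c, rfl⟩ := R0_inf_R1 k x a h0' h1'
      exact Submodule.mem_span_singleton.2 ⟨c, by rw [Algebra.smul_def, mul_one]⟩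
    · intro ha
      obtain ⟨c, rfl⟩ := Submodule.mem_span_singleton.1 ha
      refine Submodule.smul_mem _ c ⟨?_, ?_⟩
      · change (1 : K) ∈ (1 : Submodule (R0 k x) K)
        exact Submodule.one_le.1 le_rfl
      · change (1 : K) ∈ (1 : Submodule (R1 k x) K)
        exact Submodule.one_le.1 le_rfl
  unfold h0
  rw [h]
  exact finrank_span_singleton one_ne_zero

theorem chi_eq (E : Pair k x V) : E.chi = E.deg + finrank K V * (1 - (genus k x : ℤ)) := by
  have h : (unit k x).chi = 1 - (genus k x : ℤ) := by
    unfold chi genus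
    rw [h0_unit]
    norm_num
  unfold deg
  rw [h]
  ring

theorem deg_unit : (unit k x).deg = 0 := by
  unfold deg
  rw [finrank_self]
  push_cast
  ring

theorem chi_triv (ι : Type) [Fintype ι] :
    (triv k x ι).chi = Fintype.card ι * (unit k x).chi := by
  classical
  have := finite_H0 (unit k x) isBundle_unit
  have := finite_H1 (unit k x) isBundle_unit
  have h0 : (triv k x ι).H0 = Submodule.pi Set.univ (fun _ => (unit k x).H0) := by
    ext v
    constructor
    · rintro ⟨h0, h1⟩ i _
      exact ⟨h0 i trivial, h1 i trivial⟩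
    · intro h
      exact ⟨fun i _ => (h i trivial).1, fun i _ => (h i trivial).2⟩
  have h1 : (triv k x ι).S = Submodule.pi Set.univ (fun _ => (unit k x).S) := by
    ext v
    constructor
    · intro hv i _
      obtain ⟨a, ha, b, hb, rfl⟩ := Submodule.mem_sup.1 hv
      exact Submodule.mem_sup.2 ⟨a i, ha i trivial, b i, hb i trivial, rfl⟩
    · intro h
      choose a ha b hb hab using fun i => Submodule.mem_sup.1 (h i trivial)
      exact Submodule.mem_sup.2 ⟨a, fun i _ => ha i, b, fun i _ => hb i, funext hab⟩
  have e0 : (triv k x ι).h0 = Fintype.card ι * (unit k x).h0 := by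
    unfold Pair.h0
    rw [h0]
    have e : ↥(Submodule.pi Set.univ (fun _ : ι => (unit k x).H0)) ≃ₗ[k]
        (ι → (unit k x).H0) :=
      { toFun := fun v i => ⟨v.1 i, v.2 i trivial⟩
        invFun := fun v => ⟨fun i => (v i).1, fun i _ => (v i).2⟩
        left_inv := fun v => rfl
        right_inv := fun v => rfl
        map_add' := fun v w => rfl
        map_smul' := fun c v => rfl }
    rw [e.finrank_eq, Module.finrank_pi_fintype]
    simp
  have e1 : (triv k x ι).h1 = Fintype.card ι * (unit k x).h1 := by
    unfold Pair.h1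
    rw [h1, (Submodule.quotientPi (fun _ : ι => (unit k x).S)).finrank_eq,
      Module.finrank_pi_fintype]
    simp
  unfold chi
  rw [e0, e1]
  push_cast
  ring

theorem deg_triv (ι : Type) [Fintype ι] : (triv k x ι).deg = 0 := by
  unfold deg
  rw [chi_triv, Module.finrank_fintype_fun_eq_card]
  ring

theorem h0_mono (E E' : Pair k x V) (hE : E.IsBundle) (h : E' ≤ E) : E'.h0 ≤ E.h0 := by
  have := finite_H0 E hE
  exact Submodule.finrank_mono (fun v hv => ⟨h.1 hv.1, h.2 hv.2⟩)

/-- colength of a subbundle of the same rank -/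
theorem deg_le (E E' : Pair k x V) (hE : E.IsBundle) (hE' : E'.IsBundle) (h : E' ≤ E) :
    E'.deg ≤ E.deg ∧ (E'.deg = E.deg → E' = E) ∧
    (E.h0 : ℤ) ≤ E'.h0 + (E.deg - E'.deg) := by
  have : FiniteDimensional k ↥(E.L0.restrictScalars k ⊓ E.L1.restrictScalars k) :=
    finite_H0 E hE
  have f1 : FiniteDimensional k (V ⧸ (E'.L0.restrictScalars k ⊔ E'.L1.restrictScalars k)) :=
    finite_H1 E' hE'
  obtain ⟨q0, q1, hq⟩ := index_le (E.L0.restrictScalars k) (E.L1.restrictScalars k)
    (E'.L0.restrictScalars k) (E'.L1.restrictScalars k) h.1 h.2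
  have hchi : E.chi = E'.chi + len (E'.L0.restrictScalars k) (E.L0.restrictScalars k) +
      len (E'.L1.restrictScalars k) (E.L1.restrictScalars k) := hq
  have hh1 : E.h1 ≤ E'.h1 := by
    have hS : E'.S ≤ E.S := sup_le_sup h.1 h.2
    have : FiniteDimensional k (V ⧸ E'.S) := f1
    unfold h1
    exact LinearMap.finrank_le_finrank_of_surjective (f := Submodule.factor hS)
      (Submodule.factor_surjective hS)
  have key : ∀ (A A' : Submodule k V), A' ≤ A →
      FiniteDimensional k (A ⧸ A'.submoduleOf A) → len A' A = 0 → A ≤ A' := by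
    intro A A' _ _ h0
    unfold len at h0
    have h1 := Module.finrank_zero_iff.1 h0
    have h2 := Submodule.Quotient.subsingleton_iff.1 h1
    rwa [Submodule.submoduleOf_eq_top] at h2
  refine ⟨?_, ?_, ?_⟩
  · unfold deg
    rw [hchi]
    linarith [(len (E'.L0.restrictScalars k) (E.L0.restrictScalars k)).cast_nonneg (α := ℤ),
      (len (E'.L1.restrictScalars k) (E.L1.restrictScalars k)).cast_nonneg (α := ℤ)]
  · intro hd
    unfold deg at hd
    rw [hchi] at hd
    have l0 : len (E'.L0.restrictScalars k) (E.L0.restrictScalars k) = 0 := by omega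
    have l1 : len (E'.L1.restrictScalars k) (E.L1.restrictScalars k) = 0 := by omega
    have k0 := key _ _ h.1 q0 l0
    have k1 := key _ _ h.2 q1 l1
    exact Pair.ext (le_antisymm h.1 k0) (le_antisymm h.2 k1)
  · unfold deg
    have : E.chi = (E.h0 : ℤ) - E.h1 := rfl
    have : E'.chi = (E'.h0 : ℤ) - E'.h1 := rfl
    have : (E.h1 : ℤ) ≤ E'.h1 := by exact_mod_cast hh1
    linarith

/-- any intermediate pair between two bundles is a bundle -/
theorem isBundle_of_between (E E' F : Pair k x V) (hE : E.IsBundle) (hE' : E'.IsBundle)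
    (h : E' ≤ F) (h' : F ≤ E) : F.IsBundle := by
  have := R0_dedekind k x
  have := R1_dedekind k x
  refine ⟨fg_of_le h'.1 hE.fg0, fg_of_le h'.2 hE.fg1, ?_, ?_⟩
  · rw [eq_top_iff, ← hE'.span0]
    exact Submodule.span_mono h.1
  · rw [eq_top_iff, ← hE'.span1]
    exact Submodule.span_mono h.2

end Pair

end Pool.Agent.MP_b814b1_ag
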