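import Pool.Agent.MP_b814b1_ag.Defs2

/-!
# MP_b814b1_ag: module W, invariance under isomorphisms
-/

open Polynomial Module
open scoped Topology

noncomputable section

namespace Pool.Agent.MP_b814b1_ag

open Pair

namespace IsoAux

variable {k K : Type} [Field k] [Field K] [Algebra k K] {x : K}

theorem map_map {V₁ V₂ V₃ : Type} [AddCommGroup V₁] [Module K V₁] [AddCommGroup V₂] [Module K V₂]
    [AddCommGroup V₃] [Module K V₃] (E : Pair k x V₁) (f : V₁ →ₗ[K] V₂) (g : V₂ →ₗ[K] V₃) :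
    (E.map f).map g = E.map (g.comp f) := by
  ext v
  · simp only [Pair.map, Submodule.mem_map, LinearMap.coe_restrictScalars, LinearMap.comp_apply]
    constructor
    · rintro ⟨_, ⟨w, hw, rfl⟩, rfl⟩; exact ⟨w, hw, rfl⟩
    · rintro ⟨w, hw, rfl⟩; exact ⟨_, ⟨w, hw, rfl⟩, rfl⟩
  · simp only [Pair.map, Submodule.mem_map, LinearMap.coe_restrictScalars, LinearMap.comp_apply]
    constructor
    · rintro ⟨_, ⟨w, hw, rfl⟩, rfl⟩; exact ⟨w, hw, rfl⟩
    · rintro ⟨w, hw, rfl⟩; exact ⟨_, ⟨w, hw, rfl⟩, rfl⟩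

theorem map_id {V₁ : Type} [AddCommGroup V₁] [Module K V₁] (E : Pair k x V₁) :
    E.map (LinearMap.id : V₁ →ₗ[K] V₁) = E := by
  ext v
  · simp only [Pair.map, Submodule.mem_map, LinearMap.coe_restrictScalars, LinearMap.id_apply,
      exists_eq_right]
  · simp only [Pair.map, Submodule.mem_map, LinearMap.coe_restrictScalars, LinearMap.id_apply,
      exists_eq_right]

theorem iso_refl {V₁ : Type} [AddCommGroup V₁] [Module K V₁] (E : Pair k x V₁) : Iso E E :=
  ⟨LinearEquiv.refl K V₁, map_id E⟩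

theorem iso_symm {V₁ V₂ : Type} [AddCommGroup V₁] [Module K V₁] [AddCommGroup V₂] [Module K V₂]
    {E : Pair k x V₁} {E' : Pair k x V₂} (h : Iso E E') : Iso E' E := by
  obtain ⟨f, rfl⟩ := h
  refine ⟨f.symm, ?_⟩
  rw [map_map]
  have : (f.symm.toLinearMap.comp f.toLinearMap) = LinearMap.id := by
    ext v; simp
  rw [this, map_id]

theorem iso_trans {V₁ V₂ V₃ : Type} [AddCommGroup V₁] [Module K V₁] [AddCommGroup V₂] [Module K V₂]
    [AddCommGroup V₃] [Module K V₃] {E : Pair k x V₁} {E' : Pair k x V₂} {E'' : Pair k x V₃}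
    (h : Iso E E') (h' : Iso E' E'') : Iso E E'' := by
  obtain ⟨f, rfl⟩ := h
  obtain ⟨g, rfl⟩ := h'
  refine ⟨f.trans g, ?_⟩
  rw [map_map]
  rfl

theorem iso_of_mk_eq {r : ℕ} {d : ℤ} {E E' : StBun k x r d}
    (h : Mod.mk E = Mod.mk E') : Iso E.1 E'.1 := by
  have heq : Equivalence (fun E E' : StBun k x r d => Pair.Iso E.1 E'.1) :=
    ⟨fun E => iso_refl E.1, fun h => iso_symm h, fun h h' => iso_trans h h'⟩
  exact heq.quot_mk_eq_iff _ _ |>.1 h

section
variable {V V' : Type} [AddCommGroup V] [Module K V] [AddCommGroup V'] [Module K V']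

theorem mem_map0 (E : Pair k x V) (f : V ≃ₗ[K] V') (v : V') :
    v ∈ (E.map f.toLinearMap).L0 ↔ f.symm v ∈ E.L0 := by
  simp only [Pair.map, Submodule.mem_map, LinearMap.coe_restrictScalars, LinearEquiv.coe_coe]
  constructor
  · rintro ⟨w, hw, rfl⟩; simpa using hw
  · intro h; exact ⟨_, h, by simp⟩

theorem mem_map1 (E : Pair k x V) (f : V ≃ₗ[K] V') (v : V') :
    v ∈ (E.map f.toLinearMap).L1 ↔ f.symm v ∈ E.L1 := by
  simp only [Pair.map, Submodule.mem_map, LinearMap.coe_restrictScalars, LinearEquiv.coe_coe]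
  constructor
  · rintro ⟨w, hw, rfl⟩; simpa using hw
  · intro h; exact ⟨_, h, by simp⟩

theorem bundle_map (E : Pair k x V) (f : V ≃ₗ[K] V') (h : E.IsBundle) :
    (E.map f.toLinearMap).IsBundle := by
  refine ⟨h.fg0.map _, h.fg1.map _, ?_, ?_⟩
  · have : ((E.map f.toLinearMap).L0 : Set V') = f.toLinearMap '' (E.L0 : Set V) := rfl
    rw [this, ← Submodule.map_span, h.span0, Submodule.map_top]
    exact LinearMap.range_eq_top.2 f.surjective
  · have : ((E.map f.toLinearMap).L1 : Set V') = f.toLinearMap '' (E.L1 : Set V) := rfl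
    rw [this, ← Submodule.map_span, h.span1, Submodule.map_top]
    exact LinearMap.range_eq_top.2 f.surjective

theorem inter_map (E : Pair k x V) (f : V ≃ₗ[K] V') :
    ((E.map f.toLinearMap).L0 : Set V') ∩ (E.map f.toLinearMap).L1 =
      f '' ((E.L0 : Set V) ∩ E.L1) := by
  ext v
  simp only [Set.mem_inter_iff, SetLike.mem_coe, mem_map0, mem_map1, Set.mem_image]
  constructor
  · intro h; exact ⟨_, h, by simp⟩
  · rintro ⟨w, hw, rfl⟩; simpa using hw

variable [Module k V] [IsScalarTower k K V] [Module k V'] [IsScalarTower k K V']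

theorem GG_map (E : Pair k x V) (f : V ≃ₗ[K] V') (h : E.GG) :
    (E.map f.toLinearMap).GG := by
  constructor
  · rw [inter_map]
    have := Submodule.map_span (f.toLinearMap.restrictScalars (R0 k x)) ((E.L0 : Set V) ∩ E.L1)
    rw [h.1] at this
    exact this.symm
  · rw [inter_map]
    have := Submodule.map_span (f.toLinearMap.restrictScalars (R1 k x)) ((E.L0 : Set V) ∩ E.L1)
    rw [h.2] at this
    exact this.symm

theorem H0_map (E : Pair k x V) (f : V ≃ₗ[K] V') :
    (E.map f.toLinearMap).H0 = E.H0.map (f.restrictScalars k).toLinearMap := by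
  ext v
  simp only [Pair.H0, Submodule.mem_inf, Submodule.restrictScalars_mem, mem_map0, mem_map1,
    Submodule.mem_map]
  constructor
  · intro h; exact ⟨_, h, by simp⟩
  · rintro ⟨w, hw, rfl⟩; simpa using hw

theorem S_map (E : Pair k x V) (f : V ≃ₗ[K] V') :
    (E.map f.toLinearMap).S = E.S.map (f.restrictScalars k).toLinearMap := by
  rw [Pair.S, Pair.S, Submodule.map_sup]
  rfl

theorem h0_map (E : Pair k x V) (f : V ≃ₗ[K] V') : E.h0 = (E.map f.toLinearMap).h0 := by
  rw [Pair.h0, Pair.h0, H0_map]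
  exact (LinearEquiv.finrank_map_eq (f.restrictScalars k) E.H0).symm

theorem h1_map (E : Pair k x V) (f : V ≃ₗ[K] V') : E.h1 = (E.map f.toLinearMap).h1 := by
  rw [Pair.h1, Pair.h1]
  exact (Submodule.Quotient.equiv E.S (E.map f.toLinearMap).S (f.restrictScalars k)
    (S_map E f).symm).finrank_eq

theorem deg_map (E : Pair k x V) (f : V ≃ₗ[K] V') : E.deg = (E.map f.toLinearMap).deg := by
  have h1 : E.chi = (E.map f.toLinearMap).chi := by
    rw [Pair.chi, Pair.chi, h0_map E f, h1_map E f]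
  rw [Pair.deg, Pair.deg, h1, f.finrank_eq]

theorem sub_map (E : Pair k x V) (f : V ≃ₗ[K] V') (W : Submodule K V') :
    (E.sub (W.comap f.toLinearMap)).map (f.ofSubmodule' W).toLinearMap =
      (E.map f.toLinearMap).sub W := by
  ext w
  · rw [mem_map0]
    show ((((f.ofSubmodule' W).symm w : _) : V) ∈ E.L0) ↔ (w : V') ∈ (E.map f.toLinearMap).L0
    rw [mem_map0]
    rfl
  · rw [mem_map1]
    show ((((f.ofSubmodule' W).symm w : _) : V) ∈ E.L1) ↔ (w : V') ∈ (E.map f.toLinearMap).L1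
    rw [mem_map1]
    rfl

theorem sub_data (E : Pair k x V) (f : V ≃ₗ[K] V') (W : Submodule K V') :
    (E.sub (W.comap f.toLinearMap)).deg = ((E.map f.toLinearMap).sub W).deg ∧
    finrank K (W.comap f.toLinearMap) = finrank K W ∧
    (W ≠ ⊥ → W.comap f.toLinearMap ≠ ⊥) ∧ (W ≠ ⊤ → W.comap f.toLinearMap ≠ ⊤) := by
  refine ⟨?_, (f.ofSubmodule' W).finrank_eq, ?_, ?_⟩
  · rw [← sub_map]
    exact deg_map _ _
  · intro h h'
    apply h
    rw [eq_bot_iff]
    intro w hw
    have : f.symm w ∈ W.comap f.toLinearMap := by simpa using hw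
    rw [h', Submodule.mem_bot] at this
    rw [Submodule.mem_bot]
    simpa using this
  · intro h h'
    apply h
    rw [eq_top_iff]
    intro w _
    have : f.symm w ∈ W.comap f.toLinearMap := by rw [h']; trivial
    simpa using this

theorem rel_map (E : Pair k x V) (f : V ≃ₗ[K] V') (h : ℕ) (g : Fin h → K) :
    rel g (E.map f.toLinearMap) =
      (rel g E).map (LinearEquiv.piCongrRight fun _ : Fin h => f.restrictScalars k).toLinearMap := by
  ext s
  have key : ∀ t : Fin h → V', (∀ i, t i ∈ (E.map f.toLinearMap).H0) ∧ ∑ i, g i • t i = 0 ↔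
      (∀ i, f.symm (t i) ∈ E.H0) ∧ ∑ i, g i • f.symm (t i) = 0 := by
    intro t
    refine and_congr (forall_congr' fun i => ?_) ?_
    · simp only [Pair.H0, Submodule.mem_inf, Submodule.restrictScalars_mem, mem_map0, mem_map1]
    · rw [← map_eq_zero_iff f.symm f.symm.injective, map_sum]
      simp only [map_smul]
  constructor
  · intro hs
    refine ⟨fun i => f.symm (s i), (key s).1 hs, ?_⟩
    ext i
    simp
  · rintro ⟨t, ht, rfl⟩
    refine (key _).2 ?_
    have ht' : (∀ i, t i ∈ E.H0) ∧ ∑ i, g i • t i = 0 := ht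
    simpa using ht'

theorem finrank_rel_map (E : Pair k x V) (f : V ≃ₗ[K] V') (h : ℕ) (g : Fin h → K) :
    finrank k (rel g E) = finrank k (rel g (E.map f.toLinearMap)) := by
  rw [rel_map]
  exact (LinearEquiv.finrank_map_eq (LinearEquiv.piCongrRight fun _ : Fin h =>
    f.restrictScalars k) (rel g E)).symm

end

end IsoAux

open IsoAux

variable {k K : Type} [Field k] [Field K] [Algebra k K] {x : K}
variable {V : Type} [AddCommGroup V] [Module K V] [Module k V] [IsScalarTower k K V]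
variable {V' : Type} [AddCommGroup V'] [Module K V'] [Module k V'] [IsScalarTower k K V']

namespace Pair

theorem Iso.inv {E : Pair k x V} {E' : Pair k x V'} (h : Iso E E') :
    Iso E' E ∧ finrank K V = finrank K V' ∧ (E.IsBundle → E'.IsBundle) ∧ E.h0 = E'.h0 ∧
    E.h1 = E'.h1 ∧ E.deg = E'.deg ∧ (E.GG → E'.GG) ∧ (E.Stable → E'.Stable) ∧
    (E.Semistable → E'.Semistable) ∧
    ∀ (h : ℕ) (f : Fin h → K), finrank k (rel f E) = finrank k (rel f E') := by
  refine ⟨iso_symm h, ?_⟩
  obtain ⟨f, rfl⟩ := h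
  refine ⟨f.finrank_eq, bundle_map E f, h0_map E f, h1_map E f, deg_map E f, GG_map E f,
    fun hs W h1 h2 => ?_, fun hs W h1 h2 => ?_, finrank_rel_map E f⟩
  · obtain ⟨ha, hb, hc, hd⟩ := sub_data E f W
    have := hs _ (hc h1) (hd h2)
    rw [ha, hb, f.finrank_eq, deg_map E f] at this
    exact this
  · obtain ⟨ha, hb, hc, hd⟩ := sub_data E f W
    have := hs _ (hc h1) (hd h2)
    rw [ha, hb, f.finrank_eq, deg_map E f] at this
    exact this

/-- two injective maps with the same range give isomorphic subbundles -/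
theorem iso_comap {V₁ V₂ : Type} [AddCommGroup V₁] [Module K V₁] [Module k V₁]
    [IsScalarTower k K V₁] [AddCommGroup V₂] [Module K V₂] [Module k V₂] [IsScalarTower k K V₂]
    (E : Pair k x V) (f₁ : V₁ →ₗ[K] V) (f₂ : V₂ →ₗ[K] V) (h₁ : Function.Injective f₁)
    (h₂ : Function.Injective f₂) (h : LinearMap.range f₁ = LinearMap.range f₂) :
    Iso (E.comap f₁) (E.comap f₂) := by
  let e : V₁ ≃ₗ[K] V₂ := (LinearEquiv.ofInjective f₁ h₁).trans
    ((LinearEquiv.ofEq _ _ h).trans (LinearEquiv.ofInjective f₂ h₂).symm)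
  have he : ∀ v, f₁ (e.symm v) = f₂ v := by
    intro v
    have h1 : ∀ w, f₂ (e w) = f₁ w := by
      intro w
      have h2 : LinearEquiv.ofInjective f₂ h₂ (e w) =
          LinearEquiv.ofEq _ _ h (LinearEquiv.ofInjective f₁ h₁ w) := by
        simp [e]
      have h3 := congrArg (Subtype.val) h2
      simpa using h3
    rw [← h1, LinearEquiv.apply_symm_apply]
  refine ⟨e, ?_⟩
  ext v
  · rw [mem_map0]
    show f₁ (e.symm v) ∈ E.L0 ↔ f₂ v ∈ E.L0
    rw [he]
  · rw [mem_map1]
    show f₁ (e.symm v) ∈ E.L1 ↔ f₂ v ∈ E.L1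
    rw [he]

/-- two surjective maps with the same kernel give isomorphic quotient bundles -/
theorem iso_map {V₁ V₂ : Type} [AddCommGroup V₁] [Module K V₁] [Module k V₁]
    [IsScalarTower k K V₁] [AddCommGroup V₂] [Module K V₂] [Module k V₂] [IsScalarTower k K V₂]
    (E : Pair k x V) (g₁ : V →ₗ[K] V₁) (g₂ : V →ₗ[K] V₂) (h₁ : Function.Surjective g₁)
    (h₂ : Function.Surjective g₂) (h : LinearMap.ker g₁ = LinearMap.ker g₂) :
    Iso (E.map g₁) (E.map g₂) := by
  let e : V₁ ≃ₗ[K] V₂ := (g₁.quotKerEquivOfSurjective h₁).symm.trans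
    ((Submodule.quotEquivOfEq _ _ h).trans (g₂.quotKerEquivOfSurjective h₂))
  have he : ∀ v, e (g₁ v) = g₂ v := by
    intro v
    have h1 : (g₁.quotKerEquivOfSurjective h₁).symm (g₁ v) = Submodule.Quotient.mk v := by
      rw [LinearEquiv.symm_apply_eq]
      simp
    simp only [e, LinearEquiv.trans_apply, h1]
    simp
  refine ⟨e, ?_⟩
  rw [IsoAux.map_map]
  congr 1
  ext v
  exact he v

end Pair

end Pool.Agent.MP_b814b1_ag
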