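import Pool.Agent.MP_b814b1_ag.P1Basis
import Pool.Agent.MP_b814b1_ag.P1Coh
import Pool.Agent.MP_b814b1_ag.Rings0
import Pool.Agent.MP_b814b1_ag.Rings1
import Pool.Agent.MP_b814b1_ag.Coh1

/-!
# MP_b814b1_ag, module U: the canonical bundle and Serre duality
-/

open Polynomial Module
open scoped Topology

noncomputable section

namespace Pool.Agent.MP_b814b1_ag

namespace CanonAux

section Rat

variable {k : Type} [Field k]

theorem isPoly_add {f g : RatFunc k} (hf : IsPoly f) (hg : IsPoly g) : IsPoly (f + g) := by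
  obtain ⟨p, rfl⟩ := hf
  obtain ⟨q, rfl⟩ := hg
  exact ⟨p + q, map_add _ _ _⟩

theorem isPoly_mul {f g : RatFunc k} (hf : IsPoly f) (hg : IsPoly g) : IsPoly (f * g) := by
  obtain ⟨p, rfl⟩ := hf
  obtain ⟨q, rfl⟩ := hg
  exact ⟨p * q, map_mul _ _ _⟩

theorem degLE_add {m : ℤ} {f g : RatFunc k} (hf : DegLE m f) (hg : DegLE m g) :
    DegLE m (f + g) := by
  by_cases h : f + g = 0
  · exact Or.inl h
  rcases hf with rfl | hf
  · rwa [zero_add]
  rcases hg with rfl | hg
  · rw [add_zero]; exact Or.inr hf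
  by_cases hg0 : g = 0
  · rw [hg0, add_zero]; exact Or.inr hf
  exact Or.inr ((RatFunc.intDegree_add_le hg0 h).trans (max_le hf hg))

theorem degLE_mul {m n : ℤ} {f g : RatFunc k} (hf : DegLE m f) (hg : DegLE n g) :
    DegLE (m + n) (f * g) := by
  rcases hf with rfl | hf
  · left; rw [zero_mul]
  rcases hg with rfl | hg
  · left; rw [mul_zero]
  by_cases hf0 : f = 0
  · left; rw [hf0, zero_mul]
  by_cases hg0 : g = 0
  · left; rw [hg0, mul_zero]
  right
  rw [RatFunc.intDegree_mul hf0 hg0]
  exact add_le_add hf hg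

theorem isPoly_neg {f : RatFunc k} (hf : IsPoly f) : IsPoly (-f) := by
  obtain ⟨p, rfl⟩ := hf
  exact ⟨-p, map_neg _ _⟩

theorem degLE_neg {m : ℤ} {f : RatFunc k} (hf : DegLE m f) : DegLE m (-f) := by
  rcases hf with rfl | hf
  · left; rw [neg_zero]
  · right; rwa [RatFunc.intDegree_neg]

/-- polynomials as a subring -/
def polyRing (k : Type) [Field k] : Subring (RatFunc k) where
  carrier := {f | IsPoly f}
  mul_mem' := isPoly_mul
  one_mem' := ⟨1, map_one _⟩
  add_mem' := isPoly_add
  zero_mem' := ⟨0, map_zero _⟩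
  neg_mem' := isPoly_neg

/-- the local ring at infinity as a subring -/
def infRing (k : Type) [Field k] : Subring (RatFunc k) where
  carrier := {f | DegLE 0 f}
  mul_mem' := fun {a b} ha hb => by
    have := degLE_mul ha hb
    rwa [add_zero] at this
  one_mem' := Or.inr (by rw [RatFunc.intDegree_one])
  add_mem' := degLE_add
  zero_mem' := Or.inl rfl
  neg_mem' := degLE_neg

theorem mem_polyRing {f : RatFunc k} : f ∈ polyRing k ↔ IsPoly f := Iff.rfl

theorem mem_infRing {f : RatFunc k} : f ∈ infRing k ↔ DegLE 0 f := Iff.rfl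

theorem algebraMap_mem_polyRing (c : k) : algebraMap k (RatFunc k) c ∈ polyRing k :=
  ⟨C c, by rw [RatFunc.algebraMap_C]; rfl⟩

theorem algebraMap_mem_infRing (c : k) : algebraMap k (RatFunc k) c ∈ infRing k := by
  by_cases hc : c = 0
  · rw [hc, map_zero]; exact zero_mem _
  · right
    have h : algebraMap k (RatFunc k) c = RatFunc.C c := rfl
    rw [h, RatFunc.intDegree_C]

theorem degLE_neg_two {f : RatFunc k} :
    DegLE (-2) f ↔ ∃ o ∈ infRing k, f = (RatFunc.X ^ 2)⁻¹ * o := by
  have hX : (RatFunc.X ^ 2 : RatFunc k) ≠ 0 := pow_ne_zero _ RatFunc.X_ne_zero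
  have hd : (RatFunc.X ^ 2 : RatFunc k).intDegree = 2 := by
    rw [pow_two, RatFunc.intDegree_mul RatFunc.X_ne_zero RatFunc.X_ne_zero, RatFunc.intDegree_X]
    norm_num
  constructor
  · intro h
    refine ⟨RatFunc.X ^ 2 * f, ?_, by rw [inv_mul_cancel_left₀ hX]⟩
    have h2 : DegLE 2 (RatFunc.X ^ 2 : RatFunc k) := Or.inr hd.le
    have := degLE_mul h2 h
    rw [mem_infRing]
    simpa using this
  · rintro ⟨o, ho, rfl⟩
    have h2 : DegLE (-2) ((RatFunc.X ^ 2 : RatFunc k)⁻¹) := Or.inr (by
      rw [RatFunc.intDegree_inv, hd])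
    have := degLE_mul h2 (mem_infRing.1 ho)
    simpa using this

end Rat

/-! ## Dual lattices -/

section Lattice

variable {F K : Type} [Field F] [Field K] [Algebra F K] [FiniteDimensional F K]
  [Algebra.IsSeparable F K]

/-- The dual lattice is generated by the dual basis. -/
theorem dual_lattice {n : ℕ} (b : Basis (Fin n) F K) (O : Subring F) (A : Subring K)
    (hA : ∀ a, a ∈ A ↔ ∀ i, b.repr a i ∈ O) (u : F) (a : K) :
    (∀ r ∈ A, ∃ o ∈ O, Algebra.trace F K (a * r) = u * o) ↔
      ∃ c : Fin n → F, (∀ i, c i ∈ O) ∧ a = ∑ i, c i • (u • b.traceDual i) := by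
  constructor
  · intro h
    have hb : ∀ i, b i ∈ A := fun i => by
      rw [hA]
      intro j
      rw [b.repr_self, Finsupp.single_apply]
      split_ifs
      · exact one_mem _
      · exact zero_mem _
    choose c hc hc' using fun i => h (b i) (hb i)
    refine ⟨c, hc, ?_⟩
    conv_lhs => rw [← b.traceDual.sum_repr a]
    refine Finset.sum_congr rfl fun i _ => ?_
    rw [Basis.traceDual_repr_apply, Algebra.traceForm_apply, hc', smul_smul, mul_comm]
  · rintro ⟨c, hc, rfl⟩ r hr
    rw [hA] at hr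
    refine ⟨∑ i, c i * b.repr r i, sum_mem fun i _ => mul_mem (hc i) (hr i), ?_⟩
    have h1 : ∀ i, Algebra.trace F K (b.traceDual i * r) = b.repr r i := fun i => by
      conv_lhs => rw [← b.sum_repr r]
      rw [Finset.mul_sum, map_sum]
      simp_rw [mul_smul_comm, map_smul, Basis.trace_traceDual_mul]
      simp
    rw [Finset.sum_mul, map_sum, Finset.mul_sum]
    refine Finset.sum_congr rfl fun i _ => ?_
    rw [smul_smul, smul_mul_assoc, map_smul, h1, smul_eq_mul]
    ring

end Lattice


section Canon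

variable {k K : Type} [Field k] [Field K] [Algebra k K] {x : K}
  [Algebra (RatFunc k) K] [IsScalarTower k (RatFunc k) K] [FiniteDimensional (RatFunc k) K]

/-- The inverse different. -/
def canonPair (k : Type) {K : Type} [Field k] [Field K] [Algebra k K] (x : K)
    [Algebra (RatFunc k) K] : Pair k x K where
  L0 :=
    { carrier := {a | ∀ r ∈ R0 k x, IsPoly (Algebra.trace (RatFunc k) K (a * r))}
      add_mem' := fun {a b} ha hb r hr => by
        rw [add_mul, map_add]; exact isPoly_add (ha r hr) (hb r hr)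
      zero_mem' := fun r _ => by rw [zero_mul, map_zero]; exact ⟨0, map_zero _⟩
      smul_mem' := fun c a ha r hr => by
        have h : c • a * r = a * ((c : K) * r) := by
          rw [Subalgebra.smul_def, smul_eq_mul]; ring
        rw [h]
        exact ha _ (mul_mem c.2 hr) }
  L1 :=
    { carrier := {a | ∀ r ∈ R1 k x, DegLE (-2) (Algebra.trace (RatFunc k) K (a * r))}
      add_mem' := fun {a b} ha hb r hr => by
        rw [add_mul, map_add]; exact degLE_add (ha r hr) (hb r hr)
      zero_mem' := fun r _ => by rw [zero_mul, map_zero]; exact Or.inl rfl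
      smul_mem' := fun c a ha r hr => by
        have h : c • a * r = a * ((c : K) * r) := by
          rw [Subalgebra.smul_def, smul_eq_mul]; ring
        rw [h]
        exact ha _ (mul_mem c.2 hr) }

theorem mem_canon0 {a : K} : a ∈ (canonPair k x).L0 ↔
    ∀ r ∈ R0 k x, IsPoly (Algebra.trace (RatFunc k) K (a * r)) := Iff.rfl

theorem mem_canon1 {a : K} : a ∈ (canonPair k x).L1 ↔
    ∀ r ∈ R1 k x, DegLE (-2) (Algebra.trace (RatFunc k) K (a * r)) := Iff.rfl

variable [CharZero k]

theorem canon_bundle {n n' : ℕ} (b : Basis (Fin n) (RatFunc k) K)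
    (hb : ∀ a, a ∈ R0 k x ↔ ∀ i, IsPoly (b.repr a i)) (c : Basis (Fin n') (RatFunc k) K)
    (hc : ∀ a, a ∈ R1 k x ↔ ∀ i, DegLE 0 (c.repr a i)) : (canonPair k x).IsBundle := by
  have : Algebra.IsSeparable (RatFunc k) K := inferInstance
  have hn : 0 < n := by
    rcases Nat.eq_zero_or_pos n with rfl | h
    · exfalso
      have : Subsingleton K := b.repr.toEquiv.subsingleton
      exact one_ne_zero (Subsingleton.elim (1 : K) 0)
    · exact h
  have hn' : 0 < n' := by
    rcases Nat.eq_zero_or_pos n' with rfl | h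
    · exfalso
      have : Subsingleton K := c.repr.toEquiv.subsingleton
      exact one_ne_zero (Subsingleton.elim (1 : K) 0)
    · exact h
  have hO0 : ∀ f : RatFunc k, f ∈ polyRing k → algebraMap (RatFunc k) K f ∈ R0 k x := by
    intro f hf
    rw [hb]
    intro i
    have h1 := (hb 1).1 (one_mem _) i
    rw [Algebra.algebraMap_eq_smul_one, map_smul, Finsupp.smul_apply, smul_eq_mul]
    exact isPoly_mul hf h1
  have hO1 : ∀ f : RatFunc k, f ∈ infRing k → algebraMap (RatFunc k) K f ∈ R1 k x := by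
    intro f hf
    rw [hc]
    intro i
    have h1 := (hc 1).1 (one_mem _) i
    rw [Algebra.algebraMap_eq_smul_one, map_smul, Finsupp.smul_apply, smul_eq_mul]
    exact (infRing k).mul_mem hf h1
  have key0 : ∀ a : K, a ∈ (canonPair k x).L0 ↔ ∃ d : Fin n → RatFunc k,
      (∀ i, d i ∈ polyRing k) ∧ a = ∑ i, d i • ((1 : RatFunc k) • b.traceDual i) := by
    intro a
    rw [← dual_lattice b (polyRing k) (R0 k x).toSubring (fun a => hb a) 1 a, mem_canon0]
    refine forall₂_congr fun r _ => ?_
    constructor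
    · intro h
      exact ⟨_, h, (one_mul _).symm⟩
    · rintro ⟨o, ho, h⟩
      rw [h, one_mul]; exact ho
  have key1 : ∀ a : K, a ∈ (canonPair k x).L1 ↔ ∃ d : Fin n' → RatFunc k,
      (∀ i, d i ∈ infRing k) ∧
        a = ∑ i, d i • ((RatFunc.X ^ 2 : RatFunc k)⁻¹ • c.traceDual i) := by
    intro a
    rw [← dual_lattice c (infRing k) (R1 k x).toSubring (fun a => hc a) _ a, mem_canon1]
    refine forall₂_congr fun r _ => ?_
    rw [degLE_neg_two]
  have m0 : ∀ i, (1 : RatFunc k) • b.traceDual i ∈ (canonPair k x).L0 := fun i => by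
    rw [key0]
    refine ⟨Pi.single i 1, fun j => ?_, ?_⟩
    · by_cases h : j = i
      · subst h; rw [Pi.single_eq_same]; exact one_mem _
      · rw [Pi.single_eq_of_ne h]; exact zero_mem _
    · rw [Finset.sum_eq_single i]
      · rw [Pi.single_eq_same]; exact (one_smul _ _).symm
      · intro j _ h
        rw [Pi.single_eq_of_ne h, zero_smul]
      · intro h; exact absurd (Finset.mem_univ _) h
  have m1 : ∀ i, (RatFunc.X ^ 2 : RatFunc k)⁻¹ • c.traceDual i ∈ (canonPair k x).L1 := fun i => by
    rw [key1]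
    refine ⟨Pi.single i 1, fun j => ?_, ?_⟩
    · by_cases h : j = i
      · subst h; rw [Pi.single_eq_same]; exact one_mem _
      · rw [Pi.single_eq_of_ne h]; exact zero_mem _
    · rw [Finset.sum_eq_single i]
      · rw [Pi.single_eq_same]; exact (one_smul _ _).symm
      · intro j _ h
        rw [Pi.single_eq_of_ne h, zero_smul]
      · intro h; exact absurd (Finset.mem_univ _) h
  have hsp : ∀ (A : Set K) (a : K), a ∈ A → a ≠ 0 → Submodule.span K A = ⊤ := by
    intro A a ha h0
    rw [Submodule.eq_top_iff']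
    intro z
    have : z = (z * a⁻¹) • a := by rw [smul_eq_mul, inv_mul_cancel_right₀ h0]
    rw [this]
    exact Submodule.smul_mem _ _ (Submodule.subset_span ha)
  refine ⟨?_, ?_, ?_, ?_⟩
  · rw [Submodule.fg_def]
    refine ⟨Set.range fun i => (1 : RatFunc k) • b.traceDual i, Set.finite_range _,
      le_antisymm (Submodule.span_le.2 ?_) ?_⟩
    · rintro _ ⟨i, rfl⟩; exact m0 i
    · intro a ha
      obtain ⟨d, hd, rfl⟩ := (key0 a).1 ha
      refine Submodule.sum_mem _ fun i _ => ?_
      have : d i • ((1 : RatFunc k) • b.traceDual i) =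
          (⟨algebraMap (RatFunc k) K (d i), hO0 _ (hd i)⟩ : R0 k x) •
            ((1 : RatFunc k) • b.traceDual i) := by
        rw [Subalgebra.smul_def, smul_eq_mul, Algebra.smul_def]
      rw [this]
      exact Submodule.smul_mem _ _ (Submodule.subset_span ⟨i, rfl⟩)
  · rw [Submodule.fg_def]
    refine ⟨Set.range fun i => (RatFunc.X ^ 2 : RatFunc k)⁻¹ • c.traceDual i,
      Set.finite_range _, le_antisymm (Submodule.span_le.2 ?_) ?_⟩
    · rintro _ ⟨i, rfl⟩; exact m1 i
    · intro a ha
      obtain ⟨d, hd, rfl⟩ := (key1 a).1 ha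
      refine Submodule.sum_mem _ fun i _ => ?_
      have : d i • ((RatFunc.X ^ 2 : RatFunc k)⁻¹ • c.traceDual i) =
          (⟨algebraMap (RatFunc k) K (d i), hO1 _ (hd i)⟩ : R1 k x) •
            ((RatFunc.X ^ 2 : RatFunc k)⁻¹ • c.traceDual i) := by
        rw [Subalgebra.smul_def, smul_eq_mul, Algebra.smul_def (d i)]
      rw [this]
      exact Submodule.smul_mem _ _ (Submodule.subset_span ⟨i, rfl⟩)
  · refine hsp _ _ (m0 ⟨0, hn⟩) ?_
    rw [one_smul]
    exact b.traceDual.ne_zero _
  · refine hsp _ _ (m1 ⟨0, hn'⟩) ?_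
    refine smul_ne_zero (inv_ne_zero (pow_ne_zero _ RatFunc.X_ne_zero)) ?_
    exact c.traceDual.ne_zero _

/-! ## Duality -/

variable {V : Type} [AddCommGroup V] [Module K V] [Module k V] [IsScalarTower k K V]
  [Module (RatFunc k) V] [IsScalarTower (RatFunc k) K V] [IsScalarTower k (RatFunc k) V]

/-- composition with the trace -/
def compTr (V : Type) [AddCommGroup V] [Module K V] [Module k V] [IsScalarTower k K V]
    [Module (RatFunc k) V] [IsScalarTower (RatFunc k) K V] [IsScalarTower k (RatFunc k) V] :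
    (V →ₗ[K] K) →ₗ[k] (V →ₗ[RatFunc k] RatFunc k) where
  toFun Φ := (Algebra.trace (RatFunc k) K).comp (Φ.restrictScalars (RatFunc k))
  map_add' := fun Φ Ψ => by
    ext v
    simp
  map_smul' := fun c Φ => by
    ext v
    have h : Algebra.trace (RatFunc k) K (c • Φ v) = c • Algebra.trace (RatFunc k) K (Φ v) :=
      LinearMap.map_smul_of_tower _ _ _
    simpa using h

theorem compTr_apply (Φ : V →ₗ[K] K) (v : V) :
    compTr V Φ v = Algebra.trace (RatFunc k) K (Φ v) := rfl

theorem trace_ext {a b : K}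
    (h : ∀ y, Algebra.trace (RatFunc k) K (a * y) = Algebra.trace (RatFunc k) K (b * y)) :
    a = b := by
  have hnd := traceForm_nondegenerate (RatFunc k) K
  refine (LinearMap.BilinForm.toDual _ hnd).injective ?_
  ext y
  rw [LinearMap.BilinForm.toDual_def, LinearMap.BilinForm.toDual_def, Algebra.traceForm_apply,
    Algebra.traceForm_apply]
  exact h y

theorem compTr_bij : Function.Bijective (compTr (k := k) (K := K) V) := by
  constructor
  · intro Φ Ψ h
    ext v
    refine trace_ext (k := k) fun y => ?_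
    have h2 := LinearMap.congr_fun h (y • v)
    rw [compTr_apply, compTr_apply, map_smul Φ, map_smul Ψ, smul_eq_mul, smul_eq_mul, mul_comm y,
      mul_comm y] at h2
    exact h2
  · intro φ
    have hnd := traceForm_nondegenerate (RatFunc k) K
    have hex : ∀ v : V, ∃ a : K, ∀ y, Algebra.trace (RatFunc k) K (a * y) = φ (y • v) := by
      intro v
      refine ⟨(LinearMap.BilinForm.toDual _ hnd).symm
        (φ.comp ((LinearMap.toSpanSingleton K V v).restrictScalars (RatFunc k))), fun y => ?_⟩
      have := LinearMap.BilinForm.apply_toDual_symm_apply (hB := hnd)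
        (φ.comp ((LinearMap.toSpanSingleton K V v).restrictScalars (RatFunc k))) y
      rw [Algebra.traceForm_apply] at this
      rw [this]
      rfl
    choose Φ hΦ using hex
    refine ⟨{ toFun := Φ, map_add' := ?_, map_smul' := ?_ }, ?_⟩
    · intro v w
      refine trace_ext (k := k) fun y => ?_
      rw [hΦ, add_mul, map_add, hΦ, hΦ, smul_add, map_add]
    · intro a v
      refine trace_ext (k := k) fun y => ?_
      rw [hΦ, RingHom.id_apply, smul_eq_mul, mul_assoc, mul_comm a, mul_assoc, hΦ, smul_smul]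
    · ext v
      rw [compTr_apply]
      change Algebra.trace (RatFunc k) K (Φ v) = φ v
      rw [← mul_one (Φ v), hΦ, one_smul]

theorem dual_aux (E : Pair k x V) {n : ℕ} (b c : Basis (Fin n) (RatFunc k) V)
    (hb : ∀ v, v ∈ E.L0 ↔ ∀ i, IsPoly (b.repr v i))
    (hc : ∀ v, v ∈ E.L1 ↔ ∀ i, DegLE 0 (c.repr v i)) :
    FiniteDimensional k (E.Hom (canonPair k x)) ∧
      finrank k (E.Hom (canonPair k x)) = E.h1 := by
  obtain ⟨e, a, he0, he1⟩ := exists_adapted b c
  have hE0 : ∀ v, v ∈ E.L0.restrictScalars k ↔ ∀ i, IsPoly (e.repr v i) := fun v => by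
    rw [Submodule.restrictScalars_mem, hb, he0]
  have hE1 : ∀ v, v ∈ E.L1.restrictScalars k ↔ ∀ i, DegLE (a i) (e.repr v i) := fun v => by
    rw [Submodule.restrictScalars_mem, hc, he1]
  obtain ⟨-, -, -, h4⟩ := adapted_coh e a _ _ hE0 hE1
  let T : (V →ₗ[K] K) ≃ₗ[k] (V →ₗ[RatFunc k] RatFunc k) :=
    LinearEquiv.ofBijective (compTr V) compTr_bij
  have hT : ∀ Φ v, T Φ v = Algebra.trace (RatFunc k) K (Φ v) := fun Φ v => rfl
  have hmem : ∀ Φ : V →ₗ[K] K, Φ ∈ E.Hom (canonPair k x) ↔
      (∀ v ∈ E.L0, IsPoly (T Φ v)) ∧ ∀ v ∈ E.L1, DegLE (-2) (T Φ v) := by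
    intro Φ
    change ((∀ v ∈ E.L0, Φ v ∈ (canonPair k x).L0) ∧ (∀ v ∈ E.L1, Φ v ∈ (canonPair k x).L1)) ↔ _
    refine and_congr ?_ ?_
    · constructor
      · intro h v hv
        have := mem_canon0.1 (h v hv) 1 (one_mem _)
        rwa [mul_one] at this
      · intro h v hv
        rw [mem_canon0]
        intro r hr
        have := h ((⟨r, hr⟩ : R0 k x) • v) (E.L0.smul_mem _ hv)
        rw [hT, Subalgebra.smul_def, map_smul, smul_eq_mul, mul_comm] at this
        exact this
    · constructor
      · intro h v hv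
        have := mem_canon1.1 (h v hv) 1 (one_mem _)
        rwa [mul_one] at this
      · intro h v hv
        rw [mem_canon1]
        intro r hr
        have := h ((⟨r, hr⟩ : R1 k x) • v) (E.L1.smul_mem _ hv)
        rw [hT, Subalgebra.smul_def, map_smul, smul_eq_mul, mul_comm] at this
        exact this
  obtain ⟨h5, h6⟩ := adapted_dual e a ((E.Hom (canonPair k x)).map (T : _ →ₗ[k] _)) (by
    intro φ
    obtain ⟨Φ, rfl⟩ := T.surjective φ
    rw [Submodule.mem_map]
    constructor
    · rintro ⟨Ψ, hΨ, h⟩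
      have : Ψ = Φ := T.injective h
      subst this
      rw [hmem] at hΨ
      refine ⟨fun v hv => hΨ.1 v ?_, fun v hv => hΨ.2 v ?_⟩
      · exact (hE0 v).2 hv
      · exact (hE1 v).2 hv
    · rintro ⟨h0, h1⟩
      refine ⟨Φ, ?_, rfl⟩
      rw [hmem]
      exact ⟨fun v hv => h0 v ((hE0 v).1 hv), fun v hv => h1 v ((hE1 v).1 hv)⟩)
  have eq := T.submoduleMap (E.Hom (canonPair k x))
  refine ⟨?_, ?_⟩
  · exact Module.Finite.equiv eq.symm
  · rw [eq.finrank_eq]
    refine h6.trans ?_
    exact h4.symm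

end Canon

end CanonAux

namespace Pair

variable {k K : Type} [Field k] [IsAlgClosed k] [CharZero k] [Field K] [Algebra k K] {x : K}
  [IsCurve k x]

variable (k x) in
theorem exists_canonical : ∃ KC : Pair k x K, IsCanonical KC := by
  let _ : Algebra (RatFunc k) K := (ratHom k x).toRingHom.toAlgebra
  have : IsScalarTower k (RatFunc k) K := IsScalarTower.of_algebraMap_eq fun c =>
    ((ratHom k x).commutes c).symm
  obtain ⟨n, b, -, hb⟩ := R0_basis k x
  obtain ⟨n', c, hc⟩ := R1_basis k x
  have : FiniteDimensional (RatFunc k) K := Module.Finite.of_basis b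
  refine ⟨CanonAux.canonPair k x, CanonAux.canon_bundle b hb c hc, ?_⟩
  intro V _ _ _ _ _ E hE
  let _ : Module (RatFunc k) V := Module.compHom V (ratHom k x).toRingHom
  have : IsScalarTower (RatFunc k) K V := ⟨fun f a v => by
    change (ratHom k x f * a) • v = ratHom k x f • a • v
    rw [mul_smul]⟩
  have : IsScalarTower k (RatFunc k) V := ⟨fun c f v => by
    change ratHom k x (c • f) • v = c • ratHom k x f • v
    rw [map_smul, smul_assoc]⟩
  obtain ⟨b', c', hb', hc'⟩ := exists_bases E hE
  exact CanonAux.dual_aux E b' c' hb' hc'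

end Pair

end Pool.Agent.MP_b814b1_ag
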