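import Pool.Agent.MP_b814b1_ag.Rings0
import Pool.Agent.MP_b814b1_ag.Rings1
import Pool.Agent.MP_b814b1_ag.Index
import Pool.Agent.MP_b814b1_ag.Coh2

/-!
# MP_b814b1_ag, module Y: subbundles of colength one, globally generated bundles
-/

open Polynomial Module
open scoped Topology

set_option linter.unusedSectionVars false
set_option linter.style.haveILetI false

noncomputable section

namespace Pool.Agent.MP_b814b1_ag

namespace YLat

variable {k K : Type} [Field k] [Field K] [Algebra k K]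
variable {V : Type} [AddCommGroup V] [Module K V] [Module k V] [IsScalarTower k K V]

/-- The kernel of a surjection of a lattice onto a one dimensional module. -/
theorem lat_ker (A : Subalgebra k K) [IsNoetherianRing A] (t : A)
    (ht : ∀ c : k, (t : K) ≠ algebraMap k K c) (L : Submodule A V) (hfg : L.FG)
    (hspan : Submodule.span K (L : Set V) = ⊤) (S : Type) [AddCommGroup S] [Module A S]
    [Module k S] [IsScalarTower k A S] (hS : finrank k S = 1) (φ : L →ₗ[A] S)
    (hφ : Function.Surjective φ) :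
    ((LinearMap.ker φ).map L.subtype).FG ∧
    Submodule.span K (((LinearMap.ker φ).map L.subtype : Submodule A V) : Set V) = ⊤ ∧
    (LinearMap.ker φ).map L.subtype ≤ L ∧
    len (((LinearMap.ker φ).map L.subtype).restrictScalars k) (L.restrictScalars k) = 1 := by
  have hle : (LinearMap.ker φ).map L.subtype ≤ L := by
    rintro _ ⟨v, -, rfl⟩; exact v.2
  refine ⟨?_, ?_, hle, ?_⟩
  · have : IsNoetherian A L := isNoetherian_of_fg_of_noetherian _ hfg
    exact (isNoetherian_submodule.1 this) _ hle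
  · obtain ⟨s0, hs0, hs⟩ := finrank_eq_one_iff'.1 hS
    obtain ⟨c, hc⟩ := hs (t • s0)
    have hkill : ∀ s : S, (t - algebraMap k A c) • s = 0 := by
      intro s
      obtain ⟨d, hd⟩ := hs s
      rw [← hd, smul_comm, sub_smul, algebraMap_smul, ← hc, sub_self, smul_zero]
    have hr : (t : K) - algebraMap k K c ≠ 0 := sub_ne_zero.2 (ht c)
    rw [eq_top_iff, ← hspan, Submodule.span_le]
    intro v hv
    have h1 : ((t : K) - algebraMap k K c) • v ∈ (LinearMap.ker φ).map L.subtype := by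
      refine ⟨(t - algebraMap k A c) • ⟨v, hv⟩, ?_, rfl⟩
      rw [SetLike.mem_coe, LinearMap.mem_ker, map_smul, hkill]
    have h2 := (Submodule.span K (((LinearMap.ker φ).map L.subtype : Submodule A V) : Set V)).smul_mem
      ((t : K) - algebraMap k K c)⁻¹ (Submodule.subset_span h1)
    rw [smul_smul, inv_mul_cancel₀ hr, one_smul] at h2
    exact h2
  · let ψ : (L.restrictScalars k) →ₗ[k] S :=
      { toFun := fun v => φ ⟨v.1, v.2⟩
        map_add' := fun a b => by rw [← map_add]; rfl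
        map_smul' := fun c a => by
          have : (⟨(c • a).1, (c • a).2⟩ : L) = (algebraMap k A c) • (⟨a.1, a.2⟩ : L) := by
            apply Subtype.ext
            simp [algebraMap_smul]
            rfl
          rw [this, map_smul, algebraMap_smul]; rfl }
    have hψ : Function.Surjective ψ := by
      intro s
      obtain ⟨v, hv⟩ := hφ s
      exact ⟨⟨v.1, v.2⟩, hv⟩
    have hker : LinearMap.ker ψ =
        (((LinearMap.ker φ).map L.subtype).restrictScalars k).submoduleOf (L.restrictScalars k) := by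
      ext v
      constructor
      · intro hv
        exact ⟨⟨v.1, v.2⟩, hv, rfl⟩
      · rintro ⟨w, hw, hw'⟩
        have : w = ⟨v.1, v.2⟩ := Subtype.ext hw'
        rw [this] at hw
        exact hw
    unfold len
    rw [← hker, (LinearMap.quotKerEquivOfSurjective ψ hψ).finrank_eq, hS]

/-- A common denominator. -/
theorem exists_den (A : Subalgebra k K) [IsFractionRing A K] (D : Submodule A K) (hD : D.FG) :
    ∃ r : A, r ≠ 0 ∧ ∀ d ∈ D, (r : K) * d ∈ A := by
  obtain ⟨r, hr, h⟩ := FractionalIdeal.isFractional_of_fg (S := nonZeroDivisors A) hD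
  refine ⟨r, nonZeroDivisors.ne_zero hr, fun d hd => ?_⟩
  obtain ⟨s, hs⟩ := h d hd
  have h1 : (s : K) = (r : K) * d := by
    rw [Algebra.smul_def] at hs
    exact hs
  rw [← h1]
  exact s.2

theorem coatom_of_functional {B W : Type} [CommRing B] [AddCommGroup W] [Module B W]
    (φ0 : W →ₗ[B] B) (w : W) (m : Ideal B) (hm : m.IsMaximal) (hw : φ0 w ∉ m) :
    ∃ N : Submodule B W, IsCoatom N ∧ w ∉ N := by
  haveI : IsSimpleModule B (B ⧸ m) := isSimpleModule_iff_isCoatom.2 hm.out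
  let φ : W →ₗ[B] (B ⧸ m) := (Submodule.mkQ m).comp φ0
  have hφ0 : φ w ≠ 0 := by
    intro h0
    exact hw ((Submodule.Quotient.mk_eq_zero m).1 h0)
  have hφ : Function.Surjective φ := by
    rcases φ.surjective_or_eq_zero with h1 | h1
    · exact h1
    · exact absurd (by rw [h1]; rfl) hφ0
  refine ⟨LinearMap.ker φ, ?_, hφ0⟩
  exact isSimpleModule_iff_isCoatom.1 (IsSimpleModule.congr (φ.quotKerEquivOfSurjective hφ))

/-- A maximal submodule avoiding a given vector. -/
theorem lat_avoid (A : Subalgebra k K) [IsFractionRing A K]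
    (hav : ∀ a : A, a ≠ 0 → ∃ m : Ideal A, m.IsMaximal ∧ a ∉ m) (L : Submodule A V) (hfg : L.FG)
    (σ : V) (hσ : σ ∈ L) (hσ0 : σ ≠ 0) :
    ∃ N : Submodule A L, IsCoatom N ∧ (⟨σ, hσ⟩ : L) ∉ N := by
  obtain ⟨lam, hlam⟩ : ∃ lam : V →ₗ[K] K, lam σ ≠ 0 := by
    by_contra hcon
    push Not at hcon
    exact hσ0 ((Module.forall_dual_apply_eq_zero_iff K σ).1 hcon)
  obtain ⟨r, hr, h⟩ := exists_den A (L.map (lam.restrictScalars A)) (hfg.map _)
  have h' : ∀ v ∈ L, (r : K) * lam v ∈ A := fun v hv => h _ ⟨v, hv, rfl⟩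
  let φ0 : L →ₗ[A] A :=
    { toFun := fun v => ⟨(r : K) * lam v, h' v v.2⟩
      map_add' := fun a b => by
        apply Subtype.ext
        simp [mul_add]
      map_smul' := fun c a => by
        apply Subtype.ext
        change (r : K) * lam ((c : K) • (a : V)) = (c : K) * ((r : K) * lam a)
        rw [map_smul, smul_eq_mul]; ring }
  have ha : φ0 ⟨σ, hσ⟩ ≠ 0 := by
    intro h0
    have h1 : (r : K) * lam σ = 0 := congrArg Subtype.val h0
    rcases mul_eq_zero.1 h1 with h2 | h2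
    · exact hr (Subtype.ext h2)
    · exact hlam h2
  obtain ⟨m, hm, hm'⟩ := hav _ ha
  exact coatom_of_functional φ0 _ m hm hm'

end YLat

variable {k K : Type} [Field k] [IsAlgClosed k] [CharZero k] [Field K] [Algebra k K] {x : K}
  [IsCurve k x]
variable {V : Type} [AddCommGroup V] [Module K V] [Module k V] [IsScalarTower k K V]
  [FiniteDimensional K V]
variable {V' : Type} [AddCommGroup V'] [Module K V'] [Module k V'] [IsScalarTower k K V']
  [FiniteDimensional K V']
variable {V'' : Type} [AddCommGroup V''] [Module K V''] [Module k V''] [IsScalarTower k K V'']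
  [FiniteDimensional K V'']

namespace Pair

theorem Y_x_mem : x ∈ R0 k x := by
  have : x ∈ Algebra.adjoin k {x} := Algebra.subset_adjoin rfl
  exact (IsIntegral.algebraMap (B := K) (isIntegral_algebraMap (R := Algebra.adjoin k {x})
    (A := Algebra.adjoin k {x}) (x := ⟨x, this⟩)) : IsIntegral (Algebra.adjoin k {x}) x)

theorem Y_xinv_mem : x⁻¹ ∈ R1 k x := by
  have hx : x ≠ 0 := by
    rintro rfl
    exact (IsCurve.trans (k := k) (x := (0 : K))) (isAlgebraic_zero)
  have : x⁻¹ ∈ Oinf k x := ⟨1, X, X_ne_zero, by simp, by simp [hx]⟩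
  exact (IsIntegral.algebraMap (B := K) (isIntegral_algebraMap (R := Oinf k x)
    (A := Oinf k x) (x := ⟨x⁻¹, this⟩)) : IsIntegral (Oinf k x) x⁻¹)

theorem Y_x_ne (c : k) : x ≠ algebraMap k K c := by
  rintro h
  exact (IsCurve.trans (k := k) (x := x)) (h ▸ isAlgebraic_algebraMap c)

theorem Y_xinv_ne (c : k) : x⁻¹ ≠ algebraMap k K c := by
  intro h
  apply Y_x_ne (k := k) (x := x) c⁻¹
  rw [map_inv₀, ← h, inv_inv]

theorem Y_len_self (A : Submodule k V) : len A A = 0 := by
  unfold len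
  rw [Submodule.submoduleOf_self]
  exact finrank_zero_of_subsingleton

theorem Y_chi (E E' : Pair k x V) (hE : E.IsBundle) (hE' : E'.IsBundle) (h : E' ≤ E) :
    E.deg = E'.deg + len (E'.L0.restrictScalars k) (E.L0.restrictScalars k) +
      len (E'.L1.restrictScalars k) (E.L1.restrictScalars k) := by
  haveI : FiniteDimensional k ↥(E.L0.restrictScalars k ⊓ E.L1.restrictScalars k) := finite_H0 E hE
  haveI : FiniteDimensional k (V ⧸ (E'.L0.restrictScalars k ⊔ E'.L1.restrictScalars k)) :=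
    finite_H1 E' hE'
  have h1 := (index_le (E.L0.restrictScalars k) (E.L1.restrictScalars k)
    (E'.L0.restrictScalars k) (E'.L1.restrictScalars k) h.1 h.2).2.2
  unfold deg chi h0 Pair.h1 H0 S
  linarith

theorem Y_ker0 (E : Pair k x V) (hE : E.IsBundle) (S : Type) [AddCommGroup S]
    [Module (R0 k x) S] [Module k S] [IsScalarTower k (R0 k x) S] [IsSimpleModule (R0 k x) S]
    (φ : E.L0 →ₗ[R0 k x] S) (hφ : Function.Surjective φ) :
    (⟨(LinearMap.ker φ).map E.L0.subtype, E.L1⟩ : Pair k x V).IsBundle ∧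
    (⟨(LinearMap.ker φ).map E.L0.subtype, E.L1⟩ : Pair k x V) ≤ E ∧
    (⟨(LinearMap.ker φ).map E.L0.subtype, E.L1⟩ : Pair k x V).deg = E.deg - 1 := by
  have := R0_dedekind k x
  obtain ⟨h1, h2, h3, h4⟩ := YLat.lat_ker (R0 k x) ⟨x, Y_x_mem⟩ Y_x_ne E.L0 hE.fg0 hE.span0 S
    (R0_simple k x S) φ hφ
  have hB : (⟨(LinearMap.ker φ).map E.L0.subtype, E.L1⟩ : Pair k x V).IsBundle :=
    ⟨h1, hE.fg1, h2, hE.span1⟩
  have hle : (⟨(LinearMap.ker φ).map E.L0.subtype, E.L1⟩ : Pair k x V) ≤ E := ⟨h3, le_rfl⟩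
  refine ⟨hB, hle, ?_⟩
  have h5 := Y_chi _ _ hE hB hle
  simp only [h4, Y_len_self] at h5
  push_cast at h5
  linarith

theorem Y_ker1 (E : Pair k x V) (hE : E.IsBundle) (S : Type) [AddCommGroup S]
    [Module (R1 k x) S] [Module k S] [IsScalarTower k (R1 k x) S] [IsSimpleModule (R1 k x) S]
    (φ : E.L1 →ₗ[R1 k x] S) (hφ : Function.Surjective φ) :
    (⟨E.L0, (LinearMap.ker φ).map E.L1.subtype⟩ : Pair k x V).IsBundle ∧
    (⟨E.L0, (LinearMap.ker φ).map E.L1.subtype⟩ : Pair k x V) ≤ E ∧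
    (⟨E.L0, (LinearMap.ker φ).map E.L1.subtype⟩ : Pair k x V).deg = E.deg - 1 := by
  have := R1_dedekind k x
  obtain ⟨h1, h2, h3, h4⟩ := YLat.lat_ker (R1 k x) ⟨x⁻¹, Y_xinv_mem⟩ Y_xinv_ne E.L1 hE.fg1
    hE.span1 S (R1_simple k x S) φ hφ
  have hB : (⟨E.L0, (LinearMap.ker φ).map E.L1.subtype⟩ : Pair k x V).IsBundle :=
    ⟨hE.fg0, h1, hE.span0, h2⟩
  have hle : (⟨E.L0, (LinearMap.ker φ).map E.L1.subtype⟩ : Pair k x V) ≤ E := ⟨le_rfl, h3⟩
  refine ⟨hB, hle, ?_⟩
  have h5 := Y_chi _ _ hE hB hle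
  simp only [h4, Y_len_self] at h5
  push_cast at h5
  linarith

/-- A coatom above a proper submodule of a finitely generated module. -/
theorem Y_coatom {A : Type} [CommRing A] {W : Type} [AddCommGroup W] [Module A W]
    (L M : Submodule A W) (hL : L.FG) (hM : M ≤ L) (hne : M ≠ L) :
    ∃ N : Submodule A L, IsCoatom N ∧ M ≤ N.map L.subtype := by
  haveI : Module.Finite A L := Module.Finite.iff_fg.2 hL
  have h1 : M.submoduleOf L ≠ ⊤ := by
    intro h
    apply hne
    exact le_antisymm hM (Submodule.submoduleOf_eq_top.1 h)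
  obtain ⟨N, hN, hN'⟩ := (eq_top_or_exists_le_coatom (M.submoduleOf L)).resolve_left h1
  exact ⟨N, hN, fun v hv => ⟨⟨v, hM hv⟩, hN' hv, rfl⟩⟩

theorem exists_colength_one (E F : Pair k x V) (hE : E.IsBundle) (hF : F ≤ E) (hne : F ≠ E) :
    ∃ E' : Pair k x V, E'.IsBundle ∧ F ≤ E' ∧ E' ≤ E ∧ E'.deg = E.deg - 1 := by
  by_cases h0 : F.L0 = E.L0
  · have h1 : F.L1 ≠ E.L1 := fun h => hne (Pair.ext h0 h)
    obtain ⟨N, hN, hN'⟩ := Y_coatom E.L1 F.L1 hE.fg1 hF.2 h1
    haveI : IsSimpleModule (R1 k x) (E.L1 ⧸ N) := isSimpleModule_iff_isCoatom.2 hN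
    obtain ⟨h2, h3, h4⟩ := Y_ker1 E hE (E.L1 ⧸ N) N.mkQ (Submodule.mkQ_surjective N)
    refine ⟨_, h2, ⟨hF.1, ?_⟩, h3, h4⟩
    rw [Submodule.ker_mkQ]; exact hN'
  · obtain ⟨N, hN, hN'⟩ := Y_coatom E.L0 F.L0 hE.fg0 hF.1 h0
    haveI : IsSimpleModule (R0 k x) (E.L0 ⧸ N) := isSimpleModule_iff_isCoatom.2 hN
    obtain ⟨h2, h3, h4⟩ := Y_ker0 E hE (E.L0 ⧸ N) N.mkQ (Submodule.mkQ_surjective N)
    refine ⟨_, h2, ⟨?_, hF.2⟩, h3, h4⟩
    rw [Submodule.ker_mkQ]; exact hN'

theorem exists_avoid (E : Pair k x V) (hE : E.IsBundle) (σ : V) (hσ : σ ∈ E.L0) (hσ0 : σ ≠ 0) :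
    ∃ E' : Pair k x V, E'.IsBundle ∧ E' ≤ E ∧ E'.deg = E.deg - 1 ∧ σ ∉ E'.L0 := by
  have i1 := R0_fraction k x
  obtain ⟨N, hN, hN'⟩ := YLat.lat_avoid (R0 k x) (R0_avoid k x) E.L0 hE.fg0 σ hσ hσ0
  haveI : IsSimpleModule (R0 k x) (E.L0 ⧸ N) := isSimpleModule_iff_isCoatom.2 hN
  obtain ⟨h2, h3, h4⟩ := Y_ker0 E hE (E.L0 ⧸ N) N.mkQ (Submodule.mkQ_surjective N)
  refine ⟨_, h2, h3, h4, ?_⟩
  rintro ⟨w, hw, hw'⟩
  have h5 : w = ⟨σ, hσ⟩ := Subtype.ext hw'
  rw [Submodule.ker_mkQ, h5] at hw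
  exact hN' hw

theorem gg_of (E : Pair k x V) (hE : E.IsBundle)
    (h : ∀ E' : Pair k x V, E'.IsBundle → E' ≤ E → E'.deg = E.deg - 1 → E'.h0 < E.h0) : E.GG := by
  by_contra hcon
  set F : Pair k x V := ⟨Submodule.span (R0 k x) ((E.L0 : Set V) ∩ E.L1),
    Submodule.span (R1 k x) ((E.L0 : Set V) ∩ E.L1)⟩ with hFdef
  have hF : F ≤ E := ⟨Submodule.span_le.2 Set.inter_subset_left,
    Submodule.span_le.2 Set.inter_subset_right⟩
  have hne : F ≠ E := by
    intro h'
    apply hcon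
    exact ⟨congrArg Pair.L0 h', congrArg Pair.L1 h'⟩
  obtain ⟨E', hE', h1, h2, h3⟩ := exists_colength_one E F hE hF hne
  have h4 := h E' hE' h2 h3
  have h5 : E.H0 ≤ E'.H0 := fun v hv =>
    ⟨h1.1 (Submodule.subset_span ⟨hv.1, hv.2⟩), h1.2 (Submodule.subset_span ⟨hv.1, hv.2⟩)⟩
  haveI := finite_H0 E' hE'
  have h6 : E.h0 ≤ E'.h0 := Submodule.finrank_mono h5
  omega

/-- a quotient of a globally generated bundle is globally generated; trivial bundles are -/
theorem gg_map (E : Pair k x V) (hE : E.GG) (g : V →ₗ[K] V') (hg : Function.Surjective g) :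
    (E.map g).GG := by
  constructor
  · apply le_antisymm (Submodule.span_le.2 Set.inter_subset_left)
    change E.L0.map (g.restrictScalars (R0 k x)) ≤ _
    conv_lhs => rw [← hE.1, Submodule.map_span]
    apply Submodule.span_mono
    rintro _ ⟨v, hv, rfl⟩
    exact ⟨⟨v, hv.1, rfl⟩, ⟨v, hv.2, rfl⟩⟩
  · apply le_antisymm (Submodule.span_le.2 Set.inter_subset_right)
    change E.L1.map (g.restrictScalars (R1 k x)) ≤ _
    conv_lhs => rw [← hE.2, Submodule.map_span]
    apply Submodule.span_mono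
    rintro _ ⟨v, hv, rfl⟩
    exact ⟨⟨v, hv.1, rfl⟩, ⟨v, hv.2, rfl⟩⟩

theorem gg_triv (ι : Type) [Fintype ι] : (triv k x ι).GG := by
  classical
  have hmem : ∀ i, (Pi.single i (1 : K) : ι → K) ∈ ((triv k x ι).L0 : Set (ι → K)) ∩ (triv k x ι).L1 := by
    intro i
    constructor
    · intro j _
      by_cases h : j = i
      · subst h; simp only [Pi.single_eq_same]; exact Submodule.one_le.1 le_rfl
      · rw [Pi.single_eq_of_ne h]; exact zero_mem _
    · intro j _
      by_cases h : j = i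
      · subst h; simp only [Pi.single_eq_same]; exact Submodule.one_le.1 le_rfl
      · rw [Pi.single_eq_of_ne h]; exact zero_mem _
  constructor
  · apply le_antisymm (Submodule.span_le.2 Set.inter_subset_left)
    intro v hv
    have h1 : ∀ i, ∃ r : R0 k x, algebraMap (R0 k x) K r = v i := fun i =>
      Submodule.mem_one.1 (hv i (Set.mem_univ i))
    choose r hr using h1
    have h2 : v = ∑ i, r i • (Pi.single i (1 : K) : ι → K) := by
      funext j
      rw [Finset.sum_apply, Finset.sum_eq_single j]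
      · rw [Pi.smul_apply, Pi.single_eq_same, Algebra.smul_def, mul_one, hr]
      · intro b _ hb
        rw [Pi.smul_apply, Pi.single_eq_of_ne hb.symm, smul_zero]
      · intro h; exact absurd (Finset.mem_univ j) h
    rw [h2]
    exact Submodule.sum_mem _ fun i _ => Submodule.smul_mem _ _ (Submodule.subset_span (hmem i))
  · apply le_antisymm (Submodule.span_le.2 Set.inter_subset_right)
    intro v hv
    have h1 : ∀ i, ∃ r : R1 k x, algebraMap (R1 k x) K r = v i := fun i =>
      Submodule.mem_one.1 (hv i (Set.mem_univ i))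
    choose r hr using h1
    have h2 : v = ∑ i, r i • (Pi.single i (1 : K) : ι → K) := by
      funext j
      rw [Finset.sum_apply, Finset.sum_eq_single j]
      · rw [Pi.smul_apply, Pi.single_eq_same, Algebra.smul_def, mul_one, hr]
      · intro b _ hb
        rw [Pi.smul_apply, Pi.single_eq_of_ne hb.symm, smul_zero]
      · intro h; exact absurd (Finset.mem_univ j) h
    rw [h2]
    exact Submodule.sum_mem _ fun i _ => Submodule.smul_mem _ _ (Submodule.subset_span (hmem i))

end Pair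

end Pool.Agent.MP_b814b1_ag
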