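import Pool.Agent.MP_b814b1_ag.Bundle
import Pool.Agent.MP_b814b1_ag.Steps

/-!
# MP_b814b1_ag, module Z: line bundles
-/

open Polynomial Module
open scoped Topology

set_option linter.unusedSectionVars false
set_option linter.style.haveILetI false

noncomputable section

namespace Pool.Agent.MP_b814b1_ag

/-! ### Lattices over a Dedekind domain -/

namespace ZLat

open scoped nonZeroDivisors

variable {R K : Type} [CommRing R] [Field K] [Algebra R K]
variable {V : Type} [AddCommGroup V] [Module K V] [Module R V] [IsScalarTower R K V]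
variable {V' : Type} [AddCommGroup V'] [Module K V'] [Module R V'] [IsScalarTower R K V']

/-- The lattice `D^(-1) L`. -/
def cl (D : Submodule R K) (L : Submodule R V) : Submodule R V where
  carrier := {v | ∀ d ∈ D, d • v ∈ L}
  add_mem' := fun {a b} ha hb d hd => by rw [smul_add]; exact add_mem (ha d hd) (hb d hd)
  zero_mem' := fun d _ => by rw [smul_zero]; exact zero_mem _
  smul_mem' := fun c v hv d hd => by
    rw [← algebraMap_smul K c v, smul_smul, mul_comm, ← smul_smul, algebraMap_smul]
    exact L.smul_mem c (hv d hd)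

/-- The inverse lattice. -/
abbrev iv (D : Submodule R K) : Submodule R K := cl (V := K) D (1 : Submodule R K)

theorem mem_cl {D : Submodule R K} {L : Submodule R V} {v : V} :
    v ∈ cl D L ↔ ∀ d ∈ D, d • v ∈ L := Iff.rfl

theorem cl_mono (D : Submodule R K) {L L' : Submodule R V} (h : L ≤ L') : cl D L ≤ cl D L' :=
  fun _ hv d hd => h (hv d hd)

theorem mul_mem_one_smul {L : Submodule R V} {z : K} (hz : z ∈ (1 : Submodule R K)) {v : V}
    (hv : v ∈ L) : z • v ∈ L := by
  obtain ⟨r, rfl⟩ := Submodule.mem_one.1 hz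
  rw [algebraMap_smul]
  exact L.smul_mem r hv

section Dedekind

variable [IsDedekindDomain R] [IsFractionRing R K]

theorem one_mem_mul {D : Submodule R K} (hD : D.FG) (h0 : D ≠ ⊥) : (1 : K) ∈ D * iv D := by
  let I : FractionalIdeal R⁰ K := ⟨D, FractionalIdeal.isFractional_of_fg hD⟩
  have hI : I ≠ 0 := by
    intro h
    apply h0
    have : (I : Submodule R K) = ⊥ := by rw [h]; exact FractionalIdeal.coe_zero
    exact this
  have h1 : I * I⁻¹ = 1 := mul_inv_cancel₀ hI
  have h2 : (1 : K) ∈ ((I * I⁻¹ : FractionalIdeal R⁰ K) : Submodule R K) := by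
    rw [h1]; exact FractionalIdeal.one_mem_one R⁰
  rw [FractionalIdeal.coe_mul] at h2
  have h3 : ((I⁻¹ : FractionalIdeal R⁰ K) : Submodule R K) ≤ iv D := by
    intro y hy d hd
    have h4 := (FractionalIdeal.mem_inv_iff hI).1 hy d hd
    rw [smul_eq_mul, mul_comm]
    obtain ⟨r, hr⟩ := (FractionalIdeal.mem_one_iff R⁰).1 h4
    exact Submodule.mem_one.2 ⟨r, hr⟩
  exact (Submodule.mul_le.2 fun m hm n hn => Submodule.mul_mem_mul hm (h3 hn) : D * _ ≤ D * iv D) h2

theorem cl_cl_one {D : Submodule R K} (hD : D.FG) (h0 : D ≠ ⊥) : iv (iv D) = D := by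
  apply le_antisymm
  · intro v hv
    have h : ∀ z ∈ D * iv D, z • v ∈ D := by
      intro z hz
      refine Submodule.mul_induction_on hz ?_ ?_
      · intro a ha b hb
        have h1 : b • v ∈ (1 : Submodule R K) := hv b hb
        rw [mul_comm, smul_eq_mul, show b * a * v = (b * v) * a by ring]
        exact mul_mem_one_smul h1 ha
      · intro a b ha hb
        rw [add_smul]; exact add_mem ha hb
    simpa using h 1 (one_mem_mul hD h0)
  · intro v hv b hb
    have := hb v hv
    rw [smul_eq_mul] at this ⊢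
    rwa [mul_comm]

theorem cl_inv_cancel {D : Submodule R K} (hD : D.FG) (h0 : D ≠ ⊥) (L : Submodule R V) :
    cl D (cl (iv D) L) = L := by
  apply le_antisymm
  · intro v hv
    have h : ∀ z ∈ D * iv D, z • v ∈ L := by
      intro z hz
      refine Submodule.mul_induction_on hz ?_ ?_
      · intro a ha b hb
        have h1 : b • a • v ∈ L := hv a ha b hb
        rw [mul_comm, ← smul_smul]
        exact h1
      · intro a b ha hb
        rw [add_smul]; exact add_mem ha hb
    simpa using h 1 (one_mem_mul hD h0)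
  · intro v hv d hd b hb
    rw [smul_smul]
    exact mul_mem_one_smul (by have := hb d hd; rwa [smul_eq_mul, mul_comm] at this) hv

theorem cl_inv_cancel' {D : Submodule R K} (hD : D.FG) (h0 : D ≠ ⊥) (L : Submodule R V) :
    cl (iv D) (cl D L) = L := by
  apply le_antisymm
  · intro v hv
    have h : ∀ z ∈ D * iv D, z • v ∈ L := by
      intro z hz
      refine Submodule.mul_induction_on hz ?_ ?_
      · intro a ha b hb
        have h1 : a • b • v ∈ L := hv b hb a ha
        rw [← smul_smul]
        exact h1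
      · intro a b ha hb
        rw [add_smul]; exact add_mem ha hb
    simpa using h 1 (one_mem_mul hD h0)
  · intro v hv b hb d hd
    rw [smul_smul]
    exact mul_mem_one_smul (by have := hb d hd; rwa [smul_eq_mul] at this) hv

theorem cl_self {D : Submodule R K} (hD : D.FG) (h0 : D ≠ ⊥) : cl D D = 1 := by
  apply le_antisymm
  · intro v hv
    have h : ∀ z ∈ D * iv D, z • v ∈ (1 : Submodule R K) := by
      intro z hz
      refine Submodule.mul_induction_on hz ?_ ?_
      · intro a ha b hb
        have h1 : a • v ∈ D := hv a ha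
        have h2 : (a • v) • b ∈ (1 : Submodule R K) := hb _ h1
        rw [smul_eq_mul, smul_eq_mul] at h2
        rw [smul_eq_mul, show a * b * v = a * v * b by ring]
        exact h2
      · intro a b ha hb
        rw [add_smul]; exact add_mem ha hb
    simpa using h 1 (one_mem_mul hD h0)
  · intro v hv d hd
    rw [smul_eq_mul, mul_comm]
    exact mul_mem_one_smul hv hd

theorem cl_map {D : Submodule R K} (hD : D.FG) (h0 : D ≠ ⊥) (L : Submodule R V)
    (g : V →ₗ[K] V') :
    (cl D L).map (g.restrictScalars R) = cl D (L.map (g.restrictScalars R)) := by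
  apply le_antisymm
  · rintro _ ⟨v, hv, rfl⟩ d hd
    exact ⟨d • v, hv d hd, by simp⟩
  · intro w hw
    have h : ∀ z ∈ D * iv D, z • w ∈ (cl D L).map (g.restrictScalars R) := by
      intro z hz
      refine Submodule.mul_induction_on hz ?_ ?_
      · intro a ha b hb
        obtain ⟨l, hl, hl'⟩ := hw a ha
        refine ⟨b • l, fun d hd => ?_, ?_⟩
        · rw [smul_smul]
          exact mul_mem_one_smul (by have := hb d hd; rwa [smul_eq_mul] at this) hl
        · rw [LinearMap.restrictScalars_apply] at hl' ⊢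
          rw [map_smul, hl', smul_smul, mul_comm]
      · intro a b ha hb
        rw [add_smul]; exact add_mem ha hb
    simpa using h 1 (one_mem_mul hD h0)

/-- A common denominator. -/
theorem exists_den {D : Submodule R K} (hD : D.FG) :
    ∃ r : R, r ≠ 0 ∧ ∀ d ∈ D, algebraMap R K r * d ∈ (1 : Submodule R K) := by
  obtain ⟨r, hr, h⟩ := FractionalIdeal.isFractional_of_fg (S := R⁰) hD
  refine ⟨r, nonZeroDivisors.ne_zero hr, fun d hd => ?_⟩
  obtain ⟨s, hs⟩ := h d hd
  rw [← Algebra.smul_def, ← hs]
  exact Submodule.mem_one.2 ⟨s, rfl⟩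

theorem cl_fg {D : Submodule R K} (h0 : D ≠ ⊥) {L : Submodule R V} (hL : L.FG) :
    (cl D L).FG := by
  obtain ⟨d, hd, hd0⟩ := Submodule.exists_mem_ne_zero_of_ne_bot h0
  have h1 : ((L.map ((d⁻¹ • (LinearMap.id : V →ₗ[K] V)).restrictScalars R))).FG := hL.map _
  have h2 : IsNoetherian R (L.map ((d⁻¹ • (LinearMap.id : V →ₗ[K] V)).restrictScalars R)) :=
    isNoetherian_of_fg_of_noetherian _ h1
  have h3 : cl D L ≤ L.map ((d⁻¹ • (LinearMap.id : V →ₗ[K] V)).restrictScalars R) := by
    intro v hv
    refine ⟨d • v, hv d hd, ?_⟩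
    simp [smul_smul, hd0]
  have h4 := (isNoetherian_submodule.1 h2) _ h3
  exact h4

theorem cl_span {D : Submodule R K} (hD : D.FG) {L : Submodule R V}
    (hL : Submodule.span K (L : Set V) = ⊤) :
    Submodule.span K (cl D L : Set V) = ⊤ := by
  obtain ⟨r, hr, h⟩ := exists_den (K := K) hD
  have hr' : algebraMap R K r ≠ 0 := by
    intro h'
    exact hr (IsFractionRing.injective R K (by rw [h', map_zero]))
  rw [eq_top_iff, ← hL, Submodule.span_le]
  intro v hv
  have h1 : algebraMap R K r • v ∈ cl D L := by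
    intro d hd
    rw [smul_smul, mul_comm]
    exact mul_mem_one_smul (h d hd) hv
  have h2 := (Submodule.span K (cl D L : Set V)).smul_mem (algebraMap R K r)⁻¹
    (Submodule.subset_span h1)
  rw [smul_smul, inv_mul_cancel₀ hr', one_smul] at h2
  exact h2

theorem inf_ne_bot {L L' : Submodule R K} (h : L ≠ ⊥) (h' : L' ≠ ⊥) : L ⊓ L' ≠ ⊥ := by
  obtain ⟨a, ha, ha0⟩ := Submodule.exists_mem_ne_zero_of_ne_bot h
  obtain ⟨b, hb, hb0⟩ := Submodule.exists_mem_ne_zero_of_ne_bot h'
  obtain ⟨p, q, hq, hpq⟩ := IsFractionRing.div_surjective (A := R) (a / b)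
  have hq0 : algebraMap R K q ≠ 0 := by
    intro h'
    exact nonZeroDivisors.ne_zero hq (IsFractionRing.injective R K (by rw [h', map_zero]))
  have h1 : algebraMap R K q * a = algebraMap R K p * b := by
    field_simp at hpq
    exact hpq.symm
  intro hcon
  have h2 : algebraMap R K q * a ∈ L ⊓ L' := by
    refine ⟨?_, ?_⟩
    · rw [← Algebra.smul_def]; exact L.smul_mem q ha
    · rw [h1, ← Algebra.smul_def]; exact L'.smul_mem p hb
  rw [hcon, Submodule.mem_bot] at h2
  exact mul_ne_zero hq0 ha0 h2

theorem ne_bot_of_span {L : Submodule R K} (h : Submodule.span K (L : Set K) = ⊤) : L ≠ ⊥ := by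
  rintro rfl
  rw [Submodule.bot_coe, Submodule.span_zero_singleton] at h
  exact bot_ne_top h

theorem span_of_ne_bot {L : Submodule R K} (h : L ≠ ⊥) : Submodule.span K (L : Set K) = ⊤ := by
  obtain ⟨a, ha, ha0⟩ := Submodule.exists_mem_ne_zero_of_ne_bot h
  rw [eq_top_iff]
  intro v _
  have h2 := (Submodule.span K (L : Set K)).smul_mem (v / a) (Submodule.subset_span ha)
  rwa [smul_eq_mul, div_mul_cancel₀ _ ha0] at h2

end Dedekind

end ZLat

variable {k K : Type} [Field k] [IsAlgClosed k] [CharZero k] [Field K] [Algebra k K] {x : K}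
  [IsCurve k x]
variable {V : Type} [AddCommGroup V] [Module K V] [Module k V] [IsScalarTower k K V]
  [FiniteDimensional K V]
variable {V' : Type} [AddCommGroup V'] [Module K V'] [Module k V'] [IsScalarTower k K V']
  [FiniteDimensional K V']
variable {V'' : Type} [AddCommGroup V''] [Module K V''] [Module k V''] [IsScalarTower k K V'']
  [FiniteDimensional K V'']

namespace Pair

open ZLat

theorem Z_colon_L0 (D : Pair k x K) (E : Pair k x V) : (colon D E).L0 = cl D.L0 E.L0 := rfl

theorem Z_colon_L1 (D : Pair k x K) (E : Pair k x V) : (colon D E).L1 = cl D.L1 E.L1 := rfl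

/-- The instances of the rings. -/
theorem Z_insts : IsDedekindDomain (R0 k x) ∧ IsDedekindDomain (R1 k x) ∧
    IsFractionRing (R0 k x) K ∧ IsFractionRing (R1 k x) K :=
  ⟨R0_dedekind k x, R1_dedekind k x, R0_fraction k x, R1_fraction k x⟩

theorem isBundle_colon (D : Pair k x K) (E : Pair k x V) (hD : D.IsBundle) (hE : E.IsBundle) :
    (colon D E).IsBundle := by
  obtain ⟨i1, i2, i3, i4⟩ := Z_insts (k := k) (x := x)
  exact ⟨cl_fg (ne_bot_of_span hD.span0) hE.fg0, cl_fg (ne_bot_of_span hD.span1) hE.fg1,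
    cl_span hD.fg0 hE.span0, cl_span hD.fg1 hE.span1⟩

theorem colon_colon_unit (D : Pair k x K) (hD : D.IsBundle) :
    colon (colon D (unit k x)) (unit k x) = D := by
  obtain ⟨i1, i2, i3, i4⟩ := Z_insts (k := k) (x := x)
  exact Pair.ext (cl_cl_one hD.fg0 (ne_bot_of_span hD.span0))
    (cl_cl_one hD.fg1 (ne_bot_of_span hD.span1))

theorem colon_inv_cancel (D : Pair k x K) (E : Pair k x V) (hD : D.IsBundle)
    (hE : E.IsBundle) : colon D (colon (colon D (unit k x)) E) = E := by
  obtain ⟨i1, i2, i3, i4⟩ := Z_insts (k := k) (x := x)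
  exact Pair.ext (cl_inv_cancel hD.fg0 (ne_bot_of_span hD.span0) E.L0)
    (cl_inv_cancel hD.fg1 (ne_bot_of_span hD.span1) E.L1)

theorem Z_inv_cancel (D : Pair k x K) (E : Pair k x V) (hD : D.IsBundle) :
    colon (colon D (unit k x)) (colon D E) = E := by
  obtain ⟨i1, i2, i3, i4⟩ := Z_insts (k := k) (x := x)
  exact Pair.ext (cl_inv_cancel' hD.fg0 (ne_bot_of_span hD.span0) E.L0)
    (cl_inv_cancel' hD.fg1 (ne_bot_of_span hD.span1) E.L1)

theorem colon_self (D : Pair k x K) (hD : D.IsBundle) : colon D D = unit k x := by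
  obtain ⟨i1, i2, i3, i4⟩ := Z_insts (k := k) (x := x)
  exact Pair.ext (cl_self hD.fg0 (ne_bot_of_span hD.span0))
    (cl_self hD.fg1 (ne_bot_of_span hD.span1))

theorem Z_colon_mono (D : Pair k x K) {E F : Pair k x V} (h : E ≤ F) : colon D E ≤ colon D F :=
  ⟨cl_mono D.L0 h.1, cl_mono D.L1 h.2⟩

theorem Z_le_antisymm {E F : Pair k x V} (h : E ≤ F) (h' : F ≤ E) : E = F :=
  Pair.ext (le_antisymm h.1 h'.1) (le_antisymm h.2 h'.2)

theorem Z_step (D : Pair k x K) (hD : D.IsBundle) (E F : Pair k x V) (hE : E.IsBundle)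
    (hF : F.IsBundle) (h : F ≤ E) (hd : F.deg = E.deg - 1) :
    (colon D F).deg = (colon D E).deg - 1 := by
  have hU : (colon D (unit k x)).IsBundle := isBundle_colon D _ hD isBundle_unit
  have hne : colon D F ≠ colon D E := by
    intro hcon
    have : F = E := by rw [← Z_inv_cancel D F hD, hcon, Z_inv_cancel D E hD]
    rw [this] at hd; omega
  obtain ⟨G, hG, h1, h2, h3⟩ := exists_colength_one (colon D E) (colon D F)
    (isBundle_colon D E hD hE) (Z_colon_mono D h) hne
  have h4 : F ≤ colon (colon D (unit k x)) G := by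
    have := Z_colon_mono (colon D (unit k x)) h1
    rwa [Z_inv_cancel D F hD] at this
  have h5 : colon (colon D (unit k x)) G ≤ E := by
    have := Z_colon_mono (colon D (unit k x)) h2
    rwa [Z_inv_cancel D E hD] at this
  have hB : (colon (colon D (unit k x)) G).IsBundle := isBundle_colon _ _ hU hG
  have h6 := deg_le _ _ hE hB h5
  have h7 := deg_le _ _ hB hF h4
  have h8 : colon (colon D (unit k x)) G = F ∨ colon (colon D (unit k x)) G = E := by
    rcases (show (colon (colon D (unit k x)) G).deg = F.deg ∨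
      (colon (colon D (unit k x)) G).deg = E.deg by have := h6.1; have := h7.1; omega) with h | h
    · exact Or.inl (h7.2.1 h.symm).symm
    · exact Or.inr (h6.2.1 h)
  rcases h8 with h8 | h8
  · rw [← h8, colon_inv_cancel D G hD hG, h3]
  · exfalso
    rw [← h8, colon_inv_cancel D G hD hG] at h3
    omega

theorem Z_diff (D : Pair k x K) (hD : D.IsBundle) (n : ℕ) : ∀ (E F : Pair k x V), E.IsBundle →
    F.IsBundle → F ≤ E → E.deg = F.deg + n → (colon D E).deg = (colon D F).deg + n := by
  induction n with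
  | zero =>
    intro E F hE hF h hd
    have : F = E := (deg_le _ _ hE hF h).2.1 (by simpa using hd.symm)
    rw [this]; simp
  | succ n ih =>
    intro E F hE hF h hd
    have hne : F ≠ E := by
      intro h'; rw [h'] at hd; push_cast at hd; omega
    obtain ⟨G, hG, h1, h2, h3⟩ := exists_colength_one E F hE h hne
    have h4 := ih G F hG hF h1 (by push_cast at hd; omega)
    have h5 := Z_step D hD E G hE hG h2 h3
    push_cast
    omega

theorem Z_diff_le (D : Pair k x K) (hD : D.IsBundle) (E F : Pair k x V) (hE : E.IsBundle)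
    (hF : F.IsBundle) (h : F ≤ E) : (colon D E).deg - E.deg = (colon D F).deg - F.deg := by
  have h1 := (deg_le _ _ hE hF h).1
  have h2 := Z_diff D hD (E.deg - F.deg).toNat E F hE hF h (by omega)
  omega

theorem Z_line (D : Pair k x K) (hD : D.IsBundle) (E F : Pair k x K) (hE : E.IsBundle)
    (hF : F.IsBundle) : (colon D E).deg - E.deg = (colon D F).deg - F.deg := by
  obtain ⟨i1, i2, i3, i4⟩ := Z_insts (k := k) (x := x)
  have hG : (⟨E.L0 ⊓ F.L0, E.L1 ⊓ F.L1⟩ : Pair k x K).IsBundle := by
    refine ⟨?_, ?_, ?_, ?_⟩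
    · have : IsNoetherian (R0 k x) E.L0 := isNoetherian_of_fg_of_noetherian _ hE.fg0
      exact (isNoetherian_submodule.1 this) _ inf_le_left
    · have : IsNoetherian (R1 k x) E.L1 := isNoetherian_of_fg_of_noetherian _ hE.fg1
      exact (isNoetherian_submodule.1 this) _ inf_le_left
    · exact span_of_ne_bot (inf_ne_bot (ne_bot_of_span hE.span0) (ne_bot_of_span hF.span0))
    · exact span_of_ne_bot (inf_ne_bot (ne_bot_of_span hE.span1) (ne_bot_of_span hF.span1))
  rw [Z_diff_le D hD E _ hE hG ⟨inf_le_left, inf_le_left⟩,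
    Z_diff_le D hD F _ hF hG ⟨inf_le_right, inf_le_right⟩]

theorem Z_deg_line (D : Pair k x K) (E : Pair k x K) (hD : D.IsBundle) (hE : E.IsBundle) :
    (colon D E).deg = E.deg - D.deg := by
  have h := Z_line D hD E D hE hD
  rw [colon_self D hD, deg_unit] at h
  omega

theorem Z_colon_comap (D : Pair k x K) (E : Pair k x V) (f : V' →ₗ[K] V) :
    (colon D E).comap f = colon D (E.comap f) := by
  apply Pair.ext
  · ext v
    simp only [comap, colon, Submodule.mem_comap, Submodule.mem_mk]
    change (∀ d ∈ D.L0, d • f v ∈ E.L0) ↔ (∀ d ∈ D.L0, f (d • v) ∈ E.L0)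
    simp only [map_smul]
  · ext v
    simp only [comap, colon, Submodule.mem_comap, Submodule.mem_mk]
    change (∀ d ∈ D.L1, d • f v ∈ E.L1) ↔ (∀ d ∈ D.L1, f (d • v) ∈ E.L1)
    simp only [map_smul]

theorem Z_colon_map (D : Pair k x K) (hD : D.IsBundle) (E : Pair k x V) (g : V →ₗ[K] V') :
    (colon D E).map g = colon D (E.map g) := by
  obtain ⟨i1, i2, i3, i4⟩ := Z_insts (k := k) (x := x)
  exact Pair.ext (cl_map hD.fg0 (ne_bot_of_span hD.span0) E.L0 g)
    (cl_map hD.fg1 (ne_bot_of_span hD.span1) E.L1 g)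

theorem Z_deg_subsingleton (h : finrank K V = 0) (E : Pair k x V) : E.deg = 0 := by
  have hs : Subsingleton V := finrank_zero_iff.1 h
  have h0 : E.h0 = 0 := finrank_zero_of_subsingleton
  have h1 : E.h1 = 0 := finrank_zero_of_subsingleton
  unfold deg chi
  rw [h0, h1, h]; simp

theorem Z_deg_aux (D : Pair k x K) (hD : D.IsBundle) (n : ℕ) : ∀ (V : Type) [AddCommGroup V]
    [Module K V] [Module k V] [IsScalarTower k K V] [FiniteDimensional K V] (E : Pair k x V),
    E.IsBundle → finrank K V = n → (colon D E).deg = E.deg - n * D.deg := by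
  induction n with
  | zero =>
    intro V _ _ _ _ _ E hE hn
    rw [Z_deg_subsingleton hn, Z_deg_subsingleton hn]; simp
  | succ n ih =>
    intro V _ _ _ _ _ E hE hn
    obtain ⟨v, hv⟩ : ∃ v : V, v ≠ 0 := by
      have : Nontrivial V := (finrank_pos_iff (R := K)).1 (by omega)
      exact exists_ne 0
    set f : K →ₗ[K] V := LinearMap.toSpanSingleton K V v
    have hf : Function.Injective f := by
      rw [← LinearMap.ker_eq_bot, LinearMap.ker_toSpanSingleton K hv]
    set g : V →ₗ[K] V ⧸ LinearMap.range f := (LinearMap.range f).mkQ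
    have hg : Function.Surjective g := Submodule.mkQ_surjective _
    have hfg : LinearMap.range f = LinearMap.ker g := (Submodule.ker_mkQ _).symm
    have hq : finrank K (V ⧸ LinearMap.range f) = n := by
      have h1 := (LinearMap.range f).finrank_quotient_add_finrank
      have h2 := LinearMap.finrank_range_of_inj hf
      rw [h2, finrank_self] at h1
      omega
    have e1 := deg_exact E hE f g hf hg hfg
    have e2 := deg_exact (colon D E) (isBundle_colon D E hD hE) f g hf hg hfg
    rw [Z_colon_comap, Z_colon_map D hD, Z_deg_line D _ hD (isBundle_comap E hE f hf),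
      ih _ (E.map g) (isBundle_map E hE g hg) hq] at e2
    rw [e2, e1]
    push_cast
    ring

theorem deg_colon (D : Pair k x K) (E : Pair k x V) (hD : D.IsBundle) (hE : E.IsBundle) :
    (colon D E).deg = E.deg - finrank K V * D.deg :=
  Z_deg_aux D hD _ V E hE rfl

theorem Z_unit_colon (E : Pair k x V) : colon (unit k x) E = E := by
  apply Pair.ext
  · apply le_antisymm
    · intro v hv
      have := hv 1 (Submodule.one_le.1 le_rfl)
      rwa [one_smul] at this
    · intro v hv d hd
      exact mul_mem_one_smul hd hv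
  · apply le_antisymm
    · intro v hv
      have := hv 1 (Submodule.one_le.1 le_rfl)
      rwa [one_smul] at this
    · intro v hv d hd
      exact mul_mem_one_smul hd hv

theorem h1_line (KC : Pair k x K) (hK : IsCanonical KC) (D : Pair k x K) (hD : D.IsBundle) :
    D.h1 = (colon D KC).h0 := by
  rw [← (hK.dual K D hD).2]
  unfold h0
  let e : (K →ₗ[K] K) ≃ₗ[k] K := (LinearMap.ringLmapEquivSelf K K K).restrictScalars k
  have h : (D.Hom KC).map e.toLinearMap = (colon D KC).H0 := by
    ext a
    constructor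
    · rintro ⟨f, hf, rfl⟩
      refine ⟨fun d hd => ?_, fun d hd => ?_⟩
      · have := hf.1 d hd
        change d • f 1 ∈ KC.L0
        rwa [← map_smul, smul_eq_mul, mul_one]
      · have := hf.2 d hd
        change d • f 1 ∈ KC.L1
        rwa [← map_smul, smul_eq_mul, mul_one]
    · rintro ⟨h0, h1⟩
      refine ⟨e.symm a, ⟨fun d hd => ?_, fun d hd => ?_⟩, by simp⟩
      · have h2 : (e.symm a) d = d • a := by
          rw [show d = d • (1 : K) by simp, map_smul]
          change d • (e (e.symm a)) = _
          simp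
        rw [h2]; exact h0 d hd
      · have h2 : (e.symm a) d = d • a := by
          rw [show d = d • (1 : K) by simp, map_smul]
          change d • (e (e.symm a)) = _
          simp
        rw [h2]; exact h1 d hd
  rw [← h]
  exact (LinearEquiv.finrank_map_eq e (D.Hom KC)).symm

theorem canon_deg (KC : Pair k x K) (hK : IsCanonical KC) :
    KC.deg = 2 * (genus k x : ℤ) - 2 ∧ KC.h0 = genus k x ∧ KC.h1 = 1 := by
  have h1 : KC.h0 = genus k x := by
    have := h1_line KC hK (unit k x) isBundle_unit
    rw [Z_unit_colon] at this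
    exact this.symm
  have h2 : KC.h1 = 1 := by
    rw [h1_line KC hK KC hK.bundle, colon_self KC hK.bundle, h0_unit]
  refine ⟨?_, h1, h2⟩
  have h3 := chi_eq KC
  unfold chi at h3
  rw [h1, h2, finrank_self] at h3
  push_cast at h3
  linarith

end Pair

end Pool.Agent.MP_b814b1_ag
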