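import Pool.Agent.MP_b814b1_ag.Coh2
import Pool.Agent.MP_b814b1_ag.Canon
import Pool.Agent.MP_b814b1_ag.Bundle
import Pool.Agent.MP_b814b1_ag.Steps
import Pool.Agent.MP_b814b1_ag.Colon

/-!
# MP_b814b1_ag, module F: global generation and multiplication maps
-/

open Polynomial Module
open scoped Topology

noncomputable section

namespace Pool.Agent.MP_b814b1_ag

variable {k K : Type} [Field k] [IsAlgClosed k] [CharZero k] [Field K] [Algebra k K] {x : K}
  [IsCurve k x]
variable {V : Type} [AddCommGroup V] [Module K V] [Module k V] [IsScalarTower k K V]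
  [FiniteDimensional K V]
variable {V' : Type} [AddCommGroup V'] [Module K V'] [Module k V'] [IsScalarTower k K V']
  [FiniteDimensional K V']
variable {V'' : Type} [AddCommGroup V''] [Module K V''] [Module k V''] [IsScalarTower k K V'']
  [FiniteDimensional K V'']

namespace Pair

namespace MultAux

theorem x_ne (k : Type) {K : Type} [Field k] [Field K] [Algebra k K] (x : K) [h : IsCurve k x] :
    x ≠ 0 := by
  intro h0
  exact h.trans ⟨Polynomial.X, Polynomial.X_ne_zero, by rw [Polynomial.aeval_X, h0]⟩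

omit [IsAlgClosed k] [CharZero k] [IsCurve k x] in
theorem mem_unit_L0 {a : K} : a ∈ (unit k x).L0 ↔ a ∈ R0 k x := by
  change a ∈ (1 : Submodule (R0 k x) K) ↔ _
  rw [Submodule.mem_one]
  exact ⟨by rintro ⟨y, rfl⟩; exact y.2, fun h => ⟨⟨a, h⟩, rfl⟩⟩

omit [IsAlgClosed k] [CharZero k] [IsCurve k x] in
theorem mem_unit_L1 {a : K} : a ∈ (unit k x).L1 ↔ a ∈ R1 k x := by
  change a ∈ (1 : Submodule (R1 k x) K) ↔ _
  rw [Submodule.mem_one]
  exact ⟨by rintro ⟨y, rfl⟩; exact y.2, fun h => ⟨⟨a, h⟩, rfl⟩⟩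

omit [IsAlgClosed k] [CharZero k] [IsCurve k x] in
theorem mem_triv_L0 {ι : Type} {a : ι → K} : a ∈ (triv k x ι).L0 ↔ ∀ i, a i ∈ R0 k x := by
  change a ∈ Submodule.pi Set.univ (fun _ => (1 : Submodule (R0 k x) K)) ↔ _
  rw [Submodule.mem_pi]
  exact ⟨fun h i => mem_unit_L0.1 (h i trivial), fun h i _ => mem_unit_L0.2 (h i)⟩

omit [IsAlgClosed k] [CharZero k] [IsCurve k x] in
theorem mem_triv_L1 {ι : Type} {a : ι → K} : a ∈ (triv k x ι).L1 ↔ ∀ i, a i ∈ R1 k x := by
  change a ∈ Submodule.pi Set.univ (fun _ => (1 : Submodule (R1 k x) K)) ↔ _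
  rw [Submodule.mem_pi]
  exact ⟨fun h i => mem_unit_L1.1 (h i trivial), fun h i _ => mem_unit_L1.2 (h i)⟩

omit [IsAlgClosed k] [CharZero k] [IsCurve k x] [Module k V] [IsScalarTower k K V]
  [FiniteDimensional K V] in
theorem mem_twist_L1 (E : Pair k x V) (m : ℕ) (v : V) :
    v ∈ (E.twist m).L1 ↔ (x⁻¹) ^ m • v ∈ E.L1 := Iff.rfl

omit [IsAlgClosed k] [CharZero k] [IsCurve k x] [FiniteDimensional K V] in
theorem mem_H0 (E : Pair k x V) (v : V) : v ∈ E.H0 ↔ v ∈ E.L0 ∧ v ∈ E.L1 := Iff.rfl

omit [IsAlgClosed k] [CharZero k] [IsCurve k x] [Module k V] [IsScalarTower k K V]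
  [FiniteDimensional K V] in
theorem smul_mem0 (E : Pair k x V) {a : K} {v : V} (ha : a ∈ R0 k x) (hv : v ∈ E.L0) :
    a • v ∈ E.L0 := E.L0.smul_mem ⟨a, ha⟩ hv

omit [IsAlgClosed k] [CharZero k] [IsCurve k x] [Module k V] [IsScalarTower k K V]
  [FiniteDimensional K V] in
theorem smul_mem1 (E : Pair k x V) {a : K} {v : V} (ha : a ∈ R1 k x) (hv : v ∈ E.L1) :
    a • v ∈ E.L1 := E.L1.smul_mem ⟨a, ha⟩ hv

omit [IsAlgClosed k] [CharZero k] [IsCurve k x] in
theorem mem_twistunit {m : ℕ} {a : K} :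
    a ∈ ((unit k x).twist m).H0 ↔ a ∈ R0 k x ∧ (x⁻¹) ^ m * a ∈ R1 k x := by
  rw [mem_H0, mem_twist_L1, mem_unit_L1, smul_eq_mul]
  exact and_congr_left fun _ => mem_unit_L0

omit [IsAlgClosed k] [CharZero k] [IsCurve k x] [FiniteDimensional K V] in
theorem mul_mem_H0 (E : Pair k x V) {m : ℕ} {a : K} (ha : a ∈ ((unit k x).twist m).H0) {v : V}
    (hv : v ∈ E.H0) : a • v ∈ (E.twist m).H0 := by
  rw [mem_twistunit] at ha
  refine ⟨smul_mem0 E ha.1 hv.1, ?_⟩
  change (x⁻¹) ^ m • (a • v) ∈ E.L1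
  rw [← mul_smul]
  exact smul_mem1 E ha.2 hv.2

/-- The multiplication map. -/
def mulMap {h : ℕ} (E : Pair k x V) (m : ℕ) (f : Fin h → K)
    (hf : ∀ i, f i ∈ ((unit k x).twist m).H0) : (Fin h → E.H0) →ₗ[k] (E.twist m).H0 where
  toFun s := ⟨∑ i, f i • (s i : V), sum_mem fun i _ => mul_mem_H0 E (hf i) (s i).2⟩
  map_add' s t := by
    apply Subtype.ext
    simp only [Pi.add_apply, Submodule.coe_add, smul_add, Finset.sum_add_distrib]
  map_smul' c s := by
    apply Subtype.ext
    simp only [Pi.smul_apply, Submodule.coe_smul, RingHom.id_apply, Finset.smul_sum]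
    exact Finset.sum_congr rfl fun i _ => smul_comm _ _ _

/-- The kernel of the multiplication map is the space of relations. -/
def kerEquiv {h : ℕ} (E : Pair k x V) (m : ℕ) (f : Fin h → K)
    (hf : ∀ i, f i ∈ ((unit k x).twist m).H0) :
    LinearMap.ker (mulMap E m f hf) ≃ₗ[k] rel f E where
  toFun s := ⟨fun i => (s.1 i : V), fun i => (s.1 i).2, congrArg Subtype.val s.2⟩
  invFun t := ⟨fun i => ⟨t.1 i, t.2.1 i⟩, Subtype.ext t.2.2⟩
  left_inv _ := rfl
  right_inv _ := rfl
  map_add' _ _ := rfl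
  map_smul' _ _ := rfl

theorem rank_nullity {h : ℕ} (E : Pair k x V) (hE : E.IsBundle) (m : ℕ) (f : Fin h → K)
    (hf : ∀ i, f i ∈ ((unit k x).twist m).H0) :
    finrank k (LinearMap.range (mulMap E m f hf)) + finrank k (rel f E) = h * E.h0 := by
  have := finite_H0 E hE
  have h1 := LinearMap.finrank_range_add_finrank_ker (mulMap E m f hf)
  rw [LinearEquiv.finrank_eq (kerEquiv E m f hf), Module.finrank_pi_fintype] at h1
  rw [h1]
  simp [h0]

omit [IsAlgClosed k] [CharZero k] [IsCurve k x] in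
theorem basis_mem {h : ℕ} {m : ℕ} {f : Fin h → K}
    (hf : IsBasisH0 f ((unit k x).twist m)) (i : Fin h) : f i ∈ ((unit k x).twist m).H0 := by
  rw [← hf.span]
  exact Submodule.subset_span ⟨i, rfl⟩

omit [IsAlgClosed k] [CharZero k] [IsCurve k x] [FiniteDimensional K V] in
theorem coeff0 (E : Pair k x V) (hGG : E.GG) {v : ℕ} (b : Basis (Fin v) k E.H0) {z : V}
    (hz : z ∈ E.L0) : ∃ c : Fin v → R0 k x, ∑ i, c i • (b i : V) = z := by
  rw [← Submodule.mem_span_range_iff_exists_fun]
  rw [← hGG.1] at hz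
  refine Submodule.span_le.2 ?_ hz
  rintro w ⟨hw0, hw1⟩
  have hr := b.sum_repr ⟨w, hw0, hw1⟩
  have hr' : ∑ i, b.repr ⟨w, hw0, hw1⟩ i • (b i : V) = w := by
    have := congrArg Subtype.val hr
    rwa [Submodule.coe_sum] at this
  rw [← hr']
  refine sum_mem fun i _ => ?_
  rw [← algebraMap_smul (R0 k x) (b.repr ⟨w, hw0, hw1⟩ i) (b i : V)]
  exact Submodule.smul_mem _ _ (Submodule.subset_span ⟨i, rfl⟩)

omit [IsAlgClosed k] [CharZero k] [IsCurve k x] [FiniteDimensional K V] in
theorem coeff1 (E : Pair k x V) (hGG : E.GG) {v : ℕ} (b : Basis (Fin v) k E.H0) {z : V}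
    (hz : z ∈ E.L1) : ∃ c : Fin v → R1 k x, ∑ i, c i • (b i : V) = z := by
  rw [← Submodule.mem_span_range_iff_exists_fun]
  rw [← hGG.2] at hz
  refine Submodule.span_le.2 ?_ hz
  rintro w ⟨hw0, hw1⟩
  have hr := b.sum_repr ⟨w, hw0, hw1⟩
  have hr' : ∑ i, b.repr ⟨w, hw0, hw1⟩ i • (b i : V) = w := by
    have := congrArg Subtype.val hr
    rwa [Submodule.coe_sum] at this
  rw [← hr']
  refine sum_mem fun i _ => ?_
  rw [← algebraMap_smul (R1 k x) (b.repr ⟨w, hw0, hw1⟩ i) (b i : V)]
  exact Submodule.smul_mem _ _ (Submodule.subset_span ⟨i, rfl⟩)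

end MultAux

open MultAux

theorem gg_forward (E : Pair k x V) (hE : E.IsBundle) (hGG : E.GG) :
    ∃ m0 : ℕ, ∀ m ≥ m0, ∀ (h : ℕ) (f : Fin h → K), IsBasisH0 f ((unit k x).twist m) →
      finrank k (rel f E) + (E.twist m).h0 = h * E.h0 := by
  have := finite_H0 E hE
  set v := finrank k E.H0 with hv
  let b : Basis (Fin v) k E.H0 := Module.finBasis k E.H0
  let s : Fin v → V := fun i => (b i : V)
  have hx : x ≠ 0 := x_ne k x
  have hM : (kerBundle (k := k) (x := x) s).IsBundle :=
    isBundle_comap _ (isBundle_triv (Fin v)) _ (Submodule.subtype_injective _)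
  obtain ⟨m0, hm0⟩ := twist_vanish _ hM
  refine ⟨m0, fun m hm h f hf => ?_⟩
  have hfm := basis_mem hf
  have hS : ((kerBundle (k := k) (x := x) s).twist m).S = ⊤ := by
    have := finite_H1 _ (isBundle_twist _ hM m)
    have h1 := hm0 m hm
    rw [Pair.h1, Module.finrank_zero_iff] at h1
    exact Submodule.Quotient.subsingleton_iff.1 h1
  have hsurj : Function.Surjective (mulMap E m f hfm) := by
    rintro ⟨z, hz0, hz1⟩
    obtain ⟨a, ha⟩ := coeff0 E hGG b hz0
    obtain ⟨c, hc⟩ := coeff1 E hGG b hz1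
    have hc' : ∑ i, (c i : K) • s i = (x⁻¹) ^ m • z := hc
    have ha' : ∑ i, (a i : K) • s i = z := ha
    have hw : (fun i => (a i : K) - x ^ m * (c i : K)) ∈
        LinearMap.ker (Fintype.linearCombination K s) := by
      rw [LinearMap.mem_ker, Fintype.linearCombination_apply]
      simp only [sub_smul, Finset.sum_sub_distrib, mul_smul]
      rw [ha', ← Finset.smul_sum, hc', ← mul_smul, ← mul_pow, mul_inv_cancel₀ hx, one_pow,
        one_smul, sub_self]
    have hwS : (⟨_, hw⟩ : LinearMap.ker (Fintype.linearCombination K s)) ∈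
        ((kerBundle (k := k) (x := x) s).twist m).S := by
      rw [hS]; trivial
    obtain ⟨p, hp, q, hq, hpq⟩ := Submodule.mem_sup.1 hwS
    have hp0 : ∀ i, (p : Fin v → K) i ∈ R0 k x := mem_triv_L0.1 hp
    have hq1 : ∀ i, (x⁻¹) ^ m * (q : Fin v → K) i ∈ R1 k x := mem_triv_L1.1 hq
    have hpq' : ∀ i, (p : Fin v → K) i + (q : Fin v → K) i = (a i : K) - x ^ m * (c i : K) :=
      fun i => congrFun (congrArg Subtype.val hpq) i
    have hpz : ∑ i, (p : Fin v → K) i • s i = 0 := p.2
    have hg : ∀ i, (a i : K) - (p : Fin v → K) i ∈ ((unit k x).twist m).H0 := by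
      intro i
      rw [mem_twistunit]
      refine ⟨sub_mem (a i).2 (hp0 i), ?_⟩
      have : (x⁻¹) ^ m * ((a i : K) - (p : Fin v → K) i) =
          (c i : K) + (x⁻¹) ^ m * (q : Fin v → K) i := by
        have h1 : (a i : K) - (p : Fin v → K) i = x ^ m * (c i : K) + (q : Fin v → K) i := by
          linear_combination -(hpq' i)
        rw [h1, mul_add, ← mul_assoc, ← mul_pow, inv_mul_cancel₀ hx, one_pow, one_mul]
      rw [this]
      exact add_mem (c i).2 (hq1 i)
    have hg' : ∀ i, ∃ d : Fin h → k, ∑ j, d j • f j = (a i : K) - (p : Fin v → K) i := by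
      intro i
      rw [← Submodule.mem_span_range_iff_exists_fun, hf.span]
      exact hg i
    choose d hd using hg'
    refine ⟨fun j => ∑ i, d i j • b i, Subtype.ext ?_⟩
    change ∑ j, f j • ((∑ i, d i j • b i : E.H0) : V) = z
    have h2 : ∀ j, f j • ((∑ i, d i j • b i : E.H0) : V) = ∑ i, (d i j • f j) • s i := by
      intro j
      rw [Submodule.coe_sum, Finset.smul_sum]
      refine Finset.sum_congr rfl fun i _ => ?_
      rw [Submodule.coe_smul, smul_comm, smul_assoc]
    rw [Finset.sum_congr rfl fun j _ => h2 j, Finset.sum_comm]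
    have h3 : ∀ i, ∑ j, (d i j • f j) • s i = ((a i : K) - (p : Fin v → K) i) • s i := by
      intro i
      rw [← Finset.sum_smul, hd i]
    rw [Finset.sum_congr rfl fun i _ => h3 i]
    simp only [sub_smul, Finset.sum_sub_distrib]
    rw [ha', hpz, sub_zero]
  have hrn := rank_nullity E hE m f hfm
  rw [LinearMap.range_eq_top.2 hsurj, finrank_top] at hrn
  rw [← hrn, add_comm]
  rfl

theorem gg_backward (E : Pair k x V) (hE : E.IsBundle) (m : ℕ) (hG : (E.twist m).GG)
    (h : ℕ) (f : Fin h → K) (hf : IsBasisH0 f ((unit k x).twist m))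
    (hle : finrank k (rel f E) + (E.twist m).h0 ≤ h * E.h0) : E.GG := by
  have hx : x ≠ 0 := x_ne k x
  have hfm := basis_mem hf
  have := finite_H0 _ (isBundle_twist E hE m)
  have hrn := rank_nullity E hE m f hfm
  have hsurj : Function.Surjective (mulMap E m f hfm) := by
    rw [← LinearMap.range_eq_top]
    apply Submodule.eq_top_of_finrank_eq
    refine le_antisymm (Submodule.finrank_le _) ?_
    change (E.twist m).h0 ≤ _
    omega
  constructor
  · refine le_antisymm (Submodule.span_le.2 fun w hw => hw.1) fun z hz => ?_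
    have hz' : z ∈ (E.twist m).L0 := hz
    rw [← hG.1] at hz'
    refine Submodule.span_le.2 ?_ hz'
    rintro w ⟨hw0, hw1⟩
    obtain ⟨t, ht⟩ := hsurj ⟨w, hw0, hw1⟩
    have ht' : ∑ i, f i • (t i : V) = w := congrArg Subtype.val ht
    rw [← ht']
    refine sum_mem fun i _ => ?_
    exact Submodule.smul_mem _ (⟨f i, (mem_twistunit.1 (hfm i)).1⟩ : R0 k x)
      (Submodule.subset_span (t i).2)
  · refine le_antisymm (Submodule.span_le.2 fun w hw => hw.2) fun z hz => ?_
    have hz' : x ^ m • z ∈ (E.twist m).L1 := by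
      rw [mem_twist_L1, ← mul_smul, ← mul_pow, inv_mul_cancel₀ hx, one_pow, one_smul]
      exact hz
    have key : ∀ w ∈ (E.twist m).L1, (x⁻¹) ^ m • w ∈
        Submodule.span (R1 k x) ((E.L0 : Set V) ∩ E.L1) := by
      intro w hw
      rw [← hG.2] at hw
      induction hw using Submodule.span_induction with
      | mem w hw =>
        obtain ⟨t, ht⟩ := hsurj ⟨w, hw.1, hw.2⟩
        have ht' : ∑ i, f i • (t i : V) = w := congrArg Subtype.val ht
        rw [← ht', Finset.smul_sum]
        refine sum_mem fun i _ => ?_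
        rw [← mul_smul]
        exact Submodule.smul_mem _ (⟨_, (mem_twistunit.1 (hfm i)).2⟩ : R1 k x)
          (Submodule.subset_span (t i).2)
      | zero => rw [smul_zero]; exact zero_mem _
      | add w w' _ _ h h' => rw [smul_add]; exact add_mem h h'
      | smul c w _ h =>
        rw [smul_comm]
        exact Submodule.smul_mem _ _ h
    have := key _ hz'
    rwa [← mul_smul, ← mul_pow, inv_mul_cancel₀ hx, one_pow, one_smul] at this

namespace MultAux

omit [IsAlgClosed k] [CharZero k] [Module k V] [IsScalarTower k K V] [FiniteDimensional K V]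
  [Module k V'] [IsScalarTower k K V'] [FiniteDimensional K V'] in
theorem twist_map (E : Pair k x V) (m : ℕ) (g : V →ₗ[K] V') :
    (E.twist m).map g = (E.map g).twist m := by
  have hx : x ≠ 0 := x_ne k x
  refine Pair.ext rfl ?_
  ext a
  constructor
  · rintro ⟨v, hv, rfl⟩
    refine ⟨(x⁻¹) ^ m • v, hv, ?_⟩
    change g ((x⁻¹) ^ m • v) = (x⁻¹) ^ m • g v
    exact map_smul _ _ _
  · rintro ⟨w, hw, hwa⟩
    have hwa' : g w = (x⁻¹) ^ m • a := hwa
    refine ⟨x ^ m • w, ?_, ?_⟩
    · change (x⁻¹) ^ m • (x ^ m • w) ∈ E.L1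
      rw [← mul_smul, ← mul_pow, inv_mul_cancel₀ hx, one_pow, one_smul]
      exact hw
    · change g (x ^ m • w) = a
      rw [map_smul, hwa', ← mul_smul, ← mul_pow, mul_inv_cancel₀ hx, one_pow, one_smul]

theorem deg_map_ge (E F : Pair k x V) (hE : E.IsBundle) (hF : F.IsBundle) (h : F ≤ E)
    (g : V →ₗ[K] V') (hg : Function.Surjective g) :
    (E.map g).deg - (E.deg - F.deg) ≤ (F.map g).deg := by
  have hr : LinearMap.range (LinearMap.ker g).subtype = LinearMap.ker g :=
    Submodule.range_subtype _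
  have h1 := deg_exact E hE _ g (Submodule.subtype_injective _) hg hr
  have h2 := deg_exact F hF _ g (Submodule.subtype_injective _) hg hr
  have h3 := (deg_le (E.comap (LinearMap.ker g).subtype) (F.comap (LinearMap.ker g).subtype)
    (isBundle_comap E hE _ (Submodule.subtype_injective _))
    (isBundle_comap F hF _ (Submodule.subtype_injective _))
    ⟨fun v hv => h.1 hv, fun v hv => h.2 hv⟩).1
  linarith

theorem vanish (hg3 : genus k x = 3) (E : Pair k x V) (hE : E.IsBundle)
    (hd : ∀ g : V →ₗ[K] K, Function.Surjective g → 4 < (E.map g).deg) : E.h1 = 0 := by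
  obtain ⟨KC, hK⟩ := exists_canonical k x
  have hK4 : KC.deg = 4 := by
    rw [(canon_deg KC hK).1, hg3]; norm_num
  have hbot : E.Hom KC = ⊥ := by
    rw [eq_bot_iff]
    intro g hg
    by_contra hne
    have hne' : g ≠ 0 := hne
    have hs : Function.Surjective g := LinearMap.surjective_of_ne_zero hne'
    have hle : E.map g ≤ KC := by
      constructor
      · rintro _ ⟨v, hv, rfl⟩
        exact hg.1 v hv
      · rintro _ ⟨v, hv, rfl⟩
        exact hg.2 v hv
    have h1 := (deg_le KC (E.map g) hK.bundle (isBundle_map E hE g hs) hle).1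
    have h2 := hd g hs
    linarith
  rw [← (hK.dual V E hE).2, hbot, finrank_bot]

end MultAux

theorem h0_twist_stable (hg3 : genus k x = 3) (n : ℕ) (hn : 0 < n)
    (htw : ∀ (V : Type) [AddCommGroup V] [Module K V] [Module k V]
      [IsScalarTower k K V] [FiniteDimensional K V] (E : Pair k x V), E.IsBundle → ∀ m : ℕ,
      (E.twist m).chi = E.chi + m * n * finrank K V)
    (E : Pair k x V) (hE : E.IsBundle) (hst : E.Stable) (hr : finrank K V = 4)
    (hd : E.deg = 9) (m : ℕ) (hm : 3 ≤ m) :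
    (E.twist m).h0 = 1 + 4 * (m * n) ∧ (E.twist m).GG := by
  have hmn : 3 ≤ m * n := by nlinarith
  have hmn' : (3 : ℤ) ≤ (m : ℤ) * n := by exact_mod_cast hmn
  have hEm := isBundle_twist E hE m
  have hchi := chi_eq E
  rw [hr, hd, hg3] at hchi
  have hchim := htw V E hE m
  rw [hr] at hchim
  have hdegm := chi_eq (E.twist m)
  rw [hr, hg3] at hdegm
  push_cast at hchi hchim hdegm
  -- quotient line bundles
  have hq : ∀ g : V →ₗ[K] K, Function.Surjective g → 3 + (m : ℤ) * n ≤
      ((E.twist m).map g).deg := by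
    intro g hg
    rw [twist_map]
    have hr : LinearMap.range (LinearMap.ker g).subtype = LinearMap.ker g :=
      Submodule.range_subtype _
    have h1 := deg_exact E hE _ g (Submodule.subtype_injective _) hg hr
    have hrk : finrank K (LinearMap.ker g) = 3 := by
      have := LinearMap.finrank_range_add_finrank_ker g
      rw [LinearMap.range_eq_top.2 hg, finrank_top, finrank_self] at this
      omega
    have hb : LinearMap.ker g ≠ ⊥ := by
      intro h
      rw [h, finrank_bot] at hrk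
      omega
    have ht : LinearMap.ker g ≠ ⊤ := by
      intro h
      rw [h, finrank_top] at hrk
      omega
    have hs := hst _ hb ht
    rw [hrk] at hs
    have h2 := htw K (E.map g) (isBundle_map E hE g hg) m
    have h3 := chi_eq (E.map g)
    have h4 := chi_eq ((E.map g).twist m)
    rw [finrank_self] at h2 h3 h4
    push_cast at h2 h3 h4
    have h5 : (E.sub (LinearMap.ker g)).deg = (E.comap (LinearMap.ker g).subtype).deg := rfl
    rw [h5, hd] at hs
    rw [hd] at h1
    push_cast at hs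
    have h6 : (finrank K V : ℤ) = 4 := by
      rw [‹finrank K V = 4›]; rfl
    rw [h6] at hs
    linarith
  have hv : (E.twist m).h1 = 0 := vanish hg3 _ hEm fun g hg => by
    have := hq g hg
    linarith
  have hc : (E.twist m).chi = ((E.twist m).h0 : ℤ) - (E.twist m).h1 := rfl
  rw [hv] at hc
  push_cast at hc
  refine ⟨?_, ?_⟩
  · have : ((E.twist m).h0 : ℤ) = 1 + 4 * (m * n) := by linarith
    exact_mod_cast this
  · refine gg_of _ hEm fun E' hE' hle hd' => ?_
    have hv' : E'.h1 = 0 := vanish hg3 _ hE' fun g hg => by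
      have h1 := hq g hg
      have h2 := deg_map_ge _ _ hEm hE' hle g hg
      linarith
    have h3 := chi_eq E'
    rw [hr, hg3] at h3
    push_cast at h3
    have hc' : E'.chi = (E'.h0 : ℤ) - E'.h1 := rfl
    rw [hv'] at hc'
    push_cast at hc'
    have : (E'.h0 : ℤ) < (E.twist m).h0 := by linarith
    exact_mod_cast this

end Pair

end Pool.Agent.MP_b814b1_ag
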