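import Mathlib

/-!
# MP_b814b1_ag: vector bundles on a smooth projective curve, stability, Brill-Noether loci

Let `k` be an algebraically closed field of characteristic zero (the complex numbers in the final
theorem).  A smooth projective curve `C` over `k` is given by its function field `K` together with
a nonconstant function `x`; thus `K` is a finite extension of the field `k(x)`, `x` transcendental.
Every smooth projective connected curve arises in this way.

* `R0 k x`: the ring of functions regular where `x` is finite (integral closure of `k[x]` in `K`);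
  `R1 k x`: the semilocal ring of the poles of `x` (integral closure in `K` of the local ring of
  the projective line at infinity).
* A vector bundle `E` of rank `r` on `C` is given by its generic fibre `V`, an `r`-dimensional
  `K`-vector space, and its lattices `L0` (sections over the open set where `x` is finite; a
  finitely generated `R0`-module spanning `V`) and `L1` (germs of sections at the poles of `x`; a
  finitely generated `R1`-module spanning `V`); the two lattices are arbitrary.
* `H^0(E) = L0 ∩ L1`, `H^1(E) = V / (L0 + L1)`, `chi = h^0 - h^1`, `g = h^1(O)` and, by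
  Riemann-Roch, `deg E = chi(E) - rk(E) chi(O)`.
* Subbundles of `E` correspond to `K`-subspaces `W` of `V`, with lattices `L0 ∩ W`, `L1 ∩ W`.
-/

open Polynomial Module
open scoped Topology

noncomputable section

namespace Pool.Agent.MP_b814b1_ag

section Rings

variable (k : Type) {K : Type} [Field k] [Field K] [Algebra k K] (x : K)

/-- The ring of functions regular at all points where `x` is finite: the integral closure of
`k[x]` in `K`. -/
def R0 : Subalgebra k K := (integralClosure (Algebra.adjoin k {x}) K).restrictScalars k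

/-- The local ring of the projective line at infinity: quotients `f(x)/g(x)` with
`deg f <= deg g`. -/
def Oinf : Subalgebra k K where
  carrier := {a | ∃ f g : k[X], g ≠ 0 ∧ f.natDegree ≤ g.natDegree ∧ a * aeval x g = aeval x f}
  mul_mem' := by
    rintro a b ⟨f, g, hg, hd, h⟩ ⟨f', g', hg', hd', h'⟩
    refine ⟨f * f', g * g', mul_ne_zero hg hg', ?_, ?_⟩
    · rw [natDegree_mul hg hg']
      exact natDegree_mul_le.trans (add_le_add hd hd')
    · rw [map_mul, map_mul, ← h, ← h']; ring
  add_mem' := by
    rintro a b ⟨f, g, hg, hd, h⟩ ⟨f', g', hg', hd', h'⟩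
    refine ⟨f * g' + f' * g, g * g', mul_ne_zero hg hg', ?_, ?_⟩
    · rw [natDegree_mul hg hg']
      refine (natDegree_add_le _ _).trans (max_le ?_ ?_)
      · exact natDegree_mul_le.trans (add_le_add hd le_rfl)
      · refine natDegree_mul_le.trans ?_
        omega
    · rw [map_mul, map_add, map_mul, map_mul, ← h, ← h']; ring
  algebraMap_mem' := fun c => ⟨C c, 1, one_ne_zero, by simp, by simp⟩

/-- The ring of functions regular at all points where `x` has a pole: the integral closure of
`Oinf` in `K`. -/
def R1 : Subalgebra k K := (integralClosure (Oinf k x) K).restrictScalars k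

/-- `K` is the function field of a smooth projective curve over `k` and `x` is a nonconstant
function. -/
class IsCurve : Prop where
  trans : Transcendental k x
  fin : FiniteDimensional (IntermediateField.adjoin k {x}) K

end Rings

/-- A pair of lattices (a vector bundle, when `IsBundle` holds). -/
@[ext]
structure Pair (k : Type) {K : Type} [Field k] [Field K] [Algebra k K] (x : K)
    (V : Type) [AddCommGroup V] [Module K V] where
  L0 : Submodule (R0 k x) V
  L1 : Submodule (R1 k x) V

namespace Pair

variable {k K : Type} [Field k] [Field K] [Algebra k K] {x : K}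
variable {V : Type} [AddCommGroup V] [Module K V]
variable {V' : Type} [AddCommGroup V'] [Module K V']

/-- Vector bundles. -/
structure IsBundle (E : Pair k x V) : Prop where
  fg0 : E.L0.FG
  fg1 : E.L1.FG
  span0 : Submodule.span K (E.L0 : Set V) = ⊤
  span1 : Submodule.span K (E.L1 : Set V) = ⊤

/-- Inclusion of pairs of lattices in the same space. -/
instance : LE (Pair k x V) := ⟨fun E E' => E.L0 ≤ E'.L0 ∧ E.L1 ≤ E'.L1⟩

/-- Inverse image under a `K`-linear map. -/
def comap (f : V →ₗ[K] V') (E : Pair k x V') : Pair k x V where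
  L0 := E.L0.comap (f.restrictScalars (R0 k x))
  L1 := E.L1.comap (f.restrictScalars (R1 k x))

/-- Image under a `K`-linear map. -/
def map (f : V →ₗ[K] V') (E : Pair k x V) : Pair k x V' where
  L0 := E.L0.map (f.restrictScalars (R0 k x))
  L1 := E.L1.map (f.restrictScalars (R1 k x))

/-- The subbundle with generic fibre `W`. -/
def sub (E : Pair k x V) (W : Submodule K V) : Pair k x W := E.comap W.subtype

/-- The quotient bundle with generic fibre `V / W`. -/
def quot (E : Pair k x V) (W : Submodule K V) : Pair k x (V ⧸ W) := E.map W.mkQ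

/-- Isomorphism of vector bundles. -/
def Iso (E : Pair k x V) (E' : Pair k x V') : Prop := ∃ f : V ≃ₗ[K] V', E.map f.toLinearMap = E'

/-- The trivial line bundle `O`. -/
def unit (k : Type) {K : Type} [Field k] [Field K] [Algebra k K] (x : K) : Pair k x K where
  L0 := (1 : Submodule (R0 k x) K)
  L1 := (1 : Submodule (R1 k x) K)

/-- The trivial bundle of rank `n`. -/
def triv (k : Type) {K : Type} [Field k] [Field K] [Algebra k K] (x : K) (ι : Type) :
    Pair k x (ι → K) where
  L0 := Submodule.pi Set.univ (fun _ => (1 : Submodule (R0 k x) K))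
  L1 := Submodule.pi Set.univ (fun _ => (1 : Submodule (R1 k x) K))

/-- The twist `E(m)` by `m` times the polar divisor of `x`. -/
def twist (m : ℕ) (E : Pair k x V) : Pair k x V where
  L0 := E.L0
  L1 := E.L1.comap (((x⁻¹) ^ m • (LinearMap.id : V →ₗ[K] V)).restrictScalars (R1 k x))

/-- The sections of `E` generate `E`. -/
def GG [Module k V] [IsScalarTower k K V] (E : Pair k x V) : Prop :=
  Submodule.span (R0 k x) ((E.L0 : Set V) ∩ E.L1) = E.L0 ∧
  Submodule.span (R1 k x) ((E.L0 : Set V) ∩ E.L1) = E.L1

variable [Module k V] [IsScalarTower k K V] [Module k V'] [IsScalarTower k K V'] {v : ℕ}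

/-- The space `H^0(E)` of global sections. -/
def H0 (E : Pair k x V) : Submodule k V := E.L0.restrictScalars k ⊓ E.L1.restrictScalars k

/-- `L0 + L1`; the quotient of `V` by this space is `H^1(E)`. -/
def S (E : Pair k x V) : Submodule k V := E.L0.restrictScalars k ⊔ E.L1.restrictScalars k

/-- `h^0(E)`. -/
def h0 (E : Pair k x V) : ℕ := finrank k E.H0

/-- `h^1(E)`. -/
def h1 (E : Pair k x V) : ℕ := finrank k (V ⧸ E.S)

/-- The Euler characteristic. -/
def chi (E : Pair k x V) : ℤ := (E.h0 : ℤ) - E.h1

/-- The degree (Riemann-Roch). -/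
def deg (E : Pair k x V) : ℤ := E.chi - finrank K V * (unit k x).chi

/-- Slope stability: every proper nonzero subbundle has smaller slope. -/
def Stable (E : Pair k x V) : Prop :=
  ∀ W : Submodule K V, W ≠ ⊥ → W ≠ ⊤ →
    (E.sub W).deg * (finrank K V : ℤ) < E.deg * (finrank K W : ℤ)

/-- Slope semistability. -/
def Semistable (E : Pair k x V) : Prop :=
  ∀ W : Submodule K V, W ≠ ⊥ → W ≠ ⊤ →
    (E.sub W).deg * (finrank K V : ℤ) ≤ E.deg * (finrank K W : ℤ)

/-- Homomorphisms of bundles. -/
def Hom (E : Pair k x V) (E' : Pair k x V') : Submodule k (V →ₗ[K] V') where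
  carrier := {f | (∀ v ∈ E.L0, f v ∈ E'.L0) ∧ (∀ v ∈ E.L1, f v ∈ E'.L1)}
  add_mem' := fun hf hg => ⟨fun v hv => add_mem (hf.1 v hv) (hg.1 v hv),
    fun v hv => add_mem (hf.2 v hv) (hg.2 v hv)⟩
  zero_mem' := ⟨fun _ _ => zero_mem _, fun _ _ => zero_mem _⟩
  smul_mem' := fun c _ hf => ⟨fun v hv => (E'.L0.restrictScalars k).smul_mem c (hf.1 v hv),
    fun v hv => (E'.L1.restrictScalars k).smul_mem c (hf.2 v hv)⟩

/-- The kernel of the map `K^v → V`, `c ↦ sum c_i s_i`. -/
abbrev relSpace (s : Fin v → V) : Submodule K (Fin v → K) :=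
  LinearMap.ker (Fintype.linearCombination K s)

/-- For sections `s_1, ..., s_v` of a bundle with generic fibre `V`, the kernel `M` of the
evaluation map `O^v → E`, `c ↦ sum c_i s_i`. -/
def kerBundle (s : Fin v → V) : Pair k x (relSpace (K := K) s) :=
  (triv k x (Fin v)).sub (relSpace s)

end Pair

/-- The genus of the curve. -/
def genus (k : Type) {K : Type} [Field k] [Field K] [Algebra k K] (x : K) : ℕ :=
  (Pair.unit k x).h1

/-- The curve has a `g^1_2`: a line bundle of degree 2 with two independent sections (for curves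
of genus at least 2 this says that the curve is hyperelliptic). -/
def HasG12 (k : Type) {K : Type} [Field k] [Field K] [Algebra k K] (x : K) : Prop :=
  ∃ L : Pair k x K, L.IsBundle ∧ L.deg = 2 ∧ 2 ≤ L.h0

section Moduli

variable (k : Type) {K : Type} [Field k] [Field K] [Algebra k K] (x : K)

/-- Stable vector bundles of rank `r` and degree `d`. -/
abbrev StBun (r : ℕ) (d : ℤ) : Type :=
  {E : Pair k x (Fin r → K) // E.IsBundle ∧ E.Stable ∧ E.deg = d}

variable {k x} {r : ℕ} {d : ℤ}

/-- Isomorphism of stable bundles. -/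
def StBun.Rel (E E' : StBun k x r d) : Prop := Pair.Iso E.1 E'.1

/-- `h^0(E)`. -/
abbrev StBun.h0 (E : StBun k x r d) : ℕ := E.1.h0

/-- `E` is globally generated. -/
abbrev StBun.GG (E : StBun k x r d) : Prop := E.1.GG

/-- `h^0(E) = v`, and for `V = H^0(E)` the kernel bundle `M_{E,V}` is not semistable (`s` runs
over the bases of `H^0(E)`). -/
def StBun.KernelUnstable (v : ℕ) (E : StBun k x r d) : Prop :=
  E.h0 = v ∧ ∀ s : Fin v → (Fin r → K), (∀ i, s i ∈ E.1.H0) → LinearIndependent k s →
    ¬ (Pair.kerBundle (k := k) (x := x) s).Semistable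

variable (k x)

/-- The moduli space `M(C,r,d)`: isomorphism classes of stable bundles of rank `r` and degree
`d`. -/
def Mod (r : ℕ) (d : ℤ) : Type := Quot (StBun.Rel (k := k) (x := x) (r := r) (d := d))

variable {k x}

/-- The point of the moduli space given by a stable bundle. -/
def Mod.mk (E : StBun k x r d) : Mod k x r d := Quot.mk _ E

/-- The Zariski topology on affine space: the open sets are the unions of the sets defined by the
non-vanishing of a polynomial. -/
abbrev zariski (k : Type) [Field k] (n : ℕ) : TopologicalSpace (Fin n → k) where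
  IsOpen O := ∃ S : Set (MvPolynomial (Fin n) k),
    ∀ t, t ∈ O ↔ ∃ p ∈ S, MvPolynomial.eval t p ≠ 0
  isOpen_univ := ⟨{1}, fun t => by simp⟩
  isOpen_inter := by
    rintro O P ⟨S, hS⟩ ⟨T, hT⟩
    refine ⟨{p | ∃ a ∈ S, ∃ b ∈ T, p = a * b}, fun t => ?_⟩
    rw [Set.mem_inter_iff, hS, hT]
    constructor
    · rintro ⟨⟨a, ha, ha'⟩, b, hb, hb'⟩
      exact ⟨a * b, ⟨a, ha, b, hb, rfl⟩, by rw [map_mul]; exact mul_ne_zero ha' hb'⟩
    · rintro ⟨_, ⟨a, ha, b, hb, rfl⟩, h⟩
      rw [map_mul] at h
      exact ⟨⟨a, ha, left_ne_zero_of_mul h⟩, b, hb, right_ne_zero_of_mul h⟩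
  isOpen_sUnion := by
    intro A hA
    choose! S hS using hA
    refine ⟨{p | ∃ Z ∈ A, p ∈ S Z}, fun t => ?_⟩
    constructor
    · rintro ⟨Z, hZ, ht⟩
      obtain ⟨p, hp, hp'⟩ := (hS Z hZ t).1 ht
      exact ⟨p, ⟨Z, hZ, hp⟩, hp'⟩
    · rintro ⟨p, ⟨Z, hZ, hp⟩, hp'⟩
      exact ⟨Z, hZ, (hS Z hZ t).2 ⟨p, hp, hp'⟩⟩

/-- The kernel of the matrix `sum_j t_j Psi_j` on `K^N`. -/
abbrev famSpace {n N M : ℕ} (Psi : Fin n → Matrix (Fin M) (Fin N) K) (t : Fin n → k) :
    Submodule K (Fin N → K) :=
  LinearMap.ker (Matrix.toLin' (∑ j, algebraMap k K (t j) • Psi j))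

/-- The member with parameter `t` of the algebraic family of bundles given by the kernels of the
homomorphisms `sum_j t_j Psi_j : O(m)^N → O(m')^M`, where the `Psi_j` are matrices with entries in
`K` (for `m'` large). -/
def fam {n N M : ℕ} (m : ℕ) (Psi : Fin n → Matrix (Fin M) (Fin N) K) (t : Fin n → k) :
    Pair k x (famSpace Psi t) :=
  ((Pair.triv k x (Fin N)).twist m).sub (famSpace Psi t)

/-- `E` is isomorphic to the member with parameter `t` of the family. -/
def StBun.IsMember {n N M : ℕ} (m : ℕ) (Psi : Fin n → Matrix (Fin M) (Fin N) K) (t : Fin n → k)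
    (E : StBun k x r d) : Prop :=
  Pair.Iso E.1 (fam (x := x) m Psi t)

/-- The open subsets of the moduli space in the Zariski topology: a set `U` is open if and only
if for every algebraic family the set of those parameters of stable bundles of rank `r` and
degree `d` whose bundle belongs to `U` is open in the set of all such parameters. -/
def Mod.Open (U : Set (Mod k x r d)) : Prop :=
  ∀ (n N M m : ℕ) (Psi : Fin n → Matrix (Fin M) (Fin N) K),
    ∃ O : Set (Fin n → k), IsOpen[zariski k n] O ∧
      ∀ (t : Fin n → k) (E : StBun k x r d), E.IsMember m Psi t → (Mod.mk E ∈ U ↔ t ∈ O)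

theorem Mod.open_univ : Mod.Open (Set.univ : Set (Mod k x r d)) :=
  fun n _ _ _ _ => ⟨Set.univ, @isOpen_univ _ (zariski k n),
    fun _ _ _ => ⟨fun _ => trivial, fun _ => trivial⟩⟩

theorem Mod.open_inter (U U' : Set (Mod k x r d)) (h : Mod.Open U) (h' : Mod.Open U') :
    Mod.Open (U ∩ U') := by
  intro n N M m Psi
  obtain ⟨O, hO, hO'⟩ := h n N M m Psi
  obtain ⟨P, hP, hP'⟩ := h' n N M m Psi
  refine ⟨O ∩ P, @IsOpen.inter _ (zariski k n) _ _ hO hP, fun t E hE => ?_⟩
  exact and_congr (hO' t E hE) (hP' t E hE)

theorem Mod.open_sUnion (A : Set (Set (Mod k x r d))) (hA : ∀ U ∈ A, Mod.Open U) :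
    Mod.Open (⋃₀ A) := by
  intro n N M m Psi
  choose! O hO hO' using fun U hU => hA U hU n N M m Psi
  refine ⟨⋃ U ∈ A, O U, @isOpen_biUnion _ _ (zariski k n) _ _ hO, fun t E hE => ?_⟩
  simp only [Set.mem_iUnion, exists_prop]
  exact exists_congr fun U => and_congr_right fun hU => hO' U hU t E hE

/-- The Zariski topology of the moduli space `M(C,r,d)`. -/
instance Mod.topology : TopologicalSpace (Mod k x r d) where
  IsOpen := Mod.Open
  isOpen_univ := Mod.open_univ
  isOpen_inter := Mod.open_inter
  isOpen_sUnion := Mod.open_sUnion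

variable (k x)

/-- The Brill-Noether locus `W^{v-1}_{r,d}(C)`: stable bundles with at least `v` independent
sections. -/
def BN (r : ℕ) (d : ℤ) (v : ℕ) : Type :=
  {c : Mod k x r d // ∃ E : StBun k x r d, Mod.mk E = c ∧ v ≤ E.h0}

variable {k x} {v : ℕ}

/-- The Brill-Noether locus is a subspace of the moduli space. -/
instance BN.topology : TopologicalSpace (BN k x r d v) := instTopologicalSpaceSubtype

/-- A property of bundles holds for the general element of an irreducible subset `W` of a
Brill-Noether locus. -/
def General (W : Set (BN k x r d v)) (P : StBun k x r d → Prop) : Prop :=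
  ∃ U : Set (BN k x r d v), IsOpen U ∧ (U ∩ W).Nonempty ∧
    ∀ c ∈ U ∩ W, ∀ E : StBun k x r d, Mod.mk E = c.1 → P E

end Moduli

end Pool.Agent.MP_b814b1_ag
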