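import Pool.Agent.MP_b814b1_ag.Defs

/-!
# MP_b814b1_ag: auxiliary definitions
-/

open Polynomial Module
open scoped Topology

noncomputable section

namespace Pool.Agent.MP_b814b1_ag

/-- `f = 0` or `deg f <= m` for a rational function `f`. -/
def DegLE {k : Type} [Field k] (m : ℤ) (f : RatFunc k) : Prop := f = 0 ∨ f.intDegree ≤ m

/-- `f` is a polynomial. -/
def IsPoly {k : Type} [Field k] (f : RatFunc k) : Prop :=
  ∃ p : k[X], algebraMap k[X] (RatFunc k) p = f

/-- `dim B / (A ∩ B)`. -/
def len {k V : Type} [Field k] [AddCommGroup V] [Module k V] (A B : Submodule k V) : ℕ :=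
  finrank k (B ⧸ A.submoduleOf B)

/-- The embedding of `k(X)` into `K`, `X ↦ x`. -/
def ratHom (k : Type) {K : Type} [Field k] [Field K] [Algebra k K] (x : K) [h : IsCurve k x] :
    RatFunc k →ₐ[k] K :=
  RatFunc.liftAlgHom (aeval x) (by
    intro p hp
    rw [Submonoid.mem_comap, mem_nonZeroDivisors_iff_ne_zero]
    intro h0
    exact nonZeroDivisors.ne_zero hp (by
      by_contra hne
      exact h.trans ⟨p, hne, h0⟩))

namespace Pair

variable {k K : Type} [Field k] [Field K] [Algebra k K] {x : K}
variable {V : Type} [AddCommGroup V] [Module K V]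

/-- The pair `Hom(D, E) = D^(-1) E` for `D` in `K`. -/
def colon (D : Pair k x K) (E : Pair k x V) : Pair k x V where
  L0 := { carrier := {v | ∀ d ∈ D.L0, d • v ∈ E.L0}
          add_mem' := fun {a b} ha hb d hd => by rw [smul_add]; exact add_mem (ha d hd) (hb d hd)
          zero_mem' := fun d _ => by rw [smul_zero]; exact zero_mem _
          smul_mem' := fun c v hv d hd => by
            rw [smul_comm]; exact E.L0.smul_mem c (hv d hd) }
  L1 := { carrier := {v | ∀ d ∈ D.L1, d • v ∈ E.L1}
          add_mem' := fun {a b} ha hb d hd => by rw [smul_add]; exact add_mem (ha d hd) (hb d hd)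
          zero_mem' := fun d _ => by rw [smul_zero]; exact zero_mem _
          smul_mem' := fun c v hv d hd => by
            rw [smul_comm]; exact E.L1.smul_mem c (hv d hd) }

variable [Module k V] [IsScalarTower k K V]

/-- For functions `f_i` in `K`: the space of tuples of sections `s_i` of `E` with
`sum f_i s_i = 0`. -/
def rel {h : ℕ} (f : Fin h → K) (E : Pair k x V) : Submodule k (Fin h → V) where
  carrier := {s | (∀ i, s i ∈ E.H0) ∧ ∑ i, f i • s i = 0}
  add_mem' := fun {a b} ha hb => ⟨fun i => add_mem (ha.1 i) (hb.1 i), by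
    simp only [Pi.add_apply, smul_add, Finset.sum_add_distrib, ha.2, hb.2, add_zero]⟩
  zero_mem' := ⟨fun i => zero_mem _, by simp⟩
  smul_mem' := fun c a ha => ⟨fun i => E.H0.smul_mem c (ha.1 i), by
    have : ∑ i, f i • (c • a) i = c • ∑ i, f i • a i := by
      rw [Finset.smul_sum]
      exact Finset.sum_congr rfl fun i _ => smul_comm _ _ _
    rw [this, ha.2, smul_zero]⟩

/-- `l` is a basis of `H^0(L)`. -/
structure IsBasisH0 {n : ℕ} (l : Fin n → K) (L : Pair k x K) : Prop where
  li : LinearIndependent k l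
  span : Submodule.span k (Set.range l) = L.H0

/-- `KC` is the canonical bundle: a bundle of rank one satisfying Serre duality. -/
structure IsCanonical (KC : Pair k x K) : Prop where
  bundle : KC.IsBundle
  dual : ∀ (V : Type) [AddCommGroup V] [Module K V] [Module k V] [IsScalarTower k K V]
      [FiniteDimensional K V] (E : Pair k x V), E.IsBundle →
      FiniteDimensional k (E.Hom KC) ∧ finrank k (E.Hom KC) = E.h1

/-- The two vectors `(n, c)` and `(0, ω)` of `K^3 × K^3`. -/
def gam (n c ω : Fin 3 → K) : (Fin 2 → K) →ₗ[K] ((Fin 3 ⊕ Fin 3) → K) :=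
  Fintype.linearCombination K ![Sum.elim n c, Sum.elim 0 ω]

/-- The data of the construction of the bundle `E_0`. -/
structure Data (KC N : Pair k x K) (n c ω : Fin 3 → K) (β : K) : Prop where
  hω : IsBasisH0 ω KC
  hn : IsBasisH0 n N
  hc0 : ∀ j, c j ∈ N.L0
  hc1 : ∀ j, c j - β * ω j ∈ N.L1
  hβ : β ∉ (colon KC N).S

end Pair

end Pool.Agent.MP_b814b1_ag
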