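import Pool.Agent.MP_b814b1_ag.Rings0
import Pool.Agent.MP_b814b1_ag.Rings1
import Pool.Agent.MP_b814b1_ag.P1Coh

/-!
# MP_b814b1_ag: the function field of the Fermat quartic `x^4 + y^4 + 1 = 0`
-/

open Polynomial Module
open scoped Topology

noncomputable section

namespace Pool.Agent.MP_b814b1_ag

namespace Fermat

/-- `x^4 + 1` -/
def q : ℂ[X] := X ^ 4 + 1

theorem q_eq_C : (X ^ 4 + C 1 : ℂ[X]) = q := by simp [q]

theorem q_natDegree : q.natDegree = 4 := by
  rw [← q_eq_C]; exact natDegree_X_pow_add_C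

theorem q_monic : q.Monic := by
  rw [← q_eq_C]; exact monic_X_pow_add_C 1 (by norm_num)

theorem q_ne_zero : q ≠ 0 := q_monic.ne_zero

theorem q_derivative : derivative q = C 4 * X ^ 3 := by
  rw [q, derivative_add, derivative_one, add_zero, derivative_X_pow]
  norm_num

theorem q_squarefree : Squarefree q := by
  have hsep : q.Separable := by
    refine ⟨1, -C (1 / 4) * X, ?_⟩
    rw [q_derivative, q]
    have : (C (1 / 4 : ℂ) * C 4 : ℂ[X]) = 1 := by
      rw [← C_mul]; norm_num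
    linear_combination -X ^ 4 * this
  exact hsep.squarefree

/-- `Y^4 + (x^4 + 1)` over `ℂ[x]` -/
def g0 : ℂ[X][X] := X ^ 4 + C q

/-- `Y^4 + (x^4 + 1)` over `ℂ(x)` -/
def g : (RatFunc ℂ)[X] := X ^ 4 + C (algebraMap ℂ[X] (RatFunc ℂ) q)

theorem g0_monic : g0.Monic := monic_X_pow_add_C q (by norm_num)

theorem g_monic : g.Monic := monic_X_pow_add_C _ (by norm_num)

theorem g_natDegree : g.natDegree = 4 := natDegree_X_pow_add_C

theorem map_g0 : g0.map (algebraMap ℂ[X] (RatFunc ℂ)) = g := by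
  simp [g0, g]

theorem g0_irreducible : Irreducible g0 := by
  obtain ⟨ζ, hζ⟩ := IsAlgClosed.exists_pow_nat_eq (-1 : ℂ) (n := 4) (by norm_num)
  have hirr : Irreducible (X - C ζ) := irreducible_X_sub_C ζ
  have hdvd : (X - C ζ) ∣ q := by
    rw [dvd_iff_isRoot, IsRoot, q]
    simp [hζ]
  have hnd : ¬ (X - C ζ) ^ 2 ∣ q := by
    intro h
    rw [pow_two] at h
    exact hirr.not_isUnit (q_squarefree _ h)
  have hE : g0.IsEisensteinAt (Ideal.span {X - C ζ}) := by
    refine ⟨?_, ?_, ?_⟩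
    · rw [g0_monic.leadingCoeff, ← Ideal.eq_top_iff_one, Ideal.span_singleton_eq_top]
      exact hirr.not_isUnit
    · intro n hn
      have hdeg : g0.natDegree = 4 := natDegree_X_pow_add_C
      rw [hdeg] at hn
      rw [g0, coeff_add, coeff_X_pow, if_neg (by omega), zero_add, coeff_C]
      split_ifs
      · exact Ideal.mem_span_singleton.2 hdvd
      · exact zero_mem _
    · rw [g0, coeff_add, coeff_X_pow, if_neg (by norm_num), zero_add, coeff_C_zero,
        Ideal.span_singleton_pow, Ideal.mem_span_singleton]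
      exact hnd
  refine hE.irreducible ?_ g0_monic.isPrimitive ?_
  · exact (Ideal.span_singleton_prime hirr.ne_zero).2 hirr.prime
  · rw [show g0.natDegree = 4 from natDegree_X_pow_add_C]; norm_num

theorem g_irreducible : Irreducible g := by
  rw [← map_g0]
  exact (g0_monic.irreducible_iff_irreducible_map_fraction_map (K := RatFunc ℂ)).1 g0_irreducible

instance : Fact (Irreducible g) := ⟨g_irreducible⟩

/-- The function field of the Fermat quartic. -/
abbrev FK : Type := AdjoinRoot g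

/-- the function `x` -/
def xx : FK := algebraMap (RatFunc ℂ) FK RatFunc.X

/-- the function `y` -/
def yy : FK := AdjoinRoot.root g

theorem yy_pow : yy ^ 4 = -algebraMap (RatFunc ℂ) FK (algebraMap ℂ[X] (RatFunc ℂ) q) := by
  have h := AdjoinRoot.eval₂_root g
  rw [show g = X ^ 4 + C (algebraMap ℂ[X] (RatFunc ℂ) q) from rfl, eval₂_add, eval₂_X_pow,
    eval₂_C] at h
  exact eq_neg_of_add_eq_zero_left h

theorem xx_pow : xx ^ 4 + yy ^ 4 + 1 = 0 := by
  rw [yy_pow, xx, q]
  simp

theorem xx_trans : Transcendental ℂ xx := by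
  have h : Transcendental ℂ (RatFunc.X : RatFunc ℂ) := RatFunc.transcendental_X
  exact (transcendental_algebraMap_iff (algebraMap (RatFunc ℂ) FK).injective).2 h

instance isCurve : IsCurve ℂ xx := by
  refine ⟨xx_trans, ?_⟩
  have hfin : Module.Finite (RatFunc ℂ) FK := (AdjoinRoot.powerBasis' g_monic).finite
  obtain ⟨s, hs⟩ := hfin.fg_top
  refine ⟨⟨s, ?_⟩⟩
  rw [Submodule.eq_top_iff']
  intro v
  have hv : v ∈ Submodule.span (RatFunc ℂ) (s : Set FK) := by rw [hs]; trivial
  have hr : ∀ f : RatFunc ℂ, algebraMap (RatFunc ℂ) FK f ∈ IntermediateField.adjoin ℂ {xx} := by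
    intro f
    have hx : xx ∈ IntermediateField.adjoin ℂ {xx} := IntermediateField.mem_adjoin_simple_self ℂ xx
    have hp : ∀ p : ℂ[X], algebraMap (RatFunc ℂ) FK (algebraMap ℂ[X] (RatFunc ℂ) p) ∈
        IntermediateField.adjoin ℂ {xx} := by
      intro p
      induction p using Polynomial.induction_on' with
      | add p q hp hq => rw [map_add, map_add]; exact add_mem hp hq
      | monomial n a =>
        rw [← C_mul_X_pow_eq_monomial, map_mul, map_mul, map_pow, map_pow]
        refine mul_mem ?_ (pow_mem ?_ n)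
        · have : algebraMap (RatFunc ℂ) FK (algebraMap ℂ[X] (RatFunc ℂ) (C a)) =
            algebraMap ℂ FK a := by
            rw [RatFunc.algebraMap_C, ← RatFunc.algebraMap_eq_C,
              ← IsScalarTower.algebraMap_apply]
          rw [this]
          exact IntermediateField.algebraMap_mem _ a
        · rw [RatFunc.algebraMap_X]; exact hx
    rw [← RatFunc.num_div_denom f, map_div₀]
    exact div_mem (hp _) (hp _)
  induction hv using Submodule.span_induction with
  | mem a ha => exact Submodule.subset_span ha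
  | zero => exact zero_mem _
  | add a b _ _ ha hb => exact add_mem ha hb
  | smul c a _ ha =>
    have h1 : c • a = (⟨_, hr c⟩ : IntermediateField.adjoin ℂ {xx}) • a := by
      rw [Algebra.smul_def, IntermediateField.smul_def, smul_eq_mul]
    rw [h1]
    exact Submodule.smul_mem _ _ ha

theorem hx : ∀ f, algebraMap (RatFunc ℂ) FK f = ratHom ℂ xx f := by
  intro f
  have hp : ∀ p : ℂ[X], algebraMap (RatFunc ℂ) FK (algebraMap ℂ[X] (RatFunc ℂ) p) =
      ratHom ℂ xx (algebraMap ℂ[X] (RatFunc ℂ) p) := by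
    intro p
    rw [RatBase.ratHom_algebraMap]
    induction p using Polynomial.induction_on' with
    | add p q hp hq => rw [map_add, map_add, map_add, hp, hq]
    | monomial n a =>
      rw [← C_mul_X_pow_eq_monomial, map_mul, map_mul, map_pow, map_pow, map_mul, map_pow,
        aeval_C, aeval_X, RatFunc.algebraMap_C, RatFunc.algebraMap_X, ← RatFunc.algebraMap_eq_C,
        ← IsScalarTower.algebraMap_apply]
      rfl
  rw [← RatFunc.num_div_denom f, map_div₀, map_div₀, hp, hp]

/-- the basis `1, y, y^2, y^3` -/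
def e : Basis (Fin 4) (RatFunc ℂ) FK :=
  (AdjoinRoot.powerBasis' g_monic).basis.reindex (finCongr (by
    rw [AdjoinRoot.powerBasis'_dim, g_natDegree]))

theorem e_apply (i : Fin 4) : e i = yy ^ (i : ℕ) := by
  rw [e, Basis.reindex_apply, PowerBasis.basis_eq_pow]
  rfl

theorem eval_g {S : Type} [CommRing S] (φ : RatFunc ℂ →+* S) (z : S) :
    eval₂ φ z g = z ^ 4 + φ (algebraMap ℂ[X] (RatFunc ℂ) q) := by
  rw [g, eval₂_add, eval₂_X_pow, eval₂_C]

/-- multiplication of `y` by `i` -/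
def σ : FK →ₐ[RatFunc ℂ] FK :=
  AdjoinRoot.liftAlgHom g (Algebra.ofId (RatFunc ℂ) FK) (algebraMap ℂ FK Complex.I * yy) (by
    have h4 : (algebraMap ℂ FK Complex.I) ^ 4 = 1 := by
      rw [← map_pow, Complex.I_pow_four, map_one]
    rw [eval_g, mul_pow, h4, one_mul, yy_pow]
    exact neg_add_cancel _)

theorem σ_yy : σ yy = algebraMap ℂ FK Complex.I * yy := by
  exact AdjoinRoot.liftAlgHom_root _ _ _ _

theorem σ_pow (i : ℕ) : σ (yy ^ i) = algebraMap ℂ FK (Complex.I ^ i) * yy ^ i := by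
  rw [map_pow, σ_yy, mul_pow, map_pow]

theorem σ_const (c : ℂ) : σ (algebraMap ℂ FK c) = algebraMap ℂ FK c := by
  rw [IsScalarTower.algebraMap_apply ℂ (RatFunc ℂ) FK, AlgHom.commutes]

/-- the components -/
def comp (m : Fin 4) (a : FK) : FK := (e.repr a m) • yy ^ (m : ℕ)

theorem sum_comp (a : FK) : ∑ m, comp m a = a := by
  conv_rhs => rw [← e.sum_repr a]
  exact Finset.sum_congr rfl fun m _ => by rw [comp, e_apply]

theorem σ_comp (m : Fin 4) (a : FK) : σ (comp m a) = algebraMap ℂ FK (Complex.I ^ (m : ℕ)) *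
    comp m a := by
  rw [comp, map_smul, σ_pow, mul_smul_comm]

theorem comp_eq (m : Fin 4) (a : FK) : ∃ c : Fin 4 → ℂ,
    comp m a = algebraMap ℂ FK (c 0) * a + algebraMap ℂ FK (c 1) * σ a +
      algebraMap ℂ FK (c 2) * σ (σ a) + algebraMap ℂ FK (c 3) * σ (σ (σ a)) := by
  have h0 : a = comp 0 a + comp 1 a + comp 2 a + comp 3 a := by
    rw [← Fin.sum_univ_four (fun m => comp m a), sum_comp]
  obtain ⟨I, hI⟩ : ∃ I, I = algebraMap ℂ FK Complex.I := ⟨_, rfl⟩
  have hI2 : I ^ 2 = -1 := by rw [hI, ← map_pow, Complex.I_sq, map_neg, map_one]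
  have hσI : σ I = I := by rw [hI, σ_const]
  obtain ⟨A, hA⟩ : ∃ A, A = comp 0 a := ⟨_, rfl⟩
  obtain ⟨B, hB⟩ : ∃ A, A = comp 1 a := ⟨_, rfl⟩
  obtain ⟨C', hC⟩ : ∃ A, A = comp 2 a := ⟨_, rfl⟩
  obtain ⟨D, hD⟩ : ∃ A, A = comp 3 a := ⟨_, rfl⟩
  have sA : σ A = A := by rw [hA, σ_comp]; simp
  have sB : σ B = I * B := by rw [hB, σ_comp, hI]; simp
  have sC : σ C' = -C' := by
    rw [hC, σ_comp, map_pow, ← hI, show ((2 : Fin 4) : ℕ) = 2 from rfl, hI2]; ring
  have sD : σ D = -I * D := by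
    rw [hD, σ_comp, map_pow, ← hI, show ((3 : Fin 4) : ℕ) = 3 from rfl, pow_succ, hI2]; ring
  rw [← hA, ← hB, ← hC, ← hD] at h0
  have s1 : σ a = A + I * B - C' - I * D := by
    rw [h0, map_add, map_add, map_add, sA, sB, sC, sD]; ring
  have s2 : σ (σ a) = A - B + C' - D := by
    rw [s1, map_sub, map_sub, map_add, map_mul, map_mul, sA, sB, sC, sD, hσI]
    linear_combination (B + D) * hI2
  have s3 : σ (σ (σ a)) = A - I * B - C' + I * D := by
    rw [s2, map_sub, map_add, map_sub, sA, sB, sC, sD]; ring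
  have hq : algebraMap ℂ FK (1 / 4) * 4 = 1 := by
    rw [← map_ofNat (algebraMap ℂ FK) 4, ← map_mul]; norm_num
  have hm : ∀ c : ℂ, algebraMap ℂ FK (1 / 4 * c) = algebraMap ℂ FK (1 / 4) * algebraMap ℂ FK c :=
    fun c => map_mul _ _ _
  rw [s3, s2, s1]
  fin_cases m
  · refine ⟨fun _ => 1 / 4, ?_⟩
    show comp 0 a = _
    rw [← hA]
    linear_combination (-A) * hq - algebraMap ℂ FK (1 / 4) * h0
  · refine ⟨![1 / 4 * 1, 1 / 4 * (-Complex.I), 1 / 4 * (-1), 1 / 4 * Complex.I], ?_⟩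
    show comp 1 a = _
    rw [← hB]
    simp only [Matrix.cons_val]
    rw [hm, hm, hm, hm, map_neg, map_neg, ← hI, map_one]
    linear_combination (-B) * hq - algebraMap ℂ FK (1 / 4) * h0 +
      algebraMap ℂ FK (1 / 4) * (2 * B - 2 * D) * hI2
  · refine ⟨![1 / 4 * 1, 1 / 4 * (-1), 1 / 4 * 1, 1 / 4 * (-1)], ?_⟩
    show comp 2 a = _
    rw [← hC]
    simp only [Matrix.cons_val]
    rw [hm, hm, map_neg, map_one]
    linear_combination (-C') * hq - algebraMap ℂ FK (1 / 4) * h0
  · refine ⟨![1 / 4 * 1, 1 / 4 * Complex.I, 1 / 4 * (-1), 1 / 4 * (-Complex.I)], ?_⟩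
    show comp 3 a = _
    rw [← hD]
    simp only [Matrix.cons_val]
    rw [hm, hm, hm, hm, map_neg, map_neg, ← hI, map_one]
    linear_combination (-D) * hq - algebraMap ℂ FK (1 / 4) * h0 +
      algebraMap ℂ FK (1 / 4) * (2 * D - 2 * B) * hI2

theorem comp_mem (B : Subalgebra ℂ FK) (hB : ∀ a ∈ B, σ a ∈ B) (m : Fin 4) (a : FK) (ha : a ∈ B) :
    comp m a ∈ B := by
  obtain ⟨c, hc⟩ := comp_eq m a
  rw [hc]
  have h := fun c => B.algebraMap_mem c
  exact add_mem (add_mem (add_mem (mul_mem (h _) ha) (mul_mem (h _) (hB _ ha)))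
    (mul_mem (h _) (hB _ (hB _ ha)))) (mul_mem (h _) (hB _ (hB _ (hB _ ha))))

end Fermat

end Pool.Agent.MP_b814b1_ag
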