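import Pool.Agent.MP_b814b1_ag.Fermat1

/-!
# MP_b814b1_ag: the rings of the Fermat quartic and its genus
-/

open Polynomial Module
open scoped Topology

noncomputable section

namespace Pool.Agent.MP_b814b1_ag

namespace Fermat

instance tow : IsScalarTower ℂ[X] (RatFunc ℂ) FK := inferInstance

theorem algebraMap_poly (p : ℂ[X]) : algebraMap ℂ[X] FK p = aeval xx p := by
  rw [IsScalarTower.algebraMap_apply ℂ[X] (RatFunc ℂ) FK, hx, RatBase.ratHom_algebraMap]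

theorem mem_R0 (a : FK) : a ∈ R0 ℂ xx ↔ IsIntegral ℂ[X] a := by
  have h := Rings0.mem_R0_iff ℂ xx a
  rw [h]
  have h2 : (@algebraMap ℂ[X] FK _ _ (Rings0.algP ℂ xx)) = algebraMap ℂ[X] FK :=
    RingHom.ext fun p => (algebraMap_poly p).symm
  show RingHom.IsIntegralElem _ a ↔ RingHom.IsIntegralElem _ a
  rw [h2]

theorem mem_R1 (a : FK) : a ∈ R1 ℂ xx ↔ IsIntegral (RB.Ainf ℂ) a := RB.mem_R1_iff ℂ xx hx a

theorem σ_R0 (a : FK) (ha : a ∈ R0 ℂ xx) : σ a ∈ R0 ℂ xx := by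
  rw [mem_R0] at ha ⊢
  exact ha.map (σ.restrictScalars ℂ[X])

theorem σ_R1 (a : FK) (ha : a ∈ R1 ℂ xx) : σ a ∈ R1 ℂ xx := by
  rw [mem_R1] at ha ⊢
  exact ha.map (σ.restrictScalars (RB.Ainf ℂ))

theorem comp_pow (m : Fin 4) (a : FK) : comp m a ^ 4 =
    algebraMap (RatFunc ℂ) FK ((e.repr a m) ^ 4 * (-algebraMap ℂ[X] (RatFunc ℂ) q) ^ (m : ℕ)) := by
  rw [comp, Algebra.smul_def, mul_pow, ← pow_mul, mul_comm (m : ℕ) 4, pow_mul, yy_pow, map_mul,
    map_pow, map_pow, map_neg]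

theorem isPoly_of (b : RatFunc ℂ) (m : ℕ) (hm : m ≤ 3)
    (h : IsPoly (b ^ 4 * (-algebraMap ℂ[X] (RatFunc ℂ) q) ^ m)) : IsPoly b := by
  obtain ⟨w, hw⟩ := h
  have hv0 : b.denom ≠ 0 := b.denom_ne_zero
  have hv1 : algebraMap ℂ[X] (RatFunc ℂ) b.denom ≠ 0 := RatFunc.algebraMap_ne_zero hv0
  have hb := RatFunc.num_div_denom b
  have h1 : algebraMap ℂ[X] (RatFunc ℂ) (w * b.denom ^ 4) =
      algebraMap ℂ[X] (RatFunc ℂ) (b.num ^ 4 * (-q) ^ m) := by
    rw [map_mul, hw, map_mul, map_pow, map_pow, map_pow, map_neg]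
    have h3 : b * algebraMap ℂ[X] (RatFunc ℂ) b.denom = algebraMap ℂ[X] (RatFunc ℂ) b.num := by
      rw [div_eq_iff hv1] at hb; exact hb.symm
    rw [← h3]; ring
  have h2 : w * b.denom ^ 4 = b.num ^ 4 * (-q) ^ m := RatFunc.algebraMap_injective ℂ h1
  have hcop : IsCoprime (b.denom ^ 4) (b.num ^ 4) := (b.isCoprime_num_denom.symm).pow
  have h3 : b.denom ^ 4 ∣ (-q) ^ m :=
    hcop.dvd_of_dvd_mul_left ⟨w, by rw [← h2]; ring⟩
  have h4 : b.denom ^ 4 ∣ q ^ 3 := by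
    refine h3.trans ?_
    refine ((pow_dvd_pow (-q) hm)).trans ?_
    exact ⟨-1, by ring⟩
  have hu : IsUnit b.denom := by
    by_contra hnu
    obtain ⟨p, hp, hpd⟩ := WfDvdMonoid.exists_irreducible_factor hnu hv0
    have h5 : p ^ 4 ∣ q ^ 3 := (pow_dvd_pow_of_dvd hpd 4).trans h4
    have h6 : p ∣ q := hp.prime.dvd_of_dvd_pow ((dvd_pow_self p (by norm_num)).trans h5)
    obtain ⟨w', hw'⟩ := h6
    have h7 : p ^ 3 * p ∣ p ^ 3 * w' ^ 3 := by
      rw [← pow_succ, ← mul_pow, ← hw']; exact h5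
    have h8 : p ∣ w' := hp.prime.dvd_of_dvd_pow
      ((mul_dvd_mul_iff_left (pow_ne_zero 3 hp.ne_zero)).1 h7)
    exact hp.not_isUnit (q_squarefree p (by rw [hw']; exact mul_dvd_mul_left p h8))
  have h9 : b.denom = 1 := b.monic_denom.eq_one_of_isUnit hu
  refine ⟨b.num, ?_⟩
  rw [h9, map_one, div_one] at hb
  exact hb

theorem intDegree_q : (algebraMap ℂ[X] (RatFunc ℂ) q).intDegree = 4 := by
  rw [RatFunc.intDegree_polynomial, q_natDegree]; rfl

theorem degLE_of (b : RatFunc ℂ) (m : ℕ)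
    (h : DegLE 0 (b ^ 4 * (-algebraMap ℂ[X] (RatFunc ℂ) q) ^ m)) : DegLE (-(m : ℤ)) b := by
  have hq0 : algebraMap ℂ[X] (RatFunc ℂ) q ≠ 0 := RatFunc.algebraMap_ne_zero q_ne_zero
  have hnq0 : -algebraMap ℂ[X] (RatFunc ℂ) q ≠ 0 := neg_ne_zero.2 hq0
  by_cases hb : b = 0
  · exact Or.inl hb
  right
  rcases h with h | h
  · exfalso
    exact mul_ne_zero (pow_ne_zero 4 hb) (pow_ne_zero m hnq0) h
  · rw [RatFunc.intDegree_mul (pow_ne_zero 4 hb) (pow_ne_zero m hnq0),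
      RB.intDegree_pow' ℂ hb, RB.intDegree_pow' ℂ hnq0, RatFunc.intDegree_neg, intDegree_q] at h
    push_cast at h
    linarith

theorem repr_R0 (a : FK) : a ∈ R0 ℂ xx ↔ ∀ m, IsPoly (e.repr a m) := by
  constructor
  · intro ha m
    have h1 := comp_mem (R0 ℂ xx) σ_R0 m a ha
    have h2 : comp m a ^ 4 ∈ R0 ℂ xx := pow_mem h1 4
    rw [comp_pow, mem_R0, isIntegral_algebraMap_iff (algebraMap (RatFunc ℂ) FK).injective,
      IsIntegrallyClosed.isIntegral_iff] at h2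
    exact isPoly_of _ _ (by omega) h2
  · intro h
    rw [← sum_comp a]
    refine sum_mem fun m _ => ?_
    obtain ⟨p, hp⟩ := h m
    rw [comp, Algebra.smul_def, ← hp, mem_R0]
    have hy : IsIntegral ℂ[X] yy := by
      refine IsIntegral.of_pow (n := 4) (by norm_num) ?_
      rw [yy_pow, ← IsScalarTower.algebraMap_apply ℂ[X] (RatFunc ℂ) FK]
      exact isIntegral_algebraMap.neg
    rw [← IsScalarTower.algebraMap_apply ℂ[X] (RatFunc ℂ) FK]
    exact isIntegral_algebraMap.mul (hy.pow _)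

theorem repr_R1 (a : FK) : a ∈ R1 ℂ xx ↔ ∀ m : Fin 4, DegLE (-((m : ℕ) : ℤ)) (e.repr a m) := by
  have hA : ∀ b : RatFunc ℂ, IsIntegral (RB.Ainf ℂ) (algebraMap (RatFunc ℂ) FK b) ↔ DegLE 0 b := by
    intro b
    have : IsScalarTower (RB.Ainf ℂ) (RatFunc ℂ) FK := inferInstance
    rw [isIntegral_algebraMap_iff (algebraMap (RatFunc ℂ) FK).injective,
      IsIntegrallyClosed.isIntegral_iff]
    constructor
    · rintro ⟨c, rfl⟩; exact c.2
    · intro h; exact ⟨⟨b, h⟩, rfl⟩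
  constructor
  · intro ha m
    have h1 := comp_mem (R1 ℂ xx) σ_R1 m a ha
    have h2 : comp m a ^ 4 ∈ R1 ℂ xx := pow_mem h1 4
    rw [comp_pow, mem_R1, hA] at h2
    exact degLE_of _ _ h2
  · intro h
    rw [← sum_comp a]
    refine sum_mem fun m _ => ?_
    have hX : (RatFunc.X : RatFunc ℂ) ≠ 0 := RatFunc.X_ne_zero
    have hxx : xx ≠ 0 := by
      intro h0
      exact hX ((map_eq_zero _).1 h0)
    have h1 : comp m a = algebraMap (RatFunc ℂ) FK (e.repr a m * RatFunc.X ^ (m : ℕ)) *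
        (yy * xx⁻¹) ^ (m : ℕ) := by
      rw [comp, Algebra.smul_def, map_mul, map_pow, mul_pow, inv_pow]
      show _ = algebraMap (RatFunc ℂ) FK (e.repr a m) * xx ^ (m : ℕ) * _
      field_simp
    rw [h1, mem_R1]
    refine IsIntegral.mul ((hA _).2 ?_) (IsIntegral.pow ?_ _)
    · rcases h m with h | h
      · left; rw [h, zero_mul]
      · by_cases hb : e.repr a m = 0
        · left; rw [hb, zero_mul]
        · right
          rw [RatFunc.intDegree_mul hb (pow_ne_zero _ hX), RB.intDegree_pow' ℂ hX,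
            RatFunc.intDegree_X]
          linarith
    · refine IsIntegral.of_pow (n := 4) (by norm_num) ?_
      have h2 : (yy * xx⁻¹) ^ 4 = algebraMap (RatFunc ℂ) FK
          (-(algebraMap ℂ[X] (RatFunc ℂ) q * (RatFunc.X⁻¹) ^ 4)) := by
        rw [mul_pow, yy_pow, map_neg, map_mul, map_pow, map_inv₀]
        rw [neg_mul]
        rfl
      rw [h2, hA]
      right
      have hq0 : algebraMap ℂ[X] (RatFunc ℂ) q ≠ 0 := RatFunc.algebraMap_ne_zero q_ne_zero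
      rw [RatFunc.intDegree_neg, RatFunc.intDegree_mul hq0 (pow_ne_zero _ (inv_ne_zero hX)),
        RB.intDegree_pow' ℂ (inv_ne_zero hX), RatFunc.intDegree_inv, RatFunc.intDegree_X,
        intDegree_q]
      norm_num

end Fermat

end Pool.Agent.MP_b814b1_ag
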