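import Pool.Agent.MP_b814b1_ag.Fermat2
import Pool.Agent.MP_b814b1_ag.IsoInv
import Pool.Agent.MP_b814b1_ag.Colon
import Pool.Agent.MP_b814b1_ag.Canon

/-!
# MP_b814b1_ag: the Fermat quartic has genus 3 and no `g^1_2`
-/

open Polynomial Module
open scoped Topology

noncomputable section

namespace Pool.Agent.MP_b814b1_ag

open Pair

namespace Fermat

theorem mem_unit0 (a : FK) : a ∈ (unit ℂ xx).L0 ↔ a ∈ R0 ℂ xx := by
  show a ∈ (1 : Submodule (R0 ℂ xx) FK) ↔ _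
  rw [Submodule.mem_one]
  exact ⟨fun ⟨y, hy⟩ => hy ▸ y.2, fun h => ⟨⟨a, h⟩, rfl⟩⟩

theorem mem_unit1 (a : FK) : a ∈ (unit ℂ xx).L1 ↔ a ∈ R1 ℂ xx := by
  show a ∈ (1 : Submodule (R1 ℂ xx) FK) ↔ _
  rw [Submodule.mem_one]
  exact ⟨fun ⟨y, hy⟩ => hy ▸ y.2, fun h => ⟨⟨a, h⟩, rfl⟩⟩

theorem unit_coh : (unit ℂ xx).h0 = 1 ∧ (unit ℂ xx).h1 = 3 := by
  obtain ⟨-, h1, -, h2⟩ := adapted_coh e (fun i : Fin 4 => -((i : ℕ) : ℤ))
    ((unit ℂ xx).L0.restrictScalars ℂ) ((unit ℂ xx).L1.restrictScalars ℂ)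
    (fun v => by rw [Submodule.restrictScalars_mem, mem_unit0, repr_R0])
    (fun v => by rw [Submodule.restrictScalars_mem, mem_unit1, repr_R1])
  constructor
  · rw [Pair.h0, Pair.H0, h1, Fin.sum_univ_four]
    rfl
  · rw [Pair.h1, Pair.S, h2, Fin.sum_univ_four]
    rfl

theorem genus_eq : genus ℂ xx = 3 := unit_coh.2

theorem repr_inv (a : FK) (m : Fin 4) : e.repr (xx⁻¹ * a) m = RatFunc.X⁻¹ * e.repr a m := by
  have : xx⁻¹ * a = (RatFunc.X⁻¹ : RatFunc ℂ) • a := by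
    rw [Algebra.smul_def, map_inv₀]; rfl
  rw [this, map_smul]
  rfl

theorem mem_twist1 (a : FK) : a ∈ ((unit ℂ xx).twist 1).L1 ↔ xx⁻¹ * a ∈ R1 ℂ xx := by
  rw [← mem_unit1]
  show ((xx⁻¹) ^ 1 • (LinearMap.id : FK →ₗ[FK] FK)) a ∈ (unit ℂ xx).L1 ↔ _
  rw [pow_one, LinearMap.smul_apply, LinearMap.id_apply, smul_eq_mul]

theorem degLE_X (n : ℤ) (b : RatFunc ℂ) : DegLE n (RatFunc.X⁻¹ * b) ↔ DegLE (n + 1) b := by
  have hX : (RatFunc.X : RatFunc ℂ)⁻¹ ≠ 0 := inv_ne_zero RatFunc.X_ne_zero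
  by_cases hb : b = 0
  · rw [hb, mul_zero]; exact ⟨fun _ => Or.inl rfl, fun _ => Or.inl rfl⟩
  · rw [DegLE, DegLE, RatFunc.intDegree_mul hX hb, RatFunc.intDegree_inv, RatFunc.intDegree_X]
    constructor
    · rintro (h | h)
      · exact absurd h (mul_ne_zero hX hb)
      · right; linarith
    · rintro (h | h)
      · exact absurd h hb
      · right; linarith

theorem twist_coh : ((unit ℂ xx).twist 1).h0 = 3 ∧ ((unit ℂ xx).twist 1).h1 = 1 := by
  obtain ⟨-, h1, -, h2⟩ := adapted_coh e (fun i : Fin 4 => -((i : ℕ) : ℤ) + 1)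
    (((unit ℂ xx).twist 1).L0.restrictScalars ℂ) (((unit ℂ xx).twist 1).L1.restrictScalars ℂ)
    (fun v => by
      rw [Submodule.restrictScalars_mem]
      show v ∈ (unit ℂ xx).L0 ↔ _
      rw [mem_unit0, repr_R0])
    (fun v => by
      rw [Submodule.restrictScalars_mem, mem_twist1, repr_R1]
      exact forall_congr' fun m => by rw [repr_inv, degLE_X])
  constructor
  · rw [Pair.h0, Pair.H0, h1, Fin.sum_univ_four]
    rfl
  · rw [Pair.h1, Pair.S, h2, Fin.sum_univ_four]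
    rfl

theorem twist_deg : ((unit ℂ xx).twist 1).deg = 4 := by
  rw [Pair.deg, Pair.chi, Pair.chi, twist_coh.1, twist_coh.2, unit_coh.1, unit_coh.2,
    finrank_self]
  norm_num

end Fermat

section
variable {k K : Type} [Field k] [IsAlgClosed k] [CharZero k] [Field K] [Algebra k K] {x : K}
  [IsCurve k x]

/-- a line bundle of degree 4 with three sections on a curve of genus 3 is canonical -/
theorem canon_of_deg4 (hg3 : genus k x = 3) (KC : Pair k x K) (hK : IsCanonical KC)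
    (L : Pair k x K) (hL : L.IsBundle) (hd : L.deg = 4) (h3 : 3 ≤ L.h0) :
    ∃ ψ : K, ψ ≠ 0 ∧ L.h0 = 3 ∧ (∀ v, v ∈ KC.H0 ↔ ψ⁻¹ * v ∈ L.H0) := by
  obtain ⟨c1, c2, c3⟩ := canon_deg KC hK
  rw [hg3] at c1 c2
  have h1 := chi_eq L
  rw [hd, hg3, finrank_self, Pair.chi] at h1
  have h2 : 1 ≤ L.h1 := by
    push_cast at h1
    omega
  rw [h1_line KC hK L hL] at h2
  obtain ⟨ψ, hψ, hψ0⟩ : ∃ ψ ∈ (colon L KC).H0, ψ ≠ 0 := by
    by_contra hcon
    have : (colon L KC).H0 = ⊥ := by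
      rw [eq_bot_iff]
      intro v hv
      by_contra hv0
      exact hcon ⟨v, hv, hv0⟩
    rw [Pair.h0, this, finrank_bot] at h2
    omega
  let m : K ≃ₗ[K] K := LinearEquiv.smulOfNeZero K K ψ hψ0
  have hm : ∀ v, m v = ψ * v := fun v => rfl
  have hms : ∀ v, m.symm v = ψ⁻¹ * v := fun v => by
    rw [LinearEquiv.symm_apply_eq, hm, mul_inv_cancel_left₀ hψ0]
  have hle : L.map m.toLinearMap ≤ KC := by
    refine ⟨fun v hv => ?_, fun v hv => ?_⟩
    · rw [IsoAux.mem_map0, hms] at hv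
      have := hψ.1 _ hv
      rw [smul_eq_mul, mul_comm, mul_inv_cancel_left₀ hψ0] at this
      exact this
    · rw [IsoAux.mem_map1, hms] at hv
      have := hψ.2 _ hv
      rw [smul_eq_mul, mul_comm, mul_inv_cancel_left₀ hψ0] at this
      exact this
  have hb : (L.map m.toLinearMap).IsBundle := IsoAux.bundle_map L m hL
  have hdeg : (L.map m.toLinearMap).deg = KC.deg := by
    rw [← IsoAux.deg_map L m, hd, c1]; norm_num
  have heq := (deg_le KC (L.map m.toLinearMap) hK.bundle hb hle).2.1 hdeg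
  refine ⟨ψ, hψ0, ?_, fun v => ?_⟩
  · rw [IsoAux.h0_map L m, heq, c2]
  · rw [← heq]
    simp only [Pair.H0, Submodule.mem_inf, Submodule.restrictScalars_mem, IsoAux.mem_map0,
      IsoAux.mem_map1, hms]

end

end Pool.Agent.MP_b814b1_ag
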