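import Pool.Agent.MP_b814b1_ag.Fermat3

/-!
# MP_b814b1_ag: the Fermat quartic has no `g^1_2`
-/

open Polynomial Module
open scoped Topology

noncomputable section

namespace Pool.Agent.MP_b814b1_ag

open Pair

namespace Fermat

theorem xx_ne_zero : xx ≠ 0 := fun h => by
  have h0 : (RatFunc.X : RatFunc ℂ) = 0 := (map_eq_zero (algebraMap (RatFunc ℂ) FK)).1 h
  exact RatFunc.X_ne_zero h0

theorem yy_ne_zero : yy ≠ 0 := by
  intro h
  have h1 := yy_pow
  rw [h, zero_pow (by norm_num)] at h1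
  have h2 : algebraMap ℂ[X] (RatFunc ℂ) q = 0 := by
    rw [← map_eq_zero (algebraMap (RatFunc ℂ) FK)]
    exact neg_eq_zero.1 h1.symm
  exact RatFunc.algebraMap_ne_zero q_ne_zero h2

theorem one_memT : (1 : FK) ∈ ((unit ℂ xx).twist 1).H0 := by
  refine ⟨?_, ?_⟩
  · show (1 : FK) ∈ (unit ℂ xx).L0
    rw [mem_unit0]; exact one_mem _
  · show (1 : FK) ∈ ((unit ℂ xx).twist 1).L1
    rw [mem_twist1, mul_one, mem_R1]
    have h : xx⁻¹ = algebraMap (RB.Ainf ℂ) FK (RB.tau ℂ) := by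
      show _ = algebraMap (RatFunc ℂ) FK (RatFunc.X)⁻¹
      rw [map_inv₀]; rfl
    rw [h]; exact isIntegral_algebraMap

theorem xx_mem : xx ∈ ((unit ℂ xx).twist 1).H0 := by
  refine ⟨?_, ?_⟩
  · show xx ∈ (unit ℂ xx).L0
    rw [mem_unit0]; exact Rings0.x_mem ℂ xx
  · show xx ∈ ((unit ℂ xx).twist 1).L1
    rw [mem_twist1, inv_mul_cancel₀ xx_ne_zero]; exact one_mem _

theorem yy_eq : yy = e 1 := by rw [e_apply]; exact (pow_one yy).symm

theorem yy_mem : yy ∈ ((unit ℂ xx).twist 1).H0 := by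
  have hr : ∀ m, e.repr yy m = if m = 1 then 1 else 0 := by
    intro m
    rw [yy_eq, Basis.repr_self, Finsupp.single_apply]
    simp only [eq_comm]
  refine ⟨?_, ?_⟩
  · show yy ∈ (unit ℂ xx).L0
    rw [mem_unit0, repr_R0]
    intro m
    rw [hr]
    split_ifs
    · exact ⟨1, map_one _⟩
    · exact ⟨0, map_zero _⟩
  · show yy ∈ ((unit ℂ xx).twist 1).L1
    rw [mem_twist1, repr_R1]
    intro m
    rw [repr_inv, degLE_X, hr]
    split_ifs with h
    · right
      rw [h, RatFunc.intDegree_one]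
      norm_num
    · exact Or.inl rfl

theorem no_g12 : ¬ HasG12 ℂ xx := by
  rintro ⟨L, hL, hd, h2⟩
  obtain ⟨KC, hK⟩ := exists_canonical ℂ xx
  have hu := isBundle_unit (k := ℂ) (x := xx)
  have hud := deg_unit (k := ℂ) (x := xx)
  -- the bundle `O(1)`
  obtain ⟨φ, hφ0, -, hφ⟩ := canon_of_deg4 genus_eq KC hK ((unit ℂ xx).twist 1)
    (isBundle_twist _ hu 1) twist_deg twist_coh.1.ge
  -- the bundle `L^2`
  set L2 := colon (colon L (unit ℂ xx)) L with hL2
  have hb1 := isBundle_colon L (unit ℂ xx) hL hu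
  have hb2 : L2.IsBundle := isBundle_colon _ L hb1 hL
  have hd2 : L2.deg = 4 := by
    rw [hL2, deg_colon _ _ hb1 hL, deg_colon _ _ hL hu, hud, hd, finrank_self]
    norm_num
  -- sections of `L`
  have hfin : FiniteDimensional ℂ L.H0 := finite_H0 L hL
  obtain ⟨s, hs⟩ : ∃ s : Fin 2 → L.H0, LinearIndependent ℂ s :=
    exists_linearIndependent_of_le_finrank h2
  obtain ⟨s0, hs0⟩ : ∃ s0 : FK, s0 = (s 0 : FK) := ⟨_, rfl⟩
  obtain ⟨s1, hs1⟩ : ∃ s1 : FK, s1 = (s 1 : FK) := ⟨_, rfl⟩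
  have hs00 : s0 ≠ 0 := by
    intro h
    exact hs.ne_zero 0 (Subtype.ext (hs0 ▸ h))
  have hm0 : s0 ∈ L.H0 := hs0 ▸ (s 0).2
  have hm1 : s1 ∈ L.H0 := hs1 ▸ (s 1).2
  obtain ⟨f, hf⟩ : ∃ f, f = s1 / s0 := ⟨_, rfl⟩
  have hsf : s1 = s0 * f := by rw [hf]; field_simp
  -- `f` is transcendental
  have hft : Transcendental ℂ f := by
    intro halg
    have hint : IsIntegral ℂ f := halg.isIntegral
    have hdeg := IsAlgClosed.degree_eq_one_of_irreducible ℂ (minpoly.irreducible hint)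
    obtain ⟨c, hc⟩ := minpoly.mem_range_of_degree_eq_one ℂ f hdeg
    have h1 := Fintype.linearIndependent_iff.1 hs ![c, -1] (by
      rw [Fin.sum_univ_two]
      apply Subtype.ext
      simp only [Matrix.cons_val]
      push_cast
      rw [← hs0, ← hs1, hsf, Algebra.smul_def, hc]
      simp only [neg_smul, one_smul]
      ring) 1
    simp at h1
  have hprod : ∀ a ∈ L.H0, ∀ b ∈ L.H0, a * b ∈ L2.H0 := by
    intro a ha b hb
    refine ⟨fun d hd' => ?_, fun d hd' => ?_⟩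
    · have h1 : a • d ∈ (unit ℂ xx).L0 := hd' a ha.1
      rw [mem_unit0] at h1
      have h3 : d • (a * b) = (⟨a • d, h1⟩ : R0 ℂ xx) • b := by
        show d * (a * b) = (a * d) * b
        ring
      show d • (a * b) ∈ L.L0
      rw [h3]; exact L.L0.smul_mem _ hb.1
    · have h1 : a • d ∈ (unit ℂ xx).L1 := hd' a ha.2
      rw [mem_unit1] at h1
      have h3 : d • (a * b) = (⟨a • d, h1⟩ : R1 ℂ xx) • b := by
        show d * (a * b) = (a * d) * b
        ring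
      show d • (a * b) ∈ L.L1
      rw [h3]; exact L.L1.smul_mem _ hb.2
  -- the three sections of `L^2`
  have hpm : ∀ i : Fin 3, s0 ^ 2 * f ^ (i : ℕ) ∈ L2.H0 := by
    intro i
    fin_cases i
    · show s0 ^ 2 * f ^ 0 ∈ L2.H0
      rw [pow_zero, mul_one, pow_two]; exact hprod _ hm0 _ hm0
    · show s0 ^ 2 * f ^ 1 ∈ L2.H0
      rw [show s0 ^ 2 * f ^ 1 = s0 * s1 by rw [hsf]; ring]; exact hprod _ hm0 _ hm1
    · show s0 ^ 2 * f ^ 2 ∈ L2.H0
      rw [show s0 ^ 2 * f ^ 2 = s1 * s1 by rw [hsf]; ring]; exact hprod _ hm1 _ hm1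
  have hfin2 : FiniteDimensional ℂ L2.H0 := finite_H0 L2 hb2
  set t : Fin 3 → L2.H0 := fun i => ⟨s0 ^ 2 * f ^ (i : ℕ), hpm i⟩ with ht
  have htl : LinearIndependent ℂ t := by
    rw [Fintype.linearIndependent_iff]
    intro c hc
    have h1 := congrArg (Subtype.val) hc
    simp only [ht, AddSubmonoidClass.coe_finset_sum, SetLike.val_smul, ZeroMemClass.coe_zero] at h1
    have h3 : s0 ^ 2 * aeval f (∑ i : Fin 3, C (c i) * X ^ (i : ℕ)) = 0 := by
      rw [← h1, map_sum, Finset.mul_sum]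
      refine Finset.sum_congr rfl fun i _ => ?_
      rw [map_mul, aeval_C, map_pow, aeval_X, Algebra.smul_def]; ring
    have h4 : (∑ i : Fin 3, C (c i) * X ^ (i : ℕ) : ℂ[X]) = 0 := by
      by_contra hne
      exact hft ⟨_, hne, (mul_eq_zero.1 h3).resolve_left (pow_ne_zero 2 hs00)⟩
    intro i
    have h5 := congrArg (fun p => coeff p (i : ℕ)) h4
    simp only [finset_sum_coeff, coeff_C_mul, coeff_X_pow, coeff_zero] at h5
    rw [Finset.sum_eq_single i] at h5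
    · simpa using h5
    · intro j _ hj
      rw [if_neg (fun h => hj (Fin.ext h.symm)), mul_zero]
    · intro h; exact absurd (Finset.mem_univ i) h
  have h3le : 3 ≤ L2.h0 := by
    have := htl.fintype_card_le_finrank
    rw [Fintype.card_fin] at this
    exact this
  obtain ⟨ψ, hψ0, hψ3, hψ⟩ := canon_of_deg4 genus_eq KC hK L2 hb2 hd2 h3le
  have hspan : Submodule.span ℂ (Set.range t) = ⊤ :=
    htl.span_eq_top_of_card_eq_finrank' (by rw [Fintype.card_fin]; exact hψ3.symm)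
  -- every section of `O(1)` is a polynomial in `f`
  have key : ∀ v ∈ ((unit ℂ xx).twist 1).H0, ∃ p : ℂ[X], φ * v = ψ * s0 ^ 2 * aeval f p := by
    intro v hv
    have h1 : φ * v ∈ KC.H0 := by
      rw [hφ, inv_mul_cancel_left₀ hφ0]; exact hv
    rw [hψ] at h1
    have h5 : (⟨_, h1⟩ : L2.H0) ∈ Submodule.span ℂ (Set.range t) := by rw [hspan]; trivial
    obtain ⟨c, hc⟩ := (Submodule.mem_span_range_iff_exists_fun ℂ).1 h5
    refine ⟨∑ i : Fin 3, C (c i) * X ^ (i : ℕ), ?_⟩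
    have h6 := congrArg (Subtype.val) hc
    simp only [ht, AddSubmonoidClass.coe_finset_sum, SetLike.val_smul] at h6
    have h7 : s0 ^ 2 * aeval f (∑ i : Fin 3, C (c i) * X ^ (i : ℕ)) = ψ⁻¹ * (φ * v) := by
      rw [← h6, map_sum, Finset.mul_sum]
      refine Finset.sum_congr rfl fun i _ => ?_
      rw [map_mul, aeval_C, map_pow, aeval_X, Algebra.smul_def]; ring
    rw [mul_assoc, h7, mul_inv_cancel_left₀ hψ0]
  obtain ⟨c, hc⟩ := key 1 one_memT
  obtain ⟨a, ha⟩ := key xx xx_mem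
  obtain ⟨b, hb⟩ := key yy yy_mem
  have hw0 : ψ * s0 ^ 2 ≠ 0 := mul_ne_zero hψ0 (pow_ne_zero 2 hs00)
  have hc0 : aeval f c ≠ 0 := by
    intro h; rw [h, mul_zero, mul_one] at hc; exact hφ0 hc
  have ha0 : aeval f a ≠ 0 := by
    intro h; rw [h, mul_zero] at ha; exact mul_ne_zero hφ0 xx_ne_zero ha
  have hb0 : aeval f b ≠ 0 := by
    intro h; rw [h, mul_zero] at hb; exact mul_ne_zero hφ0 yy_ne_zero hb
  have hsum : aeval f (a ^ 4 + b ^ 4 + c ^ 4) = 0 := by
    have h1 : (ψ * s0 ^ 2) ^ 4 * aeval f (a ^ 4 + b ^ 4 + c ^ 4) = 0 := by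
      simp only [map_add, map_pow]
      have h5 : (ψ * s0 ^ 2) ^ 4 * (aeval f a ^ 4 + aeval f b ^ 4 + aeval f c ^ 4) =
        (ψ * s0 ^ 2 * aeval f a) ^ 4 + (ψ * s0 ^ 2 * aeval f b) ^ 4 +
          (ψ * s0 ^ 2 * aeval f c) ^ 4 := by ring
      rw [h5, ← ha, ← hb, ← hc]
      have h6 := xx_pow
      linear_combination φ ^ 4 * h6
    exact (mul_eq_zero.1 h1).resolve_left (pow_ne_zero 4 hw0)
  have hpoly : a ^ 4 + b ^ 4 + c ^ 4 = 0 := by
    by_contra hne
    exact hft ⟨_, hne, hsum⟩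
  obtain ⟨ζ, hζ⟩ := IsAlgClosed.exists_pow_nat_eq (-1 : ℂ) (n := 4) (by norm_num)
  have hζ0 : ζ ≠ 0 := by
    intro h; rw [h] at hζ; norm_num at hζ
  have hflt := fermatLastTheoremWith'_polynomial (k := ℂ) (n := 4) (by norm_num) (by norm_num)
    a b (C ζ * c) (fun h => ha0 (by rw [h, map_zero])) (fun h => hb0 (by rw [h, map_zero]))
    (mul_ne_zero (C_ne_zero.2 hζ0) (fun h => hc0 (by rw [h, map_zero]))) (by
      rw [mul_pow, ← C_pow, hζ, C_neg, C_1]
      linear_combination hpoly)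
  obtain ⟨d, a', b', c', ⟨h1, -, h3⟩, hua, -, huc⟩ := hflt
  obtain ⟨α, hα, rfl⟩ := Polynomial.isUnit_iff.1 hua
  obtain ⟨γ, hγ, rfl⟩ := Polynomial.isUnit_iff.1 huc
  -- `x` is constant
  have hxc : xx * aeval f c = aeval f a := by
    have h5 : ψ * s0 ^ 2 * (xx * aeval f c) = ψ * s0 ^ 2 * aeval f a := by
      rw [← ha, mul_left_comm, ← hc]; ring
    exact mul_left_cancel₀ hw0 h5
  have h6 : algebraMap ℂ FK ζ * aeval f c = algebraMap ℂ FK γ * aeval f d := by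
    rw [← aeval_C (R := ℂ) (A := FK) f ζ, ← map_mul, h3, map_mul, aeval_C]
  rw [h1, map_mul, aeval_C] at hxc ha0
  have hd0 : aeval f d ≠ 0 := right_ne_zero_of_mul ha0
  have hγ0 : algebraMap ℂ FK γ ≠ 0 := by
    intro h
    rw [h, zero_mul] at h6
    exact mul_ne_zero ((_root_.map_ne_zero _).2 hζ0) hc0 h6
  have hx : xx = algebraMap ℂ FK (α * ζ / γ) := by
    rw [map_div₀, map_mul, eq_div_iff hγ0]
    apply mul_right_cancel₀ hd0
    linear_combination algebraMap ℂ FK ζ * hxc - xx * h6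
  exact xx_trans (by rw [hx]; exact isAlgebraic_algebraMap _)

end Fermat

end Pool.Agent.MP_b814b1_ag
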