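import Pool.Agent.MP_b814b1_ag.Colon

/-!
# MP_b814b1_ag, module C1: the data of the bundle `E_0` and the degree of the plane bundle
-/

open Polynomial Module
open scoped Topology

noncomputable section

set_option linter.unusedSectionVars false

namespace Pool.Agent.MP_b814b1_ag

variable {k K : Type} [Field k] [IsAlgClosed k] [CharZero k] [Field K] [Algebra k K] {x : K}
  [IsCurve k x]
variable {V : Type} [AddCommGroup V] [Module K V] [Module k V] [IsScalarTower k K V]
  [FiniteDimensional K V]
variable {V' : Type} [AddCommGroup V'] [Module K V'] [Module k V'] [IsScalarTower k K V']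
  [FiniteDimensional K V']
variable {V'' : Type} [AddCommGroup V''] [Module K V''] [Module k V''] [IsScalarTower k K V'']
  [FiniteDimensional K V'']

namespace Pair

namespace GammaAux

theorem basis_mem {n : ℕ} {l : Fin n → K} {L : Pair k x K} (hl : IsBasisH0 l L) (j : Fin n) :
    l j ∈ L.H0 := by
  rw [← hl.span]
  exact Submodule.subset_span ⟨j, rfl⟩

/-- membership in `colon L E` can be tested on a basis of the sections of `L`, first lattice -/
theorem mem_colon0 {n : ℕ} {l : Fin n → K} {L : Pair k x K} (hl : IsBasisH0 l L) (hG : L.GG)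
    (E : Pair k x V) (v : V) : v ∈ (colon L E).L0 ↔ ∀ j, l j • v ∈ E.L0 := by
  constructor
  · intro h j
    exact h _ (basis_mem hl j).1
  · intro h d hd
    rw [← hG.1] at hd
    have hsub : ((L.L0 : Set K) ∩ L.L1) = (L.H0 : Set K) := rfl
    rw [hsub] at hd
    induction hd using Submodule.span_induction with
    | mem d hd =>
      rw [SetLike.mem_coe, ← hl.span] at hd
      induction hd using Submodule.span_induction with
      | mem d hd =>
        obtain ⟨j, rfl⟩ := hd
        exact h j
      | zero => rw [zero_smul]; exact E.L0.zero_mem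
      | add a b _ _ ha hb => rw [add_smul]; exact E.L0.add_mem ha hb
      | smul a b _ hb =>
        rw [smul_assoc]
        exact (E.L0.restrictScalars k).smul_mem a hb
    | zero => rw [zero_smul]; exact E.L0.zero_mem
    | add a b _ _ ha hb => rw [add_smul]; exact E.L0.add_mem ha hb
    | smul a b _ hb =>
      rw [smul_assoc]
      exact E.L0.smul_mem a hb

/-- membership in `colon L E` can be tested on a basis of the sections of `L`, second lattice -/
theorem mem_colon1 {n : ℕ} {l : Fin n → K} {L : Pair k x K} (hl : IsBasisH0 l L) (hG : L.GG)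
    (E : Pair k x V) (v : V) : v ∈ (colon L E).L1 ↔ ∀ j, l j • v ∈ E.L1 := by
  constructor
  · intro h j
    exact h _ (basis_mem hl j).2
  · intro h d hd
    rw [← hG.2] at hd
    have hsub : ((L.L0 : Set K) ∩ L.L1) = (L.H0 : Set K) := rfl
    rw [hsub] at hd
    induction hd using Submodule.span_induction with
    | mem d hd =>
      rw [SetLike.mem_coe, ← hl.span] at hd
      induction hd using Submodule.span_induction with
      | mem d hd =>
        obtain ⟨j, rfl⟩ := hd
        exact h j
      | zero => rw [zero_smul]; exact E.L1.zero_mem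
      | add a b _ _ ha hb => rw [add_smul]; exact E.L1.add_mem ha hb
      | smul a b _ hb =>
        rw [smul_assoc]
        exact (E.L1.restrictScalars k).smul_mem a hb
    | zero => rw [zero_smul]; exact E.L1.zero_mem
    | add a b _ _ ha hb => rw [add_smul]; exact E.L1.add_mem ha hb
    | smul a b _ hb =>
      rw [smul_assoc]
      exact E.L1.smul_mem a hb

theorem exists_basisH0 (L : Pair k x K) (hL : L.IsBundle) (n : ℕ) (h : L.h0 = n) :
    ∃ l : Fin n → K, IsBasisH0 l L := by
  have := finite_H0 L hL
  let b := Module.finBasisOfFinrankEq k L.H0 h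
  refine ⟨fun i => (b i : K), ?_, ?_⟩
  · exact b.linearIndependent.map' L.H0.subtype (Submodule.ker_subtype _)
  · have h1 : Set.range (fun i => (b i : K)) = L.H0.subtype '' Set.range b := by
      rw [← Set.range_comp]
      rfl
    rw [h1, Submodule.span_image, b.span_eq, Submodule.map_subtype_top]

/-- `gam` in coordinates -/
theorem gam_apply (n c ω : Fin 3 → K) (v : Fin 2 → K) :
    gam n c ω v = Sum.elim (fun j => v 0 * n j) (fun j => v 0 * c j + v 1 * ω j) := by
  rw [gam, Fintype.linearCombination_apply, Fin.sum_univ_two]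
  ext j
  rcases j with j | j <;> simp

end GammaAux

open GammaAux

theorem exists_Data (KC N : Pair k x K) (hKC : KC.IsBundle) (hN : N.IsBundle) (hK0 : KC.h0 = 3)
    (hN0 : N.h0 = 3) (hN1 : N.h1 = 0) (h : 0 < (colon KC N).h1) :
    ∃ n c ω β, Data KC N n c ω β := by
  obtain ⟨n, hn⟩ := exists_basisH0 N hN 3 hN0
  obtain ⟨ω, hω⟩ := exists_basisH0 KC hKC 3 hK0
  have hβ : ∃ β, β ∉ (colon KC N).S := by
    by_contra hcon
    push Not at hcon
    have h1 : (colon KC N).S = ⊤ := by
      rw [eq_top_iff]
      intro b _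
      exact hcon b
    have h2 : (colon KC N).h1 = finrank k (K ⧸ (colon KC N).S) := rfl
    rw [h2, h1] at h
    have : finrank k (K ⧸ (⊤ : Submodule k K)) = 0 := Module.finrank_zero_of_subsingleton
    omega
  obtain ⟨β, hβ⟩ := hβ
  have hS : N.S = ⊤ := by
    have := finite_H1 N hN
    have h2 : finrank k (K ⧸ N.S) = 0 := hN1
    have h3 := Module.finrank_zero_iff.1 h2
    exact Submodule.Quotient.subsingleton_iff.1 h3
  have hc : ∀ j, ∃ c, c ∈ N.L0 ∧ c - β * ω j ∈ N.L1 := by
    intro j
    have h4 : β * ω j ∈ N.S := by rw [hS]; trivial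
    obtain ⟨c, hc, d, hd, hcd⟩ := Submodule.mem_sup.1 h4
    refine ⟨c, hc, ?_⟩
    have h5 : c - β * ω j = -d := by rw [← hcd]; ring
    rw [h5]
    exact N.L1.neg_mem hd
  choose c hc0 hc1 using hc
  exact ⟨n, c, ω, β, hω, hn, hc0, hc1, hβ⟩

theorem deg_gamma (KC N : Pair k x K) (hKC : KC.IsBundle) (hN : N.IsBundle) (hKG : KC.GG)
    (hNG : N.GG) (n c ω : Fin 3 → K) (β : K) (hD : Data KC N n c ω β) :
    Function.Injective (gam n c ω) ∧
    ((triv k x (Fin 3 ⊕ Fin 3)).comap (gam n c ω)).deg = -KC.deg - N.deg := by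
  have hn0 : n 0 ≠ 0 := hD.hn.li.ne_zero 0
  have hω0 : ω 0 ≠ 0 := hD.hω.li.ne_zero 0
  have hinj : Function.Injective (gam n c ω) := by
    rw [injective_iff_map_eq_zero]
    intro v hv
    rw [gam_apply] at hv
    have h0 := congrFun hv (Sum.inl 0)
    have h1 := congrFun hv (Sum.inr 0)
    simp only [Sum.elim_inl, Sum.elim_inr, Pi.zero_apply] at h0 h1
    have h2 : v 0 = 0 := by
      rcases mul_eq_zero.1 h0 with h | h
      · exact h
      · exact absurd h hn0
    rw [h2, zero_mul, zero_add] at h1
    have h3 : v 1 = 0 := by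
      rcases mul_eq_zero.1 h1 with h | h
      · exact h
      · exact absurd h hω0
    ext i
    fin_cases i
    · exact h2
    · exact h3
  refine ⟨hinj, ?_⟩
  set F := (triv k x (Fin 3 ⊕ Fin 3)).comap (gam n c ω) with hF
  have hFb : F.IsBundle := isBundle_comap _ (isBundle_triv _) _ hinj
  -- lattices of `F`
  have hF0 : ∀ v : Fin 2 → K, v ∈ F.L0 ↔
      v 0 ∈ (colon N (unit k x)).L0 ∧ v 1 ∈ (colon KC (unit k x)).L0 := by
    intro v
    rw [mem_colon0 hD.hn hNG, mem_colon0 hD.hω hKG]
    have h1 : v ∈ F.L0 ↔ (∀ j, v 0 * n j ∈ (unit k x).L0) ∧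
        ∀ j, v 0 * c j + v 1 * ω j ∈ (unit k x).L0 := by
      change gam n c ω v ∈ (triv k x (Fin 3 ⊕ Fin 3)).L0 ↔ _
      rw [gam_apply]
      constructor
      · intro h
        exact ⟨fun j => h (Sum.inl j) trivial, fun j => h (Sum.inr j) trivial⟩
      · rintro ⟨h, h'⟩ (j | j) _
        · exact h j
        · exact h' j
    rw [h1]
    simp only [smul_eq_mul, mul_comm (n _), mul_comm (ω _)]
    refine and_congr_right fun h => ?_
    have h2 : ∀ j, v 0 * c j ∈ (unit k x).L0 := by
      intro j
      have h3 : v 0 ∈ (colon N (unit k x)).L0 := by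
        rw [mem_colon0 hD.hn hNG]
        intro j
        rw [smul_eq_mul, mul_comm]
        exact h j
      have := h3 (c j) (hD.hc0 j)
      rwa [smul_eq_mul, mul_comm] at this
    exact forall_congr' fun j => (unit k x).L0.add_mem_iff_right (h2 j)
  have hF1 : ∀ v : Fin 2 → K, v ∈ F.L1 ↔
      v 0 ∈ (colon N (unit k x)).L1 ∧ v 1 + v 0 * β ∈ (colon KC (unit k x)).L1 := by
    intro v
    rw [mem_colon1 hD.hn hNG, mem_colon1 hD.hω hKG]
    have h1 : v ∈ F.L1 ↔ (∀ j, v 0 * n j ∈ (unit k x).L1) ∧
        ∀ j, v 0 * c j + v 1 * ω j ∈ (unit k x).L1 := by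
      change gam n c ω v ∈ (triv k x (Fin 3 ⊕ Fin 3)).L1 ↔ _
      rw [gam_apply]
      constructor
      · intro h
        exact ⟨fun j => h (Sum.inl j) trivial, fun j => h (Sum.inr j) trivial⟩
      · rintro ⟨h, h'⟩ (j | j) _
        · exact h j
        · exact h' j
    rw [h1]
    simp only [smul_eq_mul, mul_comm (n _), mul_comm (ω _)]
    refine and_congr_right fun h => ?_
    have h2 : ∀ j, v 0 * (c j - β * ω j) ∈ (unit k x).L1 := by
      intro j
      have h3 : v 0 ∈ (colon N (unit k x)).L1 := by
        rw [mem_colon1 hD.hn hNG]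
        intro j
        rw [smul_eq_mul, mul_comm]
        exact h j
      have := h3 (c j - β * ω j) (hD.hc1 j)
      rwa [smul_eq_mul, mul_comm] at this
    refine forall_congr' fun j => ?_
    have h4 : v 0 * c j + v 1 * ω j =
        v 0 * (c j - β * ω j) + (v 1 + v 0 * β) * ω j := by ring
    rw [h4]
    exact (unit k x).L1.add_mem_iff_right (h2 j)
  -- the exact sequence
  let f : K →ₗ[K] (Fin 2 → K) := LinearMap.single K (fun _ : Fin 2 => K) 1
  let g : (Fin 2 → K) →ₗ[K] K := LinearMap.proj 0
  have hf : Function.Injective f := by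
    intro a b h
    have := congrFun h 1
    simpa [f] using this
  have hg : Function.Surjective g := fun a => ⟨fun _ => a, rfl⟩
  have hfg : LinearMap.range f = LinearMap.ker g := by
    ext v
    constructor
    · rintro ⟨a, rfl⟩
      rw [LinearMap.mem_ker]
      simp [f, g]
    · intro h
      have h0 : v 0 = 0 := h
      refine ⟨v 1, ?_⟩
      ext i
      fin_cases i
      · simp [f, h0]
      · simp [f]
  have hdeg := deg_exact F hFb f g hf hg hfg
  have hcf : F.comap f = colon KC (unit k x) := by
    refine Pair.ext ?_ ?_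
    · ext s
      change f s ∈ F.L0 ↔ _
      rw [hF0]
      simp [f]
    · ext s
      change f s ∈ F.L1 ↔ _
      rw [hF1]
      simp [f]
  have hmg : F.map g = colon N (unit k x) := by
    refine Pair.ext ?_ ?_
    · ext t
      constructor
      · rintro ⟨v, hv, rfl⟩
        exact ((hF0 v).1 hv).1
      · intro ht
        refine ⟨![t, 0], (hF0 _).2 ⟨?_, ?_⟩, rfl⟩
        · exact ht
        · exact Submodule.zero_mem _
    · ext t
      constructor
      · rintro ⟨v, hv, rfl⟩
        exact ((hF1 v).1 hv).1
      · intro ht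
        refine ⟨![t, -(t * β)], (hF1 _).2 ⟨?_, ?_⟩, rfl⟩
        · exact ht
        · simp
  rw [hdeg, hcf, hmg, deg_colon KC _ hKC isBundle_unit, deg_colon N _ hN isBundle_unit, deg_unit,
    finrank_self]
  push_cast
  ring

end Pair

end Pool.Agent.MP_b814b1_ag
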