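import Pool.Agent.MP_b814b1_ag.Bundle

/-!
# MP_b814b1_ag: the exact sequence of the two summands of `K^3 x K^3` (for modules C2 and D)
-/

open Polynomial Module
open scoped Topology

noncomputable section

set_option linter.unusedSectionVars false

namespace Pool.Agent.MP_b814b1_ag

variable {k K : Type} [Field k] [IsAlgClosed k] [CharZero k] [Field K] [Algebra k K] {x : K}
  [IsCurve k x]
variable {V : Type} [AddCommGroup V] [Module K V] [Module k V] [IsScalarTower k K V]
  [FiniteDimensional K V]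
variable {V' : Type} [AddCommGroup V'] [Module K V'] [Module k V'] [IsScalarTower k K V']
  [FiniteDimensional K V']
variable {V'' : Type} [AddCommGroup V''] [Module K V''] [Module k V''] [IsScalarTower k K V'']
  [FiniteDimensional K V'']

namespace Pair

namespace Split6

theorem map_map' (E : Pair k x V) (f : V →ₗ[K] V') (g : V' →ₗ[K] V'') :
    (E.map f).map g = E.map (g.comp f) := by
  refine Pair.ext ?_ ?_
  · ext v
    constructor
    · rintro ⟨_, ⟨w, hw, rfl⟩, rfl⟩
      exact ⟨w, hw, rfl⟩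
    · rintro ⟨w, hw, rfl⟩
      exact ⟨_, ⟨w, hw, rfl⟩, rfl⟩
  · ext v
    constructor
    · rintro ⟨_, ⟨w, hw, rfl⟩, rfl⟩
      exact ⟨w, hw, rfl⟩
    · rintro ⟨w, hw, rfl⟩
      exact ⟨_, ⟨w, hw, rfl⟩, rfl⟩

/-- the second inclusion -/
def inr' (K : Type) [Field K] : (Fin 3 → K) →ₗ[K] ((Fin 3 ⊕ Fin 3) → K) where
  toFun w := Sum.elim 0 w
  map_add' v w := by ext i; rcases i with i | i <;> simp
  map_smul' c w := by ext i; rcases i with i | i <;> simp

/-- the first projection -/
def fst' (K : Type) [Field K] : ((Fin 3 ⊕ Fin 3) → K) →ₗ[K] (Fin 3 → K) where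
  toFun v := v ∘ Sum.inl
  map_add' _ _ := rfl
  map_smul' _ _ := rfl

theorem fst_inr (w : Fin 3 → K) : fst' K (inr' K w) = 0 := rfl

theorem eq_inr_of_fst {v : (Fin 3 ⊕ Fin 3) → K} (h : fst' K v = 0) :
    ∃ w, v = inr' K w := by
  refine ⟨v ∘ Sum.inr, ?_⟩
  ext i
  rcases i with i | i
  · exact congrFun h i
  · rfl

theorem map_fst : (triv k x (Fin 3 ⊕ Fin 3)).map (fst' K) = triv k x (Fin 3) := by
  refine Pair.ext ?_ ?_
  · ext v
    constructor
    · rintro ⟨w, hw, rfl⟩ i _
      exact hw (Sum.inl i) trivial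
    · intro hv
      refine ⟨Sum.elim v 0, ?_, rfl⟩
      rintro (i | i) _
      · exact hv i trivial
      · exact Submodule.zero_mem _
  · ext v
    constructor
    · rintro ⟨w, hw, rfl⟩ i _
      exact hw (Sum.inl i) trivial
    · intro hv
      refine ⟨Sum.elim v 0, ?_, rfl⟩
      rintro (i | i) _
      · exact hv i trivial
      · exact Submodule.zero_mem _

theorem inr_mem0 {w : Fin 3 → K} (hw : w ∈ (triv k x (Fin 3)).L0) :
    inr' K w ∈ (triv k x (Fin 3 ⊕ Fin 3)).L0 := by
  rintro (i | i) _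
  · exact Submodule.zero_mem _
  · exact hw i trivial

theorem inr_mem1 {w : Fin 3 → K} (hw : w ∈ (triv k x (Fin 3)).L1) :
    inr' K w ∈ (triv k x (Fin 3 ⊕ Fin 3)).L1 := by
  rintro (i | i) _
  · exact Submodule.zero_mem _
  · exact hw i trivial

/-- bundles of rank zero -/
theorem deg_zero (E : Pair k x V) (h : finrank K V = 0) : E.deg = 0 := by
  have hs : Subsingleton V := Module.finrank_zero_iff.1 h
  have h0 : E.h0 = 0 := by
    unfold h0
    exact Module.finrank_zero_of_subsingleton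
  have h1 : E.h1 = 0 := by
    unfold h1
    exact Module.finrank_zero_of_subsingleton
  unfold deg chi
  rw [h0, h1, h]
  norm_num

/-- `k^3` injects into the quotient by a vector with independent entries -/
theorem const_inj (l : Fin 3 → K) (hl : LinearIndependent k l) (m : Fin 3 → k)
    (h : (fun i => algebraMap k K (m i)) ∈ Submodule.span K {l}) : m = 0 := by
  obtain ⟨t, ht⟩ := Submodule.mem_span_singleton.1 h
  by_contra hm
  obtain ⟨i, hi⟩ : ∃ i, m i ≠ 0 := by
    by_contra hcon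
    push Not at hcon
    exact hm (funext hcon)
  have ht' : ∀ j, t * l j = algebraMap k K (m j) := fun j => congrFun ht j
  have hti : t ≠ 0 := by
    rintro rfl
    have := ht' i
    rw [zero_mul] at this
    exact hi ((FaithfulSMul.algebraMap_eq_zero_iff k K).1 this.symm)
  have hlj : ∀ j, l j = (m j) • t⁻¹ := by
    intro j
    rw [Algebra.smul_def, ← ht' j]
    field_simp
  -- two entries are dependent
  obtain ⟨j, hj⟩ : ∃ j : Fin 3, j ≠ i := exists_ne i
  have hdep : (m j) • l i - (m i) • l j = 0 := by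
    rw [hlj i, hlj j, smul_smul, smul_smul, mul_comm, sub_self]
  have h2 := (linearIndependent_iff'.1 hl) {i, j}
    (fun s => if s = i then m j else - m i) (by
      rw [Finset.sum_pair hj.symm]
      simp only [if_true, if_neg hj, neg_smul]
      rw [← sub_eq_add_neg]
      exact hdep) j (by simp)
  simp only [if_neg hj] at h2
  exact hi (neg_eq_zero.1 h2)

/-- the exact sequence `0 → K^3 / W₂ → V → K^3 / W₁ → 0` -/
theorem split (g : ((Fin 3 ⊕ Fin 3) → K) →ₗ[K] V) (hg : Function.Surjective g)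
    (W₂ W₁ : Submodule K (Fin 3 → K)) (hW₂ : W₂ = LinearMap.ker (g.comp (inr' K)))
    (hW₁ : W₁ = (LinearMap.ker g).map (fst' K)) :
    ∃ (f : ((Fin 3 → K) ⧸ W₂) →ₗ[K] V) (p : V →ₗ[K] ((Fin 3 → K) ⧸ W₁)),
      Function.Injective f ∧ Function.Surjective p ∧ LinearMap.range f = LinearMap.ker p ∧
      (∀ w, f (W₂.mkQ w) = g (inr' K w)) ∧
      ((triv k x (Fin 3 ⊕ Fin 3)).map g).map p = (triv k x (Fin 3)).map W₁.mkQ ∧
      (triv k x (Fin 3)).map W₂.mkQ ≤ ((triv k x (Fin 3 ⊕ Fin 3)).map g).comap f := by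
  let f : ((Fin 3 → K) ⧸ W₂) →ₗ[K] V := W₂.liftQ (g.comp (inr' K)) hW₂.le
  have hf : Function.Injective f := by
    rw [← LinearMap.ker_eq_bot]
    exact Submodule.ker_liftQ_eq_bot _ _ _ hW₂.symm.le
  have hfmk : ∀ w, f (W₂.mkQ w) = g (inr' K w) := fun w => rfl
  let P : ((Fin 3 ⊕ Fin 3) → K) →ₗ[K] ((Fin 3 → K) ⧸ W₁) := W₁.mkQ.comp (fst' K)
  have hPs : Function.Surjective P := by
    intro q
    obtain ⟨v, rfl⟩ := W₁.mkQ_surjective q
    exact ⟨Sum.elim v 0, rfl⟩
  have hkP : LinearMap.ker g ≤ LinearMap.ker P := by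
    intro v hv
    rw [LinearMap.mem_ker]
    change W₁.mkQ (fst' K v) = 0
    rw [Submodule.mkQ_apply, Submodule.Quotient.mk_eq_zero, hW₁]
    exact ⟨v, hv, rfl⟩
  obtain ⟨p, hpg⟩ : ∃ p : V →ₗ[K] ((Fin 3 → K) ⧸ W₁), ∀ v, p (g v) = P v := by
    refine ⟨((LinearMap.ker g).liftQ P hkP).comp
      (g.quotKerEquivOfSurjective hg).symm.toLinearMap, fun v => ?_⟩
    change (LinearMap.ker g).liftQ P hkP ((g.quotKerEquivOfSurjective hg).symm (g v)) = P v
    have : (g.quotKerEquivOfSurjective hg).symm (g v) = (LinearMap.ker g).mkQ v := by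
      rw [LinearEquiv.symm_apply_eq]
      rfl
    rw [this]
    rfl
  have hps : Function.Surjective p := by
    intro q
    obtain ⟨v, rfl⟩ := hPs q
    exact ⟨g v, hpg v⟩
  have hfp : LinearMap.range f = LinearMap.ker p := by
    ext v
    constructor
    · rintro ⟨q, rfl⟩
      obtain ⟨w, rfl⟩ := W₂.mkQ_surjective q
      rw [LinearMap.mem_ker, hfmk, hpg]
      change W₁.mkQ (fst' K (inr' K w)) = 0
      rw [fst_inr, map_zero]
    · intro hv
      obtain ⟨u, rfl⟩ := hg v
      rw [LinearMap.mem_ker, hpg] at hv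
      change W₁.mkQ (fst' K u) = 0 at hv
      rw [Submodule.mkQ_apply, Submodule.Quotient.mk_eq_zero, hW₁] at hv
      obtain ⟨u', hu', hu''⟩ := hv
      obtain ⟨w, hw⟩ := eq_inr_of_fst (v := u - u') (by rw [map_sub, hu'', sub_self])
      refine ⟨W₂.mkQ w, ?_⟩
      rw [hfmk, ← hw, map_sub, LinearMap.mem_ker.1 hu', sub_zero]
  refine ⟨f, p, hf, hps, hfp, hfmk, ?_, ?_, ?_⟩
  · rw [map_map']
    have : p.comp g = W₁.mkQ.comp (fst' K) := LinearMap.ext hpg
    rw [this, ← map_map', map_fst]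
  · rintro _ ⟨w, hw, rfl⟩
    exact ⟨inr' K w, inr_mem0 hw, rfl⟩
  · rintro _ ⟨w, hw, rfl⟩
    exact ⟨inr' K w, inr_mem1 hw, rfl⟩

/-- the constant sections of a quotient of a trivial bundle -/
def cst {ι : Type} (g : (ι → K) →ₗ[K] V) : (ι → k) →ₗ[k] ((triv k x ι).map g).H0 :=
  LinearMap.codRestrict _ ((g.restrictScalars k).comp
    (LinearMap.pi fun i => (Algebra.linearMap k K).comp (LinearMap.proj i))) (by
    intro m
    constructor
    · refine ⟨fun i => algebraMap k K (m i), fun i _ => ?_, rfl⟩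
      exact Submodule.mem_one.2 ⟨algebraMap k (R0 k x) (m i), rfl⟩
    · refine ⟨fun i => algebraMap k K (m i), fun i _ => ?_, rfl⟩
      exact Submodule.mem_one.2 ⟨algebraMap k (R1 k x) (m i), rfl⟩)

theorem cst_apply {ι : Type} (g : (ι → K) →ₗ[K] V) (m : ι → k) :
    (cst (x := x) g m : V) = g (fun i => algebraMap k K (m i)) := rfl

end Split6

end Pair

end Pool.Agent.MP_b814b1_ag
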