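import Pool.Agent.MP_b814b1_ag.Steps
import Pool.Agent.MP_b814b1_ag.Colon

/-!
# MP_b814b1_ag, module A: line bundles on a curve of genus 3 without `g^1_2`
-/

open Polynomial Module
open scoped Topology

noncomputable section

set_option linter.unusedSectionVars false

namespace Pool.Agent.MP_b814b1_ag

variable {k K : Type} [Field k] [IsAlgClosed k] [CharZero k] [Field K] [Algebra k K] {x : K}
  [IsCurve k x]
variable {V : Type} [AddCommGroup V] [Module K V] [Module k V] [IsScalarTower k K V]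
  [FiniteDimensional K V]
variable {V' : Type} [AddCommGroup V'] [Module K V'] [Module k V'] [IsScalarTower k K V']
  [FiniteDimensional K V']
variable {V'' : Type} [AddCommGroup V''] [Module K V''] [Module k V''] [IsScalarTower k K V'']
  [FiniteDimensional K V'']

namespace Pair

namespace LineAux

/-- bundles of rank zero -/
theorem deg_zero' (E : Pair k x V) (h : finrank K V = 0) : E.deg = 0 := by
  have hs : Subsingleton V := Module.finrank_zero_iff.1 h
  have h0 : E.h0 = 0 := by
    unfold h0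
    exact Module.finrank_zero_of_subsingleton
  have h1 : E.h1 = 0 := by
    unfold h1
    exact Module.finrank_zero_of_subsingleton
  unfold deg chi
  rw [h0, h1, h]
  norm_num

/-- the degree of the pull back under a bijective linear map -/
theorem deg_comap_bij (E : Pair k x V) (hE : E.IsBundle) (f : V' →ₗ[K] V)
    (hf : Function.Bijective f) : (E.comap f).deg = E.deg := by
  have h := deg_exact E hE f (0 : V →ₗ[K] PUnit.{1}) hf.1 (fun y => ⟨0, Subsingleton.elim _ _⟩)
    (by rw [LinearMap.range_eq_top.2 hf.2, LinearMap.ker_zero])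
  rw [h, deg_zero' (E.map (0 : V →ₗ[K] PUnit.{1})) Module.finrank_zero_of_subsingleton, add_zero]

/-- multiplication by `a` -/
def mulL (a : K) : K →ₗ[K] K := LinearMap.mulLeft K a

theorem mulL_bij {a : K} (ha : a ≠ 0) : Function.Bijective (mulL a) := by
  constructor
  · intro b c h
    exact mul_left_cancel₀ ha h
  · intro b
    exact ⟨a⁻¹ * b, by simp [mulL, mul_inv_cancel_left₀ ha]⟩

theorem exists_section (E : Pair k x V) (h : 0 < E.h0) : ∃ σ ∈ E.H0, σ ≠ 0 := by
  by_contra hcon
  push Not at hcon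
  have : E.H0 = ⊥ := by
    rw [eq_bot_iff]
    intro σ hσ
    exact hcon σ hσ
  unfold h0 at h
  rw [this, finrank_bot] at h
  exact lt_irrefl 0 h

theorem deg_nonneg (L : Pair k x K) (hL : L.IsBundle) (h : 0 < L.h0) : 0 ≤ L.deg := by
  obtain ⟨s, hs, hs0⟩ := exists_section L h
  have hb : (L.comap (mulL s)).IsBundle := isBundle_comap L hL _ (mulL_bij hs0).1
  have hle : unit k x ≤ L.comap (mulL s) := by
    constructor
    · intro a ha
      obtain ⟨r, rfl⟩ := Submodule.mem_one.1 ha
      change s * algebraMap (R0 k x) K r ∈ L.L0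
      rw [mul_comm, ← Algebra.smul_def]
      exact L.L0.smul_mem r hs.1
    · intro a ha
      obtain ⟨r, rfl⟩ := Submodule.mem_one.1 ha
      change s * algebraMap (R1 k x) K r ∈ L.L1
      rw [mul_comm, ← Algebra.smul_def]
      exact L.L1.smul_mem r hs.2
  have h1 := (deg_le _ _ hb isBundle_unit hle).1
  rwa [deg_unit, deg_comap_bij L hL _ (mulL_bij hs0)] at h1

/-- a bundle of degree `-1` inside the trivial bundle -/
theorem exists_point : ∃ P : Pair k x K, P.IsBundle ∧ P ≤ unit k x ∧ P.deg = -1 := by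
  have hne : (⟨⊥, ⊥⟩ : Pair k x K) ≠ unit k x := by
    intro h
    have h0 : (⊥ : Submodule (R0 k x) K) = 1 := congrArg Pair.L0 h
    have h1 : (1 : K) ∈ (⊥ : Submodule (R0 k x) K) := by
      rw [h0]
      exact Submodule.one_le.1 le_rfl
    exact one_ne_zero ((Submodule.mem_bot _).1 h1)
  obtain ⟨P, hP, -, hle, hd⟩ := exists_colength_one (unit k x) ⟨⊥, ⊥⟩ isBundle_unit
    ⟨bot_le, bot_le⟩ hne
  refine ⟨P, hP, hle, ?_⟩
  rw [hd, deg_unit]
  norm_num

theorem exists_colength (L : Pair k x K) (hL : L.IsBundle) :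
    ∃ L' : Pair k x K, L'.IsBundle ∧ L' ≤ L ∧ L'.deg = L.deg - 1 := by
  have hne : (⟨⊥, ⊥⟩ : Pair k x K) ≠ L := by
    intro h
    have h1 := hL.span0
    rw [← h] at h1
    simp at h1
  obtain ⟨P, hP, -, hle, hd⟩ := exists_colength_one L ⟨⊥, ⊥⟩ hL ⟨bot_le, bot_le⟩ hne
  exact ⟨P, hP, hle, hd⟩

theorem exists_bigger (L : Pair k x K) (hL : L.IsBundle) (n : ℕ) :
    ∃ L' : Pair k x K, L'.IsBundle ∧ L ≤ L' ∧ L'.deg = L.deg + n := by
  induction n with
  | zero => exact ⟨L, hL, ⟨le_rfl, le_rfl⟩, by push_cast; ring⟩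
  | succ n ih =>
    obtain ⟨M, hM, hle, hd⟩ := ih
    obtain ⟨P, hP, hPle, hPd⟩ := exists_point (k := k) (x := x)
    refine ⟨colon P M, isBundle_colon P M hP hM, ⟨hle.1.trans ?_, hle.2.trans ?_⟩, ?_⟩
    · intro v hv d hd'
      obtain ⟨r, rfl⟩ := Submodule.mem_one.1 (hPle.1 hd')
      rw [algebraMap_smul]
      exact M.L0.smul_mem r hv
    · intro v hv d hd'
      obtain ⟨r, rfl⟩ := Submodule.mem_one.1 (hPle.2 hd')
      rw [algebraMap_smul]
      exact M.L1.smul_mem r hv
    · rw [deg_colon P M hP hM, hPd, hd, finrank_self]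
      push_cast
      ring

end LineAux

open LineAux

theorem line_h0_le (hg : genus k x = 3) (hh : ¬ HasG12 k x) (L : Pair k x K) (hL : L.IsBundle) :
    (0 < L.h0 → 0 ≤ L.deg) ∧ (L.deg ≤ 2 → L.h0 ≤ 1) ∧ (L.deg = 3 → L.h0 ≤ 2) ∧
    (L.deg = 4 → L.h0 ≤ 3) := by
  have h2 : ∀ L : Pair k x K, L.IsBundle → L.deg ≤ 2 → L.h0 ≤ 1 := by
    intro L hL hd
    by_contra hcon
    have h0 := deg_nonneg L hL (by omega)
    obtain ⟨L', hL', hle, hd'⟩ := exists_bigger L hL (2 - L.deg).toNat
    refine hh ⟨L', hL', ?_, ?_⟩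
    · rw [hd']
      omega
    · have := h0_mono L' L hL' hle
      omega
  have h3 : ∀ L : Pair k x K, L.IsBundle → L.deg = 3 → L.h0 ≤ 2 := by
    intro L hL hd
    obtain ⟨L', hL', hle, hd'⟩ := exists_colength L hL
    have h1 := h2 L' hL' (by omega)
    have h4 := (deg_le L L' hL hL' hle).2.2
    omega
  refine ⟨deg_nonneg L hL, h2 L hL, h3 L hL, fun hd => ?_⟩
  obtain ⟨L', hL', hle, hd'⟩ := exists_colength L hL
  have h1 := h3 L' hL' (by omega)
  have h4 := (deg_le L L' hL hL' hle).2.2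
  omega

theorem canon3 (hg : genus k x = 3) (hh : ¬ HasG12 k x) (KC : Pair k x K)
    (hK : IsCanonical KC) : KC.deg = 4 ∧ KC.h0 = 3 ∧ KC.GG := by
  obtain ⟨h1, h2, -⟩ := canon_deg KC hK
  rw [hg] at h1 h2
  have h4 : KC.deg = 4 := by rw [h1]; norm_num
  refine ⟨h4, h2, gg_of KC hK.bundle fun E' hE' _ hd => ?_⟩
  have := (line_h0_le hg hh E' hE').2.2.1 (by rw [hd, h4]; norm_num)
  omega

/-- the Euler characteristic of a line bundle -/
theorem LineAux.chi_line (hg : genus k x = 3) (L : Pair k x K) :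
    (L.h0 : ℤ) - L.h1 = L.deg - 2 := by
  have h := chi_eq L
  rw [hg, finrank_self] at h
  unfold chi at h
  rw [h]
  norm_num
  ring

theorem exists_data (hg : genus k x = 3) (hh : ¬ HasG12 k x) (KC : Pair k x K)
    (hK : IsCanonical KC) :
    ∃ KC' N : Pair k x K, KC'.IsBundle ∧ KC' ≤ KC ∧ KC'.deg = 3 ∧ KC'.h0 = 2 ∧ KC'.GG ∧
      (colon KC' KC).h0 = 1 ∧ N.IsBundle ∧ N.deg = 5 ∧ N.h0 = 3 ∧ N.h1 = 0 ∧ N.GG ∧
      (colon KC' N).h0 = 0 ∧ 0 < (colon KC N).h1 := by
  obtain ⟨hKd, hK0, -⟩ := canon3 hg hh KC hK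
  -- `KC'`
  obtain ⟨K1, hK1, hle1, hd1⟩ := exists_colength KC hK.bundle
  rw [hKd] at hd1
  have hd1' : K1.deg = 3 := by rw [hd1]; norm_num
  have h1a := (line_h0_le hg hh K1 hK1).2.2.1 hd1'
  have h1b := (deg_le KC K1 hK.bundle hK1 hle1).2.2
  rw [hK0, hKd, hd1'] at h1b
  have hK10 : K1.h0 = 2 := by push_cast at h1b; omega
  have hK1G : K1.GG := by
    refine gg_of K1 hK1 fun E' hE' _ hd => ?_
    have := (line_h0_le hg hh E' hE').2.1 (by rw [hd, hd1']; norm_num)
    omega
  have hcK : (colon K1 KC).h0 = 1 := by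
    rw [← h1_line KC hK K1 hK1]
    have := chi_line hg K1
    rw [hK10, hd1'] at this
    push_cast at this
    omega
  -- `K2`
  obtain ⟨K2, hK2, hle2, hd2⟩ := exists_colength K1 hK1
  have hd2' : K2.deg = 2 := by rw [hd2, hd1']; norm_num
  have h2a := (line_h0_le hg hh K2 hK2).2.1 (by rw [hd2'])
  have h2b := (deg_le K1 K2 hK1 hK2 hle2).2.2
  rw [hK10, hd1', hd2'] at h2b
  have hK20 : K2.h0 = 1 := by push_cast at h2b; omega
  -- avoiding sections
  have avoid : ∀ E : Pair k x K, E.IsBundle → E.h0 = 1 →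
      ∃ E' : Pair k x K, E'.IsBundle ∧ E' ≤ E ∧ E'.deg = E.deg - 1 ∧ E'.h0 = 0 := by
    intro E hE h1
    obtain ⟨σ, hσ, hσ0⟩ := exists_section E (by omega)
    obtain ⟨E', hE', hle, hd, hn⟩ := exists_avoid E hE σ hσ.1 hσ0
    refine ⟨E', hE', hle, hd, ?_⟩
    have := finite_H0 E hE
    have hlt : E'.H0 < E.H0 := by
      refine lt_of_le_of_ne (fun v hv => ⟨hle.1 hv.1, hle.2 hv.2⟩) fun he => ?_
      rw [← he] at hσ
      exact hn hσ.1
    have h2 := Submodule.finrank_lt_finrank_of_lt hlt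
    unfold h0 at h1 ⊢
    omega
  obtain ⟨K3, hK3, -, hd3, hK30⟩ := avoid K2 hK2 hK20
  have hd3' : K3.deg = 1 := by rw [hd3, hd2']; norm_num
  -- `M3` and `δ'`
  have hM3 : (colon K3 KC).IsBundle := isBundle_colon K3 KC hK3 hK.bundle
  have hM3d : (colon K3 KC).deg = 3 := by
    rw [deg_colon K3 KC hK3 hK.bundle, hKd, hd3', finrank_self]
    norm_num
  have hM30 : (colon K3 KC).h0 = 1 := by
    rw [← h1_line KC hK K3 hK3]
    have := chi_line hg K3
    rw [hK30, hd3'] at this
    push_cast at this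
    omega
  obtain ⟨δ, hδ, -, hδd, hδ0⟩ := avoid (colon K3 KC) hM3 hM30
  rw [hM3d] at hδd
  have hδd' : δ.deg = 2 := by rw [hδd]; norm_num
  -- `N`
  have hI : (colon K1 (unit k x)).IsBundle := isBundle_colon _ _ hK1 isBundle_unit
  have hId : (colon K1 (unit k x)).deg = -3 := by
    rw [deg_colon K1 _ hK1 isBundle_unit, deg_unit, hd1', finrank_self]
    norm_num
  set N : Pair k x K := colon (colon K1 (unit k x)) δ with hNdef
  have hN : N.IsBundle := isBundle_colon _ _ hI hδ
  have hNd : N.deg = 5 := by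
    rw [hNdef, deg_colon _ _ hI hδ, hId, hδd', finrank_self]
    norm_num
  have hcN : colon K1 N = δ := colon_inv_cancel K1 δ hK1 hδ
  have hcN0 : (colon K1 N).h0 = 0 := by rw [hcN, hδ0]
  have hN1 : N.h1 = 0 := by
    rw [h1_line KC hK N hN]
    by_contra hne
    have h5 := deg_nonneg (colon N KC) (isBundle_colon N KC hN hK.bundle)
      (Nat.pos_of_ne_zero hne)
    rw [deg_colon N KC hN hK.bundle, hKd, hNd, finrank_self] at h5
    norm_num at h5
  have hN0 : N.h0 = 3 := by
    have := chi_line hg N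
    rw [hN1, hNd] at this
    push_cast at this
    omega
  refine ⟨K1, N, hK1, hle1, hd1', hK10, hK1G, hcK, hN, hNd, hN0, hN1, ?_, hcN0, ?_⟩
  · refine gg_of N hN fun N' hN' hle hd => ?_
    have hd4 : N'.deg = 4 := by rw [hd, hNd]; norm_num
    have hz : (colon N' KC).h0 = 0 := by
      by_contra hne
      obtain ⟨a, ha, ha0⟩ := exists_section (colon N' KC) (Nat.pos_of_ne_zero hne)
      have hb : (KC.comap (mulL a)).IsBundle :=
        isBundle_comap KC hK.bundle _ (mulL_bij ha0).1
      have hle' : N' ≤ KC.comap (mulL a) := by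
        constructor
        · intro v hv
          change a * v ∈ KC.L0
          rw [mul_comm]
          exact ha.1 v hv
        · intro v hv
          change a * v ∈ KC.L1
          rw [mul_comm]
          exact ha.2 v hv
      have heq : N' = KC.comap (mulL a) := by
        refine (deg_le _ _ hb hN' hle').2.1 ?_
        rw [deg_comap_bij KC hK.bundle _ (mulL_bij ha0), hKd, hd4]
      have hinv : a⁻¹ ∈ (colon K1 N).H0 := by
        constructor
        · intro d hd'
          apply hle.1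
          rw [heq]
          change a * (d * a⁻¹) ∈ KC.L0
          have : a * (d * a⁻¹) = d := by field_simp
          rw [this]
          exact hle1.1 hd'
        · intro d hd'
          apply hle.2
          rw [heq]
          change a * (d * a⁻¹) ∈ KC.L1
          have : a * (d * a⁻¹) = d := by field_simp
          rw [this]
          exact hle1.2 hd'
      have hfin := finite_H0 (colon K1 N) (isBundle_colon K1 N hK1 hN)
      unfold h0 at hcN0
      rw [Submodule.finrank_eq_zero] at hcN0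
      rw [hcN0, Submodule.mem_bot] at hinv
      exact inv_ne_zero ha0 hinv
    have h1 : N'.h1 = 0 := by rw [h1_line KC hK N' hN', hz]
    have := chi_line hg N'
    rw [h1, hd4] at this
    push_cast at this
    omega
  · have := chi_line hg (colon KC N)
    rw [deg_colon KC N hK.bundle hN, hKd, hNd, finrank_self] at this
    push_cast at this
    omega

end Pair

end Pool.Agent.MP_b814b1_ag
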