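import Pool.Agent.MP_b814b1_ag.Bundle
import Pool.Agent.MP_b814b1_ag.Coh2
import Pool.Agent.MP_b814b1_ag.IsoInv
import Pool.Agent.MP_b814b1_ag.Colon
import Pool.Agent.MP_b814b1_ag.Line3

/-!
# MP_b814b1_ag, module B1: syzygy bundles, degrees
-/

open Polynomial Module
open scoped Topology

set_option linter.unusedSectionVars false
set_option linter.style.haveILetI false

noncomputable section

namespace Pool.Agent.MP_b814b1_ag

variable {k K : Type} [Field k] [IsAlgClosed k] [CharZero k] [Field K] [Algebra k K] {x : K}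
  [IsCurve k x]
variable {V : Type} [AddCommGroup V] [Module K V] [Module k V] [IsScalarTower k K V]
  [FiniteDimensional K V]

namespace Pair

namespace Syz

omit [IsAlgClosed k] [CharZero k] [IsCurve k x] in
theorem mem_L0_of_H0 {E : Pair k x V} {v : V} (h : v ∈ E.H0) : v ∈ E.L0 := h.1

omit [IsAlgClosed k] [CharZero k] [IsCurve k x] in
theorem mem_L1_of_H0 {E : Pair k x V} {v : V} (h : v ∈ E.H0) : v ∈ E.L1 := h.2

/-- basis sections are global sections -/
theorem basis_mem {n : ℕ} {l : Fin n → K} {L : Pair k x K} (hl : IsBasisH0 l L) (j : Fin n) :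
    l j ∈ L.H0 := by
  rw [← hl.span]
  exact Submodule.subset_span ⟨j, rfl⟩

/-- a property of scalars `t` such that `t * l j` lies in a lattice for all `j` -/
theorem smul_mem_of_basis0 {n : ℕ} {l : Fin n → K} {L : Pair k x K} (hl : IsBasisH0 l L)
    (hGG : L.GG) (M : Submodule (R0 k x) K) (t : K) (h : ∀ j, t * l j ∈ M) :
    ∀ d ∈ L.L0, d * t ∈ M := by
  intro d hd
  rw [← hGG.1] at hd
  induction hd using Submodule.span_induction with
  | mem d hd =>
    have hd' : d ∈ L.H0 := hd
    rw [← hl.span] at hd'
    clear hd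
    induction hd' using Submodule.span_induction with
    | mem d hd =>
      obtain ⟨j, rfl⟩ := hd
      rw [mul_comm]; exact h j
    | zero => rw [zero_mul]; exact zero_mem _
    | add a b _ _ ha hb => rw [add_mul]; exact add_mem ha hb
    | smul c a _ ha =>
      rw [Algebra.smul_mul_assoc]
      exact (M.restrictScalars k).smul_mem c ha
  | zero => rw [zero_mul]; exact zero_mem _
  | add a b _ _ ha hb => rw [add_mul]; exact add_mem ha hb
  | smul c a _ ha =>
    rw [Algebra.smul_mul_assoc]
    exact M.smul_mem c ha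

theorem smul_mem_of_basis1 {n : ℕ} {l : Fin n → K} {L : Pair k x K} (hl : IsBasisH0 l L)
    (hGG : L.GG) (M : Submodule (R1 k x) K) (t : K) (h : ∀ j, t * l j ∈ M) :
    ∀ d ∈ L.L1, d * t ∈ M := by
  intro d hd
  rw [← hGG.2] at hd
  induction hd using Submodule.span_induction with
  | mem d hd =>
    have hd' : d ∈ L.H0 := hd
    rw [← hl.span] at hd'
    clear hd
    induction hd' using Submodule.span_induction with
    | mem d hd =>
      obtain ⟨j, rfl⟩ := hd
      rw [mul_comm]; exact h j
    | zero => rw [zero_mul]; exact zero_mem _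
    | add a b _ _ ha hb => rw [add_mul]; exact add_mem ha hb
    | smul c a _ ha =>
      rw [Algebra.smul_mul_assoc]
      exact (M.restrictScalars k).smul_mem c ha
  | zero => rw [zero_mul]; exact zero_mem _
  | add a b _ _ ha hb => rw [add_mul]; exact add_mem ha hb
  | smul c a _ ha =>
    rw [Algebra.smul_mul_assoc]
    exact M.smul_mem c ha

theorem comap_eq_colon (L : Pair k x K) (hGG : L.GG) {n : ℕ} (l : Fin n → K)
    (hl : IsBasisH0 l L) :
    (triv k x (Fin n)).comap (LinearMap.toSpanSingleton K (Fin n → K) l) =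
      colon L (unit k x) := by
  ext t
  · constructor
    · intro ht d hd
      have ht' : ∀ j, t * l j ∈ (1 : Submodule (R0 k x) K) := by
        intro j
        have := (Submodule.mem_pi.1 (show LinearMap.toSpanSingleton K (Fin n → K) l t ∈
          (triv k x (Fin n)).L0 from ht)) j (Set.mem_univ j)
        simpa using this
      exact smul_mem_of_basis0 hl hGG _ t ht' d hd
    · intro ht
      show LinearMap.toSpanSingleton K (Fin n → K) l t ∈ (triv k x (Fin n)).L0
      refine Submodule.mem_pi.2 fun j _ => ?_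
      have := ht (l j) (mem_L0_of_H0 (basis_mem hl j))
      rw [smul_eq_mul, mul_comm] at this
      simpa [unit] using this
  · constructor
    · intro ht d hd
      have ht' : ∀ j, t * l j ∈ (1 : Submodule (R1 k x) K) := by
        intro j
        have := (Submodule.mem_pi.1 (show LinearMap.toSpanSingleton K (Fin n → K) l t ∈
          (triv k x (Fin n)).L1 from ht)) j (Set.mem_univ j)
        simpa using this
      exact smul_mem_of_basis1 hl hGG _ t ht' d hd
    · intro ht
      show LinearMap.toSpanSingleton K (Fin n → K) l t ∈ (triv k x (Fin n)).L1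
      refine Submodule.mem_pi.2 fun j _ => ?_
      have := ht (l j) (mem_L1_of_H0 (basis_mem hl j))
      rw [smul_eq_mul, mul_comm] at this
      simpa [unit] using this

end Syz

theorem deg_ev (L : Pair k x K) (hL : L.IsBundle) (hGG : L.GG) (l : Fin 3 → K)
    (hl : IsBasisH0 l L) :
    ((triv k x (Fin 3)).comap (LinearMap.toSpanSingleton K (Fin 3 → K) l)).deg = -L.deg := by
  rw [Syz.comap_eq_colon L hGG l hl, deg_colon L _ hL isBundle_unit, deg_unit, finrank_self]
  ring

theorem deg_syz (L : Pair k x K) (hL : L.IsBundle) (hGG : L.GG) (l : Fin 3 → K)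
    (hl : IsBasisH0 l L) (g : (Fin 3 → K) →ₗ[K] V) (hg : Function.Surjective g)
    (hker : LinearMap.ker g = Submodule.span K {l}) :
    ((triv k x (Fin 3)).map g).deg = L.deg := by
  have hl0 : l ≠ 0 := by
    intro h
    have := hl.li.ne_zero 0
    rw [h] at this
    exact this rfl
  have hinj : Function.Injective (LinearMap.toSpanSingleton K (Fin 3 → K) l) := by
    rw [← LinearMap.ker_eq_bot, LinearMap.ker_toSpanSingleton K hl0]
  have hex : LinearMap.range (LinearMap.toSpanSingleton K (Fin 3 → K) l) = LinearMap.ker g := by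
    rw [hker, LinearMap.range_toSpanSingleton]
  have := deg_exact (triv k x (Fin 3)) (isBundle_triv _) _ g hinj hg hex
  rw [deg_triv, deg_ev L hL hGG l hl] at this
  linarith

theorem line_quot (hg3 : genus k x = 3) (hh : ¬ HasG12 k x) (l : Fin 3 → K)
    (hl : LinearIndependent k l) (hV : finrank K V = 1) (g : (Fin 3 → K) →ₗ[K] V)
    (hg : Function.Surjective g) (h0 : g l = 0) : 3 ≤ ((triv k x (Fin 3)).map g).deg := by
  classical
  -- transport to `K`
  have hV' : finrank K V = finrank K K := by rw [hV, finrank_self]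
  let e : V ≃ₗ[K] K := LinearEquiv.ofFinrankEq _ _ hV'
  set g' : (Fin 3 → K) →ₗ[K] K := e.toLinearMap ∘ₗ g with hg'
  have hg's : Function.Surjective g' := e.surjective.comp hg
  have hiso : Iso ((triv k x (Fin 3)).map g) ((triv k x (Fin 3)).map g') := by
    refine ⟨e, ?_⟩
    ext v
    · simp only [map, Submodule.mem_map, g']
      constructor
      · rintro ⟨_, ⟨w, hw, rfl⟩, rfl⟩
        exact ⟨w, hw, rfl⟩
      · rintro ⟨w, hw, rfl⟩
        exact ⟨_, ⟨w, hw, rfl⟩, rfl⟩
    · simp only [map, Submodule.mem_map, g']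
      constructor
      · rintro ⟨_, ⟨w, hw, rfl⟩, rfl⟩
        exact ⟨w, hw, rfl⟩
      · rintro ⟨w, hw, rfl⟩
        exact ⟨_, ⟨w, hw, rfl⟩, rfl⟩
  rw [hiso.inv.2.2.2.2.2.1]
  have hbun : ((triv k x (Fin 3)).map g').IsBundle := isBundle_map _ (isBundle_triv _) _ hg's
  set Q := (triv k x (Fin 3)).map g' with hQ
  -- the images of the standard vectors
  set q : Fin 3 → K := fun i => g' (Pi.single i 1) with hq
  have hgq : ∀ v, g' v = ∑ i, v i * q i := by
    intro v
    conv_lhs => rw [← Finset.univ_sum_single v]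
    rw [map_sum]
    refine Finset.sum_congr rfl fun i _ => ?_
    rw [hq]
    have : (Pi.single i (v i) : Fin 3 → K) = v i • Pi.single i 1 := by
      ext j; by_cases h : j = i
      · subst h; simp
      · simp [h]
    rw [this, map_smul, smul_eq_mul]
  have hqH : ∀ i, q i ∈ Q.H0 := by
    intro i
    refine ⟨⟨Pi.single i 1, ?_, rfl⟩, ⟨Pi.single i 1, ?_, rfl⟩⟩
    · refine Submodule.mem_pi.2 fun j _ => ?_
      by_cases h : j = i
      · subst h; rw [Pi.single_eq_same]; exact Submodule.one_le.1 le_rfl
      · rw [Pi.single_eq_of_ne h]; exact zero_mem _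
    · refine Submodule.mem_pi.2 fun j _ => ?_
      by_cases h : j = i
      · subst h; rw [Pi.single_eq_same]; exact Submodule.one_le.1 le_rfl
      · rw [Pi.single_eq_of_ne h]; exact zero_mem _
  have h1 := line_h0_le hg3 hh Q hbun
  by_contra hlt
  push Not at hlt
  have hle : Q.h0 ≤ 1 := h1.2.1 (by omega)
  haveI := finite_H0 Q hbun
  -- all the `q i` are multiples of one element
  obtain ⟨q0, hq0⟩ := (finrank_le_one_iff (K := k) (V := Q.H0)).1 hle
  choose c hc using fun i => hq0 ⟨q i, hqH i⟩
  have hc' : ∀ i, q i = algebraMap k K (c i) * (q0 : K) := by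
    intro i
    have := congrArg Subtype.val (hc i)
    simp only [Submodule.coe_smul] at this
    rw [← this, Algebra.smul_def]
  have hg'l : g' l = 0 := by rw [hg']; simp [h0]
  obtain ⟨v, hv⟩ := hg's 1
  rw [hgq] at hv hg'l
  have hq00 : (q0 : K) ≠ 0 := by
    intro h
    simp only [hc', h, mul_zero, Finset.sum_const_zero] at hv
    exact zero_ne_one hv
  have hsum : ∑ i, c i • l i = 0 := by
    have : (∑ i, c i • l i) * (q0 : K) = 0 := by
      rw [← hg'l, Finset.sum_mul]
      refine Finset.sum_congr rfl fun i _ => ?_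
      rw [hc', Algebra.smul_def]; ring
    exact (mul_eq_zero.1 this).resolve_right hq00
  have hc0 : ∀ i, c i = 0 := Fintype.linearIndependent_iff.1 hl c hsum
  simp only [hc', hc0, map_zero, zero_mul, mul_zero, Finset.sum_const_zero] at hv
  exact zero_ne_one hv

end Pair

end Pool.Agent.MP_b814b1_ag
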