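import Pool.Agent.MP_b814b1_ag.Syz1

/-!
# MP_b814b1_ag, module B2: syzygy bundles, sections
-/

open Polynomial Module
open scoped Topology

set_option linter.unusedSectionVars false
set_option linter.style.haveILetI false

noncomputable section

namespace Pool.Agent.MP_b814b1_ag

variable {k K : Type} [Field k] [IsAlgClosed k] [CharZero k] [Field K] [Algebra k K] {x : K}
  [IsCurve k x]
variable {V : Type} [AddCommGroup V] [Module K V] [Module k V] [IsScalarTower k K V]
  [FiniteDimensional K V]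

namespace Pair

namespace Syz

/-- coordinate functionals -/
theorem exists_coord (w : Fin 3 → K) (hw : LinearIndependent k w) :
    ∃ c : Fin 3 → (K →ₗ[k] k), (∀ i j, c i (w j) = if i = j then 1 else 0) := by
  classical
  obtain ⟨φ, hφ⟩ := LinearMap.exists_extend (Module.Basis.span hw).equivFun.toLinearMap
  refine ⟨fun i => (LinearMap.proj i) ∘ₗ φ, fun i j => ?_⟩
  have h1 : φ (w j) = (Module.Basis.span hw).equivFun ⟨w j, Submodule.subset_span ⟨j, rfl⟩⟩ := by
    rw [← LinearEquiv.coe_toLinearMap, ← hφ]; rfl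
  have h2 : (⟨w j, Submodule.subset_span ⟨j, rfl⟩⟩ : Submodule.span k (Set.range w)) =
      Module.Basis.span hw j := by
    ext; rw [Module.Basis.span_apply]
  rw [LinearMap.comp_apply, LinearMap.proj_apply, h1, h2, Module.Basis.equivFun_self]
  simp [eq_comm]

theorem coord_sum (w : Fin 3 → K) (c : Fin 3 → (K →ₗ[k] k))
    (hc : ∀ i j, c i (w j) = if i = j then 1 else 0) (a : K)
    (ha : a ∈ Submodule.span k (Set.range w)) : a = ∑ i, c i a • w i := by
  induction ha using Submodule.span_induction with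
  | mem a ha =>
    obtain ⟨j, rfl⟩ := ha
    simp [hc]
  | zero => simp
  | add a b _ _ ha hb =>
    simp only [map_add, add_smul, Finset.sum_add_distrib]
    rw [← ha, ← hb]
  | smul t a _ ha =>
    simp only [map_smul, smul_eq_mul, mul_smul]
    rw [← Finset.smul_sum, ← ha]

theorem rel_finite (KC : Pair k x K) (hKC : KC.IsBundle) (l : Fin 3 → K) :
    FiniteDimensional k (rel l KC) := by
  haveI := finite_H0 KC hKC
  let G : rel l KC →ₗ[k] (Fin 3 → KC.H0) :=
    { toFun := fun s j => ⟨(s : Fin 3 → K) j, s.2.1 j⟩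
      map_add' := fun s t => by ext; rfl
      map_smul' := fun c s => by ext; rfl }
  refine FiniteDimensional.of_injective G fun s t h => ?_
  ext j
  exact congrArg Subtype.val (congrFun h j)

/-- homomorphisms from the quotient bundle give relations -/
theorem hom_le_rel (hg3 : genus k x = 3) (KC : Pair k x K) (hK : IsCanonical KC)
    (l : Fin 3 → K) (g : (Fin 3 → K) →ₗ[K] V) (hg : Function.Surjective g)
    (hker : LinearMap.ker g = Submodule.span K {l}) :
    finrank k (((triv k x (Fin 3)).map g).Hom KC) ≤ finrank k (rel l KC) := by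
  classical
  haveI := rel_finite KC hK.bundle l
  set M := (triv k x (Fin 3)).map g with hMdef
  have heM : ∀ j : Fin 3, g (Pi.single j 1) ∈ M.L0 ∧ g (Pi.single j 1) ∈ M.L1 := by
    intro j
    refine ⟨⟨Pi.single j 1, ?_, rfl⟩, ⟨Pi.single j 1, ?_, rfl⟩⟩
    · refine Submodule.mem_pi.2 fun i _ => ?_
      by_cases h : i = j
      · subst h; rw [Pi.single_eq_same]; exact Submodule.one_le.1 le_rfl
      · rw [Pi.single_eq_of_ne h]; exact zero_mem _
    · refine Submodule.mem_pi.2 fun i _ => ?_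
      by_cases h : i = j
      · subst h; rw [Pi.single_eq_same]; exact Submodule.one_le.1 le_rfl
      · rw [Pi.single_eq_of_ne h]; exact zero_mem _
  have hgl : g l = 0 := by
    have : l ∈ LinearMap.ker g := by rw [hker]; exact Submodule.mem_span_singleton_self l
    exact this
  have hrel : ∀ Φ : M.Hom KC, (fun j => (Φ : V →ₗ[K] K) (g (Pi.single j 1))) ∈ rel l KC := by
    intro Φ
    refine ⟨fun j => ⟨Φ.2.1 _ (heM j).1, Φ.2.2 _ (heM j).2⟩, ?_⟩
    have h1 : (Φ : V →ₗ[K] K) (g l) = ∑ j, l j • (Φ : V →ₗ[K] K) (g (Pi.single j 1)) := by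
      conv_lhs => rw [← Finset.univ_sum_single l]
      rw [map_sum, map_sum]
      refine Finset.sum_congr rfl fun j _ => ?_
      have : (Pi.single j (l j) : Fin 3 → K) = l j • Pi.single j 1 := by
        ext i; by_cases h : i = j
        · subst h; simp
        · simp [h]
      rw [this, map_smul, map_smul]
    rw [hgl, map_zero] at h1
    exact h1.symm
  let F : M.Hom KC →ₗ[k] rel l KC :=
    { toFun := fun Φ => ⟨_, hrel Φ⟩
      map_add' := fun Φ Ψ => by ext j; rfl
      map_smul' := fun c Φ => by ext j; rfl }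
  refine LinearMap.finrank_le_finrank_of_injective (f := F) fun Φ Ψ h => ?_
  have h1 : ∀ j : Fin 3, (Φ : V →ₗ[K] K) (g (Pi.single j 1)) =
      (Ψ : V →ₗ[K] K) (g (Pi.single j 1)) := fun j => congrFun (congrArg Subtype.val h) j
  have h2 : (Φ : V →ₗ[K] K) ∘ₗ g = (Ψ : V →ₗ[K] K) ∘ₗ g := by
    refine LinearMap.pi_ext' fun j => ?_
    ext
    simpa using h1 j
  ext v
  obtain ⟨u, rfl⟩ := hg v
  exact LinearMap.congr_fun h2 u

theorem rel_le (hg3 : genus k x = 3) (hh : ¬ HasG12 k x) (KC KC' L : Pair k x K)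
    (hK : IsCanonical KC) (hK' : KC'.IsBundle) (hKK : KC' ≤ KC)
    (hh0 : KC'.h0 = 2) (hGG' : KC'.GG) (hL : L.IsBundle) (hGG : L.GG) (hL0 : L.h0 = 3)
    (l : Fin 3 → K) (hl : IsBasisH0 l L) :
    finrank k (rel l KC) ≤ 2 + (colon KC' L).h0 := by
  classical
  -- a basis of `H^0(KC)`, the first two vectors a basis of `H^0(KC')`
  have hKCb : KC.IsBundle := hK.bundle
  haveI := rel_finite KC hK.bundle l
  have hKC0 : KC.h0 = 3 := (canon3 hg3 hh KC hK).2.1
  haveI := finite_H0 KC hKCb
  haveI := finite_H0 KC' hK'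
  haveI := finite_H0 L hL
  have hA : KC'.H0 ≤ KC.H0 := fun a ha => ⟨hKK.1 ha.1, hKK.2 ha.2⟩
  obtain ⟨w, hwli, hw0, hw1, hwspan, hw2⟩ : ∃ w : Fin 3 → K, LinearIndependent k w ∧
      w 0 ∈ KC'.H0 ∧ w 1 ∈ KC'.H0 ∧ Submodule.span k (Set.range w) = KC.H0 ∧ w 2 ∉ KC'.H0 := by
    let b : Basis (Fin 2) k KC'.H0 := (finBasisOfFinrankEq k KC'.H0 hh0)
    obtain ⟨w2, hw2, hw2'⟩ : ∃ w2 ∈ KC.H0, w2 ∉ KC'.H0 := by
      by_contra hcon
      push Not at hcon
      have : KC.H0 = KC'.H0 := le_antisymm hcon hA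
      have h3 : KC.h0 = KC'.h0 := by unfold h0; rw [this]
      omega
    have hb : LinearIndependent k (fun i => (b i : K)) :=
      b.linearIndependent.map' KC'.H0.subtype (Submodule.ker_subtype _)
    have hbs : Submodule.span k (Set.range (fun i => (b i : K))) = KC'.H0 := by
      have := b.span_eq
      have h2 := congrArg (Submodule.map KC'.H0.subtype) this
      rw [Submodule.map_span, Submodule.map_top, Submodule.range_subtype, ← Set.range_comp] at h2
      exact h2
    have hw : LinearIndependent k (Fin.snoc (fun i => (b i : K)) w2 : Fin 3 → K) := by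
      rw [linearIndependent_finSnoc]
      exact ⟨hb, by rw [hbs]; exact hw2'⟩
    refine ⟨Fin.snoc (fun i => (b i : K)) w2, hw, (b 0).2, (b 1).2, ?_, hw2'⟩
    apply Submodule.eq_of_le_of_finrank_eq
    · rw [Submodule.span_le]
      rintro _ ⟨i, rfl⟩
      fin_cases i
      · exact hA (b 0).2
      · exact hA (b 1).2
      · exact hw2
    · rw [finrank_span_eq_card hw]
      exact hKC0.symm
  have hw0ne : w 0 ≠ 0 := hwli.ne_zero 0
  have hw1ne : w 1 ≠ 0 := hwli.ne_zero 1
  obtain ⟨c, hc⟩ := Syz.exists_coord w hwli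
  have hspan' : ∀ a ∈ KC.H0, a = ∑ i, c i a • w i := fun a ha =>
    Syz.coord_sum w c hc a (by rw [hwspan]; exact ha)
  have hΦ : ∀ (Φ : rel l KC) (j : Fin 3), (Φ : Fin 3 → K) j ∈ KC.H0 := fun Φ j => Φ.2.1 j
  -- the maps `Λ i`
  let Λ : Fin 3 → (rel l KC →ₗ[k] K) := fun i =>
    { toFun := fun Φ => ∑ j, c i ((Φ : Fin 3 → K) j) • l j
      map_add' := fun Φ Ψ => by
        simp only [Submodule.coe_add, Pi.add_apply, map_add, add_smul,
          Finset.sum_add_distrib]
      map_smul' := fun t Φ => by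
        simp only [SetLike.val_smul, Pi.smul_apply, map_smul, smul_eq_mul, mul_smul,
          Finset.smul_sum, RingHom.id_apply] }
  have hΛ : ∀ i Φ, Λ i Φ = ∑ j, c i ((Φ : Fin 3 → K) j) • l j :=
    fun _ _ => rfl
  have hΛL : ∀ i Φ, Λ i Φ ∈ L.H0 := fun i Φ => by
    rw [hΛ]
    exact Submodule.sum_mem _ fun j _ => Submodule.smul_mem _ _ (Syz.basis_mem hl j)
  -- the relation
  have hrel : ∀ Φ : rel l KC, ∑ i, w i * Λ i Φ = 0 := by
    intro Φ
    have h1 : ∑ j, l j * (Φ : Fin 3 → K) j = 0 := Φ.2.2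
    rw [← h1]
    simp only [hΛ, Finset.mul_sum]
    rw [Finset.sum_comm]
    refine Finset.sum_congr rfl fun j _ => ?_
    conv_rhs => rw [hspan' _ (hΦ Φ j)]
    rw [Finset.mul_sum]
    refine Finset.sum_congr rfl fun i _ => ?_
    simp only [Algebra.smul_def]
    ring
  -- injectivity
  have hinj : ∀ Φ Ψ : rel l KC, (∀ i, Λ i Φ = Λ i Ψ) → Φ = Ψ := by
    intro Φ Ψ h
    have h1 : ∀ i j, c i ((Φ : Fin 3 → K) j) = c i ((Ψ : Fin 3 → K) j) := by
      intro i j
      have h2 := h i
      rw [hΛ, hΛ] at h2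
      have h3 : ∑ j, (c i ((Φ : Fin 3 → K) j) - c i ((Ψ : Fin 3 → K) j)) • l j = 0 := by
        simp only [sub_smul, Finset.sum_sub_distrib]
        rw [h2, sub_self]
      exact sub_eq_zero.1 (Fintype.linearIndependent_iff.1 hl.li _ h3 j)
    ext j
    rw [hspan' _ (hΦ Φ j), hspan' _ (hΦ Ψ j)]
    exact Finset.sum_congr rfl fun i _ => by rw [h1 i j]
  -- the kernel of `Λ 2`
  have hkerle : finrank k (LinearMap.ker (Λ 2)) ≤ (colon KC' L).h0 := by
    haveI := finite_H0 (colon KC' L) (isBundle_colon KC' L hK' hL)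
    have hmem : ∀ Φ : LinearMap.ker (Λ 2), Λ 0 Φ * (w 1)⁻¹ ∈ (colon KC' L).H0 := by
      intro Φ
      have h2 : Λ 2 Φ = 0 := Φ.2
      have h3 := hrel Φ
      rw [Fin.sum_univ_three, h2, mul_zero, add_zero] at h3
      -- `f * w 0` and `f * w 1` are sections of `L`
      have hf1 : Λ 0 Φ * (w 1)⁻¹ * w 1 = Λ 0 Φ := by
        rw [mul_assoc, inv_mul_cancel₀ hw1ne, mul_one]
      have hf0 : Λ 0 Φ * (w 1)⁻¹ * w 0 = - Λ 1 Φ := by
        have : w 0 * Λ 0 Φ = - (w 1 * Λ 1 Φ) := by linear_combination h3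
        have h4 : Λ 0 Φ * (w 1)⁻¹ * w 0 = (w 0 * Λ 0 Φ) * (w 1)⁻¹ := by ring
        rw [h4, this]
        field_simp
      let w' : Fin 2 → K := ![w 0, w 1]
      have hw'li : LinearIndependent k w' := by
        have h5 : w' = w ∘ Fin.castSucc := by
          ext i; fin_cases i <;> rfl
        rw [h5]
        exact hwli.comp _ (Fin.castSucc_injective 2)
      have hw' : IsBasisH0 w' KC' := by
        refine ⟨hw'li, ?_⟩
        apply Submodule.eq_of_le_of_finrank_eq
        · rw [Submodule.span_le]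
          rintro _ ⟨i, rfl⟩
          fin_cases i
          · exact hw0
          · exact hw1
        · rw [finrank_span_eq_card hw'li]
          exact hh0.symm
      have hj : ∀ j, Λ 0 Φ * (w 1)⁻¹ * w' j ∈ L.H0 := by
        intro j
        fin_cases j
        · show Λ 0 Φ * (w 1)⁻¹ * w 0 ∈ L.H0
          rw [hf0]; exact neg_mem (hΛL 1 Φ)
        · show Λ 0 Φ * (w 1)⁻¹ * w 1 ∈ L.H0
          rw [hf1]; exact hΛL 0 Φ
      exact ⟨fun d hd => Syz.smul_mem_of_basis0 hw' hGG' L.L0 _ (fun j => (hj j).1) d hd,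
        fun d hd => Syz.smul_mem_of_basis1 hw' hGG' L.L1 _ (fun j => (hj j).2) d hd⟩
    let F : LinearMap.ker (Λ 2) →ₗ[k] (colon KC' L).H0 :=
      { toFun := fun Φ => ⟨Λ 0 Φ * (w 1)⁻¹, hmem Φ⟩
        map_add' := fun Φ Ψ => by
          ext
          simp only [Submodule.coe_add, map_add, add_mul]
        map_smul' := fun t Φ => by
          ext
          simp only [SetLike.val_smul, map_smul, RingHom.id_apply, Algebra.smul_mul_assoc] }
    refine LinearMap.finrank_le_finrank_of_injective (f := F) ?_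
    intro Φ Ψ hF
    have h0' : Λ 0 Φ * (w 1)⁻¹ = Λ 0 Ψ * (w 1)⁻¹ := congrArg Subtype.val hF
    have h0 : Λ 0 Φ = Λ 0 Ψ := mul_right_cancel₀ (inv_ne_zero hw1ne) h0'
    have h2 : Λ 2 Φ = 0 := Φ.2
    have h2' : Λ 2 Ψ = 0 := Ψ.2
    have h3 := hrel Φ
    have h3' := hrel Ψ
    rw [Fin.sum_univ_three, h2, h0, mul_zero, add_zero] at h3
    rw [Fin.sum_univ_three, h2', mul_zero, add_zero] at h3'
    have h1 : Λ 1 Φ = Λ 1 Ψ := by
      have : w 1 * Λ 1 Φ = w 1 * Λ 1 Ψ := by linear_combination h3 - h3'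
      exact mul_left_cancel₀ hw1ne this
    ext1
    refine hinj Φ Ψ fun i => ?_
    fin_cases i
    · exact h0
    · exact h1
    · exact h2.trans h2'.symm
  -- the range of `Λ 2`
  have hrange : finrank k (LinearMap.range (Λ 2)) ≤ 2 := by
    have hle : LinearMap.range (Λ 2) ≤ L.H0 := by
      rintro _ ⟨Φ, rfl⟩; exact hΛL 2 Φ
    have hlt : LinearMap.range (Λ 2) < L.H0 := by
      refine lt_of_le_of_ne hle fun heq => hw2 ?_
      have key : ∀ j, ∃ Φ, Λ 2 Φ = l j := fun j => by
        have : l j ∈ LinearMap.range (Λ 2) := by rw [heq]; exact Syz.basis_mem hl j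
        exact this
      have hin0 : w 2 ∈ KC'.L0 := by
        rw [← colon_colon_unit KC' hK']
        intro t ht
        have : t * w 2 ∈ (colon L L).L0 := by
          refine fun d hd => ?_
          rw [smul_eq_mul]
          refine Syz.smul_mem_of_basis0 hl hGG L.L0 _ (fun j => ?_) d hd
          obtain ⟨Φ, hΦj⟩ := key j
          have h3 := hrel Φ
          rw [Fin.sum_univ_three, hΦj] at h3
          have h4 : t * w 2 * l j = -((w 0 * t) * Λ 0 Φ + (w 1 * t) * Λ 1 Φ) := by
            linear_combination t * h3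
          rw [h4]
          have h5 : ∀ u ∈ KC'.H0, ∀ v ∈ L.H0, u * t * v ∈ L.L0 := by
            intro u hu v hv
            obtain ⟨r, hr⟩ := Submodule.mem_one.1 (ht u hu.1)
            rw [smul_eq_mul] at hr
            rw [← hr]
            have := L.L0.smul_mem r hv.1
            rwa [Algebra.smul_def] at this
          exact neg_mem (add_mem (h5 _ hw0 _ (hΛL 0 Φ)) (h5 _ hw1 _ (hΛL 1 Φ)))
        rw [colon_self L hL] at this
        exact this
      have hin1 : w 2 ∈ KC'.L1 := by
        rw [← colon_colon_unit KC' hK']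
        intro t ht
        have : t * w 2 ∈ (colon L L).L1 := by
          refine fun d hd => ?_
          rw [smul_eq_mul]
          refine Syz.smul_mem_of_basis1 hl hGG L.L1 _ (fun j => ?_) d hd
          obtain ⟨Φ, hΦj⟩ := key j
          have h3 := hrel Φ
          rw [Fin.sum_univ_three, hΦj] at h3
          have h4 : t * w 2 * l j = -((w 0 * t) * Λ 0 Φ + (w 1 * t) * Λ 1 Φ) := by
            linear_combination t * h3
          rw [h4]
          have h5 : ∀ u ∈ KC'.H0, ∀ v ∈ L.H0, u * t * v ∈ L.L1 := by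
            intro u hu v hv
            obtain ⟨r, hr⟩ := Submodule.mem_one.1 (ht u hu.2)
            rw [smul_eq_mul] at hr
            rw [← hr]
            have := L.L1.smul_mem r hv.2
            rwa [Algebra.smul_def] at this
          exact neg_mem (add_mem (h5 _ hw0 _ (hΛL 0 Φ)) (h5 _ hw1 _ (hΛL 1 Φ)))
        rw [colon_self L hL] at this
        exact this
      exact ⟨hin0, hin1⟩
    have := Submodule.finrank_lt_finrank_of_lt hlt
    have h3 : finrank k L.H0 = 3 := hL0
    omega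
  have hrn := LinearMap.finrank_range_add_finrank_ker (K := k) (V := rel l KC) (V₂ := K) (Λ 2)
  omega


end Syz

theorem h0_syz (hg3 : genus k x = 3) (hh : ¬ HasG12 k x) (KC KC' L : Pair k x K)
    (hK : IsCanonical KC) (hK' : KC'.IsBundle) (hKK : KC' ≤ KC) (hd : KC'.deg = 3)
    (hh0 : KC'.h0 = 2) (hGG' : KC'.GG) (hL : L.IsBundle) (hGG : L.GG) (hL0 : L.h0 = 3)
    (hdeg : (L.deg : ℤ) + (colon KC' L).h0 = 5) (l : Fin 3 → K) (hl : IsBasisH0 l L)
    (g : (Fin 3 → K) →ₗ[K] V) (hg : Function.Surjective g)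
    (hker : LinearMap.ker g = Submodule.span K {l}) :
    ((triv k x (Fin 3)).map g).h0 ≤ 3 := by
  classical
  set M := (triv k x (Fin 3)).map g with hMdef
  have hM : M.IsBundle := isBundle_map _ (isBundle_triv _) _ hg
  have hMdeg : M.deg = L.deg := deg_syz L hL hGG l hl g hg hker
  have hl0 : l ≠ 0 := by
    intro h
    have := hl.li.ne_zero 0
    rw [h] at this
    exact this rfl
  have hrank : finrank K V = 2 := by
    have h1 := LinearMap.finrank_range_add_finrank_ker g
    rw [LinearMap.range_eq_top.2 hg, finrank_top, hker, finrank_span_singleton hl0] at h1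
    simp at h1
    omega
  have hchi := chi_eq M
  rw [hMdeg, hrank, hg3] at hchi
  have hchi' : (M.h0 : ℤ) - M.h1 = L.deg - 4 := by
    have : M.chi = (M.h0 : ℤ) - M.h1 := rfl
    rw [← this, hchi]; push_cast; ring
  obtain ⟨hfd, hdual⟩ := hK.dual V M hM
  haveI := hfd
  -- it is enough to bound `Hom(M, KC)`
  suffices hsuff : finrank k (M.Hom KC) ≤ 2 + (colon KC' L).h0 by
    rw [hdual] at hsuff
    have : (M.h1 : ℤ) ≤ 2 + (colon KC' L).h0 := by exact_mod_cast hsuff
    have : (M.h0 : ℤ) ≤ 3 := by linarith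
    exact_mod_cast this
  refine (Syz.hom_le_rel hg3 KC hK l g hg hker).trans ?_
  exact Syz.rel_le hg3 hh KC KC' L hK hK' hKK hh0 hGG' hL hGG hL0 l hl

end Pair

end Pool.Agent.MP_b814b1_ag
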