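import Pool.Agent.MP_b814b1_ag.Line3
import Pool.Agent.MP_b814b1_ag.Syz1
import Pool.Agent.MP_b814b1_ag.Syz2
import Pool.Agent.MP_b814b1_ag.Gamma
import Pool.Agent.MP_b814b1_ag.Split6

/-!
# MP_b814b1_ag, module C2: the sections of the bundle `E_0`
-/

open Polynomial Module
open scoped Topology

noncomputable section

set_option linter.unusedSectionVars false

namespace Pool.Agent.MP_b814b1_ag

variable {k K : Type} [Field k] [IsAlgClosed k] [CharZero k] [Field K] [Algebra k K] {x : K}
  [IsCurve k x]
variable {V : Type} [AddCommGroup V] [Module K V] [Module k V] [IsScalarTower k K V]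
  [FiniteDimensional K V]
variable {V' : Type} [AddCommGroup V'] [Module K V'] [Module k V'] [IsScalarTower k K V']
  [FiniteDimensional K V']
variable {V'' : Type} [AddCommGroup V''] [Module K V''] [Module k V''] [IsScalarTower k K V'']
  [FiniteDimensional K V'']

namespace Pair

open GammaAux Split6

/-- the degree of `E_0` -/
theorem deg_E (KC N : Pair k x K) (hKC : KC.IsBundle) (hN : N.IsBundle) (hKG : KC.GG)
    (hNG : N.GG) (n c ω : Fin 3 → K) (β : K) (hD : Data KC N n c ω β)
    (g : ((Fin 3 ⊕ Fin 3) → K) →ₗ[K] V) (hg : Function.Surjective g)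
    (hker : LinearMap.ker g = LinearMap.range (gam n c ω)) :
    ((triv k x (Fin 3 ⊕ Fin 3)).map g).deg = KC.deg + N.deg := by
  obtain ⟨h1, h2⟩ := deg_gamma KC N hKC hN hKG hNG n c ω β hD
  have h3 := deg_exact (triv k x (Fin 3 ⊕ Fin 3)) (isBundle_triv _) (gam n c ω) g h1 hg hker.symm
  rw [h2, deg_triv] at h3
  omega

/-- `h^0(E_0) = 6`. -/
theorem h0_E (hg3 : genus k x = 3) (hh : ¬ HasG12 k x) (KC KC' N : Pair k x K)
    (hK : IsCanonical KC) (hK' : KC'.IsBundle) (hKK : KC' ≤ KC) (hd : KC'.deg = 3)
    (hh0 : KC'.h0 = 2) (hGG' : KC'.GG) (hcK : (colon KC' KC).h0 = 1) (hN : N.IsBundle)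
    (hNd : N.deg = 5) (hN0 : N.h0 = 3) (hNG : N.GG) (hcN : (colon KC' N).h0 = 0)
    (n c ω : Fin 3 → K) (β : K) (hD : Data KC N n c ω β)
    (g : ((Fin 3 ⊕ Fin 3) → K) →ₗ[K] V) (hg : Function.Surjective g)
    (hker : LinearMap.ker g = LinearMap.range (gam n c ω)) :
    ((triv k x (Fin 3 ⊕ Fin 3)).map g).h0 = 6 := by
  classical
  obtain ⟨hKd, hK0, hKG⟩ := canon3 hg3 hh KC hK
  set E := (triv k x (Fin 3 ⊕ Fin 3)).map g with hE
  have hEb : E.IsBundle := isBundle_map _ (isBundle_triv _) g hg
  have hEd : E.deg = 9 := by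
    rw [hE, deg_E KC N hK.bundle hN hKG hNG n c ω β hD g hg hker, hKd, hNd]
    norm_num
  have hn0 : n 0 ≠ 0 := hD.hn.li.ne_zero 0
  have hω0 : ω 0 ≠ 0 := hD.hω.li.ne_zero 0
  refine le_antisymm ?_ ?_
  · -- upper bound
    have hW₂ : Submodule.span K {ω} = LinearMap.ker (g.comp (inr' K)) := by
      ext w
      rw [Submodule.mem_span_singleton]
      constructor
      · rintro ⟨s, rfl⟩
        rw [LinearMap.mem_ker, LinearMap.comp_apply, ← LinearMap.mem_ker, hker]
        refine ⟨![0, s], ?_⟩
        rw [gam_apply]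
        ext j
        rcases j with j | j <;> simp [inr']
      · intro hw
        rw [LinearMap.mem_ker, LinearMap.comp_apply, ← LinearMap.mem_ker, hker] at hw
        obtain ⟨v, hv⟩ := hw
        rw [gam_apply] at hv
        have h0 := congrFun hv (Sum.inl 0)
        have h0' : v 0 * n 0 = 0 := h0
        have hv0 : v 0 = 0 := by
          rcases mul_eq_zero.1 h0' with h | h
          · exact h
          · exact absurd h hn0
        refine ⟨v 1, ?_⟩
        ext j
        have hj := congrFun hv (Sum.inr j)
        have hj' : v 0 * c j + v 1 * ω j = w j := hj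
        rw [hv0, zero_mul, zero_add] at hj'
        exact hj'
    have hW₁ : Submodule.span K {n} = (LinearMap.ker g).map (fst' K) := by
      ext w
      rw [Submodule.mem_span_singleton]
      constructor
      · rintro ⟨t, rfl⟩
        refine ⟨gam n c ω ![t, 0], ?_, ?_⟩
        · rw [SetLike.mem_coe, hker]
          exact ⟨_, rfl⟩
        · rw [gam_apply]
          rfl
      · rintro ⟨u, hu, rfl⟩
        rw [SetLike.mem_coe, hker] at hu
        obtain ⟨v, rfl⟩ := hu
        refine ⟨v 0, ?_⟩
        rw [gam_apply]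
        rfl
    obtain ⟨f, p, hf, hps, hfp, hfmk, hmap, hle⟩ :=
      split (k := k) (x := x) g hg _ _ hW₂ hW₁
    have hdeg := deg_exact E hEb f p hf hps hfp
    have hh0 := h0_exact E hEb f p hf hps hfp
    rw [hmap] at hdeg hh0
    have d1 : ((triv k x (Fin 3)).map (Submodule.span K {n}).mkQ).deg = N.deg :=
      deg_syz N hN hNG n hD.hn _ (Submodule.mkQ_surjective _) (Submodule.ker_mkQ _)
    have d2 : ((triv k x (Fin 3)).map (Submodule.span K {ω}).mkQ).deg = KC.deg :=
      deg_syz KC hK.bundle hKG ω hD.hω _ (Submodule.mkQ_surjective _) (Submodule.ker_mkQ _)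
    have s1 : ((triv k x (Fin 3)).map (Submodule.span K {n}).mkQ).h0 ≤ 3 :=
      h0_syz hg3 hh KC KC' N hK hK' hKK hd (by assumption) hGG' hN hNG hN0
        (by rw [hNd, hcN]; norm_num) n hD.hn _ (Submodule.mkQ_surjective _)
        (Submodule.ker_mkQ _)
    have s2 : ((triv k x (Fin 3)).map (Submodule.span K {ω}).mkQ).h0 ≤ 3 :=
      h0_syz hg3 hh KC KC' KC hK hK' hKK hd (by assumption) hGG' hK.bundle hKG hK0
        (by rw [hKd, hcK]; norm_num) ω hD.hω _ (Submodule.mkQ_surjective _)
        (Submodule.ker_mkQ _)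
    have hb2 : ((triv k x (Fin 3)).map (Submodule.span K {ω}).mkQ).IsBundle :=
      isBundle_map _ (isBundle_triv _) _ (Submodule.mkQ_surjective _)
    have hbf : (E.comap f).IsBundle := isBundle_comap E hEb f hf
    have heq := (deg_le (E.comap f) _ hbf hb2 hle).2.1 (by
      rw [d2, hKd]
      rw [hEd, d1, hNd] at hdeg
      omega)
    rw [← heq] at hh0
    omega
  · -- lower bound
    have hTb : FiniteDimensional k E.H0 := finite_H0 E hEb
    have hcinj : Function.Injective (cst (k := k) (x := x) g) := by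
      rw [injective_iff_map_eq_zero]
      intro m hm
      have h5 : g (fun i => algebraMap k K (m i)) = 0 := by
        rw [← cst_apply (x := x), hm]; rfl
      rw [← LinearMap.mem_ker, hker] at h5
      obtain ⟨v, hv⟩ := h5
      rw [gam_apply] at hv
      have hl : ∀ j, v 0 * n j = algebraMap k K (m (Sum.inl j)) :=
        fun j => congrFun hv (Sum.inl j)
      have hr : ∀ j, v 0 * c j + v 1 * ω j = algebraMap k K (m (Sum.inr j)) :=
        fun j => congrFun hv (Sum.inr j)
      have hm1 : (fun j => m (Sum.inl j)) = 0 := by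
        refine const_inj n hD.hn.li _ (Submodule.mem_span_singleton.2 ⟨v 0, ?_⟩)
        ext j
        exact hl j
      have hv0 : v 0 = 0 := by
        have h6 := hl 0
        rw [show m (Sum.inl 0) = 0 from congrFun hm1 0, map_zero] at h6
        rcases mul_eq_zero.1 h6 with h | h
        · exact h
        · exact absurd h hn0
      have hm2 : (fun j => m (Sum.inr j)) = 0 := by
        refine const_inj ω hD.hω.li _ (Submodule.mem_span_singleton.2 ⟨v 1, ?_⟩)
        ext j
        have := hr j
        rw [hv0, zero_mul, zero_add] at this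
        exact this
      ext j
      rcases j with j | j
      · exact congrFun hm1 j
      · exact congrFun hm2 j
    have h7 := LinearMap.finrank_le_finrank_of_injective hcinj
    rw [Module.finrank_fintype_fun_eq_card, Fintype.card_sum, Fintype.card_fin] at h7
    exact h7

end Pair

end Pool.Agent.MP_b814b1_ag
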