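import Pool.Agent.MP_b814b1_ag.Line3
import Pool.Agent.MP_b814b1_ag.Syz1
import Pool.Agent.MP_b814b1_ag.Syz2
import Pool.Agent.MP_b814b1_ag.Gamma
import Pool.Agent.MP_b814b1_ag.Split6

/-!
# MP_b814b1_ag, module D: quotients of the bundle `E_0`
-/

open Polynomial Module
open scoped Topology

noncomputable section

set_option linter.unusedSectionVars false

namespace Pool.Agent.MP_b814b1_ag

variable {k K : Type} [Field k] [IsAlgClosed k] [CharZero k] [Field K] [Algebra k K] {x : K}
  [IsCurve k x]
variable {V : Type} [AddCommGroup V] [Module K V] [Module k V] [IsScalarTower k K V]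
  [FiniteDimensional K V]
variable {V' : Type} [AddCommGroup V'] [Module K V'] [Module k V'] [IsScalarTower k K V']
  [FiniteDimensional K V']
variable {V'' : Type} [AddCommGroup V''] [Module K V''] [Module k V''] [IsScalarTower k K V'']
  [FiniteDimensional K V'']

namespace Pair

namespace QuotAux

open Split6

/-- degree of the quotient of the trivial bundle of rank three by a subspace `U` containing a
vector `l` with independent entries -/
theorem quot3 (hg3 : genus k x = 3) (hh : ¬ HasG12 k x) (L : Pair k x K) (hL : L.IsBundle)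
    (hGG : L.GG) (l : Fin 3 → K) (hl : IsBasisH0 l L) (U : Submodule K (Fin 3 → K))
    (hU : l ∈ U) :
    (finrank K U = 1 → Submodule.span K {l} = U ∧ ((triv k x (Fin 3)).map U.mkQ).deg = L.deg) ∧
    (finrank K U = 2 → 3 ≤ ((triv k x (Fin 3)).map U.mkQ).deg) ∧
    (finrank K U = 3 → ((triv k x (Fin 3)).map U.mkQ).deg = 0) := by
  have hfr : finrank K ((Fin 3 → K) ⧸ U) + finrank K U = 3 := by
    rw [Submodule.finrank_quotient_add_finrank, Module.finrank_fintype_fun_eq_card,
      Fintype.card_fin]
  have hl0 : l ≠ 0 := by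
    rintro rfl
    exact hl.li.ne_zero 0 rfl
  refine ⟨fun h => ?_, fun h => ?_, fun h => ?_⟩
  · have hs : Submodule.span K {l} = U := by
      refine Submodule.eq_of_le_of_finrank_eq ?_ ?_
      · rw [Submodule.span_singleton_le_iff_mem]
        exact hU
      · rw [finrank_span_singleton hl0, h]
    refine ⟨hs, ?_⟩
    refine deg_syz L hL hGG l hl U.mkQ (Submodule.mkQ_surjective U) ?_
    rw [Submodule.ker_mkQ, hs]
  · refine line_quot hg3 hh l hl.li (by omega) U.mkQ (Submodule.mkQ_surjective U) ?_
    rw [Submodule.mkQ_apply, Submodule.Quotient.mk_eq_zero]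
    exact hU
  · exact deg_zero _ (by omega)

end QuotAux

open QuotAux Split6 GammaAux

theorem quot_E (hg3 : genus k x = 3) (hh : ¬ HasG12 k x) (KC KC' N : Pair k x K)
    (hK : IsCanonical KC) (hK' : KC'.IsBundle) (hKK : KC' ≤ KC) (hd : KC'.deg = 3)
    (hh0 : KC'.h0 = 2) (hGG' : KC'.GG) (hcK : (colon KC' KC).h0 = 1) (hN : N.IsBundle)
    (hNd : N.deg = 5) (hN0 : N.h0 = 3) (hNG : N.GG) (hcN : (colon KC' N).h0 = 0)
    (n c ω : Fin 3 → K) (β : K) (hD : Data KC N n c ω β)
    (g : ((Fin 3 ⊕ Fin 3) → K) →ₗ[K] V) (hg : Function.Surjective g)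
    (hker : LinearMap.range (gam n c ω) ≤ LinearMap.ker g) (h1 : 1 ≤ finrank K V)
    (h3 : finrank K V ≤ 3) :
    2 * (finrank K V : ℤ) + 1 ≤ ((triv k x (Fin 3 ⊕ Fin 3)).map g).deg := by
  classical
  obtain ⟨hKd, hK0, hKG⟩ := canon3 hg3 hh KC hK
  -- the two vectors in the kernel
  have hgn : g (Sum.elim n c) = 0 := by
    have : Sum.elim n c ∈ LinearMap.range (gam n c ω) := by
      refine ⟨Pi.single 0 1, ?_⟩
      rw [gam, Fintype.linearCombination_apply_single]
      simp
    exact hker this
  have hgω : g (inr' K ω) = 0 := by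
    have : (Sum.elim 0 ω : (Fin 3 ⊕ Fin 3) → K) ∈ LinearMap.range (gam n c ω) := by
      refine ⟨Pi.single 1 1, ?_⟩
      rw [gam, Fintype.linearCombination_apply_single]
      simp
    exact hker this
  set W₂ : Submodule K (Fin 3 → K) := LinearMap.ker (g.comp (inr' K)) with hW₂
  set W₁ : Submodule K (Fin 3 → K) := (LinearMap.ker g).map (fst' K) with hW₁
  have hω2 : ω ∈ W₂ := hgω
  have hn1 : n ∈ W₁ := ⟨Sum.elim n c, hgn, rfl⟩
  obtain ⟨f, p, hf, hps, hfp, hfmk, hmap, hle⟩ := split (k := k) (x := x) g hg W₂ W₁ hW₂ hW₁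
  set E := (triv k x (Fin 3 ⊕ Fin 3)).map g with hE
  have hEb : E.IsBundle := isBundle_map _ (isBundle_triv _) g hg
  have hdeg := deg_exact E hEb f p hf hps hfp
  have hb2 : ((triv k x (Fin 3)).map W₂.mkQ).IsBundle :=
    isBundle_map _ (isBundle_triv _) _ W₂.mkQ_surjective
  have hbf : (E.comap f).IsBundle := isBundle_comap E hEb f hf
  obtain ⟨hle1, hle2, -⟩ := deg_le (E.comap f) _ hbf hb2 hle
  rw [hmap] at hdeg
  -- ranks
  have hr := rank_exact f p hf hps hfp
  have hr2 : finrank K ((Fin 3 → K) ⧸ W₂) + finrank K W₂ = 3 := by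
    rw [Submodule.finrank_quotient_add_finrank, Module.finrank_fintype_fun_eq_card,
      Fintype.card_fin]
  have hr1 : finrank K ((Fin 3 → K) ⧸ W₁) + finrank K W₁ = 3 := by
    rw [Submodule.finrank_quotient_add_finrank, Module.finrank_fintype_fun_eq_card,
      Fintype.card_fin]
  obtain ⟨a1, a2, a3⟩ := quot3 hg3 hh KC hK.bundle hKG ω hD.hω W₂ hω2
  obtain ⟨b1, b2, b3⟩ := quot3 hg3 hh N hN hNG n hD.hn W₁ hn1
  have hω0 : ω ≠ 0 := by
    rintro rfl
    exact hD.hω.li.ne_zero 0 rfl
  have hn0 : n ≠ 0 := by
    rintro rfl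
    exact hD.hn.li.ne_zero 0 rfl
  have pa : 1 ≤ finrank K W₂ := by
    rw [Nat.one_le_iff_ne_zero]
    intro h
    rw [Submodule.finrank_eq_zero] at h
    rw [h, Submodule.mem_bot] at hω2
    exact hω0 hω2
  have pb : 1 ≤ finrank K W₁ := by
    rw [Nat.one_le_iff_ne_zero]
    intro h
    rw [Submodule.finrank_eq_zero] at h
    rw [h, Submodule.mem_bot] at hn1
    exact hn0 hn1
  -- the critical case
  have crit : finrank K W₂ = 1 → finrank K W₁ = 3 → 5 ≤ E.deg := by
    intro hw2 hw1
    by_contra hcon
    obtain ⟨hs, hdK⟩ := a1 hw2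
    have hd3 := b3 hw1
    have hEd : (E.comap f).deg = E.deg := by rw [hdeg, hd3, add_zero]
    have h4 : (E.comap f).deg = 4 := by
      rw [hdK, hKd] at hle1
      rw [hEd] at hle1 ⊢
      omega
    have heq := hle2 (by rw [hdK, hKd, h4])
    -- sections
    have hs3 := h0_syz hg3 hh KC KC' KC hK hK' hKK hd hh0 hGG' hK.bundle hKG hK0
      (by rw [hKd, hcK]; norm_num) ω hD.hω W₂.mkQ W₂.mkQ_surjective
      (by rw [Submodule.ker_mkQ, hs])
    -- constants
    set T := (triv k x (Fin 3)).map W₂.mkQ with hT
    have hTb : FiniteDimensional k T.H0 := finite_H0 T hb2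
    have hcstv : ∀ m, (cst (k := k) (x := x) W₂.mkQ m : (Fin 3 → K) ⧸ W₂) =
        W₂.mkQ (fun i => algebraMap k K (m i)) := fun m => rfl
    have hcinj : Function.Injective (cst (k := k) (x := x) W₂.mkQ) := by
      rw [injective_iff_map_eq_zero]
      intro m hm
      have h5 : W₂.mkQ (fun i => algebraMap k K (m i)) = 0 := by
        rw [← hcstv, hm]; rfl
      rw [Submodule.mkQ_apply, Submodule.Quotient.mk_eq_zero, ← hs] at h5
      exact const_inj ω hD.hω.li m h5
    have hcsurj : Function.Surjective (cst (k := k) (x := x) W₂.mkQ) := by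
      have h6 : finrank k (Fin 3 → k) = finrank k T.H0 := by
        refine le_antisymm (LinearMap.finrank_le_finrank_of_injective hcinj) ?_
        rw [Module.finrank_fintype_fun_eq_card, Fintype.card_fin]
        exact hs3
      exact (LinearMap.injective_iff_surjective_of_finrank_eq_finrank h6).1 hcinj
    -- the constant vectors of the first summand
    have hp0 : ∀ v : V, v ∈ LinearMap.range f := by
      intro v
      rw [hfp, LinearMap.mem_ker]
      have : Subsingleton ((Fin 3 → K) ⧸ W₁) := Module.finrank_zero_iff.1 (by omega : finrank K ((Fin 3 → K) ⧸ W₁) = 0)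
      exact Subsingleton.elim _ _
    have hm : ∀ i : Fin 3, ∃ m : Fin 3 → k,
        g (Sum.elim (Pi.single i 1) 0) = g (inr' K (fun j => algebraMap k K (m j))) := by
      intro i
      obtain ⟨q, hq⟩ := hp0 (g (Sum.elim (Pi.single i 1) 0))
      have hq0 : q ∈ T.H0 := by
        have h7 : q ∈ (E.comap f).H0 := by
          constructor
          · change f q ∈ E.L0
            rw [hq]
            refine ⟨_, ?_, rfl⟩
            rintro (j | j) _
            · change (Pi.single i (1 : K) : Fin 3 → K) j ∈ (1 : Submodule (R0 k x) K)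
              rw [Pi.single_apply]
              split_ifs
              · exact Submodule.one_le.1 le_rfl
              · exact Submodule.zero_mem _
            · exact Submodule.zero_mem _
          · change f q ∈ E.L1
            rw [hq]
            refine ⟨_, ?_, rfl⟩
            rintro (j | j) _
            · change (Pi.single i (1 : K) : Fin 3 → K) j ∈ (1 : Submodule (R1 k x) K)
              rw [Pi.single_apply]
              split_ifs
              · exact Submodule.one_le.1 le_rfl
              · exact Submodule.zero_mem _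
            · exact Submodule.zero_mem _
        rw [← heq] at h7
        exact h7
      obtain ⟨m, hm⟩ := hcsurj ⟨q, hq0⟩
      refine ⟨m, ?_⟩
      have h8 : q = W₂.mkQ (fun i => algebraMap k K (m i)) := by
        rw [← hcstv, hm]
      rw [← hq, h8, hfmk]
    choose m hm using hm
    -- the vector of `W₂`
    have hvec : (fun j => c j + ∑ i, n i * algebraMap k K (m i j)) ∈ W₂ := by
      have e1 : (Sum.elim n c : (Fin 3 ⊕ Fin 3) → K) =
          (∑ i, n i • Sum.elim (Pi.single i 1) 0) + inr' K c := by
        ext j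
        rcases j with j | j
        · simp [inr', Finset.sum_apply, Pi.single_apply]
        · simp [inr', Finset.sum_apply]
      rw [e1, map_add, map_sum] at hgn
      simp only [map_smul, hm] at hgn
      rw [hW₂, LinearMap.mem_ker]
      have e2 : (fun j => c j + ∑ i, n i * algebraMap k K (m i j)) =
          (∑ i, n i • (fun j => algebraMap k K (m i j))) + c := by
        ext j
        simp [Finset.sum_apply, add_comm]
      rw [e2, map_add, map_sum]
      simp only [map_smul]
      exact hgn
    rw [← hs] at hvec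
    obtain ⟨τ, hτ⟩ := Submodule.mem_span_singleton.1 hvec
    have hτj : ∀ j, τ * ω j = c j + ∑ i, n i * algebraMap k K (m i j) :=
      fun j => congrFun hτ j
    have hn' : ∀ i, n i ∈ N.H0 := basis_mem hD.hn
    have hsum : ∀ j, ∑ i, n i * algebraMap k K (m i j) ∈ N.H0 := by
      intro j
      refine Submodule.sum_mem _ fun i _ => ?_
      rw [mul_comm, ← Algebra.smul_def]
      exact Submodule.smul_mem _ _ (hn' i)
    have hτ0 : τ ∈ (colon KC N).L0 := by
      rw [mem_colon0 hD.hω hKG]
      intro j
      rw [smul_eq_mul, mul_comm, hτj]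
      exact N.L0.add_mem (hD.hc0 j) (hsum j).1
    have hτ1 : τ - β ∈ (colon KC N).L1 := by
      rw [mem_colon1 hD.hω hKG]
      intro j
      have : ω j • (τ - β) = (c j - β * ω j) + ∑ i, n i * algebraMap k K (m i j) := by
        rw [smul_eq_mul, mul_sub, mul_comm (ω j) τ, hτj]
        ring
      rw [this]
      exact N.L1.add_mem (hD.hc1 j) (hsum j).2
    apply hD.hβ
    have : β = τ + (-(τ - β)) := by ring
    rw [this]
    exact Submodule.add_mem_sup hτ0 (Submodule.neg_mem _ hτ1)
  -- all cases
  have ha3 : finrank K W₂ ≤ 3 := by omega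
  have hb3 : finrank K W₁ ≤ 3 := by omega
  rcases (by omega : finrank K W₂ = 1 ∨ finrank K W₂ = 2 ∨ finrank K W₂ = 3) with h | h | h <;>
  rcases (by omega : finrank K W₁ = 1 ∨ finrank K W₁ = 2 ∨ finrank K W₁ = 3) with h' | h' | h'
  · omega
  · have := (a1 h).2; have := b2 h'
    have : (finrank K V : ℤ) = 3 := by omega
    omega
  · have := crit h h'
    have : (finrank K V : ℤ) = 2 := by omega
    omega
  · have := a2 h; have := (b1 h').2
    have : (finrank K V : ℤ) = 3 := by omega
    omega
  · have := a2 h; have := b2 h'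
    have : (finrank K V : ℤ) = 2 := by omega
    omega
  · have := a2 h; have := b3 h'
    have : (finrank K V : ℤ) = 1 := by omega
    omega
  · have := a3 h; have := (b1 h').2
    have : (finrank K V : ℤ) = 2 := by omega
    omega
  · have := a3 h; have := b2 h'
    have : (finrank K V : ℤ) = 1 := by omega
    omega
  · omega

end Pair

end Pool.Agent.MP_b814b1_ag
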