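import Pool.Agent.MP_b814b1_ag.Coh2
import Pool.Agent.MP_b814b1_ag.Canon
import Pool.Agent.MP_b814b1_ag.Bundle
import Pool.Agent.MP_b814b1_ag.IsoInv
import Pool.Agent.MP_b814b1_ag.Colon

/-!
# MP_b814b1_ag, module E: the syzygy bundle is not semistable
-/

open Polynomial Module
open scoped Topology

noncomputable section

namespace Pool.Agent.MP_b814b1_ag

variable {k K : Type} [Field k] [IsAlgClosed k] [CharZero k] [Field K] [Algebra k K] {x : K}
  [IsCurve k x]
variable {V : Type} [AddCommGroup V] [Module K V] [Module k V] [IsScalarTower k K V]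
  [FiniteDimensional K V]
variable {V' : Type} [AddCommGroup V'] [Module K V'] [Module k V'] [IsScalarTower k K V']
  [FiniteDimensional K V']
variable {V'' : Type} [AddCommGroup V''] [Module K V''] [Module k V''] [IsScalarTower k K V'']
  [FiniteDimensional K V'']

namespace Unst

open Pair

/-- A full independent family of sections spans `H^0`. -/
theorem span_H0 (E : Pair k x V) (hE : E.IsBundle) {n : ℕ} (s : Fin n → V)
    (hs : ∀ i, s i ∈ E.H0) (hli : LinearIndependent k s) (h : E.h0 = n) :
    Submodule.span k (Set.range s) = E.H0 := by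
  have := finite_H0 E hE
  apply Submodule.eq_of_le_of_finrank_eq
  · rw [Submodule.span_le]
    rintro _ ⟨i, rfl⟩
    exact hs i
  · rw [finrank_span_eq_card hli, Fintype.card_fin]
    exact h.symm

/-- The span of the sections over `R0`. -/
theorem span_R0 (E : Pair k x V) {n : ℕ} (s : Fin n → V)
    (hspan : Submodule.span k (Set.range s) = E.H0) (hGG : E.GG) :
    Submodule.span (R0 k x) (Set.range s) = E.L0 := by
  rw [← hGG.1]
  apply le_antisymm
  · apply Submodule.span_mono
    rintro _ ⟨i, rfl⟩
    have : s i ∈ E.H0 := hspan ▸ Submodule.subset_span ⟨i, rfl⟩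
    exact this
  · rw [Submodule.span_le]
    intro v hv
    have hv' : v ∈ E.H0 := hv
    rw [← hspan] at hv'
    exact Submodule.span_le_restrictScalars k (R0 k x) _ hv'

/-- The span of the sections over `R1`. -/
theorem span_R1 (E : Pair k x V) {n : ℕ} (s : Fin n → V)
    (hspan : Submodule.span k (Set.range s) = E.H0) (hGG : E.GG) :
    Submodule.span (R1 k x) (Set.range s) = E.L1 := by
  rw [← hGG.2]
  apply le_antisymm
  · apply Submodule.span_mono
    rintro _ ⟨i, rfl⟩
    have : s i ∈ E.H0 := hspan ▸ Submodule.subset_span ⟨i, rfl⟩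
    exact this
  · rw [Submodule.span_le]
    intro v hv
    have hv' : v ∈ E.H0 := hv
    rw [← hspan] at hv'
    exact Submodule.span_le_restrictScalars k (R1 k x) _ hv'

theorem mem_one0 (a : K) : a ∈ (1 : Submodule (R0 k x) K) ↔ a ∈ R0 k x := by
  rw [Submodule.mem_one]
  constructor
  · rintro ⟨y, rfl⟩; exact y.2
  · intro h; exact ⟨⟨a, h⟩, rfl⟩

theorem mem_one1 (a : K) : a ∈ (1 : Submodule (R1 k x) K) ↔ a ∈ R1 k x := by
  rw [Submodule.mem_one]
  constructor
  · rintro ⟨y, rfl⟩; exact y.2
  · intro h; exact ⟨⟨a, h⟩, rfl⟩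

/-- The image of the trivial bundle under evaluation is `E`. -/
theorem map_ev (E : Pair k x V) {n : ℕ} (s : Fin n → V)
    (hspan : Submodule.span k (Set.range s) = E.H0) (hGG : E.GG) :
    (triv k x (Fin n)).map (Fintype.linearCombination K s) = E := by
  have h0 := span_R0 E s hspan hGG
  have h1 := span_R1 E s hspan hGG
  ext v
  · rw [← h0, Submodule.mem_span_range_iff_exists_fun]
    constructor
    · rintro ⟨c, hc, rfl⟩
      have hc' : ∀ i, c i ∈ R0 k x := fun i => (mem_one0 _).1 (hc i trivial)
      refine ⟨fun i => ⟨c i, hc' i⟩, ?_⟩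
      rw [LinearMap.coe_restrictScalars, Fintype.linearCombination_apply]
      rfl
    · rintro ⟨c, rfl⟩
      refine ⟨fun i => (c i : K), fun i _ => (mem_one0 _).2 (c i).2, ?_⟩
      rw [LinearMap.coe_restrictScalars, Fintype.linearCombination_apply]
      rfl
  · rw [← h1, Submodule.mem_span_range_iff_exists_fun]
    constructor
    · rintro ⟨c, hc, rfl⟩
      have hc' : ∀ i, c i ∈ R1 k x := fun i => (mem_one1 _).1 (hc i trivial)
      refine ⟨fun i => ⟨c i, hc' i⟩, ?_⟩
      rw [LinearMap.coe_restrictScalars, Fintype.linearCombination_apply]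
      rfl
    · rintro ⟨c, rfl⟩
      refine ⟨fun i => (c i : K), fun i _ => (mem_one1 _).2 (c i).2, ?_⟩
      rw [LinearMap.coe_restrictScalars, Fintype.linearCombination_apply]
      rfl

theorem ev_surj (E : Pair k x V) (hE : E.IsBundle) {n : ℕ} (s : Fin n → V)
    (hspan : Submodule.span k (Set.range s) = E.H0) (hGG : E.GG) :
    Function.Surjective (Fintype.linearCombination K s) := by
  rw [← LinearMap.range_eq_top, Fintype.range_linearCombination, eq_top_iff, ← hE.span0,
    Submodule.span_le, ← span_R0 E s hspan hGG]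
  exact Submodule.span_le_restrictScalars (R0 k x) K _

/-- Line quotients of a stable bundle of rank 4 and degree 9 have degree at least 3. -/
theorem quot_deg (E : Pair k x V) (hE : E.IsBundle)
    (hst : E.Stable) (hr : finrank K V = 4) (hd : E.deg = 9) (Φ : V →ₗ[K] K)
    (hΦ : Function.Surjective Φ) : 3 ≤ (E.map Φ).deg := by
  have hker : finrank K (LinearMap.ker Φ) = 3 := by
    have h1 := LinearMap.finrank_range_add_finrank_ker Φ
    rw [LinearMap.range_eq_top.2 hΦ, finrank_top, finrank_self, hr] at h1
    omega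
  have hne : LinearMap.ker Φ ≠ ⊥ := by
    intro h
    rw [h, finrank_bot] at hker
    omega
  have hne' : LinearMap.ker Φ ≠ ⊤ := by
    intro h
    rw [h, finrank_top, hr] at hker
    omega
  have h1 := hst _ hne hne'
  have h2 := deg_exact E hE (LinearMap.ker Φ).subtype Φ (Submodule.subtype_injective _) hΦ
    (by rw [Submodule.range_subtype])
  rw [hr, hd, hker] at h1
  rw [hd] at h2
  have h3 : (E.sub (LinearMap.ker Φ)).deg = (E.comap (LinearMap.ker Φ).subtype).deg := rfl
  push_cast at h1
  omega

/-- The subbundle generated by a section of `Hom(D, M)` has degree at least `deg D`. -/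
theorem line_lower (M : Pair k x V) (hM : M.IsBundle) (D : Pair k x K) (hD : D.IsBundle) (m : V)
    (hm0 : m ≠ 0) (h0 : ∀ d ∈ D.L0, d • m ∈ M.L0) (h1 : ∀ d ∈ D.L1, d • m ∈ M.L1) :
    D.deg ≤ (M.sub (Submodule.span K {m})).deg := by
  have hf : Function.Injective (LinearMap.toSpanSingleton K V m) := by
    rw [← LinearMap.ker_eq_bot, LinearMap.ker_toSpanSingleton K hm0]
  have h4 : Iso (M.comap (LinearMap.toSpanSingleton K V m))
      (M.comap (Submodule.span K {m}).subtype) :=
    iso_comap M (LinearMap.toSpanSingleton K V m) (Submodule.span K {m}).subtype hf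
      (Submodule.subtype_injective _) (by
        rw [Submodule.range_subtype]
        exact LinearMap.range_toSpanSingleton m)
  have h5 := h4.inv.2.2.2.2.2.1
  have h6' : D ≤ M.comap (LinearMap.toSpanSingleton K V m) :=
    ⟨fun d hd' => h0 d hd', fun d hd' => h1 d hd'⟩
  have h7 := (deg_le _ D (isBundle_comap M hM _ hf) hD h6').1
  rw [h5] at h7
  exact h7

end Unst

namespace Pair

open Unst

theorem not_semistable (hg3 : genus k x = 3) (E : Pair k x V) (hE : E.IsBundle)
    (hst : E.Stable) (hr : finrank K V = 4) (hd : E.deg = 9) (h6 : E.h0 = 6) (hGG : E.GG)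
    (s : Fin 6 → V) (hs : ∀ i, s i ∈ E.H0) (hli : LinearIndependent k s) :
    ¬ (kerBundle (k := k) (x := x) s).Semistable := by
  intro hss
  obtain ⟨KC, hK⟩ := exists_canonical k x
  have hKd := (canon_deg KC hK).1
  rw [hg3] at hKd
  have hKb := hK.bundle
  have hspan := span_H0 E hE s hs hli h6
  have hev := ev_surj E hE s hspan hGG
  set ev := Fintype.linearCombination K s with hevdef
  set M : Pair k x (LinearMap.ker ev) := kerBundle (k := k) (x := x) s with hM
  have hMb : M.IsBundle := isBundle_comap _ (isBundle_triv (Fin 6)) _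
    (Submodule.subtype_injective _)
  have hrk : finrank K (LinearMap.ker ev) = 2 := by
    have h1 := LinearMap.finrank_range_add_finrank_ker ev
    rw [LinearMap.range_eq_top.2 hev, finrank_top, finrank_fin_fun, hr] at h1
    omega
  have hMd : M.deg = -9 := by
    have h2 := deg_exact (triv k x (Fin 6)) (isBundle_triv (Fin 6)) (LinearMap.ker ev).subtype ev
      (Submodule.subtype_injective _) hev (by rw [Submodule.range_subtype])
    rw [deg_triv, map_ev E s hspan hGG, hd] at h2
    have h3 : M.deg = ((triv k x (Fin 6)).comap (LinearMap.ker ev).subtype).deg := rfl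
    omega
  set D := colon KC (unit k x) with hD
  have hDb : D.IsBundle := isBundle_colon _ _ hKb isBundle_unit
  have hDd : D.deg = -4 := by
    rw [hD, deg_colon _ _ hKb isBundle_unit, deg_unit, hKd, finrank_self]
    norm_num
  set B := colon D M with hB
  have hBb : B.IsBundle := isBundle_colon _ _ hDb hMb
  have hBd : B.deg = -1 := by
    rw [hB, deg_colon _ _ hDb hMb, hMd, hDd, hrk]
    norm_num
  have hchi : B.chi = -5 := by
    rw [chi_eq, hBd, hrk, hg3]
    norm_num
  obtain ⟨hfin, hdual⟩ := hK.dual (LinearMap.ker ev) B hBb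
  -- the coordinate functionals
  let φ : Fin 6 → (LinearMap.ker ev →ₗ[K] K) := fun i =>
    (LinearMap.proj i) ∘ₗ (LinearMap.ker ev).subtype
  have hφ : ∀ i, φ i ∈ B.Hom KC := by
    intro i
    refine ⟨fun v hv => ?_, fun v hv => ?_⟩
    · rw [← colon_colon_unit KC hKb]
      intro d hd'
      have h1 := hv d hd' i trivial
      exact h1
    · rw [← colon_colon_unit KC hKb]
      intro d hd'
      have h1 := hv d hd' i trivial
      exact h1
  have hφli : LinearIndependent k (fun i => (⟨φ i, hφ i⟩ : B.Hom KC)) := by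
    apply LinearIndependent.of_comp (Submodule.subtype _)
    change LinearIndependent k φ
    rw [Fintype.linearIndependent_iff]
    intro c hc
    by_contra hne
    push Not at hne
    obtain ⟨i0, hi0⟩ := hne
    let C' : (Fin 6 → K) →ₗ[K] K := Fintype.linearCombination K (fun i => algebraMap k K (c i))
    have hC : LinearMap.ker ev ≤ LinearMap.ker C' := by
      intro v hv
      rw [LinearMap.mem_ker, Fintype.linearCombination_apply]
      have h1 := LinearMap.congr_fun hc ⟨v, hv⟩
      rw [LinearMap.sum_apply] at h1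
      rw [LinearMap.zero_apply] at h1
      rw [← h1]
      refine Finset.sum_congr rfl fun i _ => ?_
      rw [LinearMap.smul_apply, smul_eq_mul, mul_comm, ← Algebra.smul_def]
      rfl
    let Φ : V →ₗ[K] K := ((LinearMap.ker ev).liftQ C' hC) ∘ₗ
      (LinearMap.quotKerEquivOfSurjective ev hev).symm.toLinearMap
    have hΦev : ∀ v, Φ (ev v) = C' v := by
      intro v
      have h1 : (LinearMap.quotKerEquivOfSurjective ev hev).symm (ev v) =
          (LinearMap.ker ev).mkQ v := by
        rw [LinearEquiv.symm_apply_eq]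
        rfl
      change ((LinearMap.ker ev).liftQ C' hC)
        ((LinearMap.quotKerEquivOfSurjective ev hev).symm (ev v)) = _
      rw [h1]
      rfl
    have hΦs : ∀ i, Φ (s i) = algebraMap k K (c i) := by
      intro i
      have h1 : ev (Pi.single i 1) = s i := by
        rw [hevdef, Fintype.linearCombination_apply_single, one_smul]
      rw [← h1, hΦev, Fintype.linearCombination_apply_single, one_smul]
    have hΦ : Function.Surjective Φ := by
      intro a
      refine ⟨(a / algebraMap k K (c i0)) • s i0, ?_⟩
      rw [map_smul, hΦs, smul_eq_mul, div_mul_cancel₀]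
      rw [Ne, FaithfulSMul.algebraMap_eq_zero_iff]
      exact hi0
    have h3 := quot_deg E hE hst hr hd Φ hΦ
    have h4 : E.map Φ ≤ unit k x := by
      refine ⟨?_, ?_⟩
      · rintro _ ⟨v, hv, rfl⟩
        rw [SetLike.mem_coe, ← span_R0 E s hspan hGG,
          Submodule.mem_span_range_iff_exists_fun] at hv
        obtain ⟨a, rfl⟩ := hv
        rw [map_sum]
        apply Submodule.sum_mem
        intro i _
        rw [map_smul]
        apply Submodule.smul_mem
        rw [LinearMap.coe_restrictScalars, hΦs]
        exact (mem_one0 _).2 ((R0 k x).algebraMap_mem _)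
      · rintro _ ⟨v, hv, rfl⟩
        rw [SetLike.mem_coe, ← span_R1 E s hspan hGG,
          Submodule.mem_span_range_iff_exists_fun] at hv
        obtain ⟨a, rfl⟩ := hv
        rw [map_sum]
        apply Submodule.sum_mem
        intro i _
        rw [map_smul]
        apply Submodule.smul_mem
        rw [LinearMap.coe_restrictScalars, hΦs]
        exact (mem_one1 _).2 ((R1 k x).algebraMap_mem _)
    have h5 := (deg_le (unit k x) (E.map Φ) isBundle_unit (isBundle_map E hE Φ hΦ) h4).1
    rw [deg_unit] at h5
    omega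
  have hge : 6 ≤ B.h1 := by
    rw [← hdual]
    have := hφli.fintype_card_le_finrank
    rwa [Fintype.card_fin] at this
  have hh0 : 1 ≤ B.h0 := by
    have : B.chi = (B.h0 : ℤ) - B.h1 := rfl
    omega
  have hex : ∃ m : LinearMap.ker ev, m ∈ B.H0 ∧ m ≠ 0 := by
    have hfin' := finite_H0 B hBb
    have h1 : B.H0 ≠ ⊥ := by
      intro h
      have : B.h0 = 0 := by
        rw [Pair.h0, h, finrank_bot]
      omega
    obtain ⟨m, hm, hm0⟩ := Submodule.exists_mem_ne_zero_of_ne_bot h1
    exact ⟨m, hm, hm0⟩
  obtain ⟨m, hm, hm0⟩ := hex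
  -- the line spanned by `m`
  have hfr : finrank K (Submodule.span K {m}) = 1 := finrank_span_singleton hm0
  have h1 : Submodule.span K {m} ≠ ⊥ := by
    intro h
    rw [h, finrank_bot] at hfr
    omega
  have h2 : Submodule.span K {m} ≠ ⊤ := by
    intro h
    rw [h, finrank_top, hrk] at hfr
    omega
  have h3 := hss _ h1 h2
  change (M.sub (Submodule.span K {m})).deg * (finrank K (LinearMap.ker ev) : ℤ) ≤
    M.deg * (finrank K (Submodule.span K {m}) : ℤ) at h3
  rw [hrk, hMd, hfr] at h3
  have h7 := line_lower M hMb D hDb m hm0 (fun d hd' => hm.1 d hd') (fun d hd' => hm.2 d hd')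
  push_cast at h3
  omega

end Pair

end Pool.Agent.MP_b814b1_ag
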