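import Pool.Agent.MP_b814b1_ag.Semicont
import Pool.Agent.MP_b814b1_ag.Mult
import Pool.Agent.MP_b814b1_ag.Unstable
import Pool.Agent.MP_b814b1_ag.QuotE
import Pool.Agent.MP_b814b1_ag.H0E
import Pool.Agent.MP_b814b1_ag.IsoInv

/-!
# MP_b814b1_ag: final assembly
-/

open Polynomial Module
open scoped Topology

noncomputable section

namespace Pool.Agent.MP_b814b1_ag

variable {k K : Type} [Field k] [IsAlgClosed k] [CharZero k] [Field K] [Algebra k K] {x : K}
  [IsCurve k x]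

open Pair

open IsoAux

theorem mod_open (r : ℕ) (d : ℤ) {h : ℕ} (f : Fin h → K) (c c' : ℕ) :
    IsOpen {e : Mod k x r d | ∃ E : StBun k x r d, Mod.mk E = e ∧ E.1.h0 ≤ c ∧
      finrank k (Pair.rel f E.1) ≤ c'} := by
  intro n N M m Psi
  refine ⟨{t | (fam (x := x) m Psi t).h0 ≤ c} ∩
    {t | finrank k (Pair.rel f (fam (x := x) m Psi t)) ≤ c'},
    @IsOpen.inter _ (zariski k n) _ _ (fam_h0_open m Psi c) (fam_rel_open m Psi f c'),
    fun t E hE => ?_⟩
  have h1 := (Iso.inv hE).2.2.2.1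
  have h2 := (Iso.inv hE).2.2.2.2.2.2.2.2.2 h f
  constructor
  · rintro ⟨E', hE', ha, hb⟩
    have hi := iso_of_mk_eq hE'
    have h3 := (Iso.inv hi).2.2.2.1
    have h4 := (Iso.inv hi).2.2.2.2.2.2.2.2.2 h f
    exact ⟨by rw [Set.mem_setOf_eq, ← h1, ← h3]; exact ha,
      by rw [Set.mem_setOf_eq, ← h2, ← h4]; exact hb⟩
  · rintro ⟨ha, hb⟩
    exact ⟨E, rfl, h1 ▸ ha, h2 ▸ hb⟩

theorem exists_E0 (hg3 : genus k x = 3) (hh : ¬ HasG12 k x) :
    ∃ E : StBun k x 4 9, E.1.h0 = 6 ∧ E.1.GG := by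
  obtain ⟨KC, hK⟩ := exists_canonical k x
  obtain ⟨hKd, hK0, hKG⟩ := canon3 hg3 hh KC hK
  obtain ⟨KC', N, hK', hKK, hd', hh0, hGG', hcK, hN, hNd, hN0, hN1, hNG, hcN, hpos⟩ :=
    exists_data hg3 hh KC hK
  obtain ⟨n, c, ω, β, hD⟩ := exists_Data KC N hK.bundle hN hK0 hN0 hN1 hpos
  obtain ⟨hinj, hdeg⟩ := deg_gamma KC N hK.bundle hN hKG hNG n c ω β hD
  -- the quotient map
  have hrk : finrank K (((Fin 3 ⊕ Fin 3) → K) ⧸ LinearMap.range (gam n c ω)) =
      finrank K (Fin 4 → K) := by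
    have h1 := Submodule.finrank_quotient_add_finrank (LinearMap.range (gam n c ω))
    rw [LinearMap.finrank_range_of_inj hinj] at h1
    simp only [finrank_pi, Fintype.card_sum, Fintype.card_fin] at h1 ⊢
    omega
  obtain ⟨e⟩ : Nonempty ((((Fin 3 ⊕ Fin 3) → K) ⧸ LinearMap.range (gam n c ω)) ≃ₗ[K]
      (Fin 4 → K)) := ⟨LinearEquiv.ofFinrankEq _ _ hrk⟩
  obtain ⟨g, hg⟩ : ∃ g : ((Fin 3 ⊕ Fin 3) → K) →ₗ[K] (Fin 4 → K),
      g = e.toLinearMap.comp (Submodule.mkQ _) := ⟨_, rfl⟩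
  have hgs : Function.Surjective g := by
    rw [hg]
    exact e.surjective.comp (Submodule.mkQ_surjective _)
  have hgk : LinearMap.ker g = LinearMap.range (gam n c ω) := by
    rw [hg, LinearMap.ker_comp, LinearEquiv.ker, Submodule.comap_bot, Submodule.ker_mkQ]
  have hEb := isBundle_map (triv k x (Fin 3 ⊕ Fin 3)) (isBundle_triv _) g hgs
  have hEd : ((triv k x (Fin 3 ⊕ Fin 3)).map g).deg = 9 := by
    have h1 := deg_exact (triv k x (Fin 3 ⊕ Fin 3)) (isBundle_triv _) (gam n c ω) g hinj hgs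
      hgk.symm
    rw [deg_triv, hdeg, hKd, hNd] at h1
    linarith
  have hst : ((triv k x (Fin 3 ⊕ Fin 3)).map g).Stable := by
    intro U hU hU'
    have hpos : 0 < finrank K U := by
      rw [Nat.pos_iff_ne_zero]
      intro h0
      exact hU (Submodule.finrank_eq_zero.1 h0)
    have hlt : finrank K U < 4 := by
      have := Submodule.finrank_lt (s := U) hU'
      simpa using this
    have hex := deg_exact ((triv k x (Fin 3 ⊕ Fin 3)).map g) hEb U.subtype U.mkQ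
      (Submodule.injective_subtype U) (Submodule.mkQ_surjective U)
      (by rw [Submodule.range_subtype, Submodule.ker_mkQ])
    have hq := Submodule.finrank_quotient_add_finrank U
    rw [show finrank K (Fin 4 → K) = 4 by simp] at hq
    rw [IsoAux.map_map] at hex
    have hquot := quot_E hg3 hh KC KC' N hK hK' hKK hd' hh0 hGG' hcK hN hNd hN0 hNG hcN n c ω β hD
      (V := (Fin 4 → K) ⧸ U) (U.mkQ.comp g) ((Submodule.mkQ_surjective U).comp hgs)
      (by
        rw [LinearMap.ker_comp, ← hgk]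
        exact LinearMap.ker_le_comap g) (by omega) (by omega)
    have hsub : (((triv k x (Fin 3 ⊕ Fin 3)).map g).sub U).deg =
        (((triv k x (Fin 3 ⊕ Fin 3)).map g).comap U.subtype).deg := rfl
    rw [hsub, hEd, show finrank K (Fin 4 → K) = 4 by simp]
    rw [hEd] at hex
    have hq' : (finrank K ((Fin 4 → K) ⧸ U) : ℤ) + finrank K U = 4 := by exact_mod_cast hq
    have hpos' : (0 : ℤ) < finrank K U := by exact_mod_cast hpos
    push_cast
    linarith
  refine ⟨⟨_, hEb, hst, hEd⟩, ?_, ?_⟩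
  · exact h0_E hg3 hh KC KC' N hK hK' hKK hd' hh0 hGG' hcK hN hNd hN0 hNG hcN n c ω β hD g hgs hgk
  · exact gg_map _ (gg_triv _) g hgs

theorem main (hg3 : genus k x = 3) (hh : ¬ HasG12 k x) :
    ∃ W ∈ irreducibleComponents (BN k x 4 9 6),
      General W (fun E => E.GG) ∧ General W (fun E => E.KernelUnstable 6) := by
  obtain ⟨E0, hE0, hE0G⟩ := exists_E0 hg3 hh
  obtain ⟨n, hn, htw⟩ := exists_twist k x
  obtain ⟨m0, hm0⟩ := gg_forward E0.1 E0.2.1 hE0G
  obtain ⟨m, hm⟩ : ∃ m, m = max 3 m0 := ⟨_, rfl⟩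
  have hm3 : 3 ≤ m := by omega
  have hmm0 : m0 ≤ m := by omega
  -- a basis of `H^0(O(m))`
  have hfin : FiniteDimensional k ((unit k x).twist m).H0 :=
    finite_H0 _ (isBundle_twist _ isBundle_unit m)
  obtain ⟨h, f, hf⟩ : ∃ (h : ℕ) (f : Fin h → K), IsBasisH0 f ((unit k x).twist m) := by
    refine ⟨_, fun i => (finBasis k ((unit k x).twist m).H0 i : K), ?_, ?_⟩
    · exact (finBasis k ((unit k x).twist m).H0).linearIndependent.map'
        (Submodule.subtype _) (Submodule.ker_subtype _)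
    · have h1 := (finBasis k ((unit k x).twist m).H0).span_eq
      have h2 := congrArg (Submodule.map (Submodule.subtype _)) h1
      rw [Submodule.map_span, Submodule.map_top, Submodule.range_subtype, ← Set.range_comp] at h2
      exact h2
  have hrel := hm0 m hmm0 h f hf
  have htw0 := h0_twist_stable hg3 n hn htw E0.1 E0.2.1 E0.2.2.1 (by simp) E0.2.2.2 m hm3
  rw [htw0.1, hE0] at hrel
  -- the open set
  set c' : ℕ := finrank k (rel f E0.1) with hc'
  have hopen := mod_open (k := k) (x := x) 4 9 f 6 c'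
  set U0 : Set (Mod k x 4 9) := {e | ∃ E : StBun k x 4 9, Mod.mk E = e ∧ E.1.h0 ≤ 6 ∧
      finrank k (Pair.rel f E.1) ≤ c'} with hU0
  -- the point
  let e0 : BN k x 4 9 6 := ⟨Mod.mk E0, E0, rfl, hE0.ge⟩
  have key : ∀ c : BN k x 4 9 6, c.1 ∈ U0 → ∀ E : StBun k x 4 9, Mod.mk E = c.1 →
      E.1.h0 = 6 ∧ E.1.GG := by
    rintro ⟨_, E1, rfl, h6⟩ ⟨E2, h2, h2a, h2b⟩ E hE
    have i1 := iso_of_mk_eq hE
    have i2 := iso_of_mk_eq (h2.trans hE.symm)
    have a1 : E.1.h0 = E1.1.h0 := (Iso.inv i1).2.2.2.1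
    have a2 : E2.1.h0 = E.1.h0 := (Iso.inv i2).2.2.2.1
    have a3 : finrank k (rel f E2.1) = finrank k (rel f E.1) :=
      (Iso.inv i2).2.2.2.2.2.2.2.2.2 h f
    have h6'' : 6 ≤ E1.1.h0 := h6
    have h6' : E.1.h0 = 6 := by omega
    have htwE := h0_twist_stable hg3 n hn htw E.1 E.2.1 E.2.2.1 (by simp) E.2.2.2 m hm3
    refine ⟨h6', gg_backward E.1 E.2.1 m htwE.2 h f hf ?_⟩
    rw [htwE.1, h6']
    omega
  refine ⟨irreducibleComponent e0, irreducibleComponent_mem_irreducibleComponents e0, ?_, ?_⟩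
  · refine ⟨Subtype.val ⁻¹' U0, hopen.preimage continuous_subtype_val, ⟨e0, ?_, ?_⟩, ?_⟩
    · exact ⟨E0, rfl, hE0.le, le_rfl⟩
    · exact mem_irreducibleComponent
    · intro c hc E hE
      exact (key c hc.1 E hE).2
  · refine ⟨Subtype.val ⁻¹' U0, hopen.preimage continuous_subtype_val, ⟨e0, ?_, ?_⟩, ?_⟩
    · exact ⟨E0, rfl, hE0.le, le_rfl⟩
    · exact mem_irreducibleComponent
    · intro c hc E hE
      obtain ⟨h6, hG⟩ := key c hc.1 E hE
      refine ⟨h6, fun s hs hli => ?_⟩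
      exact not_semistable hg3 E.1 E.2.1 E.2.2.1 (by simp) E.2.2.2 h6 hG s hs hli

end Pool.Agent.MP_b814b1_ag
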