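import Pool.Agent.MP_b814b1_ag.Defs2

/-!
# MP_b814b1_ag: basic facts on the embedding `ratHom : k(X) → K`
-/

open Polynomial Module
open scoped Topology IntermediateField

noncomputable section

namespace Pool.Agent.MP_b814b1_ag

namespace RatBase

variable (k : Type) {K : Type} [Field k] [Field K] [Algebra k K] (x : K) [IsCurve k x]

theorem ratHom_algebraMap (p : k[X]) : ratHom k x (algebraMap k[X] (RatFunc k) p) = aeval x p := by
  have h := RatFunc.liftAlgHom_apply_div (aeval x : k[X] →ₐ[k] K) (by
    intro p hp
    rw [Submonoid.mem_comap, mem_nonZeroDivisors_iff_ne_zero]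
    intro h0
    exact nonZeroDivisors.ne_zero hp (by
      by_contra hne
      exact (IsCurve.trans : Transcendental k x) ⟨p, hne, h0⟩)) p 1
  simp only [map_one, div_one] at h
  exact h

theorem ratHom_X : ratHom k x RatFunc.X = x := by
  rw [← RatFunc.algebraMap_X, ratHom_algebraMap, aeval_X]

theorem ratHom_C (c : k) : ratHom k x (RatFunc.C c) = algebraMap k K c := by
  rw [← RatFunc.algebraMap_C, ratHom_algebraMap, aeval_C]

theorem ratHom_injective : Function.Injective (ratHom k x) := (ratHom k x).toRingHom.injective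

theorem fieldRange : (ratHom k x).fieldRange = k⟮x⟯ := by
  apply le_antisymm
  · rintro _ ⟨f, rfl⟩
    have h : ratHom k x f = aeval x f.num / aeval x f.denom := by
      conv_lhs => rw [← RatFunc.num_div_denom f]
      rw [map_div₀, ratHom_algebraMap, ratHom_algebraMap]
    show ratHom k x f ∈ k⟮x⟯
    rw [h]
    have hx : x ∈ k⟮x⟯ := IntermediateField.mem_adjoin_simple_self k x
    have hp : ∀ p : k[X], aeval x p ∈ k⟮x⟯ := fun p => by
      have := (aeval (⟨x, hx⟩ : k⟮x⟯) p).2
      have h2 : ((aeval (⟨x, hx⟩ : k⟮x⟯) p : k⟮x⟯) : K) = aeval x p := by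
        have := aeval_algebraMap_apply K (⟨x, hx⟩ : k⟮x⟯) p
        exact this.symm
      rw [← h2]; exact this
    exact div_mem (hp _) (hp _)
  · rw [IntermediateField.adjoin_le_iff]
    intro y hy
    rw [Set.mem_singleton_iff] at hy
    exact ⟨RatFunc.X, by rw [hy]; exact ratHom_X k x⟩

/-- `K` as an algebra over `k(X)`. -/
abbrev alg : Algebra (RatFunc k) K := (ratHom k x).toRingHom.toAlgebra

theorem smul_def (f : RatFunc k) (a : K) : letI := alg k x; f • a = ratHom k x f * a := by
  letI := alg k x
  exact Algebra.smul_def f a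

theorem finiteDimensional : letI := alg k x; FiniteDimensional (RatFunc k) K := by
  letI := alg k x
  have hfin : FiniteDimensional k⟮x⟯ K := IsCurve.fin
  obtain ⟨s, hs⟩ := hfin.fg_top
  refine ⟨⟨s, ?_⟩⟩
  rw [Submodule.eq_top_iff']
  intro v
  have hv : v ∈ Submodule.span k⟮x⟯ (s : Set K) := by rw [hs]; trivial
  induction hv using Submodule.span_induction with
  | mem a ha => exact Submodule.subset_span ha
  | zero => exact zero_mem _
  | add a b _ _ ha hb => exact add_mem ha hb
  | smul c a _ ha =>
    have hc : (c : K) ∈ (ratHom k x).fieldRange := by rw [fieldRange]; exact c.2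
    obtain ⟨f, hf⟩ := hc
    have h1 : c • a = f • a := by
      rw [Algebra.smul_def (R := RatFunc k)]
      show (c : K) * a = ratHom k x f * a
      rw [← hf]
      rfl
    rw [h1]
    exact Submodule.smul_mem _ f ha

theorem isScalarTower : letI := alg k x; IsScalarTower k (RatFunc k) K := by
  letI := alg k x
  refine IsScalarTower.of_algebraMap_eq' ?_
  ext c
  show algebraMap k K c = ratHom k x (algebraMap k (RatFunc k) c)
  rw [AlgHom.commutes]

end RatBase

end Pool.Agent.MP_b814b1_ag
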