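import Pool.Agent.MP_b814b1_ag.Coh2
import Pool.Agent.MP_b814b1_ag.Bundle

/-!
# MP_b814b1_ag, module G: semicontinuity
-/

open Polynomial Module
open scoped Topology

noncomputable section

namespace Pool.Agent.MP_b814b1_ag

variable {k K : Type} [Field k] [IsAlgClosed k] [CharZero k] [Field K] [Algebra k K] {x : K}
  [IsCurve k x]
variable {V : Type} [AddCommGroup V] [Module K V] [Module k V] [IsScalarTower k K V]
  [FiniteDimensional K V]
variable {V' : Type} [AddCommGroup V'] [Module K V'] [Module k V'] [IsScalarTower k K V']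
  [FiniteDimensional K V']
variable {V'' : Type} [AddCommGroup V''] [Module K V''] [Module k V''] [IsScalarTower k K V'']
  [FiniteDimensional K V'']

namespace SemiAux

/-- The determinant polynomials. -/
def poly {k : Type} [Field k] {X Y : Type} [AddCommGroup X] [Module k X]
    [AddCommGroup Y] [Module k Y] {n : ℕ} (A0 : X →ₗ[k] Y)
    (A : Fin n → X →ₗ[k] Y) {r : ℕ} (u : Fin r → X) (f : Fin r → Dual k Y) :
    MvPolynomial (Fin n) k :=
  Matrix.det (Matrix.of fun i j => MvPolynomial.C (f i (A0 (u j))) +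
    ∑ l, MvPolynomial.X l * MvPolynomial.C (f i (A l (u j))))

theorem eval_poly {k : Type} [Field k] {X Y : Type} [AddCommGroup X] [Module k X]
    [AddCommGroup Y] [Module k Y] {n : ℕ} (A0 : X →ₗ[k] Y)
    (A : Fin n → X →ₗ[k] Y) {r : ℕ} (u : Fin r → X) (f : Fin r → Dual k Y) (t : Fin n → k) :
    MvPolynomial.eval t (poly A0 A u f) =
      Matrix.det (Matrix.of fun i j => f i ((A0 + ∑ l, t l • A l) (u j))) := by
  rw [poly, RingHom.map_det]
  congr 1
  ext i j
  simp [RingHom.mapMatrix_apply, Matrix.map_apply, LinearMap.add_apply, LinearMap.sum_apply]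

theorem exists_dual {k : Type} [Field k] {Y : Type} [AddCommGroup Y] [Module k Y] {r : ℕ}
    (y : Fin r → Y) (hy : LinearIndependent k y) :
    ∃ f : Fin r → Dual k Y, ∀ i j, f i (y j) = if i = j then 1 else 0 := by
  classical
  have h : ∀ i, ∃ g : Y →ₗ[k] k, g ∘ₗ (Submodule.span k (Set.range y)).subtype =
      (Finsupp.lapply i : (Fin r →₀ k) →ₗ[k] k) ∘ₗ hy.repr :=
    fun i => LinearMap.exists_extend _
  choose g hg using h
  refine ⟨g, fun i j => ?_⟩
  have h1 := LinearMap.congr_fun (hg i) ⟨y j, Submodule.subset_span ⟨j, rfl⟩⟩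
  simp only [LinearMap.comp_apply, Submodule.subtype_apply] at h1
  rw [h1]
  have h2 : hy.repr ⟨y j, Submodule.subset_span ⟨j, rfl⟩⟩ = Finsupp.single j 1 :=
    hy.repr_eq_single j _ rfl
  rw [h2, Finsupp.lapply_apply, Finsupp.single_apply]
  by_cases h : j = i
  · rw [if_pos h, if_pos h.symm]
  · rw [if_neg h, if_neg fun e => h e.symm]

theorem li_of_det {k : Type} [Field k] {Y : Type} [AddCommGroup Y] [Module k Y] {r : ℕ}
    (y : Fin r → Y) (f : Fin r → Dual k Y)
    (h : Matrix.det (Matrix.of fun i j => f i (y j)) ≠ 0) : LinearIndependent k y := by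
  rw [Fintype.linearIndependent_iff]
  intro g hg
  have h1 : Matrix.mulVec (Matrix.of fun i j => f i (y j)) g = 0 := by
    ext i
    simp only [Matrix.mulVec, dotProduct, Matrix.of_apply, Pi.zero_apply]
    have := congrArg (f i) hg
    rw [map_sum, map_zero] at this
    rw [← this]
    exact Finset.sum_congr rfl fun j _ => by rw [map_smul, smul_eq_mul, mul_comm]
  have := Matrix.eq_zero_of_mulVec_eq_zero h h1
  exact fun i => congrFun this i

end SemiAux

theorem isOpen_ker {k : Type} [Field k] {X Y : Type} [AddCommGroup X] [Module k X]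
    [FiniteDimensional k X] [AddCommGroup Y] [Module k Y] {n : ℕ} (A0 : X →ₗ[k] Y)
    (A : Fin n → X →ₗ[k] Y) (c : ℕ) :
    IsOpen[zariski k n] {t | finrank k (LinearMap.ker (A0 + ∑ j, t j • A j)) ≤ c} := by
  refine ⟨{p | ∃ (u : Fin (finrank k X - c) → X) (f : Fin (finrank k X - c) → Dual k Y),
    p = SemiAux.poly A0 A u f}, fun t => ?_⟩
  rw [Set.mem_ofPred_eq]
  have hrn := LinearMap.finrank_range_add_finrank_ker (A0 + ∑ j, t j • A j)
  constructor
  · intro h
    have h1 : finrank k X - c ≤ finrank k (LinearMap.range (A0 + ∑ j, t j • A j)) := by omega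
    obtain ⟨w, hw⟩ := exists_linearIndependent_of_le_finrank (R := k) h1
    have hw' : LinearIndependent k (fun i => (w i : Y)) :=
      hw.map' (Submodule.subtype _) (Submodule.ker_subtype _)
    have : ∀ i, ∃ u : X, (A0 + ∑ j, t j • A j) u = (w i : Y) := fun i => (w i).2
    choose u hu using this
    obtain ⟨f, hf⟩ := SemiAux.exists_dual _ hw'
    refine ⟨_, ⟨u, f, rfl⟩, ?_⟩
    rw [SemiAux.eval_poly]
    have : (Matrix.of fun i j => f i ((A0 + ∑ l, t l • A l) (u j))) =
        (1 : Matrix (Fin (finrank k X - c)) (Fin (finrank k X - c)) k) := by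
      ext i j
      rw [Matrix.of_apply, hu, hf, Matrix.one_apply]
    rw [this, Matrix.det_one]
    exact one_ne_zero
  · rintro ⟨_, ⟨u, f, rfl⟩, h⟩
    rw [SemiAux.eval_poly] at h
    have h1 := SemiAux.li_of_det (fun j => (A0 + ∑ l, t l • A l) (u j)) f h
    have h2 : LinearIndependent k (fun j => (⟨(A0 + ∑ l, t l • A l) (u j),
        LinearMap.mem_range_self _ _⟩ : LinearMap.range (A0 + ∑ l, t l • A l))) := by
      apply LinearIndependent.of_comp (Submodule.subtype _)
      exact h1
    have h3 := h2.fintype_card_le_finrank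
    rw [Fintype.card_fin] at h3
    omega

namespace SemiAux

/-- The bundle `O(m)^N`. -/
abbrev big (k : Type) {K : Type} [Field k] [Field K] [Algebra k K] (x : K) (m N : ℕ) :
    Pair k x (Fin N → K) := (Pair.triv k x (Fin N)).twist m

/-- The linear map attached to a matrix, restricted to global sections. -/
def act {n N M : ℕ} (m : ℕ) (Psi : Fin n → Matrix (Fin M) (Fin N) K) (j : Fin n) :
    (big k x m N).H0 →ₗ[k] (Fin M → K) :=
  ((Matrix.toLin' (Psi j)).restrictScalars k) ∘ₗ (Submodule.subtype _)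

/-- The same for tuples. -/
def actT {n N M h : ℕ} (m : ℕ) (Psi : Fin n → Matrix (Fin M) (Fin N) K) (f : Fin h → K)
    (j : Fin n) : (Pair.rel f (big k x m N)) →ₗ[k] (Fin h → Fin M → K) :=
  (LinearMap.pi fun i => ((Matrix.toLin' (Psi j)).restrictScalars k) ∘ₗ (LinearMap.proj i)) ∘ₗ
    (Submodule.subtype _)

theorem toLin_sum {n N M : ℕ} (Psi : Fin n → Matrix (Fin M) (Fin N) K) (t : Fin n → k)
    (v : Fin N → K) : Matrix.toLin' (∑ j, algebraMap k K (t j) • Psi j) v =
      ∑ j, t j • Matrix.toLin' (Psi j) v := by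
  rw [map_sum, LinearMap.sum_apply]
  refine Finset.sum_congr rfl fun j _ => ?_
  rw [map_smul, LinearMap.smul_apply, algebraMap_smul]

theorem act_ker {n N M : ℕ} (m : ℕ) (Psi : Fin n → Matrix (Fin M) (Fin N) K) (t : Fin n → k)
    (v : (big k x m N).H0) : v ∈ LinearMap.ker (0 + ∑ j, t j • act m Psi j) ↔
      (v : Fin N → K) ∈ LinearMap.ker
        (Matrix.toLin' (∑ j, algebraMap k K (t j) • Psi j)) := by
  rw [LinearMap.mem_ker, LinearMap.mem_ker, toLin_sum, zero_add, LinearMap.sum_apply]
  rfl

theorem actT_ker {n N M h : ℕ} (m : ℕ) (Psi : Fin n → Matrix (Fin M) (Fin N) K) (f : Fin h → K)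
    (t : Fin n → k) (s : Pair.rel f (big k x m N)) :
    s ∈ LinearMap.ker (0 + ∑ j, t j • actT m Psi f j) ↔ ∀ i, (s : Fin h → Fin N → K) i ∈
      LinearMap.ker (Matrix.toLin' (∑ j, algebraMap k K (t j) • Psi j)) := by
  rw [LinearMap.mem_ker, zero_add, LinearMap.sum_apply]
  constructor
  · intro hs i
    rw [LinearMap.mem_ker, toLin_sum]
    have := congrFun hs i
    rw [Finset.sum_apply] at this
    exact this
  · intro hs
    funext i
    have := hs i
    rw [LinearMap.mem_ker, toLin_sum] at this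
    rw [Finset.sum_apply]
    exact this

end SemiAux

theorem fam_h0_open {n N M : ℕ} (m : ℕ) (Psi : Fin n → Matrix (Fin M) (Fin N) K) (c : ℕ) :
    IsOpen[zariski k n] {t | (fam (x := x) m Psi t).h0 ≤ c} := by
  have : FiniteDimensional k (SemiAux.big k x m N).H0 :=
    Pair.finite_H0 _ (Pair.isBundle_twist _ (Pair.isBundle_triv _) m)
  have key : ∀ t : Fin n → k, (fam (x := x) m Psi t).h0 =
      finrank k (LinearMap.ker (0 + ∑ j, t j • SemiAux.act (k := k) (x := x) m Psi j)) := by
    intro t
    refine LinearEquiv.finrank_eq ?_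
    refine LinearEquiv.ofBijective
      (f := LinearMap.codRestrict _ (LinearMap.codRestrict (SemiAux.big k x m N).H0
        (((LinearMap.ker (Matrix.toLin' (∑ j, algebraMap k K (t j) • Psi j))).subtype.restrictScalars
          k) ∘ₗ (Submodule.subtype (fam (x := x) m Psi t).H0)) ?_) ?_) ⟨?_, ?_⟩
    · rintro ⟨v, hv⟩
      exact hv
    · rintro ⟨v, hv⟩
      rw [SemiAux.act_ker]
      exact v.2
    · intro v w hvw
      apply Subtype.ext
      apply Subtype.ext
      exact congrArg (fun z => ((z : (SemiAux.big k x m N).H0) : Fin N → K))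
        (congrArg Subtype.val hvw)
    · rintro ⟨v, hv⟩
      rw [SemiAux.act_ker] at hv
      exact ⟨⟨⟨v, hv⟩, v.2⟩, rfl⟩
  have := isOpen_ker (0 : (SemiAux.big k x m N).H0 →ₗ[k] (Fin M → K))
    (SemiAux.act (k := k) (x := x) m Psi) c
  simpa only [key] using this

theorem fam_rel_open {n N M : ℕ} (m : ℕ) (Psi : Fin n → Matrix (Fin M) (Fin N) K) {h : ℕ}
    (f : Fin h → K) (c : ℕ) :
    IsOpen[zariski k n] {t | finrank k (Pair.rel f (fam (x := x) m Psi t)) ≤ c} := by
  have : FiniteDimensional k (SemiAux.big k x m N).H0 :=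
    Pair.finite_H0 _ (Pair.isBundle_twist _ (Pair.isBundle_triv _) m)
  have : FiniteDimensional k (Pair.rel f (SemiAux.big k x m N)) := by
    let φ : (Pair.rel f (SemiAux.big k x m N)) →ₗ[k] (Fin h → (SemiAux.big k x m N).H0) :=
      LinearMap.pi fun i => LinearMap.codRestrict _
        ((LinearMap.proj i) ∘ₗ (Submodule.subtype _)) (fun s => s.2.1 i)
    refine FiniteDimensional.of_injective φ ?_
    intro s t hst
    apply Subtype.ext
    funext i
    exact congrArg Subtype.val (congrFun hst i)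
  have key : ∀ t : Fin n → k, finrank k (Pair.rel f (fam (x := x) m Psi t)) =
      finrank k (LinearMap.ker (0 + ∑ j, t j • SemiAux.actT (k := k) (x := x) m Psi f j)) := by
    intro t
    refine LinearEquiv.finrank_eq ?_
    refine LinearEquiv.ofBijective
      (f := LinearMap.codRestrict _ (LinearMap.codRestrict (Pair.rel f (SemiAux.big k x m N))
        ((LinearMap.pi fun i =>
          ((LinearMap.ker (Matrix.toLin' (∑ j, algebraMap k K (t j) • Psi j))).subtype.restrictScalars
          k) ∘ₗ (LinearMap.proj i)) ∘ₗ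
          (Submodule.subtype (Pair.rel f (fam (x := x) m Psi t)))) ?_) ?_) ⟨?_, ?_⟩
    · rintro ⟨s, hs⟩
      refine ⟨fun i => hs.1 i, ?_⟩
      have := congrArg Subtype.val hs.2
      rw [AddSubmonoidClass.coe_finsetSum] at this
      exact this
    · rintro ⟨s, hs⟩
      rw [SemiAux.actT_ker]
      exact fun i => (s i).2
    · intro v w hvw
      apply Subtype.ext
      funext i
      apply Subtype.ext
      exact congrFun (congrArg (fun z => ((z : (Pair.rel f (SemiAux.big k x m N))) :
        Fin h → Fin N → K)) (congrArg Subtype.val hvw)) i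
    · rintro ⟨v, hv⟩
      rw [SemiAux.actT_ker] at hv
      refine ⟨⟨fun i => ⟨(v : Fin h → Fin N → K) i, hv i⟩, fun i => v.2.1 i, ?_⟩, rfl⟩
      apply Subtype.ext
      rw [AddSubmonoidClass.coe_finsetSum]
      exact v.2.2
  have := isOpen_ker (0 : (Pair.rel f (SemiAux.big k x m N)) →ₗ[k] (Fin h → Fin M → K))
    (SemiAux.actT (k := k) (x := x) m Psi f) c
  simpa only [key] using this

end Pool.Agent.MP_b814b1_ag
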